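import Pool.Agent.Work.MP_66aaa3_co.R3C

/-! The finite facts read on positions of the path. -/

namespace Pool.Agent.Work.MP_66aaa3_co.R3

open Finset

variable {V : Type} [DecidableEq V] {G : SimpleGraph V} {U Z : Finset V} {α β : ℕ} {p : ℕ → V}
  {T : ℕ} {v : V} {q : R4} {i j l w w' : ℕ}

/-- residues of the four positions -/
def rs (c : ℕ) (q : R4) : R4 := ⟨(c + q.a) % 6, (c + q.b) % 6, (c + q.c) % 6, (c + q.d) % 6⟩

/-- the slot of a position -/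
def sl (q : R4) (i : ℕ) : ℕ :=
  if i < q.a then 0 else if i = q.a then 1 else if i < q.b then 2 else if i = q.b then 3 else
  if i < q.c then 4 else if i = q.c then 5 else if i < q.d then 6 else if i = q.d then 7 else 8

lemma m6 (a : ℕ) : a % 6 < 6 := Nat.mod_lt _ (by omega)

lemma All.app {P : R4 → Prop} (h : All P) {c : ℕ} (hp : pat 2 (rs c q)) : P (rs c q) :=
  h _ (m6 _) _ (m6 _) _ (m6 _) _ (m6 _) hp

lemma All0.app {P : R4 → Prop} (h : All0 P) (hp : pat 2 (rs (5 * q.a) q)) :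
    P (rs (5 * q.a) q) := by
  have e : (5 * q.a + q.a) % 6 = 0 := by omega
  unfold rs at hp ⊢
  rw [e] at hp ⊢
  exact h _ (m6 _) _ (m6 _) _ (m6 _) hp

lemma sl_cases (q : R4) (i : ℕ) : (sl q i = 0 ∧ i < q.a) ∨ (sl q i = 1 ∧ i = q.a) ∨
    (sl q i = 2 ∧ q.a < i ∧ i < q.b) ∨ (sl q i = 3 ∧ i = q.b) ∨ (sl q i = 4 ∧ q.b < i ∧ i < q.c) ∨
    (sl q i = 5 ∧ i = q.c) ∨ (sl q i = 6 ∧ q.c < i ∧ i < q.d) ∨ (sl q i = 7 ∧ i = q.d) ∨
    (sl q i = 8 ∧ q.d < i) := by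
  unfold sl
  by_cases h0 : i < q.a
  · exact Or.inl ⟨if_pos h0, h0⟩
  rw [if_neg h0]
  refine Or.inr ?_
  by_cases h1 : i = q.a
  · exact Or.inl ⟨if_pos h1, h1⟩
  rw [if_neg h1]
  refine Or.inr ?_
  by_cases h2 : i < q.b
  · exact Or.inl ⟨if_pos h2, lt_of_le_of_ne (not_lt.1 h0) (Ne.symm h1), h2⟩
  rw [if_neg h2]
  refine Or.inr ?_
  by_cases h3 : i = q.b
  · exact Or.inl ⟨if_pos h3, h3⟩
  rw [if_neg h3]
  refine Or.inr ?_
  by_cases h4 : i < q.c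
  · exact Or.inl ⟨if_pos h4, lt_of_le_of_ne (not_lt.1 h2) (Ne.symm h3), h4⟩
  rw [if_neg h4]
  refine Or.inr ?_
  by_cases h5 : i = q.c
  · exact Or.inl ⟨if_pos h5, h5⟩
  rw [if_neg h5]
  refine Or.inr ?_
  by_cases h6 : i < q.d
  · exact Or.inl ⟨if_pos h6, lt_of_le_of_ne (not_lt.1 h4) (Ne.symm h5), h6⟩
  rw [if_neg h6]
  refine Or.inr ?_
  by_cases h7 : i = q.d
  · exact Or.inl ⟨if_pos h7, h7⟩
  rw [if_neg h7]
  refine Or.inr ?_
  exact ⟨rfl, lt_of_le_of_ne (not_lt.1 h6) (Ne.symm h7)⟩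

lemma ar_six {α β T i j n : ℕ} (c : ℕ) (hN : (α + T + β) % 6 = 2) (hj : j ≤ T) :
    (α + (Nat.dist 0 i + n + Nat.dist j T) + β) % 6 =
      (n % 6 + (c + i) % 6 + 8 - (c + j) % 6) % 6 := by
  rw [Nat.dist_zero_left, Nat.dist_eq_sub_of_le hj]
  omega

lemma ar_odd {T a x : ℕ} (hT : T % 6 = 2) (hx : x ≤ T)
    (h : ((0 + a) % 6 + (0 + x) % 6) % 2 = 1) : (a + 2 + (T - x)) % 2 = 1 := by
  omega

lemma ar_ne {T a x y : ℕ} (hx : x ≤ T) (hy : y ≤ T) (h : (0 + x) % 6 ≠ (0 + y) % 6) :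
    (a + 2 + (T - x)) % 6 ≠ (a + 2 + (T - y)) % 6 := by
  omega

/-- four neighbours in increasing order -/
structure Nb4 (G : SimpleGraph V) (p : ℕ → V) (T : ℕ) (v : V) (q : R4) : Prop where
  l1 : q.a < q.b
  l2 : q.b < q.c
  l3 : q.c < q.d
  l4 : q.d ≤ T
  aa : G.Adj v (p q.a)
  ab : G.Adj v (p q.b)
  ac : G.Adj v (p q.c)
  ad : G.Adj v (p q.d)

lemma Hy.pat_of (H : Hy G U Z α β p T v) (N : Nb4 G p T v q) (c : ℕ) :
    pat ((α + T + β) % 6) (rs c q) := by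
  obtain ⟨l1, l2, l3, l4, aa, ab, ac, ad⟩ := N
  exact ⟨H.pr_of c l1 (by omega) aa ab, H.pr_of c (by omega) (by omega) aa ac,
    H.pr_of c l2 (by omega) ab ac, H.pr_of c (by omega) l4 aa ad, H.pr_of c (by omega) l4 ab ad,
    H.pr_of c l3 l4 ac ad⟩

lemma Hy.hN (H : Hy G U Z α β p T v) (N : Nb4 G p T v q) : (α + T + β) % 6 = 2 := by
  refine P0 _ (m6 _) ?_ _ (m6 _) _ (m6 _) _ (m6 _) _ (m6 _) (H.pat_of N 0)
  have := H.h1 T (H.hp.pathIn fun i hi => H.pU (mem_pv.2 ⟨i, hi, rfl⟩))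
  unfold ok at *
  omega

lemma Hy.exists_q (H : Hy G U Z α β p T v) (h : 4 ≤ (np G p T v).card) :
    ∃ q, Nb4 G p T v q ∧ ∀ i ≤ T, G.Adj v (p i) → i = q.a ∨ i = q.b ∨ i = q.c ∨ i = q.d := by
  have h5 : ¬ 5 ≤ (np G p T v).card := fun h5 => by
    let e := (np G p T v).orderEmbOfCardLe h5
    have he := fun i => mem_np.1 ((np G p T v).orderEmbOfCardLe_mem h5 i)
    have N : Nb4 G p T v ⟨e 0, e 1, e 2, e 3⟩ := ⟨e.strictMono (by decide), e.strictMono (by decide),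
      e.strictMono (by decide), (he 3).1, (he 0).2, (he 1).2, (he 2).2, (he 3).2⟩
    have hp := fun (i : Fin 5) (hi : i < 4) =>
      H.pr_of 0 (e.strictMono hi) (he 4).1 (he i).2 (he 4).2
    have h2 := H.pat_of N 0
    rw [H.hN N] at hp h2
    exact P5.app h2 _ (m6 _) (hp 0 (by decide)) (hp 1 (by decide)) (hp 2 (by decide))
      (hp 3 (by decide))
  let e := (np G p T v).orderEmbOfCardLe h
  have he := fun i => (np G p T v).orderEmbOfCardLe_mem h i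
  refine ⟨⟨e 0, e 1, e 2, e 3⟩, ⟨e.strictMono (by decide), e.strictMono (by decide),
    e.strictMono (by decide), (mem_np.1 (he 3)).1, (mem_np.1 (he 0)).2, (mem_np.1 (he 1)).2,
    (mem_np.1 (he 2)).2, (mem_np.1 (he 3)).2⟩, fun i hi a => ?_⟩
  have h1 : univ.image e = np G p T v := eq_of_subset_of_card_le
    (fun x hx => by obtain ⟨t, -, rfl⟩ := mem_image.1 hx; exact he t)
    (by rw [card_image_of_injective _ e.injective]; simp; omega)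
  have h2 : i ∈ univ.image e := h1 ▸ mem_np.2 ⟨hi, a⟩
  obtain ⟨t, -, rfl⟩ := mem_image.1 h2
  fin_cases t <;> simp

omit [DecidableEq V] in
lemma Nb4.sl_spec (N : Nb4 G p T v q) (i : ℕ) : sl q i < 9 ∧ (sl q i ≤ 0 ↔ i < q.a) ∧
    (sl q i ≤ 1 ↔ i ≤ q.a) ∧ (sl q i ≤ 2 ↔ i < q.b) ∧ (sl q i ≤ 3 ↔ i ≤ q.b) ∧
    (sl q i ≤ 4 ↔ i < q.c) ∧ (sl q i ≤ 5 ↔ i ≤ q.c) ∧ (sl q i ≤ 6 ↔ i < q.d) ∧
    (sl q i ≤ 7 ↔ i ≤ q.d) := by
  have := N.l1; have := N.l2; have := N.l3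
  have hi := sl_cases q i
  generalize sl q i = x at hi ⊢
  rcases hi with hi | hi | hi | hi | hi | hi | hi | hi | hi <;> omega

omit [DecidableEq V] in
lemma Nb4.cons_of (N : Nb4 G p T v q) (c i : ℕ) : cons (rs c q) (sl q i) ((c + i) % 6) := by
  have hi := sl_cases q i
  have _ := N.l1
  refine ⟨fun e => ?_, fun e => ?_, fun e => ?_, fun e => ?_⟩
  · rw [show i = q.a by omega]; rfl
  · rw [show i = q.b by omega]; rfl
  · rw [show i = q.c by omega]; rfl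
  · rw [show i = q.d by omega]; rfl

omit [DecidableEq V] in
lemma Nb4.ord_of (N : Nb4 G p T v q) (h : i < j) : ord (sl q i) (sl q j) := by
  have := N.l1; have := N.l2; have := N.l3
  have hi := sl_cases q i
  have hj := sl_cases q j
  unfold ord
  generalize sl q i = x at hi ⊢
  generalize sl q j = y at hj ⊢
  rcases hi with hi | hi | hi | hi | hi | hi | hi | hi | hi <;> omega

/-- an ear avoiding the extra vertex -/
def Ear (G : SimpleGraph V) (U : Finset V) (p : ℕ → V) (T : ℕ) (v : V) (i j w : ℕ) : Prop :=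
  ∃ E n, Pa G p T {i, j} E (p i) (p j) n ∧ E ⊆ U ∧ v ∉ E ∧ 3 ≤ n + Nat.dist j i ∧ n % 6 = w

/-- a path from a position to the extra terminal -/
def Hang (G : SimpleGraph V) (U Z : Finset V) (p : ℕ → V) (T : ℕ) (v : V) (i w : ℕ) : Prop :=
  ∃ z ∈ Z, ∃ E n, Pa G p T {i} E (p i) z n ∧ E ⊆ insert z ↑U ∧ v ∉ E ∧ n % 6 = w

omit [DecidableEq V] in
lemma Ear.symm (h : Ear G U p T v i j w) : Ear G U p T v j i w := by
  obtain ⟨E, n, h1, h2, h3, h4, h5⟩ := h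
  exact ⟨E, n, Set.pair_comm i j ▸ h1.symm, h2, h3, Nat.dist_comm j i ▸ h4, h5⟩

omit [DecidableEq V] in
lemma Ear.lt (h : Ear G U p T v i j w) : w < 6 := by
  obtain ⟨E, n, -, -, -, -, rfl⟩ := h; exact m6 _

omit [DecidableEq V] in
lemma Hang.lt (h : Hang G U Z p T v i w) : w < 6 := by
  obtain ⟨z, -, E, n, -, -, -, rfl⟩ := h; exact m6 _

namespace Hy

lemma feas_of (H : Hy G U Z α β p T v) (N : Nb4 G p T v q) (c : ℕ) (hij : i < j) (hj : j ≤ T)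
    (h : Ear G U p T v i j w) :
    feas (rs c q) (sl q i) ((c + i) % 6) (sl q j) ((c + j) % 6) w := by
  obtain ⟨E, n, he, hE, hv, h3, rfl⟩ := h
  have hN := H.hN N
  obtain ⟨-, b0, b1, b2, b3, b4, b5, b6, b7⟩ := N.sl_spec i
  obtain ⟨-, c0, c1, c2, c3, c4, c5, c6, c7⟩ := N.sl_spec j
  obtain ⟨l1, l2, l3, l4, aa, ab, ac, ad⟩ := N
  have lb := (l2.trans l3).le.trans l4
  have lc := l3.le.trans l4
  refine ⟨?_, ?_, H.fe2_of hN c hij hj he hE hv l1 lb aa ab b0 b1 b2 b3 c1 c2 c3,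
    H.fe2_of hN c hij hj he hE hv (l1.trans l2) lc aa ac b0 b1 b4 b5 c1 c4 c5,
    H.fe2_of hN c hij hj he hE hv ((l1.trans l2).trans l3) l4 aa ad b0 b1 b6 b7 c1 c6 c7,
    H.fe2_of hN c hij hj he hE hv l2 lc ab ac b2 b3 b4 b5 c3 c4 c5,
    H.fe2_of hN c hij hj he hE hv (l2.trans l3) l4 ab ad b2 b3 b6 b7 c3 c6 c7,
    H.fe2_of hN c hij hj he hE hv l3 l4 ac ad b4 b5 b6 b7 c5 c6 c7⟩
  · exact ok_mod (H.e1 hij hj he hE) (ar_six c hN hj)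
  · have := H.e2 hij hj he h3
    clear b0 b1 b2 b3 b4 b5 b6 b7 c0 c1 c2 c3 c4 c5 c6 c7
    unfold Nat.dist at *
    omega

lemma hang_of (H : Hy G U Z α β p T v) (N : Nb4 G p T v q) (h0 : 0 < i) (hi : i < T)
    (h : Hang G U Z p T v i w) : hang (rs 0 q) (sl q i) ((0 + i) % 6) w := by
  obtain ⟨z, hz, E, n, he, hE, hv, rfl⟩ := h
  have hN := H.hN N
  obtain ⟨rfl, rfl⟩ := H.ab ⟨z, hz⟩
  simp only [Nat.zero_add, Nat.add_zero] at hN
  obtain ⟨-, b0, b1, b2, b3, b4, b5, b6, b7⟩ := N.sl_spec i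
  obtain ⟨l1, l2, l3, l4, aa, ab, ac, ad⟩ := N
  have lb := (l2.trans l3).le.trans l4
  have lc := l3.le.trans l4
  simp only [hang, rs, Nat.zero_add]
  refine ⟨?_, ?_, H.ha2_of hN hz h0 hi he hE hv l1 lb aa ab b1 b2 b3 ?_ ?_,
    H.ha2_of hN hz h0 hi he hE hv (l1.trans l2) lc aa ac b1 b4 b5 ?_ ?_,
    H.ha2_of hN hz h0 hi he hE hv ((l1.trans l2).trans l3) l4 aa ad b1 b6 b7 ?_ ?_,
    H.ha2_of hN hz h0 hi he hE hv l2 lc ab ac b3 b4 b5 ?_ ?_,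
    H.ha2_of hN hz h0 hi he hE hv (l2.trans l3) l4 ab ad b3 b6 b7 ?_ ?_,
    H.ha2_of hN hz h0 hi he hE hv l3 l4 ac ad b5 b6 b7 ?_ ?_⟩
  · have := H.g1 hz hi he hE
    clear b0 b1 b2 b3 b4 b5 b6 b7
    unfold ok Nat.dist at *
    omega
  · have := H.g2 hz h0 hi he hE
    clear b0 b1 b2 b3 b4 b5 b6 b7
    unfold ok Nat.dist at *
    omega
  all_goals (clear b0 b2 b3 b4 b5 b7; omega)

lemma pat2 (H : Hy G U Z α β p T v) (N : Nb4 G p T v q) (c : ℕ) : pat 2 (rs c q) :=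
  H.hN N ▸ H.pat_of N c

lemma pf1 (H : Hy G U Z α β p T v) (N : Nb4 G p T v q) (hij : i < j) (hj : j ≤ T)
    (h : Ear G U p T v i j w) (h' : Ear G U p T v i j w') (hw : w ≠ w') :
    i ≤ q.a ∧ q.d ≤ j ∧ ((j - i) % 6 = w ∨ (j - i) % 6 = w') := by
  wlog hlt : w' < w generalizing w w'
  · have := this h' h hw.symm (by omega); tauto
  obtain ⟨b9, -, b1, -⟩ := N.sl_spec i
  obtain ⟨c9, -, -, -, -, -, -, c6, -⟩ := N.sl_spec j
  have := F1.app (H.pat2 N _) _ b9 _ c9 (N.ord_of hij) _ (m6 _) (N.cons_of _ i) _ (m6 _)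
    (N.cons_of _ j) w h.lt (H.feas_of N _ hij hj h) w' hlt (H.feas_of N _ hij hj h')
  have := h.lt
  omega

lemma pf2 (H : Hy G U Z α β p T v) (N : Nb4 G p T v q) (hij : i < j) (hj : j ≤ T)
    (h : Ear G U p T v i j 2) (hs : j ≤ q.a ∨ q.d ≤ i) : (j - i) % 6 = 2 := by
  obtain ⟨b9, -, -, -, -, -, -, b6, -⟩ := N.sl_spec i
  obtain ⟨c9, -, c1, -⟩ := N.sl_spec j
  have := (F3.app (H.pat2 N _) _ b9 _ c9 (N.ord_of hij) _ (m6 _) (N.cons_of _ i) _ (m6 _)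
    (N.cons_of _ j) (H.feas_of N _ hij hj h)).1 (by omega)
  omega

lemma pf3 (H : Hy G U Z α β p T v) (N : Nb4 G p T v q) (hij : i < j) (hjl : j < l) (hl : l ≤ T)
    (h : Ear G U p T v i j 2) (h' : Ear G U p T v i l 2) (h'' : Ear G U p T v j l 2) : False :=
  (F3.app (H.pat2 N _) _ (N.sl_spec i).1 _ (N.sl_spec j).1 (N.ord_of hij) _ (m6 _) (N.cons_of _ i)
    _ (m6 _) (N.cons_of _ j) (H.feas_of N _ hij (by omega) h)).2 _ (N.sl_spec l).1 (N.ord_of hjl)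
    _ (m6 _) (N.cons_of _ l) (H.feas_of N _ (hij.trans hjl) hl h') (H.feas_of N _ hjl hl h'')

lemma pf4 (H : Hy G U Z α β p T v) (N : Nb4 G p T v q) (h0 : 0 < i) (hi : i < T)
    (h : Hang G U Z p T v i w) (h' : Hang G U Z p T v i w') : w = w' :=
  F4.app (H.pat2 N 0) _ (N.sl_spec i).1 _ (m6 _) (N.cons_of _ i) w h.lt (H.hang_of N h0 hi h)
    w' h'.lt (H.hang_of N h0 hi h')

lemma pf5 (H : Hy G U Z α β p T v) (N : Nb4 G p T v q) (h0 : 0 < i) (hij : i < j) (hj : j < T)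
    (h : Hang G U Z p T v i 2) (h' : Hang G U Z p T v j 2) (h'' : Ear G U p T v i j 2) : False :=
  F5.app (H.pat2 N 0) _ (N.sl_spec i).1 _ (m6 _) (N.cons_of _ i) (H.hang_of N h0 (by omega) h)
    _ (N.sl_spec j).1 (N.ord_of hij) _ (m6 _) (N.cons_of _ j) (H.hang_of N (by omega) hj h')
    (H.feas_of N _ hij hj.le h'')

/-- two odd lengths of paths through the extra vertex -/
lemma two_odd (H : Hy G U Z α β p T v) (N : Nb4 G p T v q) (hT : T % 6 = 2) :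
    ∃ m m' I I', Pa G p T I {v} (p 0) (p T) m ∧ Pa G p T I' {v} (p 0) (p T) m' ∧ m % 2 = 1 ∧
      m' % 2 = 1 ∧ m % 6 ≠ m' % 6 := by
  have h1 := H.pat2 N 0
  have h2 := Podd.app h1
  obtain ⟨l1, l2, l3, l4, aa, ab, ac, ad⟩ := N
  have lb := (l2.trans l3).le.trans l4
  have lc := l3.le.trans l4
  obtain ⟨I1, p1⟩ := H.thru l1 lb aa ab
  obtain ⟨I2, p2⟩ := H.thru (l1.trans l2) lc aa ac
  obtain ⟨I3, p3⟩ := H.thru ((l1.trans l2).trans l3) l4 aa ad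
  obtain ⟨-, -, ⟨e1, -⟩, -, ⟨e2, -⟩, ⟨e3, -⟩⟩ := h1
  simp only [rs] at h2 e1 e2 e3
  rcases h2 with h2 | h2 | h2
  · exact ⟨_, _, _, _, p1, p2, ar_odd hT lb h2.1, ar_odd hT lc h2.2, ar_ne lb lc e1⟩
  · exact ⟨_, _, _, _, p1, p3, ar_odd hT lb h2.1, ar_odd hT l4 h2.2, ar_ne lb l4 e2⟩
  · exact ⟨_, _, _, _, p2, p3, ar_odd hT lc h2.1, ar_odd hT l4 h2.2, ar_ne lc l4 e3⟩

end Hy

end Pool.Agent.Work.MP_66aaa3_co.R3
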