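import Pool.Agent.Work.MP_66aaa3_co.Three
import Pool.Agent.Work.MP_66aaa3_co.R3D

/-! The case of further vertices off the path. -/

set_option synthInstance.maxSize 4096

namespace Pool.Agent.Work.MP_66aaa3_co.R3

open Finset

variable {V : Type} [DecidableEq V] {G : SimpleGraph V} {U Z C : Finset V} {α β : ℕ} {p : ℕ → V}
  {T : ℕ} {v s z : V} {q : R4} {i j l w w' w'' : ℕ}

/-- a set of vertices off the path, different from the extra vertex -/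
structure Off (U : Finset V) (p : ℕ → V) (T : ℕ) (v : V) (C : Finset V) : Prop where
  sub : C ⊆ U
  off : ∀ u ∈ C, ∀ i ≤ T, p i ≠ u
  nv : v ∉ C

namespace Hy

lemma earS (H : Hy G U Z α β p T v) (O : Off U p T v C) (hs : s ∈ C) (hi : i ≤ T) (hj : j ≤ T)
    (hij : i ≠ j) (a : G.Adj s (p i)) (a' : G.Adj s (p j)) : Ear G U p T v i j 2 :=
  ⟨_, _, Pa.via H.hp (O.off s hs) hi hj hij a a', by simpa using O.sub hs,
    fun e => O.nv (by rw [e]; exact hs), by unfold Nat.dist; omega, rfl⟩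

lemma vz (H : Hy G U Z α β p T v) (hz : z ∈ Z) : v ≠ z := fun e =>
  disjoint_left.1 H.zU H.vU (e ▸ hz)

lemma paL (H : Hy G U Z α β p T v) (O : Off U p T v C) (hz : z ∈ Z) (hi : i ≤ T) {n : ℕ}
    (h : PathIn G (↑C ∪ {p i, z}) (p i) z n) : Pa G p T {i} (insert z ↑C) (p i) z n := by
  refine ⟨h.mono ?_, by simpa using hi, ?_⟩
  · rintro x (e | rfl | rfl) <;> simp_all
  · rintro x (rfl | e)
    exacts [H.zP _ hz, O.off x e]

lemma hangL (H : Hy G U Z α β p T v) (O : Off U p T v C) (hz : z ∈ Z) (hi : i ≤ T) {n : ℕ}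
    (h : PathIn G (↑C ∪ {p i, z}) (p i) z n) : Hang G U Z p T v i (n % 6) :=
  ⟨z, hz, _, n, H.paL O hz hi h, Set.insert_subset_insert O.sub,
    by simp [H.vz hz, O.nv], rfl⟩

lemma hangS (H : Hy G U Z α β p T v) (O : Off U p T v C) (hs : s ∈ C) (hz : z ∈ Z) (hi : i ≤ T)
    (a : G.Adj s (p i)) (a' : G.Adj s z) : Hang G U Z p T v i 2 := by
  refine H.hangL O hz hi (n := 2) (((PathIn.single (S := {p i, s}) a.symm (by simp)
    (by simp)).snoc a' ?_).mono ?_)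
  · rintro (e | e)
    · exact H.zP z hz i hi e.symm
    · exact a'.ne e.symm
  · rintro x (rfl | rfl | rfl) <;> simp [hs]

omit [DecidableEq V] in
lemma _root_.Pool.Agent.Work.MP_66aaa3_co.R3.Off.earL (O : Off U p T v C) (hi : i ≤ T) (hj : j ≤ T)
    (hij : i ≠ j) {ω : ZMod (2 * 3)} (h : InL G (2 * 3) (↑C ∪ {p i, p j}) (p i) (p j) ω) :
    Ear G U p T v i j ω.val := by
  obtain ⟨n, h1, rfl, h2⟩ := h
  refine ⟨C, n, ⟨h2.mono ?_, ?_, O.off⟩, O.sub, O.nv, by unfold Nat.dist; omega,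
    (ZMod.val_natCast _ _).symm⟩
  · rw [Set.image_pair, Set.union_comm]
  · rintro t (rfl | rfl) <;> assumption

lemma no3 (H : Hy G U Z α β p T v) (N : Nb4 G p T v q) (O : Off U p T v C) (hs : s ∈ C)
    (hi : i ≤ T) (hj : j ≤ T) (hl : l ≤ T) (h1 : i ≠ j) (h2 : i ≠ l) (h3 : j ≠ l)
    (a : G.Adj s (p i)) (a' : G.Adj s (p j)) (a'' : G.Adj s (p l)) : False := by
  wlog h4 : i < j generalizing i j
  · exact this hj hi h1.symm h3 h2 a' a (by omega)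
  have e1 := H.earS O hs hi hj h1 a a'
  have e2 := H.earS O hs hi hl h2 a a''
  have e3 := H.earS O hs hj hl h3 a' a''
  rcases lt_or_gt_of_ne h3 with h5 | h5
  · exact H.pf3 N h4 h5 hl e1 e2 e3
  rcases lt_or_gt_of_ne h2 with h6 | h6
  · exact H.pf3 N h6 h5 hj e2 e1 e3.symm
  · exact H.pf3 N h6 h4 hj e2.symm e3.symm e1

lemma cr (H : Hy G U Z α β p T v) (N : Nb4 G p T v q) (hi : i ≤ T) (hj : j ≤ T) (hij : i ≠ j)
    (h : Ear G U p T v i j w) (h' : Ear G U p T v i j w') (hw : w ≠ w') :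
    ((i ≤ q.a ∧ q.d ≤ j) ∨ (j ≤ q.a ∧ q.d ≤ i)) ∧
      ((i - j + (j - i)) % 6 = w ∨ (i - j + (j - i)) % 6 = w') := by
  rcases lt_or_gt_of_ne hij with h1 | h1
  · have := H.pf1 N h1 hj h h' hw; omega
  · have := H.pf1 N h1 hi h.symm h'.symm hw; omega

lemma same (H : Hy G U Z α β p T v) (N : Nb4 G p T v q) (hi : i ≤ T) (hj : j ≤ T) (hij : i ≠ j)
    (h : Ear G U p T v i j 2) (hs : (i ≤ q.a ∧ j ≤ q.a) ∨ (q.d ≤ i ∧ q.d ≤ j)) :
    (i - j + (j - i)) % 6 = 2 := by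
  rcases lt_or_gt_of_ne hij with h1 | h1
  · have := H.pf2 N h1 hj h (by omega); omega
  · have := H.pf2 N h1 hi h.symm (by omega); omega

lemma no3w (H : Hy G U Z α β p T v) (N : Nb4 G p T v q) (hi : i ≤ T) (hj : j ≤ T) (hij : i ≠ j)
    (h : Ear G U p T v i j w) (h' : Ear G U p T v i j w') (h'' : Ear G U p T v i j w'')
    (h1 : w ≠ w') (h2 : w ≠ w'') (h3 : w' ≠ w'') : False := by
  have e1 := (H.cr N hi hj hij h h' h1).2
  have e2 := (H.cr N hi hj hij h h'' h2).2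
  have e3 := (H.cr N hi hj hij h' h'' h3).2
  omega

end Hy

lemma odd_aux {m m' n : ℕ} (o1 : m % 2 = 1) (o2 : m' % 2 = 1) (o3 : m % 6 ≠ m' % 6) (f1 : ok n)
    (f2 : (m + n) % 6 ≠ 0) (f3 : (m' + n) % 6 ≠ 0) : n % 6 = 2 ∨ n % 6 = (3 + m + m') % 6 := by
  have key : ∀ a < 6, ∀ b < 6, ∀ c < 6, a % 2 = 1 → b % 2 = 1 → a ≠ b → ok c → (a + c) % 6 ≠ 0 →
      (b + c) % 6 ≠ 0 → c = 2 ∨ c = (3 + a + b) % 6 := by decide +kernel
  have := key _ (m6 m) _ (m6 m') _ (m6 n) (by omega) (by omega) o3 (by unfold ok at *; omega)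
    (by omega) (by omega)
  omega

lemma three_two {a b c x y : ℕ} (h1 : a ≠ b) (h2 : a ≠ c) (h3 : b ≠ c) (ha : a = x ∨ a = y)
    (hb : b = x ∨ b = y) (hc : c = x ∨ c = y) : False := by
  omega

private lemma h14_ar {a b c d w w' : ℕ} (hab : a < b) (hbc : b < c) (hcd : c < d)
    (k1 : (a - b + (b - a)) % 6 = 2) (k2 : (c - d + (d - c)) % 6 = 2)
    (g1 : (c - b) % 6 = w ∨ (c - b) % 6 = w') (g2 : (c - a) % 6 = w ∨ (c - a) % 6 = w')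
    (g3 : (d - a) % 6 = w ∨ (d - a) % 6 = w') : False := by
  rw [Nat.sub_eq_zero_of_le hab.le, Nat.zero_add] at k1
  rw [Nat.sub_eq_zero_of_le hcd.le, Nat.zero_add] at k2
  have e1 : c - a = (c - b) + (b - a) := by omega
  have e2 : d - a = (c - b) + (b - a) + (d - c) := by omega
  rw [e2, Nat.add_mod, Nat.add_mod (c - b), k1, k2] at g3
  rw [e1, Nat.add_mod, k1] at g2
  have := Nat.mod_lt (c - b) (by norm_num : 0 < 6)
  generalize (c - b) % 6 = r at g1 g2 g3 this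
  clear * - g1 g2 g3 this
  interval_cases r <;> omega

private lemma h14_ar2 {a b c d x y w w' : ℕ} (hxy : x < y) (hab : a ≠ b) (hcd : c ≠ d)
    (ha : a ≤ x) (hb : b ≤ x) (hc : y ≤ c) (hd : y ≤ d)
    (k1 : (a - b + (b - a)) % 6 = 2) (k2 : (c - d + (d - c)) % 6 = 2)
    (g1 : (c - a) % 6 = w ∨ (c - a) % 6 = w') (g2 : (d - a) % 6 = w ∨ (d - a) % 6 = w')
    (g3 : (c - b) % 6 = w ∨ (c - b) % 6 = w') (g4 : (d - b) % 6 = w ∨ (d - b) % 6 = w') :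
    False := by
  have k1' := (Nat.add_comm _ _ ▸ k1 : (b - a + (a - b)) % 6 = 2)
  have k2' := (Nat.add_comm _ _ ▸ k2 : (d - c + (c - d)) % 6 = 2)
  rcases lt_or_gt_of_ne hab with p | p <;> rcases lt_or_gt_of_ne hcd with q | q
  · exact h14_ar p ((hb.trans_lt hxy).trans_le hc) q k1 k2 g3 g1 g2
  · exact h14_ar p ((hb.trans_lt hxy).trans_le hd) q k1 k2' g4 g2 g1
  · exact h14_ar p ((ha.trans_lt hxy).trans_le hc) q k1' k2 g1 g3 g4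
  · exact h14_ar p ((ha.trans_lt hxy).trans_le hd) q k1' k2' g2 g4 g3

lemma final_arith {a b c d x y w w' : ℕ} (hxy : x < y) (hab : a ≠ b) (hcd : c ≠ d)
    (hne : ¬ ((a = c ∧ b = d) ∨ (a = d ∧ b = c)))
    (h : ∀ i, i = a ∨ i = b → ∀ j, j = c ∨ j = d → i ≠ j → ((i ≤ x ∧ y ≤ j) ∨ (j ≤ x ∧ y ≤ i)) ∧
      ((i - j + (j - i)) % 6 = w ∨ (i - j + (j - i)) % 6 = w'))
    (h1 : (a ≤ x ∧ b ≤ x) ∨ (y ≤ a ∧ y ≤ b) → (a - b + (b - a)) % 6 = 2)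
    (h2 : (c ≤ x ∧ d ≤ x) ∨ (y ≤ c ∧ y ≤ d) → (c - d + (d - c)) % 6 = 2) : False := by
  have e1 := h a (Or.inl rfl) c (Or.inl rfl)
  have e2 := h a (Or.inl rfl) d (Or.inr rfl)
  have e3 := h b (Or.inr rfl) c (Or.inl rfl)
  have e4 := h b (Or.inr rfl) d (Or.inr rfl)
  clear h
  have n1 : a ≠ c := fun e => by
    have := fun h => (e2 h).1; have := fun h => (e3 h).1; have := fun h => (e4 h).1
    clear e1 e2 e3 e4 h1 h2; omega
  have n2 : a ≠ d := fun e => by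
    have := fun h => (e1 h).1; have := fun h => (e3 h).1; have := fun h => (e4 h).1
    clear e1 e2 e3 e4 h1 h2; omega
  have n3 : b ≠ c := fun e => by
    have := fun h => (e1 h).1; have := fun h => (e2 h).1; have := fun h => (e4 h).1
    clear e1 e2 e3 e4 h1 h2; omega
  have n4 : b ≠ d := fun e => by
    have := fun h => (e1 h).1; have := fun h => (e2 h).1; have := fun h => (e3 h).1
    clear e1 e2 e3 e4 h1 h2; omega
  obtain ⟨f1, g1⟩ := e1 n1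
  obtain ⟨f2, g2⟩ := e2 n2
  obtain ⟨f3, g3⟩ := e3 n3
  obtain ⟨f4, g4⟩ := e4 n4
  clear e1 e2 e3 e4 hne n1 n2 n3 n4
  rcases f1 with f1 | f1
  · have k3 : b ≤ x ∧ y ≤ d := by clear * - hxy f1 f2 f3; omega
    have k1 := h1 (Or.inl ⟨f1.1, k3.1⟩)
    have k2 := h2 (Or.inr ⟨f1.2, k3.2⟩)
    clear h1 h2 f2 f3 f4
    rw [Nat.sub_eq_zero_of_le (by clear * - hxy f1 k3; omega), Nat.zero_add] at g1 g2 g3 g4
    exact h14_ar2 hxy hab hcd f1.1 k3.1 f1.2 k3.2 k1 k2 g1 g2 g3 g4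
  · have k3 : d ≤ x ∧ y ≤ b := by clear * - hxy f1 f2 f3; omega
    have k1 := h1 (Or.inr ⟨f1.2, k3.2⟩)
    have k2 := h2 (Or.inl ⟨f1.1, k3.1⟩)
    clear h1 h2 f2 f3 f4
    rw [Nat.add_comm, Nat.sub_eq_zero_of_le (by clear * - hxy f1 k3; omega), Nat.zero_add]
      at g1 g2 g3 g4
    exact h14_ar2 hxy hcd hab f1.1 k3.1 f1.2 k3.2 k2 k1 g1 g3 g2 g4

namespace Hy

lemma deg_le (H : Hy G U Z α β p T v) (N : Nb4 G p T v q) (O : Off U p T v C) (hZ : Z.card ≤ 1)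
    (h6 : ∀ z ∈ Z, ∀ s ∈ C, ¬ (G.Adj s (p 0) ∧ G.Adj s z) ∧ ¬ (G.Adj s (p T) ∧ G.Adj s z))
    (hs : s ∈ C) : deg G (pv p T ∪ Z) s ≤ 2 := by
  have key : ∀ i ≤ T, ∀ j ≤ T, p i ≠ p j → ∀ z ∈ Z, G.Adj s (p i) → G.Adj s (p j) → G.Adj s z →
      False := by
    intro i hi j hj hij z hz a a' a''
    have h0 : ∀ t ≤ T, G.Adj s (p t) → 0 < t ∧ t < T := fun t ht b =>
      ⟨Nat.pos_of_ne_zero fun e => (h6 z hz s hs).1 ⟨e ▸ b, a''⟩,
        lt_of_le_of_ne ht fun e => (h6 z hz s hs).2 ⟨e ▸ b, a''⟩⟩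
    have hij' : i ≠ j := fun e => hij (by rw [e])
    have e1 := H.earS O hs hi hj hij' a a'
    have e2 := H.hangS O hs hz hi a a''
    have e3 := H.hangS O hs hz hj a' a''
    rcases lt_or_gt_of_ne hij' with h1 | h1
    · exact H.pf5 N (h0 i hi a).1 h1 (h0 j hj a').2 e2 e3 e1
    · exact H.pf5 N (h0 j hj a').1 h1 (h0 i hi a).2 e3 e2 e1.symm
  by_contra hc
  obtain ⟨a, b, c, ha, hb, hc, h1, h2, h3⟩ := two_lt_card_iff.1 (not_le.1 hc)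
  simp only [mem_nb, mem_union, mem_pv] at ha hb hc
  have hz := card_le_one.1 hZ
  obtain ⟨⟨i, hi, rfl⟩ | ha, a1⟩ := ha <;> obtain ⟨⟨j, hj, rfl⟩ | hb, a2⟩ := hb <;>
    obtain ⟨⟨l, hl, rfl⟩ | hc, a3⟩ := hc
  · exact H.no3 N O hs hi hj hl (fun e => h1 (by rw [e])) (fun e => h2 (by rw [e]))
      (fun e => h3 (by rw [e])) a1 a2 a3
  · exact key i hi j hj h1 c hc a1 a2 a3
  · exact key i hi l hl h2 b hb a1 a3 a2
  · exact h3 (hz _ hb _ hc)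
  · exact key j hj l hl h3 a ha a2 a3 a1
  · exact h2 (hz _ ha _ hc)
  · exact h1 (hz _ ha _ hb)
  · exact h1 (hz _ ha _ hb)

/-- no cross pair ends in the extra terminal -/
lemma no_z (H : Hy G U Z α β p T v) (N : Nb4 G p T v q) (O : Off U p T v C) (hZ : Z.card ≤ 1)
    (h3 : ∀ z ∈ Z, ∀ n, PathIn G ↑(U ∪ {p 0, p T, z}) (p 0) z n ∨
      PathIn G ↑(U ∪ {p 0, p T, z}) (p T) z n → n % 6 ≠ 0)
    (h6 : ∀ z ∈ Z, ∀ s ∈ C, ¬ (G.Adj s (p 0) ∧ G.Adj s z) ∧ ¬ (G.Adj s (p T) ∧ G.Adj s z))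
    (h7 : ∀ z ∈ Z, ∀ s ∈ C, ¬ (G.Adj s (p 0) ∧ G.Adj s (p T))) (hs : s ∈ C) (hz : z ∈ Z)
    {Ω : Finset (ZMod (2 * 3))} (hΩ : 4 ≤ Ω.card + deg G (pv p T ∪ Z) s)
    (hc : ∀ ω ∈ Ω, ∀ t ≤ T, G.Adj s (p t) → InL G (2 * 3) (↑C ∪ {p t, z}) (p t) z ω)
    (hi : i ≤ T) (a : G.Adj s (p i)) : False := by
  have hd := H.deg_le N O hZ h6 hs
  have h0 : ∀ t ≤ T, G.Adj s (p t) → t = 0 ∨ t = T := fun t ht b => by
    by_contra hn
    obtain ⟨ω, hω, ω', hω', hne⟩ := one_lt_card.1 (show 1 < Ω.card by omega)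
    obtain ⟨n, -, rfl, e⟩ := hc ω hω t ht b
    obtain ⟨n', -, rfl, e'⟩ := hc ω' hω' t ht b
    exact hne (cast_eq.2 (H.pf4 N (by omega) (by omega) (H.hangL O hz ht e) (H.hangL O hz ht e')))
  have h1 : deg G (pv p T ∪ Z) s ≤ ({p i} : Finset V).card := deg_le_card' fun x hx b => by
    rw [mem_singleton]
    rcases mem_union.1 hx with e | e
    · obtain ⟨t, ht, rfl⟩ := mem_pv.1 e
      rcases h0 t ht b with rfl | rfl <;> rcases h0 i hi a with rfl | rfl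
      exacts [rfl, absurd ⟨b, a⟩ (h7 z hz s hs), absurd ⟨a, b⟩ (h7 z hz s hs), rfl]
    · rcases h0 i hi a with rfl | rfl
      exacts [absurd ⟨a, b⟩ (h6 x e s hs).1, absurd ⟨a, b⟩ (h6 x e s hs).2]
  rw [card_singleton] at h1
  have hN := H.hN N
  obtain ⟨e1, e2⟩ := H.ab ⟨z, hz⟩
  obtain ⟨m, m', I, I', p1, p2, o1, o2, o3⟩ := H.two_odd N (by omega)
  have hT : 0 < T := by have := N.l1; have := N.l2; have := N.l3; have := N.l4; omega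
  have sub : ∀ {J : Set ℕ} {x : V} {n : ℕ}, Pa G p T J ({v} ∪ insert z ↑C) x z n →
      PathIn G ↑(U ∪ {p 0, p T, z}) x z n := fun {J x n} h => h.1.mono (by
    rintro x (⟨t, ht, rfl⟩ | rfl | rfl | e)
    · rcases H.mem (h.2.1 t ht) with e | rfl | rfl <;> simp [*]
    · simp [H.vU]
    · simp
    · simp [O.sub e])
  have dj : Disjoint ({v} : Set V) (insert z ↑C) := by simp [H.vz hz, O.nv]
  have key : ∀ ω ∈ Ω, ∃ n : ℕ, (n : ZMod (2 * 3)) = ω ∧ ok n ∧ (m + n) % 6 ≠ 0 ∧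
      (m' + n) % 6 ≠ 0 := fun ω hω => by
    obtain ⟨n, -, e, h⟩ := hc ω hω i hi a
    have h' := H.paL O hz hi h
    have hE : (insert z ↑C : Set V) ⊆ insert z ↑U := Set.insert_subset_insert O.sub
    refine ⟨n, e, ?_⟩
    rcases h0 i hi a with rfl | rfl
    · exact ⟨H.left hz h' hT.ne' hE, h3 z hz _ (Or.inr (sub (p1.symm.trans H.hp h' (by simp) dj))),
        h3 z hz _ (Or.inr (sub (p2.symm.trans H.hp h' (by simp) dj)))⟩
    · exact ⟨H.right hz h' hT.ne hE, h3 z hz _ (Or.inl (sub (p1.trans H.hp h' (by simp) dj))),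
        h3 z hz _ (Or.inl (sub (p2.trans H.hp h' (by simp) dj)))⟩
  obtain ⟨ω, ω', ω'', k1, k2, k3, d1, d2, d3⟩ := two_lt_card_iff.1 (show 2 < Ω.card by omega)
  obtain ⟨n, rfl, f1, f2, f3⟩ := key ω k1
  obtain ⟨n', rfl, g1, g2, g3⟩ := key ω' k2
  obtain ⟨n'', rfl, i1, i2, i3⟩ := key ω'' k3
  rw [Ne, cast_eq] at d1 d2 d3
  exact three_two d1 d2 d3 (odd_aux o1 o2 o3 f1 f2 f3) (odd_aux o1 o2 o3 g1 g2 g3)
    (odd_aux o1 o2 o3 i1 i2 i3)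

theorem caseC (H : Hy G U Z α β p T v) (N : Nb4 G p T v q) (O : Off U p T v C) (hZ : Z.card ≤ 1)
    (h3 : ∀ z ∈ Z, ∀ n, PathIn G ↑(U ∪ {p 0, p T, z}) (p 0) z n ∨
      PathIn G ↑(U ∪ {p 0, p T, z}) (p T) z n → n % 6 ≠ 0)
    (h6 : ∀ z ∈ Z, ∀ s ∈ C, ¬ (G.Adj s (p 0) ∧ G.Adj s z) ∧ ¬ (G.Adj s (p T) ∧ G.Adj s z))
    (h7 : ∀ z ∈ Z, ∀ s ∈ C, ¬ (G.Adj s (p 0) ∧ G.Adj s (p T))) (hC : C.Nonempty)
    (hdg : Dg G C (C ∪ (pv p T ∪ Z)) (3 + 1)) (hat : Att2 G C (C ∪ (pv p T ∪ Z))) : False := by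
  have hd : Disjoint C (pv p T ∪ Z) := disjoint_left.2 fun u hu e => by
    rcases mem_union.1 e with e | e
    · obtain ⟨t, ht, e⟩ := mem_pv.1 e
      exact O.off u hu t ht e
    · exact disjoint_left.1 H.zU (O.sub hu) e
  rcases cfg le_rfl H.nb hC hd hdg hat with ⟨s, hs, h⟩ |
    ⟨s, hs, s', hs', Ω, d1, d2, d3, hc, hcom, x, hx, x', hx', hxx⟩
  · have := H.deg_le N O hZ h6 hs; omega
  have d4 := H.deg_le N O hZ h6 hs'
  have mp : ∀ {u : V} {t : ℕ}, t ≤ T → G.Adj u (p t) → p t ∈ MP_66aaa3_co.nb G (pv p T ∪ Z) u := fun ht a =>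
    mem_nb.2 ⟨mem_union_left _ (mem_pv.2 ⟨_, ht, rfl⟩), a⟩
  have z1 : ∀ z ∈ Z, z ∈ MP_66aaa3_co.nb G (pv p T ∪ Z) s → ∀ y ∈ MP_66aaa3_co.nb G (pv p T ∪ Z) s', y ∈ Z := by
    intro z hz hzs y hy
    rcases mem_union.1 (mem_nb.1 hy).1 with e | e
    · obtain ⟨t, ht, rfl⟩ := mem_pv.1 e
      exact (H.no_z N O hZ h3 h6 h7 hs' hz (Ω := Ω) (by omega) (fun ω hω t ht a =>
        Set.pair_comm z (p t) ▸ (hc ω hω z hzs _ (mp ht a) (H.zP z hz t ht).symm).symm) ht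
        (mem_nb.1 hy).2).elim
    · exact e
  have z2 : ∀ z ∈ Z, z ∈ MP_66aaa3_co.nb G (pv p T ∪ Z) s' → ∀ y ∈ MP_66aaa3_co.nb G (pv p T ∪ Z) s, y ∈ Z := by
    intro z hz hzs y hy
    rcases mem_union.1 (mem_nb.1 hy).1 with e | e
    · obtain ⟨t, ht, rfl⟩ := mem_pv.1 e
      exact (H.no_z N O hZ h3 h6 h7 hs hz (Ω := Ω) (by omega) (fun ω hω t ht a =>
        hc ω hω _ (mp ht a) z hzs (H.zP z hz t ht)) ht (mem_nb.1 hy).2).elim
    · exact e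
  have z3 : ∀ y ∈ MP_66aaa3_co.nb G (pv p T ∪ Z) s, ∃ t ≤ T, p t = y := fun y hy => by
    rcases mem_union.1 (mem_nb.1 hy).1 with e | e
    · exact mem_pv.1 e
    · have e1 := z1 y e hy x' hx'
      exact absurd (card_le_one.1 hZ _ (z2 x' e1 hx' x hx) _ e1) hxx
  have z4 : ∀ y ∈ MP_66aaa3_co.nb G (pv p T ∪ Z) s', ∃ t ≤ T, p t = y := fun y hy => by
    rcases mem_union.1 (mem_nb.1 hy).1 with e | e
    · exact mem_pv.1 e
    · have e1 := z2 y e hy x hx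
      exact absurd (card_le_one.1 hZ _ e1 _ (z1 x e1 hx x' hx')) hxx
  have ear : ∀ ω ∈ Ω, ∀ i ≤ T, ∀ j ≤ T, i ≠ j → p i ∈ MP_66aaa3_co.nb G (pv p T ∪ Z) s →
      p j ∈ MP_66aaa3_co.nb G (pv p T ∪ Z) s' → Ear G U p T v i j ω.val := fun ω hω i hi j hj hij a a' =>
    O.earL hi hj hij (hc ω hω _ a _ a' (H.hp.ne hi hj hij))
  have inj : ∀ {ω ω' : ZMod (2 * 3)}, ω ≠ ω' → ω.val ≠ ω'.val := fun h e =>
    h (ZMod.val_injective _ e)
  have d5 : Ω.card ≤ 2 := by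
    by_contra hc
    obtain ⟨ω, ω', ω'', k1, k2, k3, e1, e2, e3⟩ := two_lt_card_iff.1 (not_le.1 hc)
    obtain ⟨i, hi, rfl⟩ := z3 x hx
    obtain ⟨j, hj, rfl⟩ := z4 x' hx'
    have hij : i ≠ j := fun e => hxx (by rw [e])
    exact H.no3w N hi hj hij (ear ω k1 i hi j hj hij hx hx') (ear ω' k2 i hi j hj hij hx hx')
      (ear ω'' k3 i hi j hj hij hx hx') (inj e1) (inj e2) (inj e3)
  obtain ⟨ω, k1, ω', k2, hω⟩ := one_lt_card.1 (show 1 < Ω.card by omega)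
  obtain ⟨x1, m1, x2, m2, n1⟩ := one_lt_card.1 (show 1 < deg G (pv p T ∪ Z) s by omega)
  obtain ⟨x3, m3, x4, m4, n2⟩ := one_lt_card.1 (show 1 < deg G (pv p T ∪ Z) s' by omega)
  obtain ⟨a, ha, rfl⟩ := z3 x1 m1
  obtain ⟨b, hb, rfl⟩ := z3 x2 m2
  obtain ⟨c, hc', rfl⟩ := z4 x3 m3
  obtain ⟨d, hd', rfl⟩ := z4 x4 m4
  have hab : a ≠ b := fun e => n1 (by rw [e])
  have hcd : c ≠ d := fun e => n2 (by rw [e])
  have e1 := H.earS O hs ha hb hab (mem_nb.1 m1).2 (mem_nb.1 m2).2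
  have e2 := H.earS O hs' hc' hd' hcd (mem_nb.1 m3).2 (mem_nb.1 m4).2
  refine final_arith (w := ω.val) (w' := ω'.val) ((N.l1.trans N.l2).trans N.l3) hab hcd
    (fun h => ?_) ?_ (H.same N ha hb hab e1) (H.same N hc' hd' hcd e2)
  · have m5 : p a ∈ MP_66aaa3_co.nb G (pv p T ∪ Z) s' ∧ p b ∈ MP_66aaa3_co.nb G (pv p T ∪ Z) s' := by
      rcases h with ⟨rfl, rfl⟩ | ⟨rfl, rfl⟩
      exacts [⟨m3, m4⟩, ⟨m4, m3⟩]
    have h2 := hcom ⟨_, m1, m5.1⟩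
    exact H.no3w N ha hb hab (ear ω k1 a ha b hb hab m1 m5.2) (ear ω' k2 a ha b hb hab m1 m5.2) e1
      (inj hω) (inj (ω' := 2) fun e => h2 (e ▸ k1)) (inj (ω' := 2) fun e => h2 (e ▸ k2))
  · intro i hi j hj hij
    have hi' : i ≤ T ∧ p i ∈ MP_66aaa3_co.nb G (pv p T ∪ Z) s := by
      rcases hi with rfl | rfl
      exacts [⟨ha, m1⟩, ⟨hb, m2⟩]
    have hj' : j ≤ T ∧ p j ∈ MP_66aaa3_co.nb G (pv p T ∪ Z) s' := by
      rcases hj with rfl | rfl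
      exacts [⟨hc', m3⟩, ⟨hd', m4⟩]
    exact H.cr N hi'.1 hj'.1 hij (ear ω k1 i hi'.1 j hj'.1 hij hi'.2 hj'.2)
      (ear ω' k2 i hi'.1 j hj'.1 hij hi'.2 hj'.2) (inj hω)

end Hy

end Pool.Agent.Work.MP_66aaa3_co.R3
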