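import Mathlib
import Pool.Agent.Work.MP_97603a_co.Menger

-- merged part: Pool.Agent.Work.MP_66aaa3_co.Basic
section
namespace Pool.Agent.Work.MP_66aaa3_co

open Finset

variable {V : Type} {G : SimpleGraph V}

/-- `p 0, …, p n` is a path of length `n`. -/
def IsP (G : SimpleGraph V) (p : ℕ → V) (n : ℕ) : Prop :=
  (∀ i < n, G.Adj (p i) (p (i + 1))) ∧ ∀ i ≤ n, ∀ j ≤ n, p i = p j → i = j

/-- there is a path of length `n` from `x` to `y` with all vertices in `S` -/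
def PathIn (G : SimpleGraph V) (S : Set V) (x y : V) (n : ℕ) : Prop :=
  ∃ p, IsP G p n ∧ p 0 = x ∧ p n = y ∧ ∀ i ≤ n, p i ∈ S

/-- no cycle of length `2` modulo `m` -/
def NB (G : SimpleGraph V) (m : ℕ) : Prop :=
  ∀ p n, IsP G p n → 2 ≤ n → G.Adj (p n) (p 0) → ((n + 1 : ℕ) : ZMod m) ≠ 2

namespace IsP

variable {p q : ℕ → V} {n n' : ℕ}

lemma adj (h : IsP G p n) {i : ℕ} (hi : i < n) : G.Adj (p i) (p (i + 1)) := h.1 i hi

lemma inj (h : IsP G p n) {i j : ℕ} (hi : i ≤ n) (hj : j ≤ n) (e : p i = p j) : i = j :=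
  h.2 i hi j hj e

lemma ne (h : IsP G p n) {i j : ℕ} (hi : i ≤ n) (hj : j ≤ n) (e : i ≠ j) : p i ≠ p j :=
  fun e' => e (h.inj hi hj e')

lemma trunc (h : IsP G p n) {a : ℕ} (ha : a ≤ n) : IsP G p a :=
  ⟨fun i hi => h.1 i (by omega), fun i hi j hj e => h.2 i (by omega) j (by omega) e⟩

lemma shift (h : IsP G p n) {a : ℕ} (ha : a ≤ n) : IsP G (fun i => p (a + i)) (n - a) :=
  ⟨fun i hi => h.1 (a + i) (by omega), fun i hi j hj e => by
    have := h.2 (a + i) (by omega) (a + j) (by omega) e; omega⟩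

lemma rev (h : IsP G p n) : IsP G (fun i => p (n - i)) n :=
  ⟨fun i hi => by
    have := (h.1 (n - (i + 1)) (by omega)).symm
    rwa [show n - (i + 1) + 1 = n - i by omega] at this,
   fun i hi j hj e => by
    have := h.2 (n - i) (by omega) (n - j) (by omega) e; omega⟩

lemma zero (p : ℕ → V) : IsP G p 0 :=
  ⟨fun i hi => by omega, fun i hi j hj _ => by omega⟩

/-- concatenation of two paths -/
lemma append (h : IsP G p n) (h' : IsP G q n') (e : p n = q 0)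
    (hd : ∀ i ≤ n, ∀ j ≤ n', p i = q j → j = 0) :
    IsP G (fun i => if i ≤ n then p i else q (i - n)) (n + n') := by
  constructor
  · intro i hi
    by_cases h1 : i + 1 ≤ n
    · simp only [h1, show i ≤ n by omega, if_true]; exact h.1 i (by omega)
    · by_cases h2 : i ≤ n
      · have : i = n := by omega
        subst this
        simp only [h1, le_refl, if_true, if_false, e]
        rw [show i + 1 - i = 0 + 1 by omega]; exact h'.1 0 (by omega)
      · simp only [h1, h2, if_false]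
        rw [show i + 1 - n = i - n + 1 by omega]; exact h'.1 _ (by omega)
  · intro i hi j hj
    by_cases h1 : i ≤ n <;> by_cases h2 : j ≤ n <;> simp only [h1, h2, if_true, if_false] <;>
      intro e'
    · exact h.2 i h1 j h2 e'
    · have := hd i h1 (j - n) (by omega) e'; omega
    · have := hd j h2 (i - n) (by omega) e'.symm; omega
    · have := h'.2 (i - n) (by omega) (j - n) (by omega) e'; omega

/-- extend a path by one vertex -/
lemma snoc (h : IsP G p n) {v : V} (ha : G.Adj (p n) v) (hv : ∀ i ≤ n, p i ≠ v) :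
    IsP G (fun i => if i ≤ n then p i else v) (n + 1) := by
  constructor
  · intro i hi
    by_cases h1 : i + 1 ≤ n
    · simp only [h1, show i ≤ n by omega, if_true]; exact h.1 i (by omega)
    · have : i = n := by omega
      subst this
      simp only [h1, le_refl, if_true, if_false]; exact ha
  · intro i hi j hj
    by_cases h1 : i ≤ n <;> by_cases h2 : j ≤ n <;> simp only [h1, h2, if_true, if_false] <;>
      intro e'
    · exact h.2 i h1 j h2 e'
    · exact absurd e' (hv i h1)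
    · exact absurd e'.symm (hv j h2)
    · omega

lemma seg (h : IsP G p n) {a b : ℕ} (hab : a ≤ b) (hb : b ≤ n) :
    PathIn G (p '' Set.Icc a b) (p a) (p b) (b - a) :=
  ⟨fun i => p (a + i), (h.trunc hb).shift hab, by simp, by simp [hab],
    fun i hi => ⟨a + i, ⟨by omega, by omega⟩, rfl⟩⟩

lemma pathIn (h : IsP G p n) {S : Set V} (hS : ∀ i ≤ n, p i ∈ S) : PathIn G S (p 0) (p n) n :=
  ⟨p, h, rfl, rfl, hS⟩

end IsP

namespace PathIn

variable {S T : Set V} {x y z : V} {n n' : ℕ}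

lemma mono (h : PathIn G S x y n) (hS : S ⊆ T) : PathIn G T x y n := by
  obtain ⟨p, h1, h2, h3, h4⟩ := h
  exact ⟨p, h1, h2, h3, fun i hi => hS (h4 i hi)⟩

lemma left_mem (h : PathIn G S x y n) : x ∈ S := by
  obtain ⟨p, h1, h2, h3, h4⟩ := h
  exact h2 ▸ h4 0 (by omega)

lemma right_mem (h : PathIn G S x y n) : y ∈ S := by
  obtain ⟨p, h1, h2, h3, h4⟩ := h
  exact h3 ▸ h4 n le_rfl

lemma symm (h : PathIn G S x y n) : PathIn G S y x n := by
  obtain ⟨p, h1, h2, h3, h4⟩ := h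
  exact ⟨fun i => p (n - i), h1.rev, by simpa using h3, by simpa using h2,
    fun i hi => h4 _ (by omega)⟩

lemma refl (hx : x ∈ S) : PathIn G S x x 0 :=
  ⟨fun _ => x, IsP.zero _, rfl, rfl, fun _ _ => hx⟩

lemma single (h : G.Adj x y) (hx : x ∈ S) (hy : y ∈ S) : PathIn G S x y 1 := by
  have := (IsP.zero (G := G) (fun _ => x)).snoc (v := y) h (fun _ _ => h.ne)
  refine ⟨_, this, by simp, by simp, fun i hi => ?_⟩
  by_cases h1 : i ≤ 0 <;> simp [h1, hx, hy]

lemma eq_of_zero (h : PathIn G S x y 0) : x = y := by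
  obtain ⟨p, h1, h2, h3, h4⟩ := h
  rw [← h2, ← h3]

lemma pos_of_ne (h : PathIn G S x y n) (hxy : x ≠ y) : 0 < n := by
  rcases Nat.eq_zero_or_pos n with rfl | h0
  · exact absurd h.eq_of_zero hxy
  · exact h0

lemma zero_of_eq (h : PathIn G S x x n) : n = 0 := by
  obtain ⟨p, h1, h2, h3, h4⟩ := h
  exact (h1.inj (Nat.zero_le _) le_rfl (h2.trans h3.symm)).symm

lemma adj_of_one (h : PathIn G S x y 1) : G.Adj x y := by
  obtain ⟨p, h1, h2, h3, h4⟩ := h
  rw [← h2, ← h3]; exact h1.adj (by omega)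

lemma trans (h : PathIn G S x y n) (h' : PathIn G T y z n')
    (hd : ∀ v ∈ S, v ∈ T → v = y) : PathIn G (S ∪ T) x z (n + n') := by
  obtain ⟨p, h1, h2, h3, h4⟩ := h
  obtain ⟨q, g1, g2, g3, g4⟩ := h'
  refine ⟨_, h1.append g1 (h3.trans g2.symm) (fun i hi j hj e => ?_), by simpa using h2, ?_, ?_⟩
  · have := hd (p i) (h4 i hi) (e ▸ g4 j hj)
    exact g1.inj hj (Nat.zero_le _) (by rw [← e, this, g2])
  · by_cases h5 : n + n' ≤ n
    · have : n' = 0 := by omega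
      subst this
      simp only [Nat.add_zero, le_refl, if_true]; rw [h3, ← g2, g3]
    · simp only [h5, if_false]; rw [show n + n' - n = n' by omega, g3]
  · intro i hi
    by_cases h5 : i ≤ n <;> simp only [h5, if_true, if_false]
    · exact Or.inl (h4 i h5)
    · exact Or.inr (g4 _ (by omega))

lemma trans' {U : Set V} (h : PathIn G S x y n) (h' : PathIn G T y z n')
    (hd : ∀ v ∈ S, v ∈ T → v = y) (h1 : S ⊆ U) (h2 : T ⊆ U) : PathIn G U x z (n + n') :=
  (h.trans h' hd).mono (Set.union_subset h1 h2)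

lemma snoc (h : PathIn G S x y n) (ha : G.Adj y z) (hz : z ∉ S) :
    PathIn G (insert z S) x z (n + 1) := by
  refine h.trans' (single ha (S := {y, z}) (by simp) (by simp)) ?_ (Set.subset_insert _ _) ?_
  · intro v hv hv'
    rcases hv' with rfl | rfl
    · rfl
    · exact absurd hv hz
  · rintro v (rfl | rfl)
    · exact Or.inr h.right_mem
    · exact Or.inl rfl

lemma cons (h : PathIn G S x y n) (ha : G.Adj z x) (hz : z ∉ S) :
    PathIn G (insert z S) z y (n + 1) :=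
  (h.symm.snoc ha.symm hz).symm

/-- a path extended by an edge contains a path -/
lemma step (h : PathIn G S x y n) (ha : G.Adj y z) (hz : z ∈ S) : ∃ n', PathIn G S x z n' := by
  obtain ⟨p, h1, h2, h3, h4⟩ := h
  by_cases h5 : ∃ i ≤ n, p i = z
  · obtain ⟨i, hi, e⟩ := h5
    exact ⟨i, p, h1.trunc hi, h2, e, fun j hj => h4 j (by omega)⟩
  · push Not at h5
    refine ⟨n + 1, _, h1.snoc (h3 ▸ ha) h5, by simpa using h2, by simp, fun i hi => ?_⟩
    by_cases h6 : i ≤ n <;> simp only [h6, if_true, if_false]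
    · exact h4 i h6
    · exact hz

/-- induction along a path -/
lemma ind {P : V → Prop} (h : PathIn G S x y n) (h0 : P x)
    (hs : ∀ a ∈ S, ∀ b ∈ S, P a → G.Adj a b → P b) : P y := by
  obtain ⟨p, h1, h2, h3, h4⟩ := h
  have : ∀ i ≤ n, P (p i) := by
    intro i
    induction i with
    | zero => intro _; rwa [h2]
    | succ i ih =>
      intro hi
      exact hs _ (h4 i (by omega)) _ (h4 _ hi) (ih (by omega)) (h1.adj (by omega))
  exact h3 ▸ this n le_rfl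

lemma rtrans (h : PathIn G S x y n) (h' : PathIn G S y z n') : ∃ r, PathIn G S x z r :=
  h'.ind (P := fun v => ∃ r, PathIn G S x v r) ⟨n, h⟩
    (fun _ _ _ hb ⟨_, hr⟩ hab => hr.step hab hb)

end PathIn

lemma IsP.useg {p : ℕ → V} {n : ℕ} (h : IsP G p n) {a b : ℕ} (ha : a ≤ n) (hb : b ≤ n) :
    PathIn G (p '' Set.uIcc a b) (p a) (p b) (Nat.dist a b) := by
  rcases le_total a b with hab | hab
  · rw [Set.uIcc_of_le hab, Nat.dist_eq_sub_of_le hab]; exact h.seg hab hb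
  · rw [Set.uIcc_of_ge hab, Nat.dist_eq_sub_of_le_right hab]; exact (h.seg hab ha).symm

/-- two paths with the same ends form a cycle -/
lemma NB.cyc {m : ℕ} (hG : NB G m) {S T : Set V} {x y : V} {n n' : ℕ} (h : PathIn G S x y n)
    (h' : PathIn G T y x n') (hd : ∀ v ∈ S, v ∈ T → v = x ∨ v = y) (hxy : x ≠ y)
    (h3 : 3 ≤ n + n') : ((n + n' : ℕ) : ZMod m) ≠ 2 := by
  have hn' := h'.pos_of_ne hxy.symm
  obtain ⟨q, g1, g2, g3, g4⟩ := h'
  obtain ⟨r, rfl⟩ : ∃ r, n' = r + 1 := ⟨n' - 1, by omega⟩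
  have h2 : PathIn G (T \ {x}) y (q r) r :=
    ⟨q, g1.trunc (by omega), g2, rfl, fun i hi => ⟨g4 i (by omega), fun e => by
      have := g1.inj (i := i) (j := r + 1) (by omega) le_rfl (by rw [g3]; exact e); omega⟩⟩
  obtain ⟨p, p1, p2, p3, p4⟩ := h.trans h2 (fun v hv hv' => by
    rcases hd v hv hv'.1 with e | e
    · exact absurd e hv'.2
    · exact e)
  have := hG p (n + r) p1 (by omega) (by rw [p2, p3, ← g3]; exact g1.adj (by omega))
  rwa [show n + (r + 1) = n + r + 1 by omega]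

/-- a path closed by an edge -/
lemma NB.close {m : ℕ} (hG : NB G m) {S : Set V} {x y : V} {n : ℕ} (h : PathIn G S x y n)
    (ha : G.Adj y x) (h2 : 2 ≤ n) : ((n + 1 : ℕ) : ZMod m) ≠ 2 := by
  obtain ⟨p, p1, p2, p3, -⟩ := h
  exact hG p n p1 h2 (by rw [p2, p3]; exact ha)

/-- a path closed through an outside vertex -/
lemma NB.close2 {m : ℕ} (hG : NB G m) {S : Set V} {x y v : V} {n : ℕ} (h : PathIn G S x y n)
    (hx : G.Adj v x) (hy : G.Adj v y) (hv : v ∉ S) (h1 : 1 ≤ n) : (n : ZMod m) ≠ 0 := by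
  have := hG.close (h.snoc hy.symm hv) hx (by omega)
  intro e
  apply this
  push_cast
  rw [e]; ring

/-- F0: neighbours of an outside vertex on a path have distinct positions modulo `m` -/
lemma NB.F0 {m : ℕ} (hG : NB G m) {p : ℕ → V} {n : ℕ} (h : IsP G p n) {v : V}
    (hv : ∀ i ≤ n, p i ≠ v) {i j : ℕ} (hi : i ≤ n) (hj : j ≤ n) (ai : G.Adj v (p i))
    (aj : G.Adj v (p j)) (e : (i : ZMod m) = j) : i = j := by
  by_contra hne
  wlog hij : i < j generalizing i j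
  · exact this hj hi aj ai e.symm (Ne.symm hne) (by omega)
  refine hG.close2 (h.seg hij.le hj) ai aj ?_ (by omega) ?_
  · rintro ⟨r, hr, e'⟩
    exact hv r (le_trans hr.2 hj) e'
  · rw [Nat.cast_sub hij.le, e, sub_self]

/-- CH: two edges between disjoint paths with the same residues coincide -/
lemma NB.CH {m : ℕ} (hG : NB G m) {p q : ℕ → V} {n n' : ℕ} (h : IsP G p n) (h' : IsP G q n')
    (hd : ∀ i ≤ n, ∀ j ≤ n', p i ≠ q j) {i j i' j' : ℕ} (hi : i ≤ n) (hi' : i' ≤ n)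
    (hj : j ≤ n') (hj' : j' ≤ n') (a : G.Adj (p i) (q j)) (a' : G.Adj (p i') (q j'))
    (e1 : (i : ZMod m) = i') (e2 : (j : ZMod m) = j') : i = i' ∧ j = j' := by
  by_contra hne
  have dz : ∀ a b : ℕ, (a : ZMod m) = b → ((Nat.dist a b : ℕ) : ZMod m) = 0 := by
    intro a b e
    rcases le_total a b with hab | hab
    · rw [Nat.dist_eq_sub_of_le hab, Nat.cast_sub hab, e, sub_self]
    · rw [Nat.dist_eq_sub_of_le_right hab, Nat.cast_sub hab, e, sub_self]
  have hq : ∀ {a b c : ℕ}, a ≤ n → b ≤ n → c ≤ n' → q c ∉ p '' Set.uIcc a b := by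
    rintro a b c ha hb hc ⟨r, hr, e⟩
    exact hd r (le_trans hr.2 (max_le ha hb)) c hc e
  have p1 := (h.useg hi' hi).snoc a (hq hi' hi hj)
  have p2 := (h'.useg hj hj').snoc a'.symm (by
    rintro ⟨r, hr, e⟩
    exact hd i' hi' r (le_trans hr.2 (max_le hj hj')) e.symm)
  refine hG.cyc p1 p2 ?_ (hd i' hi' j hj) ?_ ?_
  · rintro v (rfl | ⟨r, hr, rfl⟩) hv
    · exact Or.inr rfl
    · rcases hv with e | ⟨s, hs, e⟩
      · exact Or.inl e
      · exact absurd e.symm (hd r (le_trans hr.2 (max_le hi' hi)) s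
          (le_trans hs.2 (max_le hj hj')))
  · have : Nat.dist i' i ≠ 0 ∨ Nat.dist j j' ≠ 0 := by
      by_contra hc
      push Not at hc
      exact hne ⟨(Nat.eq_of_dist_eq_zero hc.1).symm, Nat.eq_of_dist_eq_zero hc.2⟩
    omega
  · push_cast
    rw [dz _ _ e1.symm, dz _ _ e2]; ring

/-- a shortest path from `x` to the set `Y` inside `S`: induced, meeting `Y` only at its end -/
lemma exists_induced {S Y : Set V} {x y : V} {n : ℕ} (h : PathIn G S x y n) (hy : y ∈ Y) :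
    ∃ p r, IsP G p r ∧ p 0 = x ∧ p r ∈ Y ∧ (∀ i ≤ r, p i ∈ S) ∧ (∀ i < r, p i ∉ Y) ∧
      ∀ i ≤ r, ∀ j ≤ r, G.Adj (p i) (p j) → j = i + 1 ∨ i = j + 1 := by
  classical
  have hex : ∃ r, ∃ y ∈ Y, PathIn G S x y r := ⟨n, y, hy, h⟩
  obtain ⟨y', hy', p, p1, p2, p3, p4⟩ := Nat.find_spec hex
  have hmin := fun r => Nat.find_min hex (m := r)
  set r := Nat.find hex
  refine ⟨p, r, p1, p2, p3 ▸ hy', p4, fun i hi hY => hmin i hi
    ⟨p i, hY, p, p1.trunc hi.le, p2, rfl, fun j hj => p4 j (by omega)⟩, ?_⟩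
  have key : ∀ i j, j ≤ r → i + 1 < j → ¬ G.Adj (p i) (p j) := by
    intro i j hj hij a
    have q1 := p1.seg (Nat.zero_le i) (by omega)
    have q2 := (p1.seg hj le_rfl).cons a (by
      rintro ⟨s, hs, e⟩
      have := p1.inj hs.2 (by omega) e
      have := hs.1; omega)
    have q3 := q1.trans' (U := S) q2 (by
      rintro v ⟨s, hs, rfl⟩ (e | ⟨t, ht, e⟩)
      · exact e
      · have := p1.inj ht.2 (by have := hs.2; omega) e
        have := hs.2; have := ht.1; omega)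
      (by rintro v ⟨s, hs, rfl⟩; exact p4 s (by have := hs.2; omega))
      (by
        rintro v (rfl | ⟨s, hs, rfl⟩)
        · exact p4 i (by omega)
        · exact p4 s hs.2)
    rw [p2, p3] at q3
    exact hmin _ (by omega) ⟨y', hy', q3⟩
  intro i hi j hj a
  have := key i j hj
  have := key j i hi
  have := a.symm
  have : i ≠ j := fun e => a.ne (by rw [e])
  by_contra hc
  rcases lt_or_gt_of_ne this with h1 | h1
  · exact key i j hj (by omega) a
  · exact key j i hi (by omega) a.symm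

/-- connected vertex set -/
def Conn (G : SimpleGraph V) (D : Finset V) : Prop := ∀ u ∈ D, ∀ v ∈ D, ∃ n, PathIn G D u v n

/-- `D` is a component of the graph induced on `O` -/
def IsComp (G : SimpleGraph V) (O D : Finset V) : Prop :=
  D.Nonempty ∧ D ⊆ O ∧ Conn G D ∧ ∀ u ∈ D, ∀ v ∈ O, G.Adj u v → v ∈ D

lemma exists_comp (O : Finset V) {u : V} (hu : u ∈ O) : ∃ D, IsComp G O D ∧ u ∈ D := by
  classical
  let D := O.filter (fun v => ∃ n, PathIn G O u v n)
  have hD : ∀ v, v ∈ D ↔ ∃ n, PathIn G O u v n := fun v => by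
    simp only [D, mem_filter]
    exact ⟨fun h => h.2, fun ⟨n, h⟩ => ⟨h.right_mem, n, h⟩⟩
  have huD : u ∈ D := (hD u).2 ⟨0, PathIn.refl hu⟩
  have h1 : ∀ v ∈ D, ∃ n, PathIn G D u v n := by
    intro v hv
    obtain ⟨n, p, p1, p2, p3, p4⟩ := (hD v).1 hv
    exact ⟨n, p, p1, p2, p3, fun i hi => (hD _).2
      ⟨i, p, p1.trunc hi, p2, rfl, fun j hj => p4 j (by omega)⟩⟩
  refine ⟨D, ⟨⟨u, huD⟩, filter_subset _ _, fun a ha b hb => ?_, fun a ha b hb hab => ?_⟩, huD⟩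
  · obtain ⟨n, hn⟩ := h1 a ha
    obtain ⟨n', hn'⟩ := h1 b hb
    exact hn.symm.rtrans hn'
  · obtain ⟨n, hn⟩ := (hD a).1 ha
    exact (hD b).2 (hn.step hab hb)

lemma IsComp.mem_of_path {O D : Finset V} (h : IsComp G O D) {S : Set V} (hS : S ⊆ O) {u v : V}
    {n : ℕ} (hp : PathIn G S u v n) (hu : u ∈ D) : v ∈ D :=
  hp.ind hu (fun a _ b hb ha hab => h.2.2.2 a ha b (hS hb) hab)

lemma IsComp.eq_of_mem {O D D' : Finset V} (h : IsComp G O D) (h' : IsComp G O D') {u : V}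
    (hu : u ∈ D) (hu' : u ∈ D') : D = D' := by
  ext v
  constructor
  · intro hv
    obtain ⟨n, hn⟩ := h.2.2.1 u hu v hv
    exact h'.mem_of_path (fun w hw => h.2.1 hw) hn hu'
  · intro hv
    obtain ⟨n, hn⟩ := h'.2.2.1 u hu' v hv
    exact h.mem_of_path (fun w hw => h'.2.1 hw) hn hu

lemma IsComp.disjoint {O D D' : Finset V} (h : IsComp G O D) (h' : IsComp G O D') (hne : D ≠ D') :
    Disjoint D D' :=
  disjoint_left.2 fun _ hu hu' => hne (h.eq_of_mem h' hu hu')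

lemma IsComp.not_adj {O D D' : Finset V} (h : IsComp G O D) (h' : IsComp G O D') (hne : D ≠ D')
    {u v : V} (hu : u ∈ D) (hv : v ∈ D') : ¬ G.Adj u v :=
  fun a => hne (h.eq_of_mem h' (h.2.2.2 u hu v (h'.2.1 hv) a) hv)

/-- an ear through a connected set -/
lemma Conn.ear {D : Finset V} (h : Conn G D) {a b u w : V} (hu : u ∈ D) (hw : w ∈ D)
    (ha : a ∉ D) (hb : b ∉ D) (hab : a ≠ b) (au : G.Adj a u) (wb : G.Adj w b) :
    ∃ n, 2 ≤ n ∧ PathIn G (↑D ∪ {a, b}) a b n := by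
  obtain ⟨n, hn⟩ := h u hu w hw
  refine ⟨n + 1 + 1, by omega, ((hn.cons au ha).snoc wb ?_).mono ?_⟩
  · rintro (e | e)
    · exact hab e.symm
    · exact hb e
  · rintro v (rfl | rfl | e)
    · simp
    · simp
    · exact Or.inl e

/-- in a connected set, a nonempty proper subset has an edge leaving it -/
lemma Conn.exists_adj {D C : Finset V} (h : Conn G D) {u v : V} (hu : u ∈ C) (huD : u ∈ D)
    (hv : v ∈ D) (hv' : v ∉ C) : ∃ a ∈ C, ∃ b ∈ D, b ∉ C ∧ a ∈ D ∧ G.Adj a b := by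
  by_contra hc
  push Not at hc
  obtain ⟨n, hn⟩ := h u huD v hv
  exact hv' (hn.ind hu (fun a ha b hb haC hab => by
    by_contra hb'
    exact hc a haC b hb hb' ha hab))

end Pool.Agent.Work.MP_66aaa3_co
end

-- merged part: Pool.Agent.Work.MP_66aaa3_co.Count
section
namespace Pool.Agent.Work.MP_66aaa3_co

open Finset

variable {V : Type} {G : SimpleGraph V}

open Classical in
/-- neighbours of `v` in `S` -/
noncomputable def nb (G : SimpleGraph V) (S : Finset V) (v : V) : Finset V := S.filter (G.Adj v)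

@[simp] lemma mem_nb {S : Finset V} {v w : V} : w ∈ nb G S v ↔ w ∈ S ∧ G.Adj v w := by
  classical
  simp [nb]

noncomputable def deg (G : SimpleGraph V) (S : Finset V) (v : V) : ℕ := (nb G S v).card

/-- number of adjacent pairs in `S × T` -/
noncomputable def EE (G : SimpleGraph V) (S T : Finset V) : ℕ := ∑ v ∈ S, deg G T v

/-- twice the number of edges inside `C` or between `C` and `S` -/
noncomputable def inc2 (G : SimpleGraph V) (C S : Finset V) : ℕ := 2 * EE G C S + EE G C C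

lemma deg_le_of {S T : Finset V} {v : V} (h : ∀ w ∈ S, G.Adj v w → w ∈ T) :
    deg G S v ≤ deg G T v :=
  card_le_card fun w hw => by
    rw [mem_nb] at hw ⊢; exact ⟨h w hw.1 hw.2, hw.2⟩

lemma deg_mono {S T : Finset V} (h : S ⊆ T) (v : V) : deg G S v ≤ deg G T v :=
  deg_le_of fun _ hw _ => h hw

lemma deg_le_card' {S T : Finset V} {v : V} (h : ∀ w ∈ S, G.Adj v w → w ∈ T) :
    deg G S v ≤ T.card :=
  card_le_card fun w hw => by
    rw [mem_nb] at hw; exact h w hw.1 hw.2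

lemma deg_le_card (S : Finset V) (v : V) : deg G S v ≤ S.card := deg_le_card' fun _ h _ => h

lemma deg_eq_zero {S : Finset V} {v : V} (h : ∀ w ∈ S, ¬ G.Adj v w) : deg G S v = 0 := by
  have := deg_le_card' (G := G) (S := S) (T := ∅) (v := v) fun w hw a => absurd a (h w hw)
  simpa using this

lemma exists_adj_of_deg_pos {S : Finset V} {v : V} (h : 0 < deg G S v) : ∃ w ∈ S, G.Adj v w := by
  obtain ⟨w, hw⟩ := card_pos.1 h
  exact ⟨w, mem_nb.1 hw⟩

lemma deg_pos {S : Finset V} {v w : V} (hw : w ∈ S) (a : G.Adj v w) : 0 < deg G S v :=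
  card_pos.2 ⟨w, mem_nb.2 ⟨hw, a⟩⟩

lemma EE_comm (S T : Finset V) : EE G S T = EE G T S := by
  classical
  have : ∀ S T : Finset V, EE G S T = ∑ v ∈ S, ∑ w ∈ T, if G.Adj v w then 1 else 0 := by
    intro S T
    refine sum_congr rfl fun v _ => ?_
    rw [deg, nb, card_filter]
  rw [this, this, sum_comm]
  refine sum_congr rfl fun v _ => sum_congr rfl fun w _ => ?_
  simp only [G.adj_comm]

lemma EE_le_of {C S T : Finset V} (h : ∀ u ∈ C, ∀ w ∈ S, G.Adj u w → w ∈ T) :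
    EE G C S ≤ EE G C T :=
  sum_le_sum fun u hu => deg_le_of (h u hu)

lemma EE_eq_zero {C S : Finset V} (h : ∀ u ∈ C, ∀ w ∈ S, ¬ G.Adj u w) : EE G C S = 0 :=
  sum_eq_zero fun u hu => deg_eq_zero (h u hu)

lemma EE_mono {C S C' S' : Finset V} (h : C ⊆ C') (h' : S ⊆ S') : EE G C S ≤ EE G C' S' :=
  le_trans (EE_le_of fun _ _ _ hw _ => h' hw) (sum_le_sum_of_subset h)

lemma EE_le_sq (S T : Finset V) : EE G S T ≤ S.card * T.card := by
  have := sum_le_card_nsmul S (fun v => deg G T v) T.card fun v _ => deg_le_card T v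
  simpa [EE] using this

@[simp] lemma EE_single (v : V) (S : Finset V) : EE G {v} S = deg G S v := by simp [EE]

@[simp] lemma EE_empty (S : Finset V) : EE G ∅ S = 0 := by simp [EE]

lemma inc2_le_of {C S T : Finset V} (h : ∀ u ∈ C, ∀ w ∈ S, G.Adj u w → w ∈ T) :
    inc2 G C S ≤ inc2 G C T := by
  have := EE_le_of h
  unfold inc2; omega

lemma inc2_mono {C S T : Finset V} (h : S ⊆ T) : inc2 G C S ≤ inc2 G C T :=
  inc2_le_of fun _ _ _ hw _ => h hw

@[simp] lemma inc2_single (v : V) (S : Finset V) : inc2 G {v} S = 2 * deg G S v := by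
  have : deg G {v} v = 0 := deg_eq_zero fun w hw => by
    rw [mem_singleton.1 hw]; exact G.irrefl
  simp [inc2, this]

@[simp] lemma inc2_empty (S : Finset V) : inc2 G ∅ S = 0 := by simp [inc2]

variable [DecidableEq V]

lemma deg_union {S T : Finset V} (h : Disjoint S T) (v : V) :
    deg G (S ∪ T) v = deg G S v + deg G T v := by
  unfold deg
  rw [← card_union_of_disjoint]
  · congr 1; ext w; simp only [mem_nb, mem_union]; tauto
  · exact disjoint_left.2 fun w h1 h2 => disjoint_left.1 h (mem_nb.1 h1).1 (mem_nb.1 h2).1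

lemma deg_union_le (S T : Finset V) (v : V) : deg G (S ∪ T) v ≤ deg G S v + deg G T v := by
  unfold deg
  refine le_trans (card_le_card ?_) (card_union_le _ _)
  intro w; simp only [mem_nb, mem_union]; tauto

lemma deg_erase_self (S : Finset V) (v : V) : deg G (S \ {v}) v = deg G S v :=
  le_antisymm (deg_mono sdiff_subset v)
    (deg_le_of fun w hw a => by simp [hw, a.ne.symm])

lemma EE_union_left {S T : Finset V} (h : Disjoint S T) (U : Finset V) :
    EE G (S ∪ T) U = EE G S U + EE G T U := sum_union h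

lemma EE_union_right {S T : Finset V} (h : Disjoint S T) (U : Finset V) :
    EE G U (S ∪ T) = EE G U S + EE G U T := by
  rw [EE_comm, EE_union_left h, EE_comm S, EE_comm T]

lemma EE_self_union {C S : Finset V} (h : Disjoint C S) :
    EE G (C ∪ S) (C ∪ S) = inc2 G C S + EE G S S := by
  rw [EE_union_left h, EE_union_right h, EE_union_right h, EE_comm S C, inc2]; omega

lemma EE_self_sdiff {C W : Finset V} (h : C ⊆ W) :
    EE G W W = inc2 G C (W \ C) + EE G (W \ C) (W \ C) := by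
  rw [← EE_self_union disjoint_sdiff, union_sdiff_of_subset h]

lemma inc2_union {C C' S : Finset V} (h : Disjoint C C') (h' : Disjoint C' S) :
    inc2 G (C ∪ C') S = inc2 G C' S + inc2 G C (S ∪ C') := by
  unfold inc2
  rw [EE_union_left h, EE_union_left h, EE_union_right h, EE_union_right h,
    EE_union_right h'.symm, EE_comm C' C]
  omega

lemma inc2_split {C U S : Finset V} (h : C ⊆ U) (hd : Disjoint U S) :
    inc2 G U S = inc2 G (U \ C) S + inc2 G C (S ∪ (U \ C)) := by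
  rw [← inc2_union disjoint_sdiff (hd.mono_left sdiff_subset), union_sdiff_of_subset h]

/-- peel off one vertex -/
lemma inc2_insert {C S : Finset V} {v : V} (hv : v ∉ C) (hd : Disjoint C S) :
    inc2 G (insert v C) S = inc2 G C S + 2 * deg G (S ∪ C) v := by
  rw [insert_eq, inc2_union (disjoint_singleton_left.2 hv) hd, inc2_single]

lemma inc2_union_of_not_adj {C C' S : Finset V} (h : Disjoint C C')
    (ha : ∀ u ∈ C, ∀ v ∈ C', ¬ G.Adj u v) : inc2 G (C ∪ C') S = inc2 G C S + inc2 G C' S := by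
  unfold inc2
  rw [EE_union_left h, EE_union_left h, EE_union_right h, EE_union_right h, EE_comm C' C,
    EE_eq_zero ha]
  omega

open Classical in
/-- the components of the graph induced on `O` -/
noncomputable def comps (G : SimpleGraph V) (O : Finset V) : Finset (Finset V) :=
  O.powerset.filter (IsComp G O)

omit [DecidableEq V] in
@[simp] lemma mem_comps {O D : Finset V} : D ∈ comps G O ↔ IsComp G O D := by
  classical
  simp only [comps, mem_filter, mem_powerset]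
  exact ⟨fun h => h.2, fun h => ⟨h.2.1, h⟩⟩

lemma biUnion_comps (O : Finset V) : (comps G O).biUnion id = O := by
  ext v
  simp only [mem_biUnion, mem_comps, id]
  exact ⟨fun ⟨D, h, hv⟩ => h.2.1 hv, fun hv => exists_comp O hv⟩

/-- additive functions on families of components -/
lemma sum_comps_family {O : Finset V} (f : Finset V → ℕ) (f0 : f ∅ = 0)
    (hf : ∀ C C', Disjoint C C' → (∀ u ∈ C, ∀ v ∈ C', ¬ G.Adj u v) → f (C ∪ C') = f C + f C')
    (𝒟 : Finset (Finset V)) (h : ∀ D ∈ 𝒟, IsComp G O D) : f (𝒟.biUnion id) = ∑ D ∈ 𝒟, f D := by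
  induction 𝒟 using Finset.induction_on with
  | empty => simpa using f0
  | insert D 𝒟 hD ih =>
    have h1 := h D (mem_insert_self _ _)
    rw [biUnion_insert, sum_insert hD, ← ih fun D' h' => h D' (mem_insert_of_mem h'), id]
    apply hf
    · rw [disjoint_biUnion_right]
      intro D' h'
      exact h1.disjoint (h D' (mem_insert_of_mem h')) fun e => hD (e ▸ h')
    · intro u hu v hv
      obtain ⟨D', h', hv'⟩ := mem_biUnion.1 hv
      exact h1.not_adj (h D' (mem_insert_of_mem h')) (fun e => hD (e ▸ h')) hu hv'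

lemma inc2_biUnion {O : Finset V} (S : Finset V) (𝒟 : Finset (Finset V))
    (h : ∀ D ∈ 𝒟, IsComp G O D) : inc2 G (𝒟.biUnion id) S = ∑ D ∈ 𝒟, inc2 G D S :=
  sum_comps_family (fun C => inc2 G C S) (by simp) (fun _ _ => inc2_union_of_not_adj) 𝒟 h

lemma card_biUnion_comps {O : Finset V} (𝒟 : Finset (Finset V))
    (h : ∀ D ∈ 𝒟, IsComp G O D) : (𝒟.biUnion id).card = ∑ D ∈ 𝒟, D.card :=
  sum_comps_family card (by simp) (fun _ _ h _ => card_union_of_disjoint h) 𝒟 h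

lemma sum_biUnion_comps {O : Finset V} (w : V → ℕ) (𝒟 : Finset (Finset V))
    (h : ∀ D ∈ 𝒟, IsComp G O D) : ∑ v ∈ 𝒟.biUnion id, w v = ∑ D ∈ 𝒟, ∑ v ∈ D, w v :=
  sum_comps_family (fun C => ∑ v ∈ C, w v) (by simp) (fun _ _ h _ => sum_union h) 𝒟 h

/-- every nonempty part of `U` is incident with more than `k` edges per vertex in `U ∪ S` -/
def Sup (G : SimpleGraph V) (k : ℕ) (U S : Finset V) : Prop :=
  ∀ C ⊆ U, C.Nonempty → 2 * k * C.card < inc2 G C (S ∪ (U \ C))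

/-- minimum degree of the vertices of `U` inside `W` -/
def Dg (G : SimpleGraph V) (U W : Finset V) (d : ℕ) : Prop := ∀ v ∈ U, d ≤ deg G W v

/-- every nonempty part of `U` has at least two attachments in `W` -/
def Att2 (G : SimpleGraph V) (U W : Finset V) : Prop :=
  ∀ C ⊆ U, C.Nonempty → ∀ z, ∃ u ∈ C, ∃ w ∈ W, w ∉ C ∧ w ≠ z ∧ G.Adj u w

/-- at least `k (|Y| - 1)` edges -/
def Dense (G : SimpleGraph V) (k : ℕ) (Y : Finset V) : Prop :=
  2 ≤ Y.card ∧ 2 * k * Y.card ≤ EE G Y Y + 2 * k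

def Core (G : SimpleGraph V) (k : ℕ) (F : Finset V) : Prop :=
  3 ≤ F.card ∧ ∀ C ⊆ F, C.Nonempty → 2 ≤ (F \ C).card →
    2 * k * C.card < inc2 G C (F \ C) ∧ ∀ z, ∃ u ∈ C, ∃ w ∈ F, w ∉ C ∧ w ≠ z ∧ G.Adj u w

variable {k : ℕ}

lemma deg_of_inc2 {U S : Finset V} {v : V} (h : 2 * k * ({v} : Finset V).card <
    inc2 G {v} (S ∪ (U \ {v}))) : k + 1 ≤ deg G (U ∪ S) v := by
  rw [inc2_single, card_singleton] at h
  have : deg G (S ∪ (U \ {v})) v ≤ deg G (U ∪ S) v := deg_mono (by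
    intro w; simp only [mem_union, mem_sdiff]; tauto) v
  omega

lemma Sup.dg {U S : Finset V} (h : Sup G k U S) : Dg G U (U ∪ S) (k + 1) :=
  fun v hv => deg_of_inc2 (h {v} (singleton_subset_iff.2 hv) (singleton_nonempty v))

lemma min_good {D S : Finset V} (hD : D.Nonempty) (hd : Disjoint D S)
    (h : 2 * k * D.card ≤ inc2 G D S) : ∃ U ⊆ D, U.Nonempty ∧
      (∀ C ⊆ U, 2 * k * C.card ≤ inc2 G C (S ∪ (U \ C))) ∧
      ∀ C ⊆ U, C.Nonempty → C ≠ U → 2 * k * C.card < inc2 G C (S ∪ (U \ C)) := by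
  classical
  obtain ⟨U, hU, hmin⟩ := exists_min_image
    (D.powerset.filter fun U => U.Nonempty ∧ 2 * k * U.card ≤ inc2 G U S) card
    ⟨D, by simp [hD, h]⟩
  simp only [mem_filter, mem_powerset] at hU hmin
  have key : ∀ C ⊆ U, C.Nonempty → C ≠ U → 2 * k * C.card < inc2 G C (S ∪ (U \ C)) := by
    intro C hC hne hCU
    have h1 := inc2_split (G := G) hC (hd.mono_left hU.1)
    have h2 := card_sdiff_add_card_eq_card hC
    have h3 := card_pos.2 hne
    have h4 : (U \ C).Nonempty := sdiff_nonempty.2 fun e => hCU (Subset.antisymm hC e)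
    have h5 : ¬ 2 * k * (U \ C).card ≤ inc2 G (U \ C) S := fun e => by
      have := hmin (U \ C) ⟨sdiff_subset.trans hU.1, h4, e⟩; omega
    have h6 := hU.2.2
    rw [← h2, Nat.mul_add] at h6
    omega
  refine ⟨U, hU.1, hU.2.1, fun C hC => ?_, key⟩
  by_cases h1 : C = U
  · subst h1; simpa using hU.2.2
  · rcases C.eq_empty_or_nonempty with rfl | h2
    · simp
    · exact (key C hC h2 h1).le

lemma min_strict {D S : Finset V} (hd : Disjoint D S) (h : 2 * k * D.card < inc2 G D S) :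
    ∃ U ⊆ D, U.Nonempty ∧ Conn G U ∧ Sup G k U S := by
  classical
  obtain ⟨U, hU, hmin⟩ := exists_min_image
    (D.powerset.filter fun U => 2 * k * U.card < inc2 G U S) card ⟨D, by simp [h]⟩
  simp only [mem_filter, mem_powerset] at hU hmin
  have key : Sup G k U S := by
    intro C hC hne
    have h1 := inc2_split (G := G) hC (hd.mono_left hU.1)
    have h2 := card_sdiff_add_card_eq_card hC
    have h3 := card_pos.2 hne
    have h5 : ¬ 2 * k * (U \ C).card < inc2 G (U \ C) S := fun e => by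
      have := hmin (U \ C) ⟨sdiff_subset.trans hU.1, e⟩; omega
    have h6 := hU.2
    rw [← h2, Nat.mul_add] at h6
    omega
  have hne : U.Nonempty := by
    rcases U.eq_empty_or_nonempty with e | e
    · have := hU.2; rw [e] at this; simp at this
    · exact e
  refine ⟨U, hU.1, hne, ?_, key⟩
  obtain ⟨u, hu⟩ := hne
  obtain ⟨C, hC, huC⟩ := exists_comp (G := G) U hu
  have h1 := key C hC.2.1 hC.1
  have h2 : inc2 G C (S ∪ (U \ C)) ≤ inc2 G C S := inc2_le_of fun a ha w hw haw => by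
    rcases mem_union.1 hw with e | e
    · exact e
    · exact absurd (hC.2.2.2 a ha w (mem_sdiff.1 e).1 haw) (mem_sdiff.1 e).2
  have h3 := hmin C ⟨hC.2.1.trans hU.1, by omega⟩
  rw [← eq_of_subset_of_card_le hC.2.1 h3]
  exact hC.2.2.1

lemma dense_insert {C S : Finset V} {z : V} (hC : C.Nonempty) (hz : z ∉ C)
    (h : 2 * k * C.card ≤ inc2 G C S) (ha : ∀ u ∈ C, ∀ w ∈ S, G.Adj u w → w = z) :
    Dense G k (insert z C) := by
  have h1 : inc2 G C S ≤ inc2 G C {z} := inc2_le_of fun u hu w hw a => by simp [ha u hu w hw a]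
  have h2 := EE_self_union (G := G) (disjoint_singleton_right.2 hz)
  have h3 : C ∪ {z} = insert z C := by ext; simp
  have h4 := card_pos.2 hC
  rw [h3] at h2
  refine ⟨by rw [card_insert_of_notMem hz]; omega, ?_⟩
  rw [card_insert_of_notMem hz, Nat.mul_add]; omega

lemma att2_or_dense {U S : Finset V} (hS : S.Nonempty) (hd : Disjoint U S)
    (h : ∀ C ⊆ U, C.Nonempty → 2 * k * C.card ≤ inc2 G C (S ∪ (U \ C))) :
    Att2 G U (U ∪ S) ∨ ∃ z ∈ S, ∃ Y ⊆ insert z U, Dense G k Y := by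
  by_cases h1 : Att2 G U (U ∪ S)
  · exact Or.inl h1
  right
  unfold Att2 at h1
  push Not at h1
  obtain ⟨C, hC, hne, z, hz⟩ := h1
  obtain ⟨s, hs⟩ := hS
  have h2 : ∀ u ∈ C, ∀ w ∈ S ∪ (U \ C), G.Adj u w → w = z ∧ z ∈ U ∪ S ∧ z ∉ C := by
    intro u hu w hw a
    have h3 : w ∈ U ∪ S ∧ w ∉ C := by
      rcases mem_union.1 hw with e | e
      · exact ⟨mem_union_right _ e, fun e' => disjoint_left.1 hd (hC e') e⟩
      · exact ⟨mem_union_left _ (mem_sdiff.1 e).1, (mem_sdiff.1 e).2⟩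
    have : w = z := by
      by_contra e
      exact hz u hu w h3.1 h3.2 e a
    exact ⟨this, this ▸ h3⟩
  by_cases h3 : z ∈ U ∪ S ∧ z ∉ C
  · have h4 := dense_insert hne h3.2 (h C hC hne) fun u hu w hw a => (h2 u hu w hw a).1
    rcases mem_union.1 h3.1 with e | e
    · exact ⟨s, hs, _, (insert_subset e hC).trans (subset_insert _ _), h4⟩
    · exact ⟨z, e, _, insert_subset_insert _ hC, h4⟩
  · exact ⟨s, hs, _, insert_subset_insert _ hC, dense_insert hne
      (fun e => disjoint_left.1 hd (hC e) hs) (h C hC hne)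
      fun u hu w hw a => absurd (h2 u hu w hw a).2 h3⟩

lemma exists_core (hk : 2 ≤ k) {Y : Finset V} (h : Dense G k Y) : ∃ F ⊆ Y, Core G k F := by
  classical
  obtain ⟨F, hF, hmin⟩ := exists_min_image (Y.powerset.filter (Dense G k)) card ⟨Y, by simp [h]⟩
  simp only [mem_filter, mem_powerset] at hF hmin
  obtain ⟨hFY, h2, hd⟩ := hF
  refine ⟨F, hFY, ?_, fun C hC hne h3 => ?_⟩
  · by_contra h3
    have h4 : F.card = 2 := by omega
    have h5 : EE G F F ≤ F.card * 1 := by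
      refine sum_le_card_nsmul F _ 1 fun v hv => ?_
      rw [← deg_erase_self]
      have := deg_le_card (G := G) (F \ {v}) v
      rw [card_sdiff_of_subset (singleton_subset_iff.2 hv), card_singleton] at this
      omega
    rw [h4] at hd h5
    omega
  have h4 := card_sdiff_add_card_eq_card hC
  have h5 := card_pos.2 hne
  have h6 : 2 * k * C.card < inc2 G C (F \ C) := by
    have h7 := EE_self_sdiff (G := G) hC
    have h8 : ¬ Dense G k (F \ C) := fun e => by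
      have := hmin _ ⟨sdiff_subset.trans hFY, e⟩; omega
    rw [← h4, Nat.mul_add] at hd
    have h9 : ¬ 2 * k * (F \ C).card ≤ EE G (F \ C) (F \ C) + 2 * k := fun e => h8 ⟨h3, e⟩
    omega
  refine ⟨h6, fun z => ?_⟩
  by_contra hc
  push Not at hc
  obtain ⟨z', hz', hz⟩ : ∃ z' ∈ F \ C, ∀ u ∈ C, ∀ w ∈ F \ C, G.Adj u w → w = z' := by
    by_cases e : z ∈ F \ C
    · refine ⟨z, e, fun u hu w hw a => ?_⟩
      by_contra e'
      exact hc u hu w (mem_sdiff.1 hw).1 (mem_sdiff.1 hw).2 e' a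
    · obtain ⟨z', hz'⟩ := card_pos.1 (show 0 < (F \ C).card by omega)
      refine ⟨z', hz', fun u hu w hw a => ?_⟩
      exact absurd a (hc u hu w (mem_sdiff.1 hw).1 (mem_sdiff.1 hw).2 fun e' => e (e' ▸ hw))
  have h7 := dense_insert hne (mem_sdiff.1 hz').2 h6.le hz
  have h8 := hmin _ ⟨(insert_subset (mem_sdiff.1 hz').1 hC).trans hFY, h7⟩
  rw [card_insert_of_notMem (mem_sdiff.1 hz').2] at h8
  omega

namespace Core

variable {F : Finset V}

lemma two_le {C : Finset V} {x y : V} (hC : C ⊆ F \ {x, y}) (hx : x ∈ F) (hy : y ∈ F) (hxy : x ≠ y) :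
    2 ≤ (F \ C).card := by
  rw [← card_pair hxy]
  apply card_le_card
  intro w hw
  have h1 : w ∉ C := fun e => (mem_sdiff.1 (hC e)).2 hw
  rcases mem_insert.1 hw with rfl | e
  · exact mem_sdiff.2 ⟨hx, h1⟩
  · rw [mem_singleton.1 e] at h1 ⊢; exact mem_sdiff.2 ⟨hy, h1⟩

lemma sup (h : Core G k F) {x y : V} (hx : x ∈ F) (hy : y ∈ F) (hxy : x ≠ y) :
    Sup G k (F \ {x, y}) {x, y} := by
  intro C hC hne
  refine lt_of_lt_of_le (h.2 C (hC.trans sdiff_subset) hne (two_le hC hx hy hxy)).1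
    (inc2_mono ?_)
  intro w; simp only [mem_union, mem_sdiff]; tauto

lemma att2 (h : Core G k F) {x y : V} (hx : x ∈ F) (hy : y ∈ F) (hxy : x ≠ y) :
    Att2 G (F \ {x, y}) F :=
  fun C hC hne => (h.2 C (hC.trans sdiff_subset) hne (two_le hC hx hy hxy)).2

lemma dg (h : Core G k F) : Dg G F F (k + 1) := by
  intro v hv
  have h1 := (h.2 {v} (singleton_subset_iff.2 hv) (singleton_nonempty v) (by
    rw [card_sdiff_of_subset (singleton_subset_iff.2 hv), card_singleton]; have := h.1; omega)).1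
  rw [inc2_single, card_singleton, deg_erase_self] at h1
  omega

lemma conn_erase (h : Core G k F) (v : V) : Conn G (F \ {v}) := by
  intro a ha b hb
  obtain ⟨C, hC, haC⟩ := exists_comp (G := G) (F \ {v}) ha
  have hCF : C ⊆ F := hC.2.1.trans sdiff_subset
  have hcl : ∀ u ∈ C, ∀ w ∈ F, w ∉ C → w ≠ v → ¬ G.Adj u w := fun u hu w hw h1 h2 a =>
    h1 (hC.2.2.2 u hu w (by simp [hw, h2]) a)
  by_cases hb' : b ∈ C
  · obtain ⟨n, hn⟩ := hC.2.2.1 a haC b hb'
    exact ⟨n, hn.mono (coe_subset.2 hC.2.1)⟩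
  exfalso
  by_cases h2 : 2 ≤ (F \ C).card
  · obtain ⟨u, hu, w, hw, h3, h4, h5⟩ := (h.2 C hCF hC.1 h2).2 v
    exact hcl u hu w hw h3 h4 h5
  · have h3 : ∀ w ∈ F, w ∉ C → w = b := fun w hw hw' =>
      card_le_one.1 (show (F \ C).card ≤ 1 by omega) w (mem_sdiff.2 ⟨hw, hw'⟩) b
        (mem_sdiff.2 ⟨(mem_sdiff.1 hb).1, hb'⟩)
    have hbF := (mem_sdiff.1 hb).1
    obtain ⟨u, hu, w, hw, h4, h5, h6⟩ := (h.2 {b} (singleton_subset_iff.2 hbF)
      (singleton_nonempty b) (by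
        rw [card_sdiff_of_subset (singleton_subset_iff.2 hbF), card_singleton]
        have := h.1; omega)).2 b
    rw [mem_singleton.1 hu] at h6
    have h7 : w ∈ C := by
      by_contra e
      exact h5 (h3 w hw e)
    exact hcl w h7 b hbF hb' (by simpa using (mem_sdiff.1 hb).2) h6.symm

lemma conn (h : Core G k F) : Conn G F := by
  intro a ha b hb
  obtain ⟨v, hv, h1⟩ : ∃ v ∈ F, v ∉ ({a, b} : Finset V) := by
    by_contra hc
    push Not at hc
    have := card_le_card (show F ⊆ {a, b} from hc)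
    have := card_le_two (a := a) (b := b)
    have := h.1
    omega
  simp only [mem_insert, mem_singleton, not_or] at h1
  obtain ⟨n, hn⟩ := h.conn_erase v a (by simp [ha, Ne.symm h1.1]) b (by simp [hb, Ne.symm h1.2])
  exact ⟨n, hn.mono (coe_subset.2 sdiff_subset)⟩

end Core

end Pool.Agent.Work.MP_66aaa3_co
end

-- merged part: Pool.Agent.Work.MP_66aaa3_co.Defs
section
namespace Pool.Agent.Work.MP_66aaa3_co

open Finset

variable {V : Type} {G : SimpleGraph V} {k : ℕ}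

/-- parity of a residue modulo `2 k` -/
def par (k : ℕ) : ZMod (2 * k) →+* ZMod 2 := ZMod.castHom (dvd_mul_right 2 k) (ZMod 2)

lemma par_natCast (n : ℕ) : par k (n : ZMod (2 * k)) = (n : ZMod 2) := map_natCast _ n

lemma par_two : par k 2 = 0 := by
  have := par_natCast (k := k) 2
  exact_mod_cast this

lemma par_eq_iff {a b : ℕ} : par k (a : ZMod (2 * k)) = par k (b : ZMod (2 * k)) ↔
    a % 2 = b % 2 := by
  rw [par_natCast, par_natCast, ZMod.natCast_eq_natCast_iff']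

lemma mod_two_of_cast_eq {a b : ℕ} (h : (a : ZMod (2 * k)) = b) : a % 2 = b % 2 :=
  par_eq_iff.1 (by rw [h])

/-- `r` is the residue of the length (at least two) of an `x`-`y` path in `W` -/
def InL (G : SimpleGraph V) (m : ℕ) (W : Set V) (x y : V) (r : ZMod m) : Prop :=
  ∃ n : ℕ, 2 ≤ n ∧ (n : ZMod m) = r ∧ PathIn G W x y n

/-- both parities occur -/
def BothPar (k : ℕ) (L : Finset (ZMod (2 * k))) : Prop := ∃ a ∈ L, ∃ b ∈ L, par k a ≠ par k b

/-- gadget: at least `k` residues of `x`-`y` paths in `W`, both parities occur -/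
def Gad (G : SimpleGraph V) (k : ℕ) (W : Set V) (x y : V) : Prop :=
  ∃ L : Finset (ZMod (2 * k)), k ≤ L.card ∧ BothPar k L ∧ ∀ r ∈ L, InL G (2 * k) W x y r

/-- each parity class contains two different residues of `x`-`y` paths in `W` -/
def Gad2 (G : SimpleGraph V) (k : ℕ) (W : Set V) (x y : V) : Prop :=
  ∀ e : ZMod 2, ∃ a b, a ≠ b ∧ par k a = e ∧ par k b = e ∧ InL G (2 * k) W x y a ∧
    InL G (2 * k) W x y b

/-- odd, or `2` modulo `2 k` -/
def OK2 (k n : ℕ) : Prop := n % 2 = 1 ∨ (n : ZMod (2 * k)) = 2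

def TwoConn (G : SimpleGraph V) [Fintype V] : Prop :=
  3 ≤ Fintype.card V ∧ ∀ v a b, a ≠ v → b ≠ v → ∃ n, PathIn G {v}ᶜ a b n

/-- no three dense sets pairwise meeting in at most the one vertex `z` -/
def N3D (G : SimpleGraph V) (k : ℕ) : Prop :=
  ∀ (Y₁ Y₂ Y₃ : Finset V) (z : V), Dense G k Y₁ → Dense G k Y₂ → Dense G k Y₃ →
    (∀ v ∈ Y₁, v ∈ Y₂ → v = z) → (∀ v ∈ Y₁, v ∈ Y₃ → v = z) → (∀ v ∈ Y₂, v ∈ Y₃ → v = z) → False

/-- `G` contains `K_{k,M}` -/
def KM (G : SimpleGraph V) (k M : ℕ) : Prop :=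
  ∃ A I : Finset V, A.card = k ∧ I.card = M ∧ Disjoint A I ∧ ∀ a ∈ A, ∀ i ∈ I, G.Adj a i

/-- vertex set of a path -/
def pv [DecidableEq V] (p : ℕ → V) (T : ℕ) : Finset V := (range (T + 1)).image p

@[simp] lemma mem_pv [DecidableEq V] {p : ℕ → V} {T : ℕ} {v : V} :
    v ∈ pv p T ↔ ∃ i ≤ T, p i = v := by
  simp [pv]

lemma IsP.card_pv [DecidableEq V] {p : ℕ → V} {T : ℕ} (h : IsP G p T) : (pv p T).card = T + 1 := by
  rw [pv, card_image_of_injOn, card_range]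
  intro i hi j hj e
  exact h.inj (by simpa [Nat.lt_succ_iff] using hi) (by simpa [Nat.lt_succ_iff] using hj) e

open Classical in
/-- positions of the neighbours of `v` on a path -/
noncomputable def np (G : SimpleGraph V) (p : ℕ → V) (T : ℕ) (v : V) : Finset ℕ :=
  (range (T + 1)).filter fun i => G.Adj v (p i)

@[simp] lemma mem_np {p : ℕ → V} {T : ℕ} {v : V} {i : ℕ} :
    i ∈ np G p T v ↔ i ≤ T ∧ G.Adj v (p i) := by
  classical
  simp [np]

lemma IsP.card_np [DecidableEq V] {p : ℕ → V} {T : ℕ} (h : IsP G p T) (v : V) :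
    (np G p T v).card = deg G (pv p T) v := by
  unfold deg
  apply card_bij (fun i _ => p i)
  · intro i hi; rw [mem_np] at hi; simp only [mem_nb, mem_pv]; exact ⟨⟨i, hi.1, rfl⟩, hi.2⟩
  · intro i hi j hj e; exact h.inj (mem_np.1 hi).1 (mem_np.1 hj).1 e
  · intro w hw
    simp only [mem_nb, mem_pv] at hw
    obtain ⟨⟨i, hi, rfl⟩, a⟩ := hw
    exact ⟨i, mem_np.2 ⟨hi, a⟩, rfl⟩

/-- an outside vertex has at most `m` neighbours on a path -/
lemma NB.card_np_le {m : ℕ} (hm : 0 < m) (hG : NB G m) {p : ℕ → V} {T : ℕ} (h : IsP G p T) {v : V}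
    (hv : ∀ i ≤ T, p i ≠ v) : (np G p T v).card ≤ m := by
  have : NeZero m := ⟨hm.ne'⟩
  have := card_le_card_of_injOn (s := np G p T v) (t := (univ : Finset (ZMod m)))
    (fun i => (i : ZMod m)) (by simp) (fun i hi j hj e => by
      rw [mem_coe, mem_np] at hi hj
      exact hG.F0 h hv hi.1 hj.1 hi.2 hj.2 e)
  simpa using this

namespace InL

variable {m : ℕ} {W W' : Set V} {x y z : V} {r : ZMod m} {n : ℕ}

lemma mono (h : InL G m W x y r) (hW : W ⊆ W') : InL G m W' x y r :=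
  let ⟨n, h1, h2, h3⟩ := h; ⟨n, h1, h2, h3.mono hW⟩

lemma symm (h : InL G m W x y r) : InL G m W y x r :=
  let ⟨n, h1, h2, h3⟩ := h; ⟨n, h1, h2, h3.symm⟩

lemma trans_path (h : InL G m W x y r) (h' : PathIn G W' y z n) (hd : ∀ v ∈ W, v ∈ W' → v = y) :
    InL G m (W ∪ W') x z (r + n) :=
  let ⟨n', h1, h2, h3⟩ := h
  ⟨n' + n, by omega, by rw [← h2]; push_cast; rfl, h3.trans h' hd⟩

lemma path_trans (h' : PathIn G W' z x n) (h : InL G m W x y r) (hd : ∀ v ∈ W', v ∈ W → v = x) :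
    InL G m (W' ∪ W) z y (n + r) :=
  let ⟨n', h1, h2, h3⟩ := h
  ⟨n + n', by omega, by rw [← h2]; push_cast; rfl, h'.trans h3 hd⟩

lemma trans {r' : ZMod m} (h : InL G m W x y r) (h' : InL G m W' y z r')
    (hd : ∀ v ∈ W, v ∈ W' → v = y) : InL G m (W ∪ W') x z (r + r') := by
  obtain ⟨n', -, h2, h3⟩ := h'
  rw [← h2]; exact h.trans_path h3 hd

end InL

lemma NB.cycL {m : ℕ} (hG : NB G m) {S T : Set V} {x y : V} {r : ZMod m} {n : ℕ}
    (h : InL G m S x y r) (h' : PathIn G T y x n) (hd : ∀ v ∈ S, v ∈ T → v = x ∨ v = y)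
    (hxy : x ≠ y) : r + n ≠ 2 := by
  obtain ⟨n', h1, h2, h3⟩ := h
  have := hG.cyc h3 h' hd hxy (by have := h'.pos_of_ne hxy.symm; omega)
  rw [← h2]; exact_mod_cast this

lemma NB.cycLL {m : ℕ} (hG : NB G m) {S T : Set V} {x y : V} {r r' : ZMod m}
    (h : InL G m S x y r) (h' : InL G m T y x r') (hd : ∀ v ∈ S, v ∈ T → v = x ∨ v = y)
    (hxy : x ≠ y) : r + r' ≠ 2 := by
  obtain ⟨n', -, h2, h3⟩ := h'
  rw [← h2]; exact hG.cycL h h3 hd hxy

namespace Gad

variable {W W' : Set V} {x y z : V} {n : ℕ}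

lemma mono (h : Gad G k W x y) (hW : W ⊆ W') : Gad G k W' x y :=
  let ⟨L, h1, h2, h3⟩ := h; ⟨L, h1, h2, fun r hr => (h3 r hr).mono hW⟩

lemma symm (h : Gad G k W x y) : Gad G k W y x :=
  let ⟨L, h1, h2, h3⟩ := h; ⟨L, h1, h2, fun r hr => (h3 r hr).symm⟩

lemma trans_path (h : Gad G k W x y) (h' : PathIn G W' y z n) (hd : ∀ v ∈ W, v ∈ W' → v = y) :
    Gad G k (W ∪ W') x z := by
  classical
  obtain ⟨L, h1, ⟨a, ha, b, hb, hab⟩, h3⟩ := h
  refine ⟨L.image (· + (n : ZMod (2 * k))), ?_, ⟨a + n, mem_image_of_mem _ ha, b + n,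
    mem_image_of_mem _ hb, ?_⟩, ?_⟩
  · rwa [card_image_of_injective _ (add_left_injective _)]
  · simpa using hab
  · intro r hr
    obtain ⟨r', hr', rfl⟩ := mem_image.1 hr
    exact (h3 r' hr').trans_path h' hd

lemma path_trans (h' : PathIn G W' z x n) (h : Gad G k W x y) (hd : ∀ v ∈ W', v ∈ W → v = x) :
    Gad G k (W' ∪ W) z y := by
  rw [Set.union_comm]
  exact (h.symm.trans_path h'.symm fun v h1 h2 => hd v h2 h1).symm

end Gad

/-- a rigid pair of terminals has no `Gad2` -/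
lemma Gad2.not_rigid {W : Set V} {x y : V} (h : Gad2 G k W x y) {c : ℕ}
    (hr : ∀ n, PathIn G W x y n → OK2 k (c + n)) : False := by
  obtain ⟨a, b, hab, ha, hb, ⟨n, -, rfl, hn⟩, ⟨n', -, rfl, hn'⟩⟩ := h (c : ZMod 2)
  rw [par_natCast, ZMod.natCast_eq_natCast_iff'] at ha hb
  rcases hr n hn with h1 | h1
  · omega
  rcases hr n' hn' with h2 | h2
  · omega
  apply hab
  push_cast at h1 h2
  exact add_left_cancel (h1.trans h2.symm)

end Pool.Agent.Work.MP_66aaa3_co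
end

-- merged part: Pool.Agent.Work.MP_66aaa3_co.Arith
section
namespace Pool.Agent.Work.MP_66aaa3_co

open Finset

variable {k : ℕ}

lemma arith_two_mem (hk : 1 ≤ k) (H : AddSubgroup (ZMod (2 * k))) {S : Finset (ZMod (2 * k))}
    (hS : k ≤ S.card) (h : ∀ x ∈ S, x ∈ H) : (2 : ZMod (2 * k)) ∈ H := by
  have : NeZero (2 * k) := ⟨by omega⟩
  have h1 : k ≤ Nat.card H := by
    refine hS.trans ?_
    rw [← Nat.card_eq_finsetCard]
    exact Nat.card_le_card_of_injective (fun x : S => (⟨x.1, h x.1 x.2⟩ : H))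
      fun x y e => Subtype.ext (congrArg (fun z : H => z.1) e)
  have h2 := H.index_mul_card
  rw [Nat.card_zmod] at h2
  have h3 := H.nsmul_index_mem (1 : ZMod (2 * k))
  have h4 : H.index = 1 ∨ H.index = 2 := by
    have h5 : H.index ≠ 0 := by
      rintro e
      rw [e] at h2
      omega
    have h6 : H.index ≤ 2 := by
      by_contra h7
      have := Nat.mul_le_mul (show 3 ≤ H.index by omega) h1
      omega
    omega
  rcases h4 with e | e
  · rw [e, one_smul] at h3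
    have := H.add_mem h3 h3
    rwa [one_add_one_eq_two] at this
  · rw [e] at h3
    simpa using h3

/-- the stabiliser of a set of residues -/
def arithStab (L : Finset (ZMod (2 * k))) : AddSubgroup (ZMod (2 * k)) where
  carrier := {h | ∀ x, x + h ∈ L ↔ x ∈ L}
  add_mem' := fun {a b} ha hb x => by rw [← add_assoc, hb, ha]
  zero_mem' := fun x => by rw [add_zero]
  neg_mem' := fun {a} ha x => by rw [← ha (x + -a), neg_add_cancel_right]

lemma arith_compl (hk : 1 ≤ k) {A B : Finset (ZMod (2 * k))} (hA : k ≤ A.card) (hB : k ≤ B.card)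
    {c : ZMod (2 * k)} (h : ∀ a ∈ A, ∀ b ∈ B, a + b ≠ c) (x : ZMod (2 * k)) :
    x ∈ B ↔ c - x ∉ A := by
  have : NeZero (2 * k) := ⟨by omega⟩
  have h1 : B ⊆ (A.image (c - ·))ᶜ := by
    intro b hb
    rw [mem_compl, mem_image]
    rintro ⟨a, ha, e⟩
    exact h a ha b hb (by rw [← e]; ring)
  have h2 : B = (A.image (c - ·))ᶜ := eq_of_subset_of_card_le h1 (by
    rw [card_compl, card_image_of_injective _ sub_right_injective, ZMod.card]
    omega)
  rw [h2, mem_compl, mem_image]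
  refine not_congr ⟨?_, fun hx => ⟨c - x, hx, by ring⟩⟩
  rintro ⟨a, ha, rfl⟩
  simpa using ha

lemma arith_sub_mem (hk : 1 ≤ k) {A B : Finset (ZMod (2 * k))} (hA : k ≤ A.card)
    (hB : k ≤ B.card) {c c' : ZMod (2 * k)} (h : ∀ a ∈ A, ∀ b ∈ B, a + b ≠ c)
    (h' : ∀ a ∈ A, ∀ b ∈ B, a + b ≠ c') : c' - c ∈ arithStab A := by
  intro x
  have h1 := arith_compl hk hA hB h (c - x)
  have h2 := arith_compl hk hA hB h' (c - x)
  rw [sub_sub_cancel] at h1
  rw [show c' - (c - x) = x + (c' - c) by ring] at h2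
  exact not_iff_not.1 (h2.symm.trans h1)

lemma arith_even (hk : 1 ≤ k) {x : ZMod (2 * k)} (h : par k x = 0) : ∃ n : ℕ, n < k ∧ x = 2 * n := by
  have : NeZero (2 * k) := ⟨by omega⟩
  have h1 := ZMod.val_lt x
  rw [← ZMod.natCast_zmod_val x, par_natCast, ZMod.natCast_eq_zero_iff] at h
  obtain ⟨n, hn⟩ := h
  refine ⟨n, by omega, ?_⟩
  rw [← ZMod.natCast_zmod_val x, hn]
  push_cast
  rfl

lemma arith_even_mem (hk : 1 ≤ k) {H : AddSubgroup (ZMod (2 * k))} (h2 : (2 : ZMod (2 * k)) ∈ H)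
    {x : ZMod (2 * k)} (h : par k x = 0) : x ∈ H := by
  obtain ⟨n, -, rfl⟩ := arith_even hk h
  have := H.nsmul_mem h2 n
  rwa [nsmul_eq_mul, mul_comm (n : ZMod (2 * k))] at this

lemma arith_par_cases (e e' e'' : ZMod 2) (h : e ≠ e') : e'' = e ∨ e'' = e' := by
  revert e e' e''
  decide

lemma arith_closed {A : Finset (ZMod (2 * k))} (hA : A.Nonempty)
    (h : ∀ x ∈ A, x + 2 ∈ A) : k ≤ A.card := by
  obtain ⟨a, ha⟩ := hA
  have h1 : ∀ n : ℕ, a + 2 * n ∈ A := by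
    intro n
    induction n with
    | zero => simpa using ha
    | succ n ih =>
      have := h _ ih
      push_cast
      rwa [mul_add, mul_one, ← add_assoc]
  have := card_le_card_of_injOn (s := range k) (t := A) (fun n : ℕ => a + 2 * (n : ZMod (2 * k)))
    (fun n _ => h1 n) (fun n hn n' hn' e => by
      have e1 : ((2 * n : ℕ) : ZMod (2 * k)) = (2 * n' : ℕ) := by
        push_cast
        exact add_left_cancel e
      rw [mem_coe, mem_range] at hn hn'
      rw [ZMod.natCast_eq_natCast_iff', Nat.mod_eq_of_lt (by omega),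
        Nat.mod_eq_of_lt (by omega)] at e1
      omega)
  simpa using this

lemma arith_class_le (hk : 1 ≤ k) {A : Finset (ZMod (2 * k))} {e : ZMod 2}
    (h : ∀ x ∈ A, par k x = e) : A.card ≤ k := by
  rcases A.eq_empty_or_nonempty with rfl | ⟨a, ha⟩
  · simp
  have : A ⊆ (range k).image fun n : ℕ => a + 2 * (n : ZMod (2 * k)) := by
    intro x hx
    obtain ⟨n, hn, e1⟩ := arith_even hk (x := x - a) (by rw [map_sub, h x hx, h a ha, sub_self])
    exact mem_image.2 ⟨n, mem_range.2 hn, by rw [← e1]; ring⟩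
  exact (card_le_card this).trans (card_image_le.trans (card_range k).le)

lemma arith_class_bound (hk : 1 ≤ k) {B : Finset (ZMod (2 * k))} {e : ZMod 2} (hB : B.Nonempty)
    (pB : ∀ x ∈ B, par k x = e) (c : ZMod (2 * k)) (j : ℕ) : ∀ A : Finset (ZMod (2 * k)),
      A.Nonempty → (∀ x ∈ A, par k x = e) →
      (∀ a ∈ A, ∀ b ∈ B, ∀ i ≤ j, a + b + 2 * (i : ZMod (2 * k)) ≠ 2 * c) →
      A.card + B.card + j ≤ k := by
  induction j with
  | zero =>
    intro A _ pA h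
    have h1 : Disjoint A (B.image (2 * c - ·)) := by
      rw [disjoint_left]
      intro a ha hb
      obtain ⟨b, hb', rfl⟩ := mem_image.1 hb
      exact h _ ha b hb' 0 le_rfl (by simp)
    have h2 := arith_class_le hk (A := A ∪ B.image (2 * c - ·)) (e := e) fun x hx => by
      rcases mem_union.1 hx with hx | hx
      · exact pA x hx
      · obtain ⟨b, hb, rfl⟩ := mem_image.1 hx
        rw [map_sub, map_mul, par_two, zero_mul, pB b hb, zero_sub, ZMod.neg_eq_self_mod_two]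
    rwa [card_union_of_disjoint h1, card_image_of_injective _ sub_right_injective] at h2
  | succ j ih =>
    intro A hA pA h
    have h1 := ih (A ∪ A.image (· + 2)) (hA.mono subset_union_left) (fun x hx => by
      rcases mem_union.1 hx with hx | hx
      · exact pA x hx
      · obtain ⟨a, ha, rfl⟩ := mem_image.1 hx
        rw [map_add, par_two, add_zero, pA a ha]) fun x hx b hb i hi => by
      rcases mem_union.1 hx with hx | hx
      · exact h x hx b hb i (by omega)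
      · obtain ⟨a, ha, rfl⟩ := mem_image.1 hx
        have := h a ha b hb (i + 1) (by omega)
        push_cast at this
        rwa [show a + 2 + b + 2 * (i : ZMod (2 * k)) = a + b + 2 * (i + 1) by ring]
    have h2 := card_pos.2 hB
    have h3 := card_le_card (subset_union_left (s₁ := A) (s₂ := A.image (· + 2)))
    by_contra hc
    have h4 := eq_of_subset_of_card_le (subset_union_left (s₁ := A) (s₂ := A.image (· + 2)))
      (by omega)
    have := arith_closed hA fun x hx => by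
      rw [h4]
      exact mem_union_right _ (mem_image_of_mem _ hx)
    omega

lemma arith_split (S : Finset (ZMod (2 * k))) :
    (S.filter fun x => par k x = 0).card + (S.filter fun x => par k x = 1).card = S.card := by
  rw [← card_filter_add_card_filter_not (s := S) fun x => par k x = 0]
  congr 2
  refine filter_congr fun x _ => ?_
  generalize par k x = e
  revert e
  decide

lemma arith_cls (hk : 1 ≤ k) {S : Finset (ZMod (2 * k))} {j : ℕ} (hj : 1 ≤ j)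
    (c : ZMod (2 * k)) (h : ∀ a ∈ S, ∀ b ∈ S, ∀ i < j, a + b + 2 * (i : ZMod (2 * k)) ≠ 2 * c)
    (e : ZMod 2) : (S.filter fun x => par k x = e).card = 0 ∨
      2 * (S.filter fun x => par k x = e).card + j ≤ k + 1 := by
  rcases (S.filter fun x => par k x = e).eq_empty_or_nonempty with h0 | h0
  · exact Or.inl (by rw [h0, card_empty])
  · have := arith_class_bound hk h0 (fun x hx => (mem_filter.1 hx).2) c (j - 1) _ h0
      (fun x hx => (mem_filter.1 hx).2) fun a ha b hb i hi =>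
        h a (mem_filter.1 ha).1 b (mem_filter.1 hb).1 i (by omega)
    omega


/-- S3: three sets of at least `k` residues, one with both parities, sum to everything -/
lemma s3 (hk : 1 ≤ k) {L₁ L₂ L₃ : Finset (ZMod (2 * k))} (h₁ : k ≤ L₁.card) (h₂ : k ≤ L₂.card)
    (h₃ : k ≤ L₃.card) (hp : BothPar k L₃) (c : ZMod (2 * k)) :
    ∃ a ∈ L₁, ∃ b ∈ L₂, ∃ d ∈ L₃, a + b + d = c := by
  by_contra hc
  push Not at hc
  have h0 : ∀ d ∈ L₃, ∀ a ∈ L₁, ∀ b ∈ L₂, a + b ≠ c - d := fun d hd a ha b hb e =>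
    hc a ha b hb d hd (by rw [e]; ring)
  obtain ⟨d, hd, d', hd', hdd⟩ := hp
  have h1 : ∀ x ∈ L₃, d - x ∈ arithStab L₁ := fun x hx => by
    have := arith_sub_mem hk h₁ h₂ (h0 d hd) (h0 x hx)
    rwa [show c - x - (c - d) = d - x by ring] at this
  have h2 := arith_two_mem hk (arithStab L₁) (S := L₃.image (d - ·))
    (by rwa [card_image_of_injective _ sub_right_injective]) fun x hx => by
      obtain ⟨y, hy, rfl⟩ := mem_image.1 hx
      exact h1 y hy
  have h3 : ∀ x, x ∈ arithStab L₁ := fun x => by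
    rcases arith_par_cases 0 (par k (d - d')) (par k x)
      (by rw [map_sub]; exact (sub_ne_zero.2 hdd).symm) with e | e
    · exact arith_even_mem hk h2 e
    · have := (arithStab L₁).add_mem (arith_even_mem hk h2 (x := x - (d - d'))
        (by rw [map_sub, e, sub_self])) (h1 d' hd')
      rwa [sub_add_cancel] at this
  obtain ⟨a, ha⟩ := card_pos.1 (show 0 < L₁.card by omega)
  obtain ⟨b, hb⟩ := card_pos.1 (show 0 < L₂.card by omega)
  exact hc _ ((h3 (c - a - b - d) a).2 ha) b hb d hd (by ring)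

/-- doubling -/
lemma doubling (hk : 1 ≤ k) {S : Finset (ZMod (2 * k))} (h : k ≤ S.card) (c : ZMod (2 * k)) :
    ∃ a ∈ S, ∃ b ∈ S, a + b = 2 * c := by
  by_contra hc
  push Not at hc
  have := arith_compl hk h h hc c
  rw [show 2 * c - c = c by ring] at this
  exact iff_not_self this

/-- window lemma -/
lemma window (hk : 1 ≤ k) {S : Finset (ZMod (2 * k))} (hS : S.Nonempty) {j : ℕ} (hj : 1 ≤ j)
    (c : ZMod (2 * k)) (h : ∀ a ∈ S, ∀ b ∈ S, ∀ i < j, a + b + 2 * (i : ZMod (2 * k)) ≠ 2 * c) :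
    S.card + j ≤ k + 1 := by
  have h0 := arith_cls hk hj c h 0
  have h1 := arith_cls hk hj c h 1
  have h2 := arith_split S
  have h3 := card_pos.2 hS
  omega

/-- the tight case -/
lemma tight {a : ℕ} (ha : 3 ≤ a) (hak : a < k) {S : Finset (ZMod (2 * k))} (h2 : 2 ∈ S)
    (hS : k + 2 ≤ S.card + a)
    (h : ∀ x ∈ S, ∀ y ∈ S, ∀ i < a - 1, x + y + 2 * (i : ZMod (2 * k)) ≠ 2)
    (h' : ∀ x ∈ S, ∀ y ∈ S, ∀ z ∈ S, x + y + z + 2 * ((a - 3 : ℕ) : ZMod (2 * k)) ≠ 2) : False := by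
  have hk : 1 ≤ k := by omega
  have h0 := arith_cls hk (j := a - 1) (by omega) 1 (by simpa using h) 0
  have h1 := arith_cls hk (j := a - 1) (by omega) 1 (by simpa using h) 1
  have h3 := arith_split S
  set A := S.filter fun x => par k x = 0 with hA
  have mA : ∀ x, x ∈ A ↔ x ∈ S ∧ par k x = 0 := fun x => mem_filter
  have h4 : (2 : ZMod (2 * k)) ∈ A := (mA 2).2 ⟨h2, par_two⟩
  have h5 := card_pos.2 ⟨_, h4⟩
  have h6 : 2 * A.card + a = k + 2 := by omega
  by_cases h7 : (2 + 2 : ZMod (2 * k)) ∈ S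
  · have := window hk ⟨_, h2⟩ (j := a) (by omega) 1 fun x hx y hy i hi => by
      rw [mul_one]
      by_cases h8 : i < a - 1
      · exact h x hx y hy i h8
      · have := h' x hx y hy _ h7
        rw [show i = a - 3 + 2 by omega]
        push_cast
        rwa [show x + y + 2 * (((a - 3 : ℕ) : ZMod (2 * k)) + 2) =
          x + y + (2 + 2) + 2 * ((a - 3 : ℕ) : ZMod (2 * k)) by ring]
    omega
  have h8 := arith_class_bound hk ⟨_, h4⟩ (fun x hx => ((mA x).1 hx).2) 1 (a - 3)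
    (A ∪ A.image (· + 2)) ⟨_, mem_union_left _ h4⟩ (fun x hx => by
      rcases mem_union.1 hx with hx | hx
      · exact ((mA x).1 hx).2
      · obtain ⟨y, hy, rfl⟩ := mem_image.1 hx
        rw [map_add, par_two, add_zero, ((mA y).1 hy).2]) fun x hx b hb i hi => by
      rw [mul_one]
      rcases mem_union.1 hx with hx | hx
      · exact h x ((mA x).1 hx).1 b ((mA b).1 hb).1 i (by omega)
      · obtain ⟨y, hy, rfl⟩ := mem_image.1 hx
        have := h y ((mA y).1 hy).1 b ((mA b).1 hb).1 (i + 1) (by omega)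
        push_cast at this
        rwa [show y + 2 + b + 2 * (i : ZMod (2 * k)) = y + b + 2 * (i + 1) by ring]
  have h9 : (2 + 2 : ZMod (2 * k)) ∉ A := fun e => h7 ((mA _).1 e).1
  have h10 : insert (2 + 2) A = A ∪ A.image (· + 2) := eq_of_subset_of_card_le
    (insert_subset (mem_union_right _ (mem_image_of_mem _ h4)) subset_union_left)
    (by rw [card_insert_of_notMem h9]; omega)
  have h11 := card_erase_of_mem h4
  have := arith_closed (A := A.erase 2) (card_pos.1 (by omega)) fun x hx => by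
    rw [mem_erase] at hx ⊢
    refine ⟨fun e => ?_, ?_⟩
    · have e1 : x = 0 := by simpa using e
      exact h x ((mA x).1 hx.2).1 2 h2 0 (by omega) (by simp [e1])
    · have : x + 2 ∈ insert (2 + 2) A := by
        rw [h10]
        exact mem_union_right _ (mem_image_of_mem _ hx.2)
      exact (mem_insert.1 this).resolve_left fun e => hx.1 (add_right_cancel e)
  omega

lemma theta_arith (hk : 1 ≤ k) {L₁ L₂ L₃ : Finset (ZMod (2 * k))} (h₁ : k ≤ L₁.card)
    (h₂ : k ≤ L₂.card) (h₃ : k ≤ L₃.card) (h12 : ∀ a ∈ L₁, ∀ b ∈ L₂, a + b ≠ 2)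
    (h13 : ∀ a ∈ L₁, ∀ b ∈ L₃, a + b ≠ 2) (h23 : ∀ a ∈ L₂, ∀ b ∈ L₃, a + b ≠ 2) : False := by
  obtain ⟨a, ha, b, hb, e⟩ := doubling hk h₂ 1
  refine h23 a ha b ?_ (by rw [e, mul_one])
  rw [arith_compl hk h₁ h₃ h13, ← arith_compl hk h₁ h₂ h12]
  exact hb

lemma stab_arith (hk : 1 ≤ k) {L₂ L₃ : Finset (ZMod (2 * k))} (h₂ : k ≤ L₂.card)
    (h₃ : k ≤ L₃.card) (hp : BothPar k L₂) (r d₁ d₂ : ZMod (2 * k))
    (e0 : ∀ a ∈ L₂, ∀ b ∈ L₃, a + b + r ≠ 2)
    (e1 : ∀ a ∈ L₂, ∀ b ∈ L₃, a + b + (r + 2 - d₁) ≠ 2)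
    (e2 : ∀ a ∈ L₂, ∀ b ∈ L₃, a + b + (r + 2 - d₂) ≠ 2)
    (e3 : ∀ a ∈ L₂, ∀ b ∈ L₃, a + b + (r + 2 - d₁ - d₂) ≠ 2) : False := by
  have f : ∀ s : ZMod (2 * k), (∀ a ∈ L₂, ∀ b ∈ L₃, a + b + s ≠ 2) →
      ∀ a ∈ L₂, ∀ b ∈ L₃, a + b ≠ 2 - s := fun s h a ha b hb e => h a ha b hb (by rw [e]; ring)
  have h1 := arith_sub_mem hk h₂ h₃ (f _ e0) (f _ e1)
  have h2 := arith_sub_mem hk h₂ h₃ (f _ e2) (f _ e3)
  have h3 : (2 : ZMod (2 * k)) ∈ arithStab L₂ := by
    convert (arithStab L₂).sub_mem h2 h1 using 1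
    ring
  obtain ⟨a, ha, a', ha', hne⟩ := hp
  obtain ⟨b, hb⟩ := card_pos.1 (show 0 < L₃.card by omega)
  have h4 : ∀ x, ∀ y ∈ L₂, par k x = par k y → x ∈ L₂ := fun x y hy e => by
    have := (arith_even_mem hk h3 (x := x - y) (by rw [map_sub, e, sub_self]) y).2 hy
    rwa [add_sub_cancel] at this
  refine e0 (2 - r - b) ?_ b hb (by ring)
  rcases arith_par_cases _ _ (par k (2 - r - b)) hne with e | e
  · exact h4 _ a ha e
  · exact h4 _ a' ha' e

lemma star_arith (hk : 1 ≤ k) {L₂ L₃ : Finset (ZMod (2 * k))} (h₂ : k ≤ L₂.card)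
    (h₃ : k ≤ L₃.card) (r t t' : ZMod (2 * k)) (e0 : ∀ a ∈ L₂, ∀ b ∈ L₃, a + b + r ≠ 2)
    (e1 : ∀ a ∈ L₂, a + t ≠ 2) (e2 : ∀ b ∈ L₃, b + t' ≠ 2) : t + t' ≠ r + 2 := by
  intro e
  have h1 := arith_compl hk h₂ h₃ (c := 2 - r) (fun a ha b hb e => e0 a ha b hb (by rw [e]; ring))
    (2 - t')
  have h2 : 2 - t' ∉ L₃ := fun h => e2 _ h (by ring)
  rw [h1, not_not] at h2
  exact e1 _ h2 (by linear_combination e)

/-- an element of the ideal spanned by `Δ` is a short sum of elements of `Δ` -/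
lemma span_list (hk : 1 ≤ k) (Δ : Set (ZMod (2 * k))) {x : ZMod (2 * k)}
    (hx : x ∈ Ideal.span Δ) :
    ∃ l : List (ZMod (2 * k)), (∀ d ∈ l, d ∈ Δ) ∧ l.length ≤ (2 * k) ^ 2 ∧ l.sum = x := by
  have : NeZero (2 * k) := ⟨by omega⟩
  obtain ⟨c, hc, rfl⟩ := Submodule.mem_span_set.1 hx
  have key : ∀ s : Finset (ZMod (2 * k)), (∀ d ∈ s, d ∈ Δ) → ∃ l : List (ZMod (2 * k)),
      (∀ d ∈ l, d ∈ Δ) ∧ l.length ≤ s.card * (2 * k) ∧ l.sum = ∑ d ∈ s, c d • d := by
    intro s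
    induction s using Finset.induction_on with
    | empty => exact fun _ => ⟨[], by simp, by simp, by simp⟩
    | insert d s hd ih =>
      intro h
      obtain ⟨l, h1, h2, h3⟩ := ih fun x hx => h x (mem_insert_of_mem hx)
      refine ⟨List.replicate (c d).val d ++ l, fun x hx => ?_, ?_, ?_⟩
      · rcases List.mem_append.1 hx with hx | hx
        · rw [List.eq_of_mem_replicate hx]
          exact h d (mem_insert_self _ _)
        · exact h1 x hx
      · have := ZMod.val_lt (c d)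
        rw [List.length_append, List.length_replicate, card_insert_of_notMem hd, add_mul]
        omega
      · rw [List.sum_append, List.sum_replicate, h3, sum_insert hd, nsmul_eq_mul,
          ZMod.natCast_zmod_val, smul_eq_mul]
  obtain ⟨l, h1, h2, h3⟩ := key c.support fun d hd => hc hd
  refine ⟨l, h1, h2.trans ?_, h3⟩
  rw [sq]
  exact Nat.mul_le_mul_right _ ((card_le_univ _).trans (ZMod.card _).le)

/-- an ideal with at least `k` elements contains `2` -/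
lemma two_mem_ideal (hk : 1 ≤ k) (K : Ideal (ZMod (2 * k))) {S : Finset (ZMod (2 * k))}
    (hS : k ≤ S.card) (h : ∀ x ∈ S, x ∈ K) : (2 : ZMod (2 * k)) ∈ K := by
  exact arith_two_mem hk K.toAddSubgroup hS h

end Pool.Agent.Work.MP_66aaa3_co
end

-- merged part: Pool.Agent.Work.MP_66aaa3_co.MinA
section
namespace Pool.Agent.Work.MP_66aaa3_co

open Finset

variable {V : Type} [DecidableEq V] {G : SimpleGraph V} {k : ℕ}

lemma IsP.exists_join {p q : ℕ → V} {n n' : ℕ} (h : IsP G p n) (h' : IsP G q n')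
    (ha : G.Adj (p n) (q 0)) (hd : Disjoint (pv p n) (pv q n')) :
    ∃ r, IsP G r (n + 1 + n') ∧ (∀ i ≤ n, r i = p i) ∧ (∀ j ≤ n', r (n + 1 + j) = q j) ∧
      pv r (n + 1 + n') = pv p n ∪ pv q n' := by
  have hd' : ∀ i ≤ n, ∀ j ≤ n', p i ≠ q j := fun i hi j hj e =>
    disjoint_left.1 hd (mem_pv.2 ⟨i, hi, rfl⟩) (mem_pv.2 ⟨j, hj, e.symm⟩)
  have h1 := h.snoc ha (fun i hi => hd' i hi 0 (Nat.zero_le _))
  have h2 := h1.append h' (by simp) (by
    intro i hi j hj e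
    by_cases h3 : i ≤ n
    · simp only [h3, if_true] at e; exact absurd e (hd' i h3 j hj)
    · simp only [h3, if_false] at e; exact (h'.inj (Nat.zero_le _) hj e).symm)
  have e1 : ∀ i ≤ n, (fun i => if i ≤ n + 1 then (if i ≤ n then p i else q 0) else q (i - (n + 1))) i
      = p i := fun i hi => by simp [hi, show i ≤ n + 1 by omega]
  have e2 : ∀ j ≤ n', (fun i => if i ≤ n + 1 then (if i ≤ n then p i else q 0)
      else q (i - (n + 1))) (n + 1 + j) = q j := fun j hj => by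
    rcases Nat.eq_zero_or_pos j with rfl | h0
    · simp
    · simp only [show ¬ n + 1 + j ≤ n + 1 by omega, if_false]; congr 1; omega
  refine ⟨_, h2, e1, e2, ?_⟩
  ext v
  simp only [mem_pv, mem_union]
  constructor
  · rintro ⟨i, hi, rfl⟩
    by_cases h3 : i ≤ n
    · exact Or.inl ⟨i, h3, (e1 i h3).symm⟩
    · refine Or.inr ⟨i - (n + 1), by omega, ?_⟩
      have h4 := e2 (i - (n + 1)) (by omega)
      rw [show n + 1 + (i - (n + 1)) = i by omega] at h4
      exact h4.symm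
  · rintro (⟨i, hi, rfl⟩ | ⟨j, hj, rfl⟩)
    · exact ⟨i, by omega, e1 i hi⟩
    · exact ⟨n + 1 + j, by omega, e2 j hj⟩

lemma mem_pv_shift {p : ℕ → V} {b T : ℕ} (hb : b ≤ T) {v : V} :
    v ∈ pv (fun i => p (b + i)) (T - b) ↔ ∃ i, b ≤ i ∧ i ≤ T ∧ p i = v := by
  simp only [mem_pv]
  constructor
  · rintro ⟨i, hi, rfl⟩; exact ⟨b + i, by omega, by omega, rfl⟩
  · rintro ⟨i, h1, h2, rfl⟩; exact ⟨i - b, by omega, by congr 1; omega⟩

lemma pv_mono {p : ℕ → V} {a b : ℕ} (h : a ≤ b) : pv p a ⊆ pv p b := by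
  intro v hv
  obtain ⟨i, hi, rfl⟩ := mem_pv.1 hv
  exact mem_pv.2 ⟨i, by omega, rfl⟩

lemma mem_pv_self {p : ℕ → V} {T i : ℕ} (h : i ≤ T) : p i ∈ pv p T := mem_pv.2 ⟨i, h, rfl⟩

/-- reroute a path through an outside path -/
lemma IsP.reroute {p r : ℕ → V} {T n a b : ℕ} (hp : IsP G p T) (hr : IsP G r n)
    (hd : Disjoint (pv r n) (pv p T)) (hab : a < b) (hb : b ≤ T) (h1 : G.Adj (p a) (r 0))
    (h2 : G.Adj (r n) (p b)) :
    ∃ p', IsP G p' (a + 1 + n + 1 + (T - b)) ∧ p' 0 = p 0 ∧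
      p' (a + 1 + n + 1 + (T - b)) = p T ∧ ∀ v, v ∈ pv p' (a + 1 + n + 1 + (T - b)) ↔
        v ∈ pv r n ∨ ∃ i ≤ T, (i ≤ a ∨ b ≤ i) ∧ p i = v := by
  obtain ⟨q, q1, q2, q3, q4⟩ := (hp.trunc (show a ≤ T by omega)).exists_join hr h1
    ((hd.mono_right (pv_mono (by omega))).symm)
  obtain ⟨s, s1, s2, s3, s4⟩ := q1.exists_join (hp.shift hb) (by rw [q3 n le_rfl]; exact h2) (by
    rw [q4, disjoint_left]
    intro v hv hv'
    obtain ⟨i, i1, i2, rfl⟩ := (mem_pv_shift hb).1 hv'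
    rcases mem_union.1 hv with e | e
    · obtain ⟨j, hj, e⟩ := mem_pv.1 e
      have := hp.inj (by omega) i2 e; omega
    · exact disjoint_left.1 hd e (mem_pv_self i2))
  refine ⟨s, s1, by rw [s2 0 (by omega), q2 0 (by omega)], by
    rw [s3 _ le_rfl]; congr 1; omega, fun v => ?_⟩
  rw [s4, q4, mem_union, mem_union, mem_pv_shift hb, mem_pv]
  constructor
  · rintro ((⟨i, hi, rfl⟩ | e) | ⟨i, i1, i2, rfl⟩)
    · exact Or.inr ⟨i, by omega, Or.inl hi, rfl⟩
    · exact Or.inl e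
    · exact Or.inr ⟨i, i2, Or.inr i1, rfl⟩
  · rintro (e | ⟨i, hi, e | e, rfl⟩)
    · exact Or.inl (Or.inr e)
    · exact Or.inl (Or.inl ⟨i, e, rfl⟩)
    · exact Or.inr ⟨i, e, hi, rfl⟩

lemma exists_consec (P : ℕ → Prop) {c d : ℕ} (hd : P d) (hcd : c ≠ d) :
    ∃ c', P c' ∧ c' ≠ c ∧ ∀ e, P e → min c c' < e → e < max c c' → False := by
  classical
  rcases lt_or_gt_of_ne hcd with h | h
  · have hex : ∃ e, c < e ∧ P e := ⟨d, h, hd⟩
    have h1 := Nat.find_spec hex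
    refine ⟨Nat.find hex, h1.2, by omega, fun e he h2 h3 => ?_⟩
    exact Nat.find_min hex (m := e) (by omega) ⟨by omega, he⟩
  · have h1 : P (Nat.findGreatest P (c - 1)) := Nat.findGreatest_spec (show d ≤ c - 1 by omega) hd
    have h2 := Nat.findGreatest_le (P := P) (c - 1)
    refine ⟨_, h1, by omega, fun e he h3 h4 => ?_⟩
    have := Nat.le_findGreatest (P := P) (show e ≤ c - 1 by omega) he
    omega

lemma deg_le_of_induced {r : ℕ → V} {n : ℕ}
    (hi : ∀ i ≤ n, ∀ j ≤ n, G.Adj (r i) (r j) → j = i + 1 ∨ i = j + 1) {i : ℕ} (h : i ≤ n) :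
    deg G (pv r n) (r i) ≤ 2 ∧ (i = 0 ∨ i = n → deg G (pv r n) (r i) ≤ 1) := by
  constructor
  · refine le_trans (deg_le_card' (T := {r (i - 1), r (i + 1)}) ?_) card_le_two
    intro w hw a
    obtain ⟨j, hj, rfl⟩ := mem_pv.1 hw
    rcases hi i h j hj a with e | e
    · simp [e]
    · simp [e]
  · rintro (rfl | rfl)
    · refine deg_le_card' (T := {r 1}) ?_
      intro w hw a
      obtain ⟨j, hj, rfl⟩ := mem_pv.1 hw
      rcases hi 0 h j hj a with e | e
      · simp [e]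
      · omega
    · refine deg_le_card' (T := {r (i - 1)}) ?_
      intro w hw a
      obtain ⟨j, hj, rfl⟩ := mem_pv.1 hw
      rcases hi i h j hj a with e | e
      · omega
      · simp [e]

/-- the three irreducible shapes -/
def Irr (G : SimpleGraph V) (C : Finset V) (p : ℕ → V) (T : ℕ) : Prop :=
  (∃ v, C = {v}) ∨
    (∃ a ∈ C, ∃ b ∈ C, a ≠ b ∧ deg G C a ≤ 1 ∧ deg G C b ≤ 1 ∧
      (∀ i ≤ T, ¬ (G.Adj a (p i) ∧ G.Adj b (p i))) ∧
      ∀ c ∈ C, c ≠ a → c ≠ b → deg G C c ≤ 2 ∧ ∀ i ≤ T, ¬ G.Adj c (p i)) ∨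
    (∃ q ≤ T, ∀ u ∈ C, ∀ i ≤ T, G.Adj u (p i) → i = q)

lemma irr_of_cover {C : Finset V} {p : ℕ → V} {T : ℕ} (hc : Conn G C)
    (cov : ∀ a b, a < b → b ≤ T → (∀ e, (e ≤ T ∧ ∃ u ∈ C, G.Adj u (p e)) → a < e → e < b → False) →
      ∀ r n, IsP G r n → (∀ i ≤ n, r i ∈ C) → G.Adj (r 0) (p a) → G.Adj (r n) (p b) →
      C ⊆ pv r n) : Irr G C p T := by
  by_cases h1 : ∃ q ≤ T, ∀ u ∈ C, ∀ i ≤ T, G.Adj u (p i) → i = q
  · exact Or.inr (Or.inr h1)
  push Not at h1
  have key : ∀ c ≤ T, ∃ c' ≤ T, ∃ w' ∈ C, G.Adj w' (p c') ∧ ∀ w, G.Adj w (p c) →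
      ∀ (S : Set V) n, S ⊆ C → PathIn G S w w' n → ∀ v ∈ C, v ∈ S := by
    intro c hc
    obtain ⟨u, hu, d, hd, hud, hdc⟩ := h1 c hc
    obtain ⟨c', ⟨h2, w', hw', h3⟩, h4, h5⟩ := exists_consec
      (fun e => e ≤ T ∧ ∃ u ∈ C, G.Adj u (p e)) ⟨hd, u, hu, hud⟩ hdc.symm
    refine ⟨c', h2, w', hw', h3, fun w hw S n hS hP v hv => ?_⟩
    rcases lt_or_gt_of_ne h4 with h6 | h6
    · obtain ⟨r, r1, r2, r3, r4⟩ := hP.symm
      have := cov c' c h6 hc (fun e he e1 e2 => h5 e he (by omega) (by omega)) r n r1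
        (fun i hi => hS (r4 i hi)) (r2 ▸ h3) (r3 ▸ hw) hv
      obtain ⟨i, hi, rfl⟩ := mem_pv.1 this
      exact r4 i hi
    · obtain ⟨r, r1, r2, r3, r4⟩ := hP
      have := cov c c' h6 h2 (fun e he e1 e2 => h5 e he (by omega) (by omega)) r n r1
        (fun i hi => hS (r4 i hi)) (r2 ▸ hw) (r3 ▸ h3) hv
      obtain ⟨i, hi, rfl⟩ := mem_pv.1 this
      exact r4 i hi
  obtain ⟨u, hu, d, hd, hud, -⟩ := h1 0 (Nat.zero_le _)
  obtain ⟨c', -, w', hw', -, h2⟩ := key d hd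
  obtain ⟨n0, hn0⟩ := hc u hu w' hw'
  obtain ⟨r, n, r1, r2, r3, r4, -, r6⟩ := exists_induced (Y := {w'}) hn0 rfl
  have hC : C = pv r n := by
    apply Subset.antisymm
    · intro v hv
      exact h2 u hud (pv r n) n (fun v hv => by
        obtain ⟨i, hi, rfl⟩ := mem_pv.1 hv; exact r4 i hi)
        ⟨r, r1, r2, r3, fun i hi => mem_pv_self hi⟩ v hv
    · intro v hv
      obtain ⟨i, hi, rfl⟩ := mem_pv.1 hv; exact r4 i hi
  rcases Nat.eq_zero_or_pos n with rfl | hn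
  · left; exact ⟨r 0, by rw [hC]; simp [pv]⟩
  have ends : ∀ c ≤ T, ∃ j ≤ n, ∀ i ≤ n, G.Adj (r i) (p c) → min i j = 0 ∧ max i j = n := by
    intro c hc
    obtain ⟨c', -, w, hw, -, h3⟩ := key c hc
    rw [hC] at hw
    obtain ⟨j, hj, rfl⟩ := mem_pv.1 hw
    refine ⟨j, hj, fun i hi a => ?_⟩
    have h4 := h3 _ a _ _ (by
      rintro v ⟨s, hs, rfl⟩
      exact r4 s (le_trans hs.2 (max_le hi hj))) (r1.useg hi hj)
    obtain ⟨s, hs, e⟩ := h4 _ (r4 0 (Nat.zero_le _))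
    obtain ⟨t, ht, e'⟩ := h4 _ (r4 n le_rfl)
    have h5 := r1.inj (le_trans hs.2 (max_le hi hj)) (Nat.zero_le _) e
    have h6 := r1.inj (le_trans ht.2 (max_le hi hj)) le_rfl e'
    have h7 : min i j ≤ s := hs.1
    have h8 : t ≤ max i j := ht.2
    omega
  right; left
  refine ⟨r 0, r4 0 (Nat.zero_le _), r n, r4 n le_rfl, r1.ne (Nat.zero_le _) le_rfl (by omega),
    hC ▸ (deg_le_of_induced r6 (Nat.zero_le _)).2 (Or.inl rfl),
    hC ▸ (deg_le_of_induced r6 le_rfl).2 (Or.inr rfl), ?_, ?_⟩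
  · rintro i hi ⟨a1, a2⟩
    obtain ⟨j, hj, h3⟩ := ends i hi
    have := h3 0 (Nat.zero_le _) a1
    have := h3 n le_rfl a2
    omega
  · intro c hc c1 c2
    rw [hC] at hc
    obtain ⟨s, hs, rfl⟩ := mem_pv.1 hc
    refine ⟨hC ▸ (deg_le_of_induced r6 hs).1, fun i hi a => ?_⟩
    obtain ⟨j, hj, h3⟩ := ends i hi
    have := h3 s hs a
    have : s ≠ 0 := fun e => c1 (by rw [e])
    have : s ≠ n := fun e => c2 (by rw [e])
    omega

lemma min_piece_aux (W : Finset V) (N : ℕ) : ∀ (C : Finset V) (p : ℕ → V) (T : ℕ), C.card ≤ N →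
    IsP G p T → C.Nonempty → Disjoint C (pv p T) →
    (∀ u ∈ C, ∀ w ∈ W, G.Adj u w → w ∈ C ∨ w ∈ pv p T) →
    ∃ (p' : ℕ → V) (T' : ℕ) (C' : Finset V), IsP G p' T' ∧ p' 0 = p 0 ∧ p' T' = p T ∧
      pv p' T' ⊆ C ∪ pv p T ∧ C'.Nonempty ∧ C' ⊆ C ∧ Conn G C' ∧ Disjoint C' (pv p' T') ∧
      (∀ u ∈ C', ∀ w ∈ W, G.Adj u w → w ∈ C' ∨ w ∈ pv p' T') ∧ Irr G C' p' T' := by
  induction N with
  | zero =>
    intro C p T hN _ hC
    have := card_pos.2 hC; omega
  | succ N ih =>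
    intro C p T hN hp hC hd hcl
    obtain ⟨u, hu⟩ := hC
    obtain ⟨D, hD, huD⟩ := exists_comp (G := G) C hu
    by_cases h1 : D = C
    swap
    · have h2 := card_lt_card (ssubset_of_subset_of_ne hD.2.1 h1)
      obtain ⟨p', T', C', a1, a2, a3, a4, a5, a6, a7⟩ := ih D p T (by omega) hp hD.1
        (hd.mono_left hD.2.1) (fun a ha w hw haw => (hcl a (hD.2.1 ha) w hw haw).imp_left
          fun e => hD.2.2.2 a ha w e haw)
      exact ⟨p', T', C', a1, a2, a3, a4.trans (union_subset_union hD.2.1 Subset.rfl), a5,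
        a6.trans hD.2.1, a7⟩
    subst h1
    by_cases h2 : ∀ a b, a < b → b ≤ T →
        (∀ e, (e ≤ T ∧ ∃ u ∈ D, G.Adj u (p e)) → a < e → e < b → False) →
        ∀ r n, IsP G r n → (∀ i ≤ n, r i ∈ D) → G.Adj (r 0) (p a) → G.Adj (r n) (p b) →
        D ⊆ pv r n
    · exact ⟨p, T, D, hp, rfl, rfl, subset_union_right, hD.1, Subset.rfl, hD.2.2.1, hd, hcl,
        irr_of_cover hD.2.2.1 h2⟩
    push Not at h2
    obtain ⟨a, b, hab, hb, h3, r, n, r1, r2, r3, r4, r5⟩ := h2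
    have hrD : pv r n ⊆ D := fun v hv => by
      obtain ⟨i, hi, rfl⟩ := mem_pv.1 hv; exact r2 i hi
    obtain ⟨q, q1, q2, q3, q4⟩ := hp.reroute r1 (hd.mono_left hrD) hab hb r3.symm r4
    have h4 : (D \ pv r n).card < D.card := card_lt_card (sdiff_ssubset hrD
      ⟨r 0, mem_pv_self (Nat.zero_le _)⟩)
    obtain ⟨p', T', C', a1, a2, a3, a4, a5, a6, a7⟩ := ih (D \ pv r n) q _ (by omega) q1
      (sdiff_nonempty.2 r5) (by
        rw [disjoint_left]
        intro v hv hv'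
        rcases (q4 v).1 hv' with e | ⟨i, hi, -, rfl⟩
        · exact (mem_sdiff.1 hv).2 e
        · exact disjoint_left.1 hd (mem_sdiff.1 hv).1 (mem_pv_self hi)) (by
        intro x hx w hw a1
        rw [q4]
        rcases hcl x (mem_sdiff.1 hx).1 w hw a1 with e | e
        · by_cases e' : w ∈ pv r n
          · exact Or.inr (Or.inl e')
          · exact Or.inl (mem_sdiff.2 ⟨e, e'⟩)
        · obtain ⟨i, hi, rfl⟩ := mem_pv.1 e
          refine Or.inr (Or.inr ⟨i, hi, ?_, rfl⟩)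
          by_contra hc
          exact h3 i ⟨hi, x, (mem_sdiff.1 hx).1, a1⟩ (by omega) (by omega))
    refine ⟨p', T', C', a1, a2.trans q2, a3.trans q3, ?_, a5, a6.trans sdiff_subset, a7⟩
    intro v hv
    rcases mem_union.1 (a4 hv) with e | e
    · exact mem_union_left _ (mem_sdiff.1 e).1
    · rcases (q4 v).1 e with e | ⟨i, hi, -, rfl⟩
      · exact mem_union_left _ (hrD e)
      · exact mem_union_right _ (mem_pv_self hi)

end Pool.Agent.Work.MP_66aaa3_co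
end

-- merged part: Pool.Agent.Work.MP_66aaa3_co.MinB
section
namespace Pool.Agent.Work.MP_66aaa3_co

open Finset

variable {k : ℕ}

lemma cast_ne_zero' {m n : ℕ} (h0 : 0 < n) (h : n < m) : (n : ZMod m) ≠ 0 := by
  rw [Ne, ZMod.natCast_eq_zero_iff]
  exact Nat.not_dvd_of_pos_of_lt h0 h

lemma card_par_le (hk : 1 ≤ k) {L : Finset (ZMod (2 * k))} {e : ZMod 2} (h : ∀ x ∈ L, par k x = e) :
    L.card ≤ k := by
  have : NeZero (2 * k) := ⟨by omega⟩
  have := card_le_card_of_injOn (s := L) (t := range k) (fun x => x.val / 2) (fun x _ => by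
    have := ZMod.val_lt x
    simp only [coe_range, Set.mem_Iio]; omega) (fun x hx y hy e' => by
      have h1 : par k (x.val : ZMod (2 * k)) = par k (y.val : ZMod (2 * k)) := by
        rw [ZMod.natCast_zmod_val, ZMod.natCast_zmod_val, h x hx, h y hy]
      rw [par_eq_iff] at h1
      apply ZMod.val_injective
      simp only at e'
      omega)
  simpa using this

/-- `k` numbers of one parity, distinct modulo `2 k`, cover that parity class -/
lemma cover_par (hk : 1 ≤ k) {S : Finset ℕ} (f : ℕ → ℕ) (hS : k ≤ S.card) (c : ℕ)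
    (hi : ∀ i ∈ S, ∀ j ∈ S, (f i : ZMod (2 * k)) = f j → i = j) (hp : ∀ i ∈ S, f i % 2 = c % 2) :
    ∃ i ∈ S, (f i : ZMod (2 * k)) = c := by
  classical
  by_contra hc
  push Not at hc
  have h1 := card_par_le hk (L := insert (c : ZMod (2 * k)) (S.image fun i => (f i : ZMod (2 * k))))
    (e := par k c) (by
      intro x hx
      rcases mem_insert.1 hx with rfl | hx
      · rfl
      · obtain ⟨i, hi, rfl⟩ := mem_image.1 hx
        exact par_eq_iff.2 (hp i hi))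
  rw [card_insert_of_notMem (by simpa using hc), card_image_of_injOn (fun i h1 j h2 => hi i h1 j h2)]
    at h1
  omega

lemma ex2 {S : Finset ℕ} (h : 2 ≤ S.card) : ∃ a ∈ S, ∃ b ∈ S, a < b := by
  obtain ⟨a, ha, b, hb, hab⟩ := one_lt_card.1 h
  rcases lt_or_gt_of_ne hab with e | e
  · exact ⟨a, ha, b, hb, e⟩
  · exact ⟨b, hb, a, ha, e⟩

lemma ex3 {S : Finset ℕ} (h : 3 ≤ S.card) : ∃ a ∈ S, ∃ b ∈ S, ∃ c ∈ S, a < b ∧ b < c := by
  have hne : S.Nonempty := card_pos.1 (by omega)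
  obtain ⟨b, hb, c, hc, hbc⟩ := ex2 (S := S.erase (S.min' hne))
    (by rw [card_erase_of_mem (min'_mem _ _)]; omega)
  refine ⟨_, min'_mem S hne, b, mem_of_mem_erase hb, c, mem_of_mem_erase hc, ?_, hbc⟩
  exact lt_of_le_of_ne (min'_le _ _ (mem_of_mem_erase hb)) (ne_of_mem_erase hb).symm

lemma cast_c1 {m c T j l : ℕ} (hj : j ≤ T) (hl : l ≤ T)
    (e : ((c + (T - j) : ℕ) : ZMod m) = (c + (T - l) : ℕ)) : (j : ZMod m) = l := by
  push_cast [Nat.cast_sub hj, Nat.cast_sub hl] at e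
  linear_combination -e

lemma cast_c2 {m c d i j : ℕ} (e : ((i + c + d : ℕ) : ZMod m) = (j + c + d : ℕ)) :
    (i : ZMod m) = j := by
  push_cast at e
  linear_combination e

/-- two residues in each parity class -/
def Two (k : ℕ) (P : ZMod (2 * k) → Prop) : Prop :=
  ∀ e : ZMod 2, ∃ a b, a ≠ b ∧ par k a = e ∧ par k b = e ∧ P a ∧ P b

lemma two_of {P : ZMod (2 * k) → Prop} (T : ℕ)
    (h : ∀ d < 2, (∀ a b : ℕ, P a → P b → (a + T) % 2 = d → (b + T) % 2 = d →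
      (a : ZMod (2 * k)) = b) → False) : Two k P := by
  intro e
  by_contra hc
  push Not at hc
  refine h ((e.val + T) % 2) (Nat.mod_lt _ (by omega)) fun a b ha hb h1 h2 => ?_
  by_contra hne
  have h3 := ZMod.val_lt e
  have key : ∀ c : ℕ, (c + T) % 2 = (e.val + T) % 2 → par k (c : ZMod (2 * k)) = e := by
    intro c h4
    rw [par_natCast, ← ZMod.natCast_zmod_val e, ZMod.natCast_eq_natCast_iff']
    omega
  exact hc a b hne (key a h1) (key b h2) ha hb

lemma gad_of {P : ZMod (2 * k) → Prop} {S : Finset ℕ} (f : ℕ → ℕ) (hS : k ≤ S.card)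
    (hi : ∀ i ∈ S, ∀ j ∈ S, (f i : ZMod (2 * k)) = f j → i = j) (hP : ∀ i ∈ S, P (f i))
    {a b : ℕ} (ha : P a) (hb : P b) (hab : a % 2 ≠ b % 2) :
    ∃ L : Finset (ZMod (2 * k)), k ≤ L.card ∧ BothPar k L ∧ ∀ r ∈ L, P r := by
  classical
  refine ⟨insert (a : ZMod (2 * k)) (insert (b : ZMod (2 * k))
    (S.image fun i => (f i : ZMod (2 * k)))), ?_, ⟨a, by simp, b, by simp, ?_⟩, ?_⟩
  · refine le_trans ?_ (card_le_card ((subset_insert _ _).trans (subset_insert _ _)))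
    rwa [card_image_of_injOn (fun i h1 j h2 => hi i h1 j h2)]
  · rwa [Ne, par_eq_iff]
  · intro r hr
    simp only [mem_insert, mem_image] at hr
    rcases hr with rfl | rfl | ⟨i, hi, rfl⟩
    exacts [ha, hb, hP i hi]

lemma v_arith (hk : 3 ≤ k) {N : Finset ℕ} {T : ℕ} (hN : ∀ i ∈ N, i ≤ T)
    (hi : ∀ i ∈ N, ∀ j ∈ N, (i : ZMod (2 * k)) = j → i = j) (hc : k + 1 ≤ N.card)
    {P : ZMod (2 * k) → Prop} (hT : P T)
    (hP : ∀ i ∈ N, ∀ j ∈ N, i < j → P (i + 2 + (T - j) : ℕ)) :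
    (∃ L : Finset (ZMod (2 * k)), k ≤ L.card ∧ BothPar k L ∧ ∀ r ∈ L, P r) ∧
      (4 ≤ k → Two k P) := by
  have hne : N.Nonempty := card_pos.1 (by omega)
  obtain ⟨t, ht, htm⟩ : ∃ t ∈ N, ∀ i ∈ N, t ≤ i := ⟨_, min'_mem N hne, fun i => min'_le _ _⟩
  obtain ⟨z, hz, hzt⟩ : ∃ z ∈ N, z % 2 ≠ t % 2 := by
    by_contra h1
    push Not at h1
    obtain ⟨i, h2, h3⟩ := cover_par (k := k) (by omega) (S := N.erase t) id
      (by rw [card_erase_of_mem ht]; omega) t
      (fun i h2 j h3 => hi i (mem_of_mem_erase h2) j (mem_of_mem_erase h3))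
      (fun i h2 => h1 i (mem_of_mem_erase h2))
    exact ne_of_mem_erase h2 (hi i (mem_of_mem_erase h2) t ht h3)
  have hz' : t < z := lt_of_le_of_ne (htm z hz) (by rintro rfl; exact hzt rfl)
  refine ⟨gad_of (S := N.erase t) (fun j => t + 2 + (T - j))
    (by rw [card_erase_of_mem ht]; omega) (fun i h1 j h2 e => ?_) (fun i h1 => ?_) hT
    (hP t ht z hz hz') (by have := hN z hz; omega), fun h4 => two_of T fun d hd h => ?_⟩
  · have h3 := mem_of_mem_erase h1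
    have h4 := mem_of_mem_erase h2
    exact hi i h3 j h4 (cast_c1 (hN i h3) (hN j h4) e)
  · have h3 := mem_of_mem_erase h1
    exact hP t ht i h3 (lt_of_le_of_ne (htm i h3) (ne_of_mem_erase h1).symm)
  have F : ∀ a ∈ N, ∀ b ∈ N, ∀ c ∈ N, a < b → b < c → (a + b) % 2 = d → (a + c) % 2 = d → False := by
    intro a ha b hb c hc h1 h2 h3 h5
    have := hN b hb
    have := hN c hc
    have := hi b hb c hc (cast_c1 (hN b hb) (hN c hc)
      (h _ _ (hP a ha b hb h1) (hP a ha c hc (by omega)) (by omega) (by omega)))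
    omega
  have L : ∀ a ∈ N, ∀ b ∈ N, ∀ c ∈ N, a < b → b < c → (a + c) % 2 = d → (b + c) % 2 = d → False := by
    intro a ha b hb c hc h1 h2 h3 h5
    have := hN c hc
    have := hi a ha b hb (cast_c2
      (h _ _ (hP a ha c hc (by omega)) (hP b hb c hc h2) (by omega) (by omega)))
    omega
  have hs := card_filter_add_card_filter_not (s := N) (fun i => i % 2 = t % 2)
  rcases (show d = 0 ∨ d = 1 by omega) with rfl | rfl
  · rcases (show 3 ≤ (N.filter fun i => i % 2 = t % 2).card ∨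
      3 ≤ (N.filter fun i => ¬ i % 2 = t % 2).card by omega) with h1 | h1 <;>
    · obtain ⟨a, ha, b, hb, c, hc, h2, h3⟩ := ex3 h1
      rw [mem_filter] at ha hb hc
      exact F a ha.1 b hb.1 c hc.1 h2 h3 (by omega) (by omega)
  · rcases (show 3 ≤ (N.filter fun i => i % 2 = t % 2).card ∨
      2 ≤ (N.filter fun i => ¬ i % 2 = t % 2).card by omega) with h1 | h1
    · obtain ⟨a, ha, b, hb, c, hc, h2, h3⟩ := ex3 h1
      rw [mem_filter] at ha hb hc
      rcases lt_trichotomy z b with e | e | e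
      · exact F z hz b hb.1 c hc.1 e h3 (by omega) (by omega)
      · omega
      · exact L a ha.1 b hb.1 z hz h2 e (by omega) (by omega)
    · obtain ⟨a, ha, b, hb, h2⟩ := ex2 h1
      rw [mem_filter] at ha hb
      have := htm a ha.1
      exact F t ht a ha.1 b hb.1 (by omega) h2 (by omega) (by omega)

lemma e_arith_aux (hk : 3 ≤ k) {A B : Finset ℕ} {T : ℕ} (hA : ∀ i ∈ A, i ≤ T) (hB : ∀ i ∈ B, i ≤ T)
    (iA : ∀ i ∈ A, ∀ j ∈ A, (i : ZMod (2 * k)) = j → i = j)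
    (iB : ∀ i ∈ B, ∀ j ∈ B, (i : ZMod (2 * k)) = j → i = j) (cA : k ≤ A.card) (cB : k ≤ B.card)
    (hd : ∀ i ∈ A, ∀ j ∈ B, i ≠ j) {P : ZMod (2 * k) → Prop} (hT : P T)
    (pA : ∀ i ∈ A, ∀ j ∈ A, i < j → P (i + 2 + (T - j) : ℕ))
    (pB : ∀ i ∈ B, ∀ j ∈ B, i < j → P (i + 2 + (T - j) : ℕ))
    (pAB : ∀ i ∈ A, ∀ j ∈ B, i < j → P (i + 3 + (T - j) : ℕ))
    (pBA : ∀ i ∈ B, ∀ j ∈ A, i < j → P (i + 3 + (T - j) : ℕ))
    (bAB : ∀ i ∈ A, ∀ j ∈ B, i < j → ((3 + (j - i) : ℕ) : ZMod (2 * k)) ≠ 2)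
    (bBA : ∀ i ∈ B, ∀ j ∈ A, i < j → ((3 + (j - i) : ℕ) : ZMod (2 * k)) ≠ 2)
    {t : ℕ} (ht : t ∈ A) (tA : ∀ i ∈ A, t ≤ i) (tB : ∀ i ∈ B, t < i) :
    (∃ L : Finset (ZMod (2 * k)), k ≤ L.card ∧ BothPar k L ∧ ∀ r ∈ L, P r) ∧ Two k P := by
  have kap : (∃ z ∈ A, z % 2 ≠ t % 2) ∨ ∃ z ∈ B, z % 2 = t % 2 := by
    by_contra h1
    push Not at h1
    have hne : (A ∪ B).Nonempty := ⟨t, mem_union_left _ ht⟩
    have h2 : ∀ i ∈ A ∪ B, i ≤ (A ∪ B).max' hne := fun i => le_max' _ _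
    rcases mem_union.1 (max'_mem _ hne) with e | e
    · obtain ⟨i, h3, h4⟩ := cover_par (k := k) (by omega) (S := B)
        (fun i => 3 + ((A ∪ B).max' hne - i)) cB 2
        (fun i h3 j h4 e => iB i h3 j h4
          (cast_c1 (h2 i (mem_union_right _ h3)) (h2 j (mem_union_right _ h4)) e))
        (fun i h3 => by
          have := h2 i (mem_union_right _ h3); have := h1.1 _ e; have := h1.2 i h3; omega)
      exact bBA i h3 _ e (lt_of_le_of_ne (h2 i (mem_union_right _ h3)) (hd _ e i h3).symm)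
        (by exact_mod_cast h4)
    · obtain ⟨i, h3, h4⟩ := cover_par (k := k) (by omega) (S := A)
        (fun i => 3 + ((A ∪ B).max' hne - i)) cA 2
        (fun i h3 j h4 e => iA i h3 j h4
          (cast_c1 (h2 i (mem_union_left _ h3)) (h2 j (mem_union_left _ h4)) e))
        (fun i h3 => by
          have := h2 i (mem_union_left _ h3); have := h1.2 _ e; have := h1.1 i h3; omega)
      exact bAB i h3 _ e (lt_of_le_of_ne (h2 i (mem_union_left _ h3)) (hd i h3 _ e))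
        (by exact_mod_cast h4)
  constructor
  · rcases kap with ⟨z, hz, h1⟩ | ⟨z, hz, h1⟩
    · exact gad_of (S := B) (fun j => t + 3 + (T - j)) cB
        (fun i h1 j h2 e => iB i h1 j h2 (cast_c1 (hB i h1) (hB j h2) e))
        (fun i h1 => pAB t ht i h1 (tB i h1)) hT
        (pA t ht z hz (by have := tA z hz; omega)) (by have := hA z hz; omega)
    · exact gad_of (S := B) (fun j => t + 3 + (T - j)) cB
        (fun i h1 j h2 e => iB i h1 j h2 (cast_c1 (hB i h1) (hB j h2) e))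
        (fun i h1 => pAB t ht i h1 (tB i h1)) hT
        (pAB t ht z hz (tB z hz)) (by have := hB z hz; omega)
  refine two_of T fun d hd2 h => ?_
  have F : ∀ (X : Finset ℕ) (c z : ℕ), (∀ i ∈ X, i ≤ T) →
      (∀ i ∈ X, ∀ j ∈ X, (i : ZMod (2 * k)) = j → i = j) →
      (∀ j ∈ X, z < j → P (z + c + (T - j) : ℕ)) → ∀ a ∈ X, ∀ b ∈ X, z < a → a < b →
      (z + c + a) % 2 = d → (z + c + b) % 2 = d → False := by
    clear * - T k P d h A B hd2
    intro X c z x1 x2 x3 a ha b hb h1 h2 h3 h4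
    have := x1 a ha
    have := x1 b hb
    have := x2 a ha b hb (cast_c1 (x1 a ha) (x1 b hb)
      (h _ _ (x3 a ha h1) (x3 b hb (by omega)) (by omega) (by omega)))
    omega
  have L : ∀ (X : Finset ℕ) (c z : ℕ), z ≤ T →
      (∀ i ∈ X, ∀ j ∈ X, (i : ZMod (2 * k)) = j → i = j) →
      (∀ j ∈ X, j < z → P (j + c + (T - z) : ℕ)) → ∀ a ∈ X, ∀ b ∈ X, a < b → b < z →
      (z + c + a) % 2 = d → (z + c + b) % 2 = d → False := by
    intro X c z x1 x2 x3 a ha b hb h1 h2 h3 h4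
    have := x2 a ha b hb (cast_c2
      (h _ _ (x3 a ha (by omega)) (x3 b hb h2) (by omega) (by omega)))
    omega
  have FAA := fun z hz => F A 2 z hA iA (pA z hz)
  have FAB := fun z hz => F B 3 z hB iB (pAB z hz)
  have FBA := fun z hz => F A 3 z hA iA (pBA z hz)
  have FBB := fun z hz => F B 2 z hB iB (pB z hz)
  have LAA := fun z hz => L A 2 z (hA z hz) iA (fun j hj => pA j hj z hz)
  have LAB := fun z hz => L B 3 z (hA z hz) iB (fun j hj => pBA j hj z hz)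
  have LBA := fun z hz => L A 3 z (hB z hz) iA (fun j hj => pAB j hj z hz)
  have LBB := fun z hz => L B 2 z (hB z hz) iB (fun j hj => pB j hj z hz)
  clear F L
  have sA := card_filter_add_card_filter_not (s := A) (fun i => i % 2 = t % 2)
  have sB := card_filter_add_card_filter_not (s := B) (fun i => i % 2 = t % 2)
  have n2 : ((2 : ℕ) : ZMod (2 * k)) ≠ 0 := cast_ne_zero' (by omega) (by omega)
  have n4 : ((4 : ℕ) : ZMod (2 * k)) ≠ 0 := cast_ne_zero' (by omega) (by omega)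
  rcases (show d = 0 ∨ d = 1 by omega) with rfl | rfl
  · have h1 : ¬ 2 ≤ (B.filter fun i => ¬ i % 2 = t % 2).card := fun h1 => by
      clear * - t B h1 FAB ht tB k A
      obtain ⟨a, ha, b, hb, h2⟩ := ex2 h1
      rw [mem_filter] at ha hb
      exact FAB t ht a ha.1 b hb.1 (tB a ha.1) h2 (by omega) (by omega)
    have h2 : ¬ 3 ≤ (A.filter fun i => i % 2 = t % 2).card := fun h1 => by
      clear * - t A h1 FAA k B
      obtain ⟨a, ha, b, hb, c, hc, h2, h3⟩ := ex3 h1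
      rw [mem_filter] at ha hb hc
      exact FAA a ha.1 b hb.1 c hc.1 h2 h3 (by omega) (by omega)
    obtain ⟨a, ha, b, hb, h3⟩ := ex2 (show 2 ≤ (B.filter fun i => i % 2 = t % 2).card by omega)
    obtain ⟨z, hz⟩ := card_pos.1 (show 0 < (A.filter fun i => ¬ i % 2 = t % 2).card by omega)
    rw [mem_filter] at ha hb hz
    have h4 := hd z hz.1 a ha.1
    have h5 := hd z hz.1 b hb.1
    have h6 : a < z := by
      clear * - a z FAB A t hz B ha b hb k h3 h4 h5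
      by_contra e
      exact FAB z hz.1 a ha.1 b hb.1 (by omega) h3 (by omega) (by omega)
    have h7 : z < b := by
      clear * - z b LAB A t hz a B ha hb h3 k h5 h4 h6
      by_contra e
      exact LAB z hz.1 a ha.1 b hb.1 h3 (by omega) (by omega) (by omega)
    have zT := hA z hz.1
    have bT := hB b hb.1
    have e1 := h _ _ (pB a ha.1 b hb.1 h3) hT (by omega) (by omega)
    have e2 := h _ _ (pBA a ha.1 z hz.1 h6) hT (by clear * - a T z k A B t ha b hb hz h4 h5 h6 h7 zT; omega) (by omega)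
    have e3 := h _ _ (pAB z hz.1 b hb.1 h7) hT (by clear * - z T b k A B t a ha hb hz h4 h5 h6 h7 bT; omega) (by omega)
    push_cast [Nat.cast_sub zT, Nat.cast_sub bT] at e1 e2 e3 n4
    exact n4 (by linear_combination e2 + e3 - e1)
  · have h1 : ¬ 2 ≤ (B.filter fun i => i % 2 = t % 2).card := fun h1 => by
      obtain ⟨a, ha, b, hb, h2⟩ := ex2 h1
      rw [mem_filter] at ha hb
      exact FAB t ht a ha.1 b hb.1 (tB a ha.1) h2 (by omega) (by omega)
    have h2 : ¬ 2 ≤ (A.filter fun i => ¬ i % 2 = t % 2).card := fun h1 => by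
      clear * - t A h1 tA FAA ht k B
      obtain ⟨a, ha, b, hb, h2⟩ := ex2 h1
      rw [mem_filter] at ha hb
      have := tA a ha.1
      exact FAA t ht a ha.1 b hb.1 (by omega) h2 (by omega) (by omega)
    have h3 : ¬ 3 ≤ (A.filter fun i => i % 2 = t % 2).card := fun h1 => by
      clear * - t A h1 B kap FAA k LAA FBA hd LBA h2
      obtain ⟨a, ha, b, hb, c, hc, h2, h3⟩ := ex3 h1
      rw [mem_filter] at ha hb hc
      rcases kap with ⟨z, hz, h4⟩ | ⟨z, hz, h4⟩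
      · rcases lt_trichotomy z b with e | e | e
        · exact FAA z hz b hb.1 c hc.1 e h3 (by omega) (by omega)
        · omega
        · exact LAA z hz a ha.1 b hb.1 h2 e (by omega) (by omega)
      · rcases lt_trichotomy z b with e | e | e
        · exact FBA z hz b hb.1 c hc.1 e h3 (by omega) (by omega)
        · exact hd b hb.1 z hz e.symm
        · exact LBA z hz a ha.1 b hb.1 h2 e (by omega) (by omega)
    obtain ⟨z, hz⟩ := card_pos.1 (show 0 < (A.filter fun i => ¬ i % 2 = t % 2).card by omega)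
    rw [mem_filter] at hz
    have h4 : ¬ 3 ≤ (B.filter fun i => ¬ i % 2 = t % 2).card := fun h1 => by
      clear * - t B h1 z FAB A hz k hd LAB h2 h3
      obtain ⟨a, ha, b, hb, c, hc, h2, h3⟩ := ex3 h1
      rw [mem_filter] at ha hb hc
      rcases lt_trichotomy z b with e | e | e
      · exact FAB z hz.1 b hb.1 c hc.1 e h3 (by omega) (by omega)
      · exact hd z hz.1 b hb.1 e
      · exact LAB z hz.1 a ha.1 b hb.1 h2 e (by omega) (by omega)
    obtain ⟨y, hy⟩ := card_pos.1 (show 0 < (B.filter fun i => i % 2 = t % 2).card by omega)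
    obtain ⟨a, ha, b, hb, h5⟩ := ex2 (show 2 ≤ (A.filter fun i => i % 2 = t % 2).card by omega)
    rw [mem_filter] at ha hb hy
    have h6 : a < z := by
      clear * - a z FAA A t hz ha b hb k B y hy h5
      by_contra e
      exact FAA z hz.1 a ha.1 b hb.1 (by omega) h5 (by omega) (by omega)
    have h7 : z < b := by
      clear * - z b LAA A t hz a ha hb h5 k B y hy
      by_contra e
      exact LAA z hz.1 a ha.1 b hb.1 h5 (by omega) (by omega) (by omega)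
    have h8 := hd a ha.1 y hy.1
    have h9 := hd b hb.1 y hy.1
    have h10 : a < y := by
      clear * - a y FBA B t hy A ha b hb k z h5 h8 h9
      by_contra e
      exact FBA y hy.1 a ha.1 b hb.1 (by omega) h5 (by omega) (by omega)
    have h11 : y < b := by
      clear * - y b LBA B t hy a A ha hb h5 k z h9
      by_contra e
      exact LBA y hy.1 a ha.1 b hb.1 h5 (by omega) (by omega) (by omega)
    have zT := hA z hz.1
    have bT := hA b hb.1
    have yT := hB y hy.1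
    have e1 := h _ _ (pA a ha.1 z hz.1 h6) (pAB a ha.1 y hy.1 h10) (by clear * - a T z k A B t hz y hy ha b hb h8 h9 h10 h11 zT; omega) (by omega)
    have e2 := h _ _ (pA z hz.1 b hb.1 h7) (pBA y hy.1 b hb.1 h11) (by clear * - z T b k A B t hz y hy a ha hb h8 h9 h10 h11 bT; omega) (by omega)
    push_cast [Nat.cast_sub zT, Nat.cast_sub bT, Nat.cast_sub yT] at e1 e2 n2
    exact n2 (by linear_combination -e1 - e2)

end Pool.Agent.Work.MP_66aaa3_co
end

-- merged part: Pool.Agent.Work.MP_66aaa3_co.Min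
section
namespace Pool.Agent.Work.MP_66aaa3_co

open Finset

set_option linter.unusedSectionVars false

variable {V : Type} [DecidableEq V] {G : SimpleGraph V} {k : ℕ}

/-- MIN: reroute a path through a piece `C` hanging on it until the rest is irreducible. -/
theorem min_piece (W : Finset V) (C : Finset V) (p : ℕ → V) (T : ℕ) (hp : IsP G p T)
    (hC : C.Nonempty) (hd : Disjoint C (pv p T))
    (hcl : ∀ u ∈ C, ∀ w ∈ W, G.Adj u w → w ∈ C ∨ w ∈ pv p T) :
    ∃ (p' : ℕ → V) (T' : ℕ) (C' : Finset V), IsP G p' T' ∧ p' 0 = p 0 ∧ p' T' = p T ∧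
      pv p' T' ⊆ C ∪ pv p T ∧ C'.Nonempty ∧ C' ⊆ C ∧ Conn G C' ∧ Disjoint C' (pv p' T') ∧
      (∀ u ∈ C', ∀ w ∈ W ∪ C ∪ pv p T, G.Adj u w → w ∈ C' ∨ w ∈ pv p' T') ∧
      ((∃ v, C' = {v}) ∨
       (∃ a ∈ C', ∃ b ∈ C', a ≠ b ∧ deg G C' a ≤ 1 ∧ deg G C' b ≤ 1 ∧
          (∀ i ≤ T', ¬ (G.Adj a (p' i) ∧ G.Adj b (p' i))) ∧
          ∀ c ∈ C', c ≠ a → c ≠ b → deg G C' c ≤ 2 ∧ ∀ i ≤ T', ¬ G.Adj c (p' i)) ∨
       (∃ q ≤ T', ∀ u ∈ C', ∀ i ≤ T', G.Adj u (p' i) → i = q)) :=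
  min_piece_aux (W ∪ C ∪ pv p T) C.card C p T le_rfl hp hC hd (by
    intro u hu w hw a
    rcases mem_union.1 hw with e | e
    · rcases mem_union.1 e with e | e
      · exact hcl u hu w e a
      · exact Or.inl e
    · exact Or.inr e)

/-- detour through one outside vertex -/
lemma IsP.det1 {p : ℕ → V} {T : ℕ} (hp : IsP G p T) {v : V} (hv : v ∉ pv p T) {i j : ℕ}
    (hij : i < j) (hj : j ≤ T) (ai : G.Adj v (p i)) (aj : G.Adj v (p j)) :
    PathIn G ↑(insert v (pv p T)) (p 0) (p T) (i + 2 + (T - j)) := by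
  have h1 : pv (fun _ => v) 0 = {v} := by simp [pv]
  obtain ⟨q, q1, q2, q3, q4⟩ := hp.reroute (IsP.zero (fun _ => v))
    (by rw [h1]; exact disjoint_singleton_left.2 hv) hij hj ai.symm aj
  refine ⟨q, q1, q2, q3, fun s hs => ?_⟩
  rcases (q4 _).1 (mem_pv_self hs) with e | ⟨t, ht, -, e⟩
  · rw [h1, mem_singleton] at e; simp [e]
  · rw [← e]; exact mem_coe.2 (mem_insert_of_mem (mem_pv_self ht))

/-- detour through an outside edge -/
lemma IsP.det2 {p : ℕ → V} {T : ℕ} (hp : IsP G p T) {a b : V} (ha : a ∉ pv p T) (hb : b ∉ pv p T)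
    (hab : G.Adj a b) {i j : ℕ} (hij : i < j) (hj : j ≤ T) (ai : G.Adj a (p i))
    (aj : G.Adj b (p j)) :
    PathIn G ↑(insert a (insert b (pv p T))) (p 0) (p T) (i + 3 + (T - j)) := by
  obtain ⟨r, r1, r2, r3, r4⟩ := PathIn.single hab (S := {a, b}) (by simp) (by simp)
  have h1 : ∀ v ∈ pv r 1, v = a ∨ v = b := fun v hv => by
    obtain ⟨s, hs, rfl⟩ := mem_pv.1 hv; exact r4 s hs
  obtain ⟨q, q1, q2, q3, q4⟩ := hp.reroute r1 (disjoint_left.2 fun v hv hv' => by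
    rcases h1 v hv with rfl | rfl
    exacts [ha hv', hb hv']) hij hj (r2 ▸ ai.symm) (r3 ▸ aj)
  refine ⟨q, q1, q2, q3, fun s hs => ?_⟩
  rcases (q4 _).1 (mem_pv_self hs) with e | ⟨t, ht, -, e⟩
  · rcases h1 _ e with e | e <;> simp [e]
  · rw [← e]; exact mem_coe.2 (mem_insert_of_mem (mem_insert_of_mem (mem_pv_self ht)))

/-- cycle through an outside edge -/
lemma NB.cyc_edge {m : ℕ} (hG : NB G m) {p : ℕ → V} {T : ℕ} (hp : IsP G p T) {a b : V}
    (ha : a ∉ pv p T) (hb : b ∉ pv p T) (hab : G.Adj a b) {i j : ℕ} (hij : i < j) (hj : j ≤ T)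
    (ai : G.Adj a (p i)) (aj : G.Adj b (p j)) : ((3 + (j - i) : ℕ) : ZMod m) ≠ 2 := by
  have h1 : ∀ v, v ∉ pv p T → v ∉ p '' Set.Icc i j := by
    rintro v hv ⟨s, hs, rfl⟩
    exact hv (mem_pv_self (le_trans hs.2 hj))
  have h2 := ((hp.seg hij.le hj).snoc aj.symm (h1 b hb)).snoc hab.symm (by
    rintro (e | e)
    exacts [hab.ne e, h1 a ha e])
  have := hG.close h2 ai (by omega)
  rwa [show j - i + 1 + 1 + 1 = 3 + (j - i) by omega] at this

lemma NB.np_inj {m : ℕ} (hG : NB G m) {p : ℕ → V} {T : ℕ} (hp : IsP G p T) {v : V}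
    (hv : v ∉ pv p T) : ∀ i ∈ np G p T v, ∀ j ∈ np G p T v, (i : ZMod m) = j → i = j :=
  fun _ hi _ hj e => hG.F0 hp (fun s hs e => hv (mem_pv.2 ⟨s, hs, e⟩)) (mem_np.1 hi).1
    (mem_np.1 hj).1 (mem_np.1 hi).2 (mem_np.1 hj).2 e

lemma card_np_le_len (p : ℕ → V) (T : ℕ) (v : V) : (np G p T v).card ≤ T + 1 := by
  rw [← card_range (T + 1)]
  exact card_le_card fun i hi => by simpa [Nat.lt_succ_iff] using (mem_np.1 hi).1

/-- a vertex with `k + 1` neighbours on a path -/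
theorem vertex_gad (hk : 3 ≤ k) (hG : NB G (2 * k)) {p : ℕ → V} {T : ℕ} (hp : IsP G p T) {v : V}
    (hv : v ∉ pv p T) (h : k + 1 ≤ (np G p T v).card) :
    Gad G k ↑(insert v (pv p T)) (p 0) (p T) ∧
      (4 ≤ k → Gad2 G k ↑(insert v (pv p T)) (p 0) (p T)) := by
  have hT := card_np_le_len (G := G) p T v
  exact v_arith hk (T := T) (fun i hi => (mem_np.1 hi).1) (hG.np_inj hp hv) h
    (P := InL G (2 * k) ↑(insert v (pv p T)) (p 0) (p T))
    ⟨T, by omega, rfl, hp.pathIn fun i hi => mem_coe.2 (mem_insert_of_mem (mem_pv_self hi))⟩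
    fun i hi j hj hij => ⟨_, by omega, rfl,
      hp.det1 hv hij (mem_np.1 hj).1 (mem_np.1 hi).2 (mem_np.1 hj).2⟩

/-- an edge whose ends have `k` neighbours each on a path, no common one -/
theorem edge_gad (hk : 3 ≤ k) (hG : NB G (2 * k)) {p : ℕ → V} {T : ℕ} (hp : IsP G p T) {a b : V}
    (ha : a ∉ pv p T) (hb : b ∉ pv p T) (hab : G.Adj a b) (h1 : k ≤ (np G p T a).card)
    (h2 : k ≤ (np G p T b).card) (h3 : ∀ i ≤ T, ¬ (G.Adj a (p i) ∧ G.Adj b (p i))) :
    Gad G k ↑(insert a (insert b (pv p T))) (p 0) (p T) ∧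
      Gad2 G k ↑(insert a (insert b (pv p T))) (p 0) (p T) := by
  have hT := card_np_le_len (G := G) p T a
  have hA : ∀ i ∈ np G p T a, i ≤ T := fun i hi => (mem_np.1 hi).1
  have hB : ∀ i ∈ np G p T b, i ≤ T := fun i hi => (mem_np.1 hi).1
  have hd : ∀ i ∈ np G p T a, ∀ j ∈ np G p T b, i ≠ j := by
    rintro i hi j hj rfl
    exact h3 i (hA i hi) ⟨(mem_np.1 hi).2, (mem_np.1 hj).2⟩
  have pT : InL G (2 * k) ↑(insert a (insert b (pv p T))) (p 0) (p T) T :=
    ⟨T, by omega, rfl, hp.pathIn fun i hi =>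
      mem_coe.2 (mem_insert_of_mem (mem_insert_of_mem (mem_pv_self hi)))⟩
  have pA : ∀ i ∈ np G p T a, ∀ j ∈ np G p T a, i < j →
      InL G (2 * k) ↑(insert a (insert b (pv p T))) (p 0) (p T) (i + 2 + (T - j) : ℕ) :=
    fun i hi j hj hij => ⟨_, by omega, rfl,
      (hp.det1 ha hij (hA j hj) (mem_np.1 hi).2 (mem_np.1 hj).2).mono
        (coe_subset.2 (insert_subset_insert _ (subset_insert _ _)))⟩
  have pB : ∀ i ∈ np G p T b, ∀ j ∈ np G p T b, i < j →
      InL G (2 * k) ↑(insert a (insert b (pv p T))) (p 0) (p T) (i + 2 + (T - j) : ℕ) :=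
    fun i hi j hj hij => ⟨_, by omega, rfl,
      (hp.det1 hb hij (hB j hj) (mem_np.1 hi).2 (mem_np.1 hj).2).mono
        (coe_subset.2 (subset_insert _ _))⟩
  have pAB : ∀ i ∈ np G p T a, ∀ j ∈ np G p T b, i < j →
      InL G (2 * k) ↑(insert a (insert b (pv p T))) (p 0) (p T) (i + 3 + (T - j) : ℕ) :=
    fun i hi j hj hij => ⟨_, by omega, rfl,
      hp.det2 ha hb hab hij (hB j hj) (mem_np.1 hi).2 (mem_np.1 hj).2⟩
  have pBA : ∀ i ∈ np G p T b, ∀ j ∈ np G p T a, i < j →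
      InL G (2 * k) ↑(insert a (insert b (pv p T))) (p 0) (p T) (i + 3 + (T - j) : ℕ) :=
    fun i hi j hj hij => ⟨_, by omega, rfl, by
      rw [insert_comm]
      exact hp.det2 hb ha hab.symm hij (hA j hj) (mem_np.1 hi).2 (mem_np.1 hj).2⟩
  have bAB : ∀ i ∈ np G p T a, ∀ j ∈ np G p T b, i < j → ((3 + (j - i) : ℕ) : ZMod (2 * k)) ≠ 2 :=
    fun i hi j hj hij => hG.cyc_edge hp ha hb hab hij (hB j hj) (mem_np.1 hi).2 (mem_np.1 hj).2
  have bBA : ∀ i ∈ np G p T b, ∀ j ∈ np G p T a, i < j → ((3 + (j - i) : ℕ) : ZMod (2 * k)) ≠ 2 :=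
    fun i hi j hj hij => hG.cyc_edge hp hb ha hab.symm hij (hA j hj) (mem_np.1 hi).2
      (mem_np.1 hj).2
  have hne : (np G p T a ∪ np G p T b).Nonempty :=
    (card_pos.1 (show 0 < (np G p T a).card by omega)).mono subset_union_left
  have hm : ∀ i ∈ np G p T a ∪ np G p T b, min' _ hne ≤ i := fun i => min'_le _ _
  rcases mem_union.1 (min'_mem _ hne) with e | e
  · exact e_arith_aux hk hA hB (hG.np_inj hp ha) (hG.np_inj hp hb) h1 h2 hd pT pA pB pAB pBA bAB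
      bBA e (fun i hi => hm i (mem_union_left _ hi))
      fun i hi => lt_of_le_of_ne (hm i (mem_union_right _ hi)) (hd _ e i hi)
  · exact e_arith_aux hk hB hA (hG.np_inj hp hb) (hG.np_inj hp ha) h2 h1
      (fun i hi j hj => (hd j hj i hi).symm) pT pB pA pBA pAB bBA
      bAB e (fun i hi => hm i (mem_union_right _ hi))
      fun i hi => lt_of_le_of_ne (hm i (mem_union_left _ hi)) (hd i hi _ e).symm

lemma Gad2.mono {W W' : Set V} {x y : V} (h : Gad2 G k W x y) (hW : W ⊆ W') : Gad2 G k W' x y :=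
  fun e => let ⟨a, b, h1, h2, h3, h4, h5⟩ := h e; ⟨a, b, h1, h2, h3, h4.mono hW, h5.mono hW⟩

lemma deg_le_add_np {p : ℕ → V} {T : ℕ} (hp : IsP G p T) {W C : Finset V} {u : V}
    (h : ∀ w ∈ W, G.Adj u w → w ∈ C ∨ w ∈ pv p T) : deg G W u ≤ deg G C u + (np G p T u).card := by
  rw [hp.card_np]
  exact le_trans (deg_le_of fun w hw a => mem_union.2 (h w hw a)) (deg_union_le _ _ _)

lemma deg_single_self (v : V) : deg G {v} v = 0 :=
  deg_eq_zero fun w hw => by rw [mem_singleton.1 hw]; exact G.irrefl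

lemma Conn.adj_of_pair {C : Finset V} (h : Conn G C) {a b : V} (ha : a ∈ C) (hb : b ∈ C)
    (hab : a ≠ b) (hC : ∀ c ∈ C, c = a ∨ c = b) : G.Adj a b := by
  obtain ⟨u, hu, w, hw, h1, -, h2⟩ := h.exists_adj (C := {a}) (mem_singleton_self a) ha hb
    (by simpa using hab.symm)
  rw [mem_singleton.1 hu] at h2
  rcases hC w hw with e | e
  · exact absurd e (by simpa using h1)
  · exact e ▸ h2

/-- R1 on a path -/
theorem r1_path (hk : 3 ≤ k) (hG : NB G (2 * k)) {p : ℕ → V} {T : ℕ} (hp : IsP G p T)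
    {U : Finset V} (hU : U.Nonempty) (hd : Disjoint U (pv p T))
    (hdg : Dg G U (U ∪ pv p T) (k + 1)) (hat : Att2 G U (U ∪ pv p T)) :
    Gad G k ↑(U ∪ pv p T) (p 0) (p T) ∧ (Gad2 G k ↑(U ∪ pv p T) (p 0) (p T) ∨
      (k = 3 ∧ ∃ p' T' v, IsP G p' T' ∧ p' 0 = p 0 ∧ p' T' = p T ∧ pv p' T' ⊆ U ∪ pv p T ∧
        v ∈ U ∧ v ∉ pv p' T' ∧ ∀ w ∈ U ∪ pv p T, G.Adj v w → w ∈ pv p' T')) := by
  obtain ⟨q, n, C, q1, q2, q3, q4, c1, c2, c3, c4, c5, c6⟩ := min_piece (U ∪ pv p T) U p T hp hU hd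
    (fun _ _ _ hw _ => mem_union.1 hw)
  replace c5 : ∀ u ∈ C, ∀ w ∈ U ∪ pv p T, G.Adj u w → w ∈ C ∨ w ∈ pv q n :=
    fun u hu w hw => c5 u hu w (mem_union_left _ (mem_union_left _ hw))
  have hdeg : ∀ u ∈ C, k + 1 ≤ deg G C u + (np G q n u).card := fun u hu =>
    le_trans (hdg u (c2 hu)) (deg_le_add_np q1 (c5 u hu))
  have hout : ∀ u ∈ C, u ∉ pv q n := fun u hu => disjoint_left.1 c4 hu
  rw [← q2, ← q3]
  rcases c6 with ⟨v, rfl⟩ | ⟨a, ha, b, hb, hab, da, db, h1, h2⟩ | ⟨r, hr, h1⟩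
  · have hv := mem_singleton_self v
    have h1 := hdeg v hv
    rw [deg_single_self, Nat.zero_add] at h1
    have h2 := vertex_gad hk hG q1 (hout v hv) h1
    have h3 : (↑(insert v (pv q n)) : Set V) ⊆ ↑(U ∪ pv p T) :=
      coe_subset.2 (insert_subset (mem_union_left _ (c2 hv)) q4)
    refine ⟨h2.1.mono h3, ?_⟩
    by_cases h4 : 4 ≤ k
    · exact Or.inl ((h2.2 h4).mono h3)
    · refine Or.inr ⟨by omega, q, n, v, q1, rfl, rfl, q4, c2 hv, hout v hv, fun w hw a => ?_⟩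
      rcases c5 v hv w hw a with e | e
      · exact absurd (mem_singleton.1 e) a.ne.symm
      · exact e
  · have h3 : ∀ c ∈ C, c = a ∨ c = b := by
      intro c hc
      by_contra h3
      push Not at h3
      obtain ⟨h4, h5⟩ := h2 c hc h3.1 h3.2
      have h6 := hdeg c hc
      have h7 : np G q n c = ∅ := by
        ext i; simp only [mem_np, notMem_empty, iff_false, not_and]; exact h5 i
      rw [h7, card_empty] at h6
      omega
    have h4 := hdeg a ha
    have h5 := hdeg b hb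
    have h6 := edge_gad hk hG q1 (hout a ha) (hout b hb) (c3.adj_of_pair ha hb hab h3)
      (by omega) (by omega) h1
    have h7 : (↑(insert a (insert b (pv q n))) : Set V) ⊆ ↑(U ∪ pv p T) :=
      coe_subset.2 (insert_subset (mem_union_left _ (c2 ha))
        (insert_subset (mem_union_left _ (c2 hb)) q4))
    exact ⟨h6.1.mono h7, Or.inl (h6.2.mono h7)⟩
  · exfalso
    obtain ⟨u, hu, w, hw, h2, h3, h4⟩ := hat C c2 c1 (q r)
    rcases c5 u hu w hw h4 with e | e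
    · exact h2 e
    · obtain ⟨i, hi, rfl⟩ := mem_pv.1 e
      exact h3 (by rw [h1 u hu i hi h4])

lemma Dg.mono {U U' W W' : Finset V} {d : ℕ} (h : Dg G U W d) (hU : U' ⊆ U)
    (hW : ∀ u ∈ U', ∀ w ∈ W, G.Adj u w → w ∈ W') : Dg G U' W' d :=
  fun v hv => le_trans (h v (hU hv)) (deg_le_of (hW v hv))

lemma Att2.mono {U U' W W' : Finset V} (h : Att2 G U W) (hU : U' ⊆ U)
    (hW : ∀ u ∈ U', ∀ w ∈ W, G.Adj u w → w ∈ W') : Att2 G U' W' := by
  intro C hC hne z
  obtain ⟨u, hu, w, hw, h1, h2, h3⟩ := h C (hC.trans hU) hne z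
  exact ⟨u, hu, w, hW u (hC hu) w hw h3, h1, h2, h3⟩

/-- R1 for a pod with two terminals -/
theorem r1_pod (hk : 3 ≤ k) (hG : NB G (2 * k)) {U : Finset V} {x y : V} (hxy : x ≠ y)
    (hx : x ∉ U) (hy : y ∉ U) (hU : U.Nonempty) (hdg : Dg G U (U ∪ {x, y}) (k + 1))
    (hat : Att2 G U (U ∪ {x, y})) :
    Gad G k ↑(U ∪ {x, y}) x y ∧ (Gad2 G k ↑(U ∪ {x, y}) x y ∨
      (k = 3 ∧ ∃ p' T' v, IsP G p' T' ∧ p' 0 = x ∧ p' T' = y ∧ pv p' T' ⊆ U ∪ {x, y} ∧
        v ∈ U ∧ v ∉ pv p' T' ∧ ∀ w ∈ U ∪ {x, y}, G.Adj v w → w ∈ pv p' T')) := by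
  obtain ⟨u0, hu0⟩ := hU
  obtain ⟨D, hD, -⟩ := exists_comp (G := G) U hu0
  have key : ∀ z, ∃ u ∈ D, ∃ w, (w = x ∨ w = y) ∧ w ≠ z ∧ G.Adj u w := by
    intro z
    obtain ⟨u, hu, w, hw, h1, h2, h3⟩ := hat D hD.2.1 hD.1 z
    refine ⟨u, hu, w, ?_, h2, h3⟩
    rcases mem_union.1 hw with e | e
    · exact absurd (hD.2.2.2 u hu w e h3) h1
    · simpa using e
  obtain ⟨a, ha, w, h1, h2, h3⟩ := key y
  obtain rfl : w = x := by tauto
  obtain ⟨b, hb, w', h4, h5, h6⟩ := key w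
  obtain rfl : w' = y := by tauto
  obtain ⟨n0, -, hn0⟩ := hD.2.2.1.ear ha hb (fun e => hx (hD.2.1 e)) (fun e => hy (hD.2.1 e)) hxy
    h3.symm h6
  obtain ⟨r, n, r1, r2, r3, r4, -, r6⟩ := exists_induced (S := ↑(U ∪ {w, w'})) (Y := {w'})
    (hn0.mono (by
      rw [coe_union, coe_pair]
      exact Set.union_subset_union_left _ (coe_subset.2 hD.2.1))) rfl
  replace r3 : r n = w' := r3
  have h7 : U \ pv r n ∪ pv r n = U ∪ {w, w'} := by
    rw [sdiff_union_self_eq_union]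
    apply Subset.antisymm
    · refine union_subset subset_union_left fun v hv => ?_
      obtain ⟨i, hi, rfl⟩ := mem_pv.1 hv
      exact r4 i hi
    · refine union_subset_union Subset.rfl (insert_subset ?_ (singleton_subset_iff.2 ?_))
      · exact r2 ▸ mem_pv_self (Nat.zero_le _)
      · exact r3 ▸ mem_pv_self le_rfl
  have h8 : (U \ pv r n).Nonempty := by
    rw [sdiff_nonempty]
    intro e
    obtain ⟨i, hi, e'⟩ := mem_pv.1 (e hu0)
    have h9 := hdg u0 hu0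
    rw [← h7, sdiff_union_self_eq_union, union_eq_right.2 e, ← e'] at h9
    have := (deg_le_of_induced r6 hi).1
    omega
  have h9 := r1_path hk hG r1 h8 disjoint_sdiff.symm
    (hdg.mono sdiff_subset fun _ _ _ hw _ => h7 ▸ hw)
    (hat.mono sdiff_subset fun _ _ _ hw _ => h7 ▸ hw)
  rw [h7, r2, r3] at h9
  refine ⟨h9.1, h9.2.imp_right ?_⟩
  rintro ⟨e, p', T', v, a1, a2, a3, a4, a5, a6⟩
  exact ⟨e, p', T', v, a1, a2, a3, a4, (mem_sdiff.1 a5).1, a6⟩

lemma Core.pod {F : Finset V} (h : Core G k F) {x y : V} (hx : x ∈ F) (hy : y ∈ F) :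
    F \ {x, y} ∪ {x, y} = F ∧ (F \ {x, y}).Nonempty := by
  constructor
  · exact sdiff_union_of_subset (insert_subset hx (singleton_subset_iff.2 hy))
  · rw [sdiff_nonempty]
    intro e
    have := card_le_card e
    have := card_le_two (a := x) (b := y)
    have := h.1
    omega

theorem Core.gad (hk : 3 ≤ k) (hG : NB G (2 * k)) {F : Finset V} (h : Core G k F) {x y : V}
    (hx : x ∈ F) (hy : y ∈ F) (hxy : x ≠ y) : Gad G k ↑F x y := by
  obtain ⟨h1, h2⟩ := h.pod hx hy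
  have := (r1_pod hk hG (U := F \ {x, y}) hxy (by simp) (by simp) h2
    (by rw [h1]; exact h.dg.mono sdiff_subset fun _ _ _ hw _ => hw)
    (by rw [h1]; exact h.att2 hx hy hxy)).1
  rwa [h1] at this

lemma ext_aux (hk : 3 ≤ k) (hG : NB G (2 * k)) {U E : Finset V} {r : V} (hr : r ∉ U)
    (hc : Conn G (insert r U))
    (hdg : Dg G (U \ E) (insert r U) (k + 1)) (hat : Att2 G (U \ E) (insert r U)) (N : ℕ) :
    ∀ (C : Finset V) (p : ℕ → V) (T : ℕ), C.card ≤ N → IsP G p T → p 0 = r →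
      pv p T ⊆ insert r U → C ⊆ U → Disjoint C (pv p T) →
      (∀ u ∈ C, ∀ w ∈ insert r U, G.Adj u w → w ∈ C ∨ w ∈ pv p T) → (∃ s ∈ C, s ∈ E) →
    ∃ s ∈ E, ∃ L : Finset (ZMod (2 * k)), min k (deg G (insert r U) s) ≤ L.card ∧
      ∀ t ∈ L, ∃ n : ℕ, (n : ZMod (2 * k)) = t ∧ PathIn G ↑(insert r U) r s n := by
  classical
  induction N with
  | zero =>
    rintro C p T hN - - - - - - ⟨s, hs, -⟩
    have := card_pos.2 ⟨s, hs⟩; omega
  | succ N ih =>
    rintro C p T hN hp h0 hpW hCU hd hcl ⟨s, hs, hsE⟩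
    obtain ⟨D, hD, hsD⟩ := exists_comp (G := G) C hs
    have hDU : D ⊆ U := hD.2.1.trans hCU
    have hDp : ∀ u ∈ D, u ∉ pv p T := fun u hu => disjoint_left.1 hd (hD.2.1 hu)
    have hcl' : ∀ u ∈ D, ∀ w ∈ insert r U, G.Adj u w → w ∈ D ∨ w ∈ pv p T :=
      fun a ha w hw haw => (hcl a (hD.2.1 ha) w hw haw).imp_left fun e => hD.2.2.2 a ha w e haw
    obtain ⟨a, ha, b, hb, h1, -, h2⟩ := hc.exists_adj (C := D) hsD (mem_insert_of_mem (hDU hsD))
      (mem_insert_self r U) (fun e => hr (hDU e))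
    obtain ⟨i0, hi0, rfl⟩ := mem_pv.1 ((hcl' a ha b hb h2).resolve_left h1)
    obtain ⟨q, hq, ⟨u, hu, h3⟩, h4⟩ : ∃ q ≤ T, (∃ u ∈ D, G.Adj u (p q)) ∧
        ∀ i ≤ T, (∃ u ∈ D, G.Adj u (p i)) → i ≤ q :=
      ⟨Nat.findGreatest (fun i => ∃ u ∈ D, G.Adj u (p i)) T, Nat.findGreatest_le _,
        Nat.findGreatest_spec (P := fun i => ∃ u ∈ D, G.Adj u (p i)) hi0 ⟨a, ha, h2⟩,
        fun i hi h => Nat.le_findGreatest hi h⟩
    have h5 : pv (fun _ => u) 0 = {u} := by simp [pv]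
    obtain ⟨p', p1, p2, p3, p4⟩ := (hp.trunc hq).exists_join (IsP.zero (fun _ => u)) h3.symm (by
      rw [h5, disjoint_singleton_right]; exact fun e => hDp u hu (pv_mono hq e))
    rw [h5] at p4
    have p5 : p' 0 = r := by rw [p2 0 (Nat.zero_le _), h0]
    have p6 : p' (q + 1 + 0) = u := p3 0 le_rfl
    have p7 : pv p' (q + 1 + 0) ⊆ insert r U := by
      rw [p4]
      exact union_subset ((pv_mono hq).trans hpW)
        (singleton_subset_iff.2 (mem_insert_of_mem (hDU hu)))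
    have p8 : Disjoint (D \ {u}) (pv p' (q + 1 + 0)) := by
      rw [p4, disjoint_union_right]
      exact ⟨disjoint_left.2 fun v hv e => hDp v (mem_sdiff.1 hv).1 (pv_mono hq e),
        disjoint_sdiff.symm⟩
    have p9 : ∀ x ∈ D, ∀ w ∈ insert r U, G.Adj x w → w ∈ D \ {u} ∨ w ∈ pv p' (q + 1 + 0) := by
      intro x hx w hw a1
      rw [p4]
      rcases hcl' x hx w hw a1 with e | e
      · by_cases e' : w = u
        · exact Or.inr (by simp [e'])
        · exact Or.inl (by simp [e, e'])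
      · obtain ⟨i, hi, rfl⟩ := mem_pv.1 e
        exact Or.inr (mem_union_left _ (mem_pv_self (h4 i hi ⟨x, hx, a1⟩)))
    by_cases h6 : ∃ s ∈ D \ {u}, s ∈ E
    · refine ih (D \ {u}) p' _ ?_ p1 p5 p7 (sdiff_subset.trans hDU) p8
        (fun x hx => p9 x (mem_sdiff.1 hx).1) h6
      have := card_le_card hD.2.1
      have := card_pos.2 hD.1
      rw [card_sdiff_of_subset (singleton_subset_iff.2 hu), card_singleton]
      omega
    push Not at h6
    have h7 : u ∈ E := by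
      by_contra e
      exact h6 s (mem_sdiff.2 ⟨hsD, fun e' => e (mem_singleton.1 e' ▸ hsE)⟩) hsE
    refine ⟨u, h7, ?_⟩
    rcases (D \ {u}).eq_empty_or_nonempty with h8 | h8
    · refine ⟨(np G p T u).image fun i => ((i + 1 : ℕ) : ZMod (2 * k)), ?_, ?_⟩
      · rw [card_image_of_injOn]
        · refine le_trans (min_le_right _ _) ?_
          rw [hp.card_np]
          refine deg_le_of fun w hw a1 => (hcl' u hu w hw a1).resolve_left fun e => ?_
          have : w ∈ D \ {u} := by simp [e, a1.ne.symm]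
          rw [h8] at this; simp at this
        · intro i hi j hj e
          refine hG.np_inj hp (hDp u hu) i hi j hj ?_
          simpa using e
      · intro t ht
        obtain ⟨i, hi, rfl⟩ := mem_image.1 ht
        rw [mem_np] at hi
        refine ⟨i + 1, rfl, ?_⟩
        have := ((hp.trunc hi.1).pathIn (S := ↑(pv p T))
          (fun j hj => mem_pv_self (by omega))).snoc hi.2.symm (hDp u hu)
        rw [h0] at this
        exact this.mono (Set.insert_subset (mem_insert_of_mem (hDU hu)) (coe_subset.2 hpW))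
    · have h9 : D \ {u} ⊆ U \ E := fun v hv => mem_sdiff.2 ⟨hDU (mem_sdiff.1 hv).1, h6 v hv⟩
      obtain ⟨L, l1, -, l2⟩ := (r1_path hk hG p1 h8 p8
        (hdg.mono h9 fun x hx w hw a1 => mem_union.2 (p9 x (mem_sdiff.1 hx).1 w hw a1))
        (hat.mono h9 fun x hx w hw a1 => mem_union.2 (p9 x (mem_sdiff.1 hx).1 w hw a1))).1
      refine ⟨L, le_trans (min_le_left _ _) l1, fun t ht => ?_⟩
      obtain ⟨n, -, e, hn⟩ := l2 t ht
      rw [p5, p6] at hn
      exact ⟨n, e, hn.mono (coe_subset.2 (union_subset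
        (sdiff_subset.trans (hDU.trans (subset_insert _ _))) p7))⟩

/-- EXT: one-sided extraction from the root `r` towards an exit in `E` -/
theorem ext_exit (hk : 3 ≤ k) (hG : NB G (2 * k)) {U E : Finset V} {r : V} (hr : r ∉ U)
    (hE : E ⊆ U) (hne : E.Nonempty) (hc : Conn G (insert r U))
    (hdg : Dg G (U \ E) (insert r U) (k + 1)) (hat : Att2 G (U \ E) (insert r U)) :
    ∃ s ∈ E, ∃ L : Finset (ZMod (2 * k)), min k (deg G (insert r U) s) ≤ L.card ∧
      ∀ t ∈ L, ∃ n : ℕ, (n : ZMod (2 * k)) = t ∧ PathIn G ↑(insert r U) r s n := by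
  have h1 : pv (fun _ => r) 0 = {r} := by simp [pv]
  obtain ⟨s, hs⟩ := hne
  refine ext_aux hk hG hr hc hdg hat U.card U (fun _ => r) 0 le_rfl (IsP.zero _) rfl
    (by simp [h1]) Subset.rfl (by simpa [h1] using hr) ?_ ⟨s, hE hs, hs⟩
  intro u _ w hw _
  rw [h1]
  simpa [or_comm] using hw

lemma Conn.insert_adj {D : Finset V} (h : Conn G D) {r u : V} (hu : u ∈ D) (a : G.Adj r u) :
    Conn G (insert r D) := by
  have h1 : ∀ v ∈ insert r D, ∃ n, PathIn G ↑(insert r D) u v n := by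
    intro v hv
    rcases mem_insert.1 hv with rfl | hv
    · exact ⟨1, PathIn.single a.symm (by simp [hu]) (by simp)⟩
    · obtain ⟨n, hn⟩ := h u hu v hv
      exact ⟨n, hn.mono (coe_subset.2 (subset_insert _ _))⟩
  intro a ha b hb
  obtain ⟨n, hn⟩ := h1 a ha
  obtain ⟨n', hn'⟩ := h1 b hb
  exact hn.symm.rtrans hn'

/-- CFG: a configuration of ears between hubs in `H` through `U` -/
theorem cfg (hk : 3 ≤ k) (hG : NB G (2 * k)) {U H : Finset V} (hU : U.Nonempty)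
    (hd : Disjoint U H) (hdg : Dg G U (U ∪ H) (k + 1)) (hat : Att2 G U (U ∪ H)) :
    (∃ s ∈ U, k + 1 ≤ deg G H s) ∨
    ∃ s ∈ U, ∃ s' ∈ U, ∃ Ω : Finset (ZMod (2 * k)), 1 ≤ deg G H s ∧ deg G H s ≤ deg G H s' ∧
      k + 1 ≤ Ω.card + deg G H s ∧
      (∀ ω ∈ Ω, ∀ x ∈ nb G H s, ∀ x' ∈ nb G H s', x ≠ x' →
        InL G (2 * k) (↑U ∪ {x, x'}) x x' ω) ∧
      ((∃ x ∈ nb G H s, x ∈ nb G H s') → 2 ∉ Ω) ∧
      ∃ x ∈ nb G H s, ∃ x' ∈ nb G H s', x ≠ x' := by
  classical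
  obtain ⟨u0, hu0⟩ := hU
  obtain ⟨D, hD, -⟩ := exists_comp (G := G) U hu0
  have hcl : ∀ u ∈ D, ∀ w ∈ U ∪ H, G.Adj u w → w ∈ D ∪ H := fun u hu w hw a => by
    rcases mem_union.1 hw with e | e
    · exact mem_union_left _ (hD.2.2.2 u hu w e a)
    · exact mem_union_right _ e
  have dg := hdg.mono hD.2.1 hcl
  have att := hat.mono hD.2.1 hcl
  have hDH : ∀ v ∈ H, v ∉ D := fun v hv e => disjoint_left.1 hd (hD.2.1 e) hv
  obtain ⟨s', hs', hmax⟩ := exists_max_image D (deg G H) hD.1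
  have hatt : ∀ z, ∃ u ∈ D, ∃ w ∈ H, w ≠ z ∧ G.Adj u w := fun z => by
    obtain ⟨u, hu, w, hw, h1, h2, h3⟩ := att D Subset.rfl hD.1 z
    exact ⟨u, hu, w, (mem_union.1 hw).resolve_left h1, h2, h3⟩
  by_cases h2 : 2 ≤ deg G H s'
  · rcases (D \ {s'}).eq_empty_or_nonempty with h3 | h3
    · refine Or.inl ⟨s', hD.2.1 hs', le_trans (dg s' hs') (deg_le_of fun w hw a => ?_)⟩
      refine (mem_union.1 hw).resolve_left fun e => ?_
      have : w ∈ D \ {s'} := by simp [e, a.ne.symm]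
      rw [h3] at this; simp at this
    right
    have h4 : insert s' (D \ {s'}) = D := by
      ext v; simp only [mem_insert, mem_sdiff, mem_singleton]
      constructor
      · rintro (rfl | e); exacts [hs', e.1]
      · intro e; by_cases e' : v = s' <;> simp [e, e']
    have h5 : ∀ u ∈ (D \ {s'}) \ (D \ {s'}).filter (fun s => 1 ≤ deg G H s), ∀ w ∈ D ∪ H,
        G.Adj u w → w ∈ insert s' (D \ {s'}) := by
      intro u hu w hw a
      rw [h4]
      refine (mem_union.1 hw).resolve_right fun e => (mem_sdiff.1 hu).2 ?_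
      exact mem_filter.2 ⟨(mem_sdiff.1 hu).1, deg_pos e a⟩
    obtain ⟨s, hs, L, l1, l2⟩ := ext_exit hk hG (U := D \ {s'}) (r := s')
      (E := (D \ {s'}).filter fun s => 1 ≤ deg G H s) (by simp) (filter_subset _ _) (by
        obtain ⟨u, hu, w, hw, h6, h7, h8⟩ := att (D \ {s'}) sdiff_subset h3 s'
        refine ⟨u, mem_filter.2 ⟨hu, deg_pos ((mem_union.1 hw).resolve_left fun e => h6 ?_) h8⟩⟩
        simp [e, h7]) (h4.symm ▸ hD.2.2.1)
      (dg.mono (sdiff_subset.trans sdiff_subset) h5) (att.mono (sdiff_subset.trans sdiff_subset) h5)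
    rw [h4] at l1 l2
    rw [mem_filter, mem_sdiff, mem_singleton] at hs
    have h6 := le_trans (dg s hs.1.1) (deg_union_le D H s)
    refine ⟨s, hD.2.1 hs.1.1, s', hD.2.1 hs', L.image (· + 2), hs.2, hmax s hs.1.1, ?_, ?_, ?_, ?_⟩
    · rw [card_image_of_injective _ (add_left_injective _)]
      have := hs.2
      omega
    · intro ω hω x hx x' hx' hxx
      obtain ⟨t, ht, rfl⟩ := mem_image.1 hω
      obtain ⟨n, rfl, hn⟩ := l2 t ht
      rw [mem_nb] at hx hx'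
      refine ⟨n + 1 + 1, by omega, by push_cast; ring, ?_⟩
      refine ((hn.symm.cons hx.2.symm (hDH x hx.1)).snoc hx'.2 ?_).mono ?_
      · rintro (e | e)
        exacts [hxx e.symm, hDH x' hx'.1 e]
      · rintro v (rfl | rfl | e)
        · simp
        · simp
        · exact Or.inl (hD.2.1 e)
    · rintro ⟨x, hx, hx'⟩ hω
      obtain ⟨t, ht, e⟩ := mem_image.1 hω
      obtain ⟨n, rfl, hn⟩ := l2 t ht
      rw [mem_nb] at hx hx'
      exact hG.close2 hn hx'.2.symm hx.2.symm (hDH x hx.1) (hn.pos_of_ne (Ne.symm hs.1.2))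
        (by simpa using e)
    · obtain ⟨x, hx⟩ := card_pos.1 hs.2
      obtain ⟨x', hx', e⟩ := exists_mem_ne h2 x
      exact ⟨x, hx, x', hx', e.symm⟩
  right
  have h3 : ∀ u ∈ D, ∀ a ∈ nb G H u, ∀ b ∈ nb G H u, a = b := fun u hu =>
    card_le_one.1 (le_trans (hmax u hu) (by omega))
  obtain ⟨x', hx'⟩ : (nb G H s').Nonempty := by
    obtain ⟨u, hu, w, hw, -, a⟩ := hatt u0
    exact card_pos.1 (lt_of_lt_of_le (deg_pos hw a) (hmax u hu))
  have hx'' := mem_nb.1 hx'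
  have h5 : ∀ u ∈ D \ D.filter (fun s => ∃ x ∈ nb G H s, x ≠ x'), ∀ w ∈ D ∪ H,
      G.Adj u w → w ∈ insert x' D := by
    intro u hu w hw a
    rcases mem_union.1 hw with e | e
    · exact mem_insert_of_mem e
    · by_contra e'
      exact (mem_sdiff.1 hu).2 (mem_filter.2 ⟨(mem_sdiff.1 hu).1, w, mem_nb.2 ⟨e, a⟩,
        fun e'' => e' (by simp [e''])⟩)
  obtain ⟨s, hs, L, l1, l2⟩ := ext_exit hk hG (U := D) (r := x')
    (E := D.filter fun s => ∃ x ∈ nb G H s, x ≠ x') (hDH x' hx''.1) (filter_subset _ _) (by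
      obtain ⟨u, hu, w, hw, h6, a⟩ := hatt x'
      exact ⟨u, mem_filter.2 ⟨hu, w, mem_nb.2 ⟨hw, a⟩, h6⟩⟩)
    (hD.2.2.1.insert_adj hs' hx''.2.symm) (dg.mono sdiff_subset h5) (att.mono sdiff_subset h5)
  obtain ⟨hs, x, hx, hxx⟩ := mem_filter.1 hs
  have h6 := le_trans (dg s hs) (deg_union_le D H s)
  have h7 := deg_mono (G := G) (subset_insert x' D) s
  have h8 := hmax s hs
  have h9 : 1 ≤ deg G H s := card_pos.2 ⟨x, hx⟩
  refine ⟨s, hD.2.1 hs, s', hD.2.1 hs', L.image (· + 1), h9, h8, ?_, ?_, ?_, x, hx, x', hx', hxx⟩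
  · rw [card_image_of_injective _ (add_left_injective _)]
    omega
  · intro ω hω y hy y' hy' hyy
    obtain rfl := h3 s hs x hx y hy
    obtain rfl := h3 s' hs' x' hx' y' hy'
    obtain ⟨t, ht, rfl⟩ := mem_image.1 hω
    obtain ⟨n, rfl, hn⟩ := l2 t ht
    rw [mem_nb] at hx
    have := hn.pos_of_ne (fun e => hDH x' hx''.1 (e ▸ hs))
    refine ⟨n + 1, by omega, by push_cast; ring, ?_⟩
    refine (hn.symm.cons hx.2.symm ?_).mono ?_
    · simp only [coe_insert, Set.mem_insert_iff, mem_coe, not_or]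
      exact ⟨hyy, hDH x hx.1⟩
    · rintro v (rfl | e)
      · simp
      · rcases mem_insert.1 e with rfl | e
        · simp
        · exact Or.inl (hD.2.1 e)
  · rintro ⟨y, hy, hy'⟩
    exact absurd ((h3 s hs x hx y hy).trans (h3 s' hs' y hy' x' hx')) hxx

end Pool.Agent.Work.MP_66aaa3_co
end

-- merged part: Pool.Agent.Work.MP_66aaa3_co.LemXA
section
/-! Uniform families of pieces hanging on a path, and the cycles they produce. -/

namespace Pool.Agent.Work.MP_66aaa3_co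

open Finset

variable {V ι : Type} {G : SimpleGraph V} {m T N : ℕ} {p : ℕ → V} {D : ℕ → Finset V}
  {pos : ℕ → ι → ℕ} {ρ : ι → ZMod m} {W : ι → ι → Set (ZMod m)}

/-- a uniform family of `N` pieces -/
structure LemXUni (G : SimpleGraph V) (m T N : ℕ) (p : ℕ → V) (D : ℕ → Finset V)
    (pos : ℕ → ι → ℕ) (ρ : ι → ZMod m) (W : ι → ι → Set (ZMod m)) : Prop where
  hP : IsP G p T
  nb : NB G m
  le : ∀ j < N, ∀ u, pos j u ≤ T
  dP : ∀ j < N, ∀ i ≤ T, p i ∉ D j
  dD : ∀ j < N, ∀ j' < N, ∀ v ∈ D j, v ∈ D j' → j = j'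
  res : ∀ j < N, ∀ u, (pos j u : ZMod m) = ρ u
  ear : ∀ j < N, ∀ u v, ∀ w ∈ W u v,
    InL G m (↑(D j) ∪ {p (pos j u), p (pos j v)}) (p (pos j u)) (p (pos j v)) w
  u00 : ∀ u v, ∀ i < N, ∀ j < N, pos i u < pos i v → pos j u < pos j v
  u01 : ∀ u v, ∀ i i' j j', i < i' → i' < N → j < j' → j' < N → pos i u < pos i' v →
    pos j u < pos j' v
  u10 : ∀ u v, ∀ i i' j j', i < i' → i' < N → j < j' → j' < N → pos i' u < pos i v →
    pos j' u < pos j v

/-- a path from position `a` to position `x` using the pieces in `J` and positions in `S` -/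
def LemXCh (G : SimpleGraph V) (m T N : ℕ) (p : ℕ → V) (D : ℕ → Finset V) (J S : Set ℕ) (a x : ℕ)
    (r : ZMod m) : Prop :=
  ∃ n : ℕ, (n : ZMod m) = r ∧
    PathIn G ({v | ∃ i ≤ T, i ∈ S ∧ p i = v} ∪ {v | ∃ j < N, j ∈ J ∧ v ∈ D j}) (p a) (p x) n

lemma LemXCh.mono {J S J' S' : Set ℕ} {a x : ℕ} {r : ZMod m} (h : LemXCh G m T N p D J S a x r)
    (hJ : J ⊆ J') (hS : S ⊆ S') : LemXCh G m T N p D J' S' a x r := by
  obtain ⟨n, h1, h2⟩ := h
  refine ⟨n, h1, h2.mono ?_⟩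
  rintro v (⟨i, hi, hs, e⟩ | ⟨j, hj, hs, e⟩)
  · exact Or.inl ⟨i, hi, hS hs, e⟩
  · exact Or.inr ⟨j, hj, hJ hs, e⟩

lemma LemXCh.start {a : ℕ} (ha : a ≤ T) : LemXCh G m T N p D ∅ {a} a a 0 :=
  ⟨0, by simp, PathIn.refl (Or.inl ⟨a, ha, rfl, rfl⟩)⟩

namespace LemXUni

lemma rev (h : LemXUni G m T N p D pos ρ W) :
    LemXUni G m T N p (fun j => D (N - 1 - j)) (fun j => pos (N - 1 - j)) ρ W where
  hP := h.hP
  nb := h.nb
  le := fun j hj => h.le _ (by omega)
  dP := fun j hj => h.dP _ (by omega)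
  dD := fun j hj j' hj' v h1 h2 => by
    have := h.dD _ (by omega) _ (by omega) v h1 h2
    omega
  res := fun j hj => h.res _ (by omega)
  ear := fun j hj => h.ear _ (by omega)
  u00 := fun u v i hi j hj => h.u00 u v _ (by omega) _ (by omega)
  u01 := fun u v i i' j j' h1 h2 h3 h4 =>
    h.u10 u v _ _ _ _ (by omega) (by omega) (by omega) (by omega)
  u10 := fun u v i i' j j' h1 h2 h3 h4 =>
    h.u01 u v _ _ _ _ (by omega) (by omega) (by omega) (by omega)

variable {J S : Set ℕ} {a x : ℕ} {r : ZMod m}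

lemma seg (h : LemXUni G m T N p D pos ρ W) (hc : LemXCh G m T N p D J S a x r) {y : ℕ}
    (hx : x ≤ T) (hy : y ≤ T) (hS : ∀ i ∈ Set.uIcc x y, i ∈ S → i = x) :
    LemXCh G m T N p D J (S ∪ Set.uIcc x y) a y (r + (Nat.dist x y : ℕ)) := by
  obtain ⟨n, h1, h2⟩ := hc
  refine ⟨n + Nat.dist x y, by rw [← h1]; push_cast; rfl, h2.trans' (h.hP.useg hx hy) ?_ ?_ ?_⟩
  · rintro v (⟨i, hi, hs, rfl⟩ | ⟨j, hj, -, e⟩) ⟨t, ht, e'⟩
    · have ht' : t ≤ T := le_trans ht.2 (max_le hx hy)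
      have := h.hP.inj ht' hi e'
      subst this
      rw [hS t ht hs]
    · exact absurd (e' ▸ e) (h.dP j hj t (le_trans ht.2 (max_le hx hy)))
  · rintro v (⟨i, hi, hs, e⟩ | e)
    · exact Or.inl ⟨i, hi, Or.inl hs, e⟩
    · exact Or.inr e
  · rintro v ⟨t, ht, e⟩
    exact Or.inl ⟨t, le_trans ht.2 (max_le hx hy), Or.inr ht, e⟩

lemma seg0 (h : LemXUni G m T N p D pos ρ W) {j j' : ℕ} {u : ι}
    (hc : LemXCh G m T N p D J S a (pos j u) r) (hj : j < N) (hj' : j' < N)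
    (hS : ∀ i ∈ Set.uIcc (pos j u) (pos j' u), i ∈ S → i = pos j u) :
    LemXCh G m T N p D J (S ∪ Set.uIcc (pos j u) (pos j' u)) a (pos j' u) r := by
  have h1 := h.seg hc (h.le j hj u) (h.le j' hj' u) hS
  have h2 : ((Nat.dist (pos j u) (pos j' u) : ℕ) : ZMod m) = 0 := by
    rcases le_total (pos j u) (pos j' u) with e | e
    · rw [Nat.dist_eq_sub_of_le e, Nat.cast_sub e, h.res j hj, h.res j' hj', sub_self]
    · rw [Nat.dist_eq_sub_of_le_right e, Nat.cast_sub e, h.res j hj, h.res j' hj', sub_self]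
  rwa [h2, add_zero] at h1

lemma segUp (h : LemXUni G m T N p D pos ρ W) {j j' : ℕ} {u v : ι}
    (hc : LemXCh G m T N p D J S a (pos j u) r) (hj : j < N) (hj' : j' < N)
    (e : pos j u ≤ pos j' v) (hS : ∀ i, pos j u < i → i ≤ pos j' v → i ∉ S) :
    LemXCh G m T N p D J (S ∪ Set.Icc (pos j u) (pos j' v)) a (pos j' v) (r + (ρ v - ρ u)) := by
  have h1 := h.seg hc (h.le j hj u) (h.le j' hj' v) (by
    rw [Set.uIcc_of_le e]
    intro i hi hs
    by_contra hne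
    exact hS i (lt_of_le_of_ne hi.1 (Ne.symm hne)) hi.2 hs)
  rwa [Set.uIcc_of_le e, Nat.dist_eq_sub_of_le e, Nat.cast_sub e, h.res j hj, h.res j' hj'] at h1

lemma earS (h : LemXUni G m T N p D pos ρ W) {j : ℕ} {u v : ι} {w : ZMod m}
    (hc : LemXCh G m T N p D J S a (pos j u) r) (hj : j < N) (hJ : j ∉ J) (hy : pos j v ∉ S)
    (hw : w ∈ W u v) : LemXCh G m T N p D (insert j J) (insert (pos j v) S) a (pos j v) (r + w) := by
  obtain ⟨n, h1, h2⟩ := hc
  obtain ⟨n', -, h3, h4⟩ := h.ear j hj u v w hw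
  refine ⟨n + n', by rw [← h1, ← h3]; push_cast; rfl, h2.trans' h4 ?_ ?_ ?_⟩
  · rintro z (⟨i, hi, hs, rfl⟩ | ⟨j', hj', hs, e⟩) (e' | e' | e')
    · exact absurd e' (h.dP j hj i hi)
    · exact e'
    · exact absurd (h.hP.inj hi (h.le j hj v) e' ▸ hs) hy
    · exact absurd (h.dD j' hj' j hj z e e' ▸ hs) hJ
    · exact e'
    · exact absurd (e' ▸ e) (h.dP j' hj' _ (h.le j hj v))
  · rintro z (⟨i, hi, hs, e⟩ | ⟨j', hj', hs, e⟩)
    · exact Or.inl ⟨i, hi, Or.inr hs, e⟩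
    · exact Or.inr ⟨j', hj', Or.inr hs, e⟩
  · rintro z (e | e | e)
    · exact Or.inr ⟨j, hj, Or.inl rfl, e⟩
    · rw [e]
      rcases h2.right_mem with ⟨i, hi, hs, e⟩ | ⟨j', hj', hs, e⟩
      · exact Or.inl ⟨i, hi, Or.inr hs, e⟩
      · exact Or.inr ⟨j', hj', Or.inr hs, e⟩
    · exact Or.inl ⟨_, h.le j hj v, Or.inl rfl, e.symm⟩

lemma close (h : LemXUni G m T N p D pos ρ W) {j : ℕ} {u v : ι} {w : ZMod m}
    (hc : LemXCh G m T N p D J S (pos j v) (pos j u) r) (hj : j < N) (hJ : j ∉ J)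
    (hne : pos j u ≠ pos j v) (hw : w ∈ W u v) : r + w ≠ 2 := by
  obtain ⟨n, h1, h2⟩ := hc
  have := h.nb.cycL (h.ear j hj u v w hw) h2 ?_ (h.hP.ne (h.le j hj u) (h.le j hj v) hne)
  · rwa [h1, add_comm] at this
  · rintro z (e' | e' | e') (⟨i, hi, hs, rfl⟩ | ⟨j', hj', hs, e⟩)
    · exact absurd e' (h.dP j hj i hi)
    · exact absurd (h.dD j' hj' j hj z e e' ▸ hs) hJ
    · exact Or.inl e'
    · exact Or.inl e'
    · exact Or.inr e'
    · exact Or.inr e'

end LemXUni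

/-- all positions of `u` lie on one side of all positions of `v` -/
def LemXSep (N : ℕ) (pos : ℕ → ι → ℕ) (u v : ι) : Prop :=
  (∀ j < N, ∀ j' < N, pos j u < pos j' v) ∨ ∀ j < N, ∀ j' < N, pos j' v < pos j u

lemma LemXSep.symm {u v : ι} (h : LemXSep N pos u v) : LemXSep N pos v u :=
  h.elim (fun h => Or.inr fun j hj j' hj' => h j' hj' j hj)
    fun h => Or.inl fun j hj j' hj' => h j' hj' j hj

/-- positions between two positions of a coordinate in `B` -/
def LemXHull (N : ℕ) (pos : ℕ → ι → ℕ) (B : Finset ι) : Set ℕ :=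
  {x | ∃ u ∈ B, ∃ j < N, ∃ j' < N, pos j u ≤ x ∧ x ≤ pos j' u}

lemma LemXHull.not_mem {B : Finset ι} {y : ι} (h : ∀ u ∈ B, LemXSep N pos u y) {j j' x : ℕ}
    (hj : j < N) (hj' : j' < N) (hx : x ∈ Set.uIcc (pos j y) (pos j' y)) :
    x ∉ LemXHull N pos B := by
  rintro ⟨u, hu, i, hi, i', hi', h1, h2⟩
  rw [Set.mem_uIcc] at hx
  rcases h u hu with e | e
  · have := e i' hi' j hj
    have := e i' hi' j' hj'
    omega
  · have := e i hi j hj
    have := e i hi j' hj'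
    omega

variable [DecidableEq ι]

/-- state of the cycle builder when all coordinates of `I` are separated -/
def LemXSt (G : SimpleGraph V) (m T N : ℕ) (p : ℕ → V) (D : ℕ → Finset V) (pos : ℕ → ι → ℕ)
    (I : Finset ι) (x : ι) (B : Finset ι) (y : ι) (r : ZMod m) : Prop :=
  y ∈ I ∧ y ∉ B ∧ B ⊆ I ∧ ∃ j < N, LemXCh G m T N p D {i | 0 < i ∧ i < B.card + 2}
    (insert (pos j y) (LemXHull N pos B)) (pos 0 x) (pos j y) r

namespace LemXUni

variable {I B : Finset ι} {x y : ι} {r : ZMod m}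

omit [DecidableEq ι] in
lemma stStart (h : LemXUni G m T N p D pos ρ W) (hN : 0 < N) (hx : x ∈ I) :
    LemXSt G m T N p D pos I x ∅ x (0 : ZMod m) :=
  ⟨hx, by simp, by simp, 0, hN, (LemXCh.start (h.le 0 hN x)).mono (by simp) (by simp)⟩

lemma stMove (h : LemXUni G m T N p D pos ρ W)
    (hI : ∀ u ∈ I, ∀ v ∈ I, u ≠ v → LemXSep N pos u v)
    (hs : LemXSt G m T N p D pos I x B y r) {c : ℕ} (hc : c < N) :
    LemXCh G m T N p D {i | 0 < i ∧ i < B.card + 2} (LemXHull N pos (insert y B)) (pos 0 x)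
      (pos c y) r := by
  obtain ⟨h1, h2, h3, j, hj, h4⟩ := hs
  refine (h.seg0 h4 hj hc ?_).mono subset_rfl ?_
  · rintro i hi (e | e)
    · exact e
    · exact absurd e (LemXHull.not_mem (fun u hu => hI u (h3 hu) y h1 fun e => h2 (e ▸ hu)) hj hc hi)
  · rintro i ((e | ⟨u, hu, e⟩) | e)
    · exact ⟨y, mem_insert_self _ _, j, hj, j, hj, e.ge, e.le⟩
    · exact ⟨u, mem_insert_of_mem hu, e⟩
    · rw [Set.mem_uIcc] at e
      rcases e with e | e
      · exact ⟨y, mem_insert_self _ _, j, hj, c, hc, e⟩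
      · exact ⟨y, mem_insert_self _ _, c, hc, j, hj, e⟩

lemma stStep (h : LemXUni G m T N p D pos ρ W) (hN : I.card + 2 < N)
    (hI : ∀ u ∈ I, ∀ v ∈ I, u ≠ v → LemXSep N pos u v)
    (hs : LemXSt G m T N p D pos I x B y r) {z : ι} (hz : z ∈ I) (hzB : z ∉ B) (hzy : z ≠ y)
    {w : ZMod m} (hw : w ∈ W y z) : LemXSt G m T N p D pos I x (insert y B) z (r + w) := by
  have hB := card_le_card hs.2.2.1
  have hc : B.card + 2 < N := by omega
  have h1 := h.stMove hI hs hc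
  have hsub : insert y B ⊆ I := insert_subset hs.1 hs.2.2.1
  have hz' : z ∉ insert y B := by simp [hzy, hzB]
  have h2 := h.earS h1 hc (by simp) (LemXHull.not_mem
    (fun u hu => hI u (hsub hu) z hz fun e => hz' (e ▸ hu)) hc hc Set.left_mem_uIcc) hw
  refine ⟨hz, hz', hsub, _, hc, h2.mono ?_ subset_rfl⟩
  rw [card_insert_of_notMem hs.2.1]
  rintro i (e | e)
  · exact ⟨by omega, by omega⟩
  · exact ⟨e.1, by have := e.2; omega⟩

lemma stClose (h : LemXUni G m T N p D pos ρ W) (hN : 0 < N)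
    (hI : ∀ u ∈ I, ∀ v ∈ I, u ≠ v → LemXSep N pos u v)
    (hs : LemXSt G m T N p D pos I x B y r) (hx : x ∈ I) (hxy : y ≠ x)
    {w : ZMod m} (hw : w ∈ W y x) : r + w ≠ 2 := by
  refine h.close (h.stMove hI hs hN) hN (by simp) ?_ hw
  rcases hI y hs.1 x hx hxy with e | e <;> have := e 0 hN 0 hN <;> omega

lemma stRun (h : LemXUni G m T N p D pos ρ W) (hN : I.card + 2 < N)
    (hI : ∀ u ∈ I, ∀ v ∈ I, u ≠ v → LemXSep N pos u v)
    (hs : LemXSt G m T N p D pos I x B y r) {U : Finset ι} (hU : U ⊆ I) (hy : y ∈ U)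
    (hd : ∀ u ∈ U, u ∉ B) (h2 : ∀ u ∈ U, ∀ v ∈ U, u ≠ v → (2 : ZMod m) ∈ W u v) (s : ℕ)
    (hs' : s < U.card) : ∃ B' y', LemXSt G m T N p D pos I x B' y' (r + 2 * (s : ZMod m)) ∧
      y' ∈ U ∧ B' ⊆ B ∪ U ∧ (B' ∩ U).card = s := by
  induction s with
  | zero =>
    refine ⟨B, y, by simpa using hs, hy, subset_union_left, ?_⟩
    rw [card_eq_zero, ← disjoint_iff_inter_eq_empty, disjoint_right]
    exact hd
  | succ s ih =>
    obtain ⟨B', y', h3, h4, h5, h6⟩ := ih (by omega)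
    have h7 : (insert y' (B' ∩ U)).card < U.card := by
      have := card_insert_le y' (B' ∩ U)
      omega
    obtain ⟨z, hz, hz'⟩ := exists_mem_notMem_of_card_lt_card h7
    simp only [mem_insert, mem_inter, not_or, not_and] at hz'
    have h8 := h.stStep hN hI h3 (hU hz) (fun e => hz'.2 e hz) hz'.1
      (h2 y' h4 z hz (Ne.symm hz'.1))
    refine ⟨_, z, by convert h8 using 1; push_cast; ring, hz,
      insert_subset (mem_union_right _ h4) h5, ?_⟩
    rw [insert_inter_of_mem h4, card_insert_of_notMem (fun e => h3.2.1 (mem_inter.1 e).1), h6]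

/-- the doubled visit of a strictly monotone coordinate -/
lemma stTwice (h : LemXUni G m T N p D pos ρ W) (hN : 3 < N)
    (hI : ∀ u ∈ I, ∀ v ∈ I, u ≠ v → LemXSep N pos u v) {a b : ι} (hy : y ∈ I) (ha : a ∈ I)
    (hb : b ∈ I) (hya : y ≠ a) (hyb : y ≠ b) (hab : a ≠ b)
    (hm : pos 0 y < pos 1 y ∨ pos 1 y < pos 0 y) {w₁ w₂ w₃ : ZMod m} (h1 : w₁ ∈ W y a)
    (h2 : w₂ ∈ W a y) (h3 : w₃ ∈ W y b) :
    LemXSt G m T N p D pos I y {y, a} b (w₁ + w₂ + w₃) := by
  have hm' : (pos 0 y < pos 1 y ∧ pos 1 y < pos 2 y ∧ pos 2 y < pos 3 y) ∨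
      (pos 1 y < pos 0 y ∧ pos 2 y < pos 1 y ∧ pos 3 y < pos 2 y) := by
    rcases hm with e | e
    · exact Or.inl ⟨e, h.u01 y y 0 1 1 2 (by omega) (by omega) (by omega) (by omega) e,
        h.u01 y y 0 1 2 3 (by omega) (by omega) (by omega) (by omega) e⟩
    · exact Or.inr ⟨e, h.u10 y y 0 1 1 2 (by omega) (by omega) (by omega) (by omega) e,
        h.u10 y y 0 1 2 3 (by omega) (by omega) (by omega) (by omega) e⟩
  have sa : ∀ j < N, ∀ j' < N, ∀ i < N, ∀ i' < N,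
      (pos j y < pos i a ∧ pos j' y < pos i a ∧ pos j y < pos i' a ∧ pos j' y < pos i' a) ∨
      (pos i a < pos j y ∧ pos i a < pos j' y ∧ pos i' a < pos j y ∧ pos i' a < pos j' y) := by
    intro j hj j' hj' i hi i' hi'
    rcases hI y hy a ha hya with e | e
    · exact Or.inl ⟨e _ hj _ hi, e _ hj' _ hi, e _ hj _ hi', e _ hj' _ hi'⟩
    · exact Or.inr ⟨e _ hj _ hi, e _ hj' _ hi, e _ hj _ hi', e _ hj' _ hi'⟩
  have s1 := sa 0 (by omega) 1 (by omega) 1 (by omega) 2 (by omega)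
  have s2 := sa 2 (by omega) 3 (by omega) 1 (by omega) 2 (by omega)
  have c0 : LemXCh G m T N p D ∅ {pos 0 y} (pos 0 y) (pos 0 y) 0 :=
    LemXCh.start (h.le 0 (by omega) y)
  have c1 := h.seg0 (j' := 1) c0 (by omega) (by omega) fun i _ e => e
  have c2 := h.earS c1 (by omega) (by simp) (by
    simp only [Set.mem_union, Set.mem_singleton_iff, Set.mem_uIcc]; omega) h1
  have c3 := h.seg0 (j' := 2) c2 (by omega) (by omega) (by
    intro i
    simp only [Set.mem_insert_iff, Set.mem_union, Set.mem_singleton_iff, Set.mem_uIcc]; omega)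
  have c4 := h.earS c3 (by omega) (by simp) (by
    simp only [Set.mem_insert_iff, Set.mem_union, Set.mem_singleton_iff, Set.mem_uIcc]; omega) h2
  have c5 := h.seg0 (j' := 3) c4 (by omega) (by omega) (by
    intro i
    simp only [Set.mem_insert_iff, Set.mem_union, Set.mem_singleton_iff, Set.mem_uIcc]; omega)
  have c6 : LemXCh G m T N p D {1, 2} (LemXHull N pos {y, a}) (pos 0 y) (pos 3 y)
      (0 + w₁ + w₂) := by
    refine c5.mono (by intro i; simp; (clear * - hm hm' s1 s2; grind)) ?_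
    have k : ∀ u ∈ ({y, a} : Finset ι), ∀ j < N, ∀ j' < N,
        Set.uIcc (pos j u) (pos j' u) ⊆ LemXHull N pos {y, a} := by
      intro u hu j hj j' hj' i hi
      rw [Set.mem_uIcc] at hi
      rcases hi with e | e
      · exact ⟨u, hu, j, hj, j', hj', e⟩
      · exact ⟨u, hu, j', hj', j, hj, e⟩
    rintro i ((e | (e | e | e) | e) | e)
    · exact k y (by simp) 2 (by omega) 2 (by omega) (by simp [e])
    · exact k a (by simp) 1 (by omega) 1 (by omega) (by simp [e])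
    · exact k y (by simp) 0 (by omega) 0 (by omega) (by simpa using e)
    · exact k y (by simp) 0 (by omega) 1 (by omega) e
    · exact k a (by simp) 1 (by omega) 2 (by omega) e
    · exact k y (by simp) 2 (by omega) 3 (by omega) e
  have hsub : ({y, a} : Finset ι) ⊆ I := by
    intro u hu
    rcases mem_insert.1 hu with e | e
    · exact e ▸ hy
    · exact mem_singleton.1 e ▸ ha
  have hb' : b ∉ ({y, a} : Finset ι) := by simp [hyb.symm, hab.symm]
  have c7 := h.earS c6 hN (by simp) (LemXHull.not_mem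
    (fun u hu => hI u (hsub hu) b hb fun e => hb' (e ▸ hu)) hN hN Set.left_mem_uIcc) h3
  rw [zero_add] at c7
  refine ⟨hb, hb', hsub, 3, hN, c7.mono ?_ subset_rfl⟩
  rw [card_pair hya]
  intro i
  simp only [Set.mem_insert_iff, Set.mem_singleton_iff, Set.mem_ofPred_eq]
  omega

end LemXUni

end Pool.Agent.Work.MP_66aaa3_co
end

-- merged part: Pool.Agent.Work.MP_66aaa3_co.LemXB
section
/-! Residue arithmetic for a uniform family of pieces. -/

namespace Pool.Agent.Work.MP_66aaa3_co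

open Finset

variable {V ι : Type} [DecidableEq ι] {G : SimpleGraph V} {k T N : ℕ} {p : ℕ → V}
  {D : ℕ → Finset V} {pos : ℕ → ι → ℕ} {ρ : ι → ZMod (2 * k)} {W : ι → ι → Set (ZMod (2 * k))}
  {X X' : Finset ι} {Ω : Finset (ZMod (2 * k))}

/-- the configuration of ear residues of a piece -/
structure LemXCfg (k : ℕ) (W : ι → ι → Set (ZMod (2 * k))) (X X' : Finset ι)
    (Ω : Finset (ZMod (2 * k))) : Prop where
  symm : ∀ u v w, w ∈ W u v → w ∈ W v u
  h2 : ∀ u ∈ X, ∀ v ∈ X, u ≠ v → 2 ∈ W u v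
  h2' : ∀ u ∈ X', ∀ v ∈ X', u ≠ v → 2 ∈ W u v
  hΩ : ∀ u ∈ X, ∀ v ∈ X', u ≠ v → ∀ w ∈ Ω, w ∈ W u v
  le : X.card ≤ X'.card
  big : k + 1 ≤ Ω.card + X.card
  cross : ∃ u ∈ X, ∃ v ∈ X', u ≠ v
  ty : (X = X' ∧ X.card = k) ∨ (X'.card < k ∧ ((X ∩ X').Nonempty → 2 ∉ Ω))

namespace LemXCfg

lemma hΩ' (hc : LemXCfg k W X X' Ω) : ∀ u ∈ X', ∀ v ∈ X, u ≠ v → ∀ w ∈ Ω, w ∈ W u v :=
  fun u hu v hv e w hw => hc.symm _ _ _ (hc.hΩ v hv u hu e.symm w hw)

lemma plus (hc : LemXCfg k W X X' Ω) {y z : ι} (h1 : y ∈ X) (h2 : y ∈ X') (hz : z ∈ X ∪ X')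
    (e : y ≠ z) : ∀ w ∈ insert 2 Ω, w ∈ W y z := by
  intro w hw
  rcases mem_insert.1 hw with rfl | hw <;> rcases mem_union.1 hz with hz | hz
  · exact hc.h2 y h1 z hz e
  · exact hc.h2' y h2 z hz e
  · exact hc.hΩ' y h2 z hz e w hw
  · exact hc.hΩ y h1 z hz e w hw

lemma arithB (hk : 3 ≤ k) (hc : LemXCfg k W X X' Ω) (f : ι → ℕ) (Z : ι → Prop)
    (K : Ideal (ZMod (2 * k))) {α β : ι}
    (inj : ∀ u ∈ X ∪ X', ∀ v ∈ X ∪ X', f u = f v → u = v)
    (hα : α ∈ X ∪ X') (hβ : β ∈ X ∪ X') (hαβ : f α < f β) (Zα : Z α) (Zβ : Z β)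
    (h2K : (2 : ZMod (2 * k)) ∉ K)
    (hK : ∀ a b, Z a → Z b → f a < f b → ∀ w ∈ W a b, w - (ρ b - ρ a) ∈ K)
    (hZ : ∀ g, ¬ Z g → ∀ u v, Z u → Z v → ∀ w ∈ W g u, ∀ w' ∈ W v g, ∀ κ ∈ K,
      w + w' + (ρ v - ρ u) + κ ≠ 2) : False := by
  have hbig := hc.big
  have hle := hc.le
  obtain ⟨ω, hω⟩ : Ω.Nonempty := by
    rw [← card_pos]
    rcases hc.ty with e | e <;> omega
  have hne : α ≠ β := fun e => by rw [e] at hαβ; omega
  have tri : ∀ a b c, Z a → Z b → Z c → f a < f b → f b < f c → ∀ w₁ ∈ W a b, ∀ w₂ ∈ W b c,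
      ∀ w₃ ∈ W a c, w₁ + w₂ - w₃ ≠ 2 := by
    intro a b c za zb zc h1 h2 w₁ e₁ w₂ e₂ w₃ e₃ e
    have := K.sub_mem (K.add_mem (hK a b za zb h1 _ e₁) (hK b c zb zc h2 _ e₂))
      (hK a c za zc (h1.trans h2) _ e₃)
    apply h2K
    convert this using 1
    rw [← e]; ring
  have three : ∀ U ⊆ X ∪ X', (∀ u ∈ U, ∀ v ∈ U, u ≠ v → 2 ∈ W u v) → ∀ a ∈ U, ∀ b ∈ U, ∀ c ∈ U,
      Z a → Z b → Z c → a ≠ b → a ≠ c → b ≠ c → False := by
    intro U hU h2 a ha b hb c hc' za zb zc n1 n2 n3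
    have t3 : ∀ a ∈ U, ∀ b ∈ U, ∀ c ∈ U, Z a → Z b → Z c → ¬ (f a < f b ∧ f b < f c) := by
      rintro a ha b hb c hc' za zb zc ⟨h3, h4⟩
      refine tri a b c za zb zc h3 h4 2 (h2 a ha b hb fun e => ?_) 2 (h2 b hb c hc' fun e => ?_) 2
        (h2 a ha c hc' fun e => ?_) (by ring) <;> subst e <;> omega
    have := t3 a ha b hb c hc' za zb zc
    have := t3 a ha c hc' b hb za zc zb
    have := t3 b hb a ha c hc' zb za zc
    have := t3 b hb c hc' a ha zb zc za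
    have := t3 c hc' a ha b hb zc za zb
    have := t3 c hc' b hb a ha zc zb za
    have : f a ≠ f b := fun e => n1 (inj a (hU ha) b (hU hb) e)
    have : f a ≠ f c := fun e => n2 (inj a (hU ha) c (hU hc') e)
    have : f b ≠ f c := fun e => n3 (inj b (hU hb) c (hU hc') e)
    omega
  have bigS : ∀ a ∈ X ∪ X', ∀ b ∈ X ∪ X', a ≠ b → Z a → Z b → ∀ S : Finset (ZMod (2 * k)),
      k ≤ S.card → (∀ w ∈ S, w ∈ W a b) → False := by
    have b1 : ∀ a b, f a < f b → Z a → Z b → ∀ S : Finset (ZMod (2 * k)),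
        k ≤ S.card → (∀ w ∈ S, w ∈ W a b) → False := by
      intro a b h1 za zb S hS h2
      refine h2K (two_mem_ideal (by omega) K (S := S.image (· - (ρ b - ρ a))) ?_ ?_)
      · rwa [card_image_of_injective _ sub_left_injective]
      · intro x hx
        obtain ⟨w, hw, rfl⟩ := mem_image.1 hx
        exact hK a b za zb h1 w (h2 w hw)
    intro a ha b hb n za zb S hS h2
    rcases lt_trichotomy (f a) (f b) with e | e | e
    · exact b1 a b e za zb S hS h2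
    · exact n (inj a ha b hb e)
    · exact b1 b a e zb za S hS fun w hw => hc.symm _ _ _ (h2 w hw)
  have T3 : ∀ g, ¬ Z g → ∀ w₁ ∈ W g β, ∀ w₂ ∈ W α g, ∀ w₃ ∈ W α β, w₁ + w₂ - w₃ ≠ 2 := by
    intro g zg w₁ e₁ w₂ e₂ w₃ e₃ e
    refine hZ g zg β α Zβ Zα w₁ e₁ w₂ e₂ _ (K.neg_mem (hK α β Zα Zβ hαβ w₃ e₃)) ?_
    rw [← e]; ring
  have P1 : ∀ U U' : Finset ι, (∀ u ∈ U, ∀ v ∈ U, u ≠ v → 2 ∈ W u v) →
      (∀ u ∈ U, ∀ v ∈ U', u ≠ v → ∀ w ∈ Ω, w ∈ W u v) → (∀ u ∈ X ∪ X', u ∈ U ∨ u ∈ U') →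
      ∀ g ∈ U, ¬ Z g → α ∉ U ∧ β ∉ U := by
    intro U U' h2 hO hcov g hg zg
    have n1 : α ≠ g := fun e => zg (e ▸ Zα)
    have n2 : g ≠ β := fun e => zg (e ▸ Zβ)
    have both : α ∈ U → β ∈ U → False := fun a b =>
      T3 g zg 2 (h2 g hg β b n2) 2 (h2 α a g hg n1) 2 (h2 α a β b hne) (by ring)
    constructor
    · intro a
      rcases hcov β hβ with b | b
      · exact both a b
      · exact T3 g zg ω (hO g hg β b n2 ω hω) 2 (h2 α a g hg n1) ω (hO α a β b hne ω hω) (by ring)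
    · intro b
      rcases hcov α hα with a | a
      · exact both a b
      · exact T3 g zg 2 (h2 g hg β b n2) ω (hc.symm _ _ _ (hO g hg α a n1.symm ω hω)) ω
          (hc.symm _ _ _ (hO β b α a hne.symm ω hω)) (by ring)
  have P2 : ∀ U U' : Finset ι, (∀ u ∈ U, ∀ v ∈ U, u ≠ v → 2 ∈ W u v) →
      (∀ u ∈ U', ∀ v ∈ U', u ≠ v → 2 ∈ W u v) →
      (∀ u ∈ U, ∀ v ∈ U', u ≠ v → ∀ w ∈ Ω, w ∈ W u v) → (∀ u ∈ X ∪ X', u ∈ U ∨ u ∈ U') →
      U' ⊆ X ∪ X' → X.card ≤ U'.card → ∀ g ∈ U, Z g := by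
    intro U U' h2 h2' hO hcov hsub hcard g hg
    by_contra zg
    obtain ⟨a, b⟩ := P1 U U' h2 hO hcov g hg zg
    have a' := (hcov α hα).resolve_left a
    have b' := (hcov β hβ).resolve_left b
    have n1 : g ≠ α := fun e => zg (e ▸ Zα)
    have n2 : g ≠ β := fun e => zg (e ▸ Zβ)
    have hs : U' ⊆ {α, β} := by
      intro t ht
      by_contra n
      simp only [mem_insert, mem_singleton, not_or] at n
      by_cases zt : Z t
      · exact three U' hsub h2' α a' β b' t ht Zα Zβ zt hne (Ne.symm n.1) (Ne.symm n.2)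
      · exact (P1 U' U h2' (fun u hu v hv e w hw => hc.symm _ _ _ (hO v hv u hu e.symm w hw))
          (fun u hu => (hcov u hu).symm) t ht zt).1 a'
    have h3 := card_le_card hs
    rw [card_pair hne] at h3
    have h4 := window (k := k) (by omega) ⟨ω, hω⟩ (j := 3) (by omega) 2 (by
      intro x hx y hy i hi e
      have xa := hO g hg α a' n1 x hx
      have xb := hO g hg β b' n2 x hx
      have ya := hc.symm _ _ _ (hO g hg α a' n1 y hy)
      have yb := hc.symm _ _ _ (hO g hg β b' n2 y hy)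
      have ab := h2' α a' β b' hne
      interval_cases i
      · exact T3 g zg x xb y ya 2 ab (by push_cast at e; linear_combination e)
      · exact hZ g zg α α Zα Zα x xa y ya 0 K.zero_mem (by push_cast at e; linear_combination e)
      · exact hZ g zg α β Zα Zβ x xa y yb _ (hK α β Zα Zβ hαβ 2 ab)
          (by push_cast at e; linear_combination e))
    omega
  have zX : ∀ g ∈ X, Z g := P2 X X' hc.h2 hc.h2' hc.hΩ (fun u hu => mem_union.1 hu)
    subset_union_right hle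
  have zX' : ∀ g ∈ X', Z g := P2 X' X hc.h2' hc.h2 hc.hΩ' (fun u hu => (mem_union.1 hu).symm)
    subset_union_left le_rfl
  have zI : ∀ g ∈ X ∪ X', Z g := fun g hg => (mem_union.1 hg).elim (zX g) (zX' g)
  have c2 : X'.card ≤ 2 := by
    by_contra e
    obtain ⟨a, ha, b, hb, c, hc', n1, n2, n3⟩ := two_lt_card.1 (show 2 < X'.card by omega)
    exact three X' subset_union_right hc.h2' a ha b hb c hc' (zX' a ha) (zX' b hb) (zX' c hc')
      n1 n2 n3
  have c1 : 2 ≤ X.card := by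
    by_contra e
    obtain ⟨u, hu, v, hv, n⟩ := hc.cross
    exact bigS u (mem_union_left _ hu) v (mem_union_right _ hv) n (zX u hu) (zX' v hv) Ω
      (by omega) (hc.hΩ u hu v hv n)
  have P3 : ∀ U U' : Finset ι, (∀ u ∈ U', ∀ v ∈ U', u ≠ v → 2 ∈ W u v) →
      (∀ u ∈ U, ∀ v ∈ U', u ≠ v → ∀ w ∈ Ω, w ∈ W u v) → U ⊆ X ∪ X' → U' ⊆ X ∪ X' →
      2 ≤ U'.card → ∀ t ∈ U, ((∀ u ∈ X ∪ X', f t ≤ f u) ∨ ∀ u ∈ X ∪ X', f u ≤ f t) → t ∈ U' := by
    intro U U' h2' hO hs hs' hcard t ht hext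
    by_contra n
    have key : ∀ a ∈ U', ∀ b ∈ U', ¬ f a < f b := by
      intro a ha b hb hab
      have n1 : t ≠ a := fun e => n (e ▸ ha)
      have n2 : t ≠ b := fun e => n (e ▸ hb)
      have n3 : a ≠ b := fun e => by rw [e] at hab; omega
      have m1 : f t ≠ f a := fun e => n1 (inj t (hs ht) a (hs' ha) e)
      have m2 : f t ≠ f b := fun e => n2 (inj t (hs ht) b (hs' hb) e)
      rcases hext with e | e
      · have := e a (hs' ha)
        exact tri t a b (zI t (hs ht)) (zI a (hs' ha)) (zI b (hs' hb)) (by omega) hab ω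
          (hO t ht a ha n1 ω hω) 2 (h2' a ha b hb n3) ω (hO t ht b hb n2 ω hω) (by ring)
      · have := e b (hs' hb)
        exact tri a b t (zI a (hs' ha)) (zI b (hs' hb)) (zI t (hs ht)) hab (by omega) 2
          (h2' a ha b hb n3) ω (hc.symm _ _ _ (hO t ht b hb n2 ω hω)) ω
          (hc.symm _ _ _ (hO t ht a ha n1 ω hω)) (by ring)
    obtain ⟨a, ha, b, hb, n3⟩ := one_lt_card.1 (show 1 < U'.card by omega)
    have := key a ha b hb
    have := key b hb a ha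
    have : f a ≠ f b := fun e => n3 (inj a (hs' ha) b (hs' hb) e)
    omega
  have P4 : ∀ t ∈ X ∪ X', ((∀ u ∈ X ∪ X', f t ≤ f u) ∨ ∀ u ∈ X ∪ X', f u ≤ f t) →
      t ∈ X ∧ t ∈ X' := by
    intro t ht hext
    rcases mem_union.1 ht with e | e
    · exact ⟨e, P3 X X' hc.h2' hc.hΩ subset_union_left subset_union_right (by omega) t e hext⟩
    · exact ⟨P3 X' X hc.h2 hc.hΩ' subset_union_right subset_union_left c1 t e hext, e⟩
  obtain ⟨t, ht, h1⟩ := exists_min_image (X ∪ X') f ⟨α, hα⟩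
  obtain ⟨t', ht', h2⟩ := exists_max_image (X ∪ X') f ⟨α, hα⟩
  obtain ⟨h3, h4⟩ := P4 t ht (Or.inl h1)
  have n : t ≠ t' := fun e => by
    have := h1 α hα
    have := h2 β hβ
    subst e
    omega
  rcases hc.ty with e | e
  · omega
  · refine bigS t ht t' ht' n (zI t ht) (zI t' ht') (insert 2 Ω) ?_ (hc.plus h3 h4 ht' n)
    rw [card_insert_of_notMem (e.2 ⟨t, mem_inter.2 ⟨h3, h4⟩⟩)]
    omega

end LemXCfg

end Pool.Agent.Work.MP_66aaa3_co
end

-- merged part: Pool.Agent.Work.MP_66aaa3_co.MainA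
section
namespace Pool.Agent.Work.MP_66aaa3_co

open Finset

variable {V : Type} [DecidableEq V] {G : SimpleGraph V} {k q c : ℕ}

/-- few good pieces cross a cut of a path -/
def Main_XQ (G : SimpleGraph V) (k q : ℕ) : Prop :=
  ∀ (p : ℕ → V) (T c : ℕ) (𝒟 : Finset (Finset V)),
    IsP G p T → (∀ D ∈ 𝒟, Conn G D ∧ Disjoint D (pv p T) ∧ 2 * k * D.card ≤ inc2 G D (pv p T) ∧
      (∃ l ≤ c, l ≤ T ∧ ∃ u ∈ D, G.Adj u (p l)) ∧ ∃ r ≤ T, c < r ∧ ∃ u ∈ D, G.Adj u (p r)) →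
    (∀ D ∈ 𝒟, ∀ D' ∈ 𝒟, D ≠ D' → Disjoint D D') → 𝒟.card ≤ q

/-- every set is incident with many edges -/
def Main_Psi [Fintype V] (G : SimpleGraph V) (k c : ℕ) : Prop :=
  ∀ C : Finset V, 2 * k * C.card ≤ inc2 G C (univ \ C) + c

lemma Main_exc (hN : N3D G k) {P : Finset V} (𝒟 : Finset (Finset V))
    (hd : ∀ D ∈ 𝒟, Disjoint D P) (hdis : ∀ D ∈ 𝒟, ∀ D' ∈ 𝒟, D ≠ D' → Disjoint D D')
    (h : ∀ D ∈ 𝒟, ∃ z ∈ P, ∃ Y ⊆ insert z D, Dense G k Y) : 𝒟.card ≤ 4 := by
  rcases 𝒟.eq_empty_or_nonempty with rfl | ⟨D0, hD0⟩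
  · simp
  obtain ⟨z0, -, -⟩ := h D0 hD0
  have : Nonempty V := ⟨z0⟩
  choose! z hz Y hY hden using h
  have key : ∀ D ∈ 𝒟, ∀ D' ∈ 𝒟, D ≠ D' → ∀ v ∈ Y D, v ∈ Y D' → v = z D ∧ v = z D' := by
    intro D hD D' hD' hne v h1 h2
    rcases mem_insert.1 (hY D hD h1) with e | e <;> rcases mem_insert.1 (hY D' hD' h2) with e' | e'
    · exact ⟨e, e'⟩
    · exact absurd (e ▸ hz D hD) (disjoint_left.1 (hd D' hD') e')
    · exact absurd (e' ▸ hz D' hD') (disjoint_left.1 (hd D hD) e)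
    · exact absurd e' (disjoint_left.1 (hdis D hD D' hD' hne) e)
  by_contra hc
  by_cases h1 : ∃ a, 2 < (𝒟.filter fun D => z D = a).card
  · obtain ⟨a, ha⟩ := h1
    obtain ⟨D1, h1, D2, h2, D3, h3, n12, n13, n23⟩ := two_lt_card.1 ha
    rw [mem_filter] at h1 h2 h3
    exact hN _ _ _ a (hden D1 h1.1) (hden D2 h2.1) (hden D3 h3.1)
      (fun v a1 a2 => (key _ h1.1 _ h2.1 n12 v a1 a2).1.trans h1.2)
      (fun v a1 a2 => (key _ h1.1 _ h3.1 n13 v a1 a2).1.trans h1.2)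
      (fun v a1 a2 => (key _ h2.1 _ h3.1 n23 v a1 a2).1.trans h2.2)
  · push Not at h1
    have h2 := card_le_mul_card_image (f := z) 𝒟 2 fun a _ => h1 a
    obtain ⟨_, h1, _, h2, _, h3, n12, n13, n23⟩ := two_lt_card.1
      (show 2 < (𝒟.image z).card by omega)
    obtain ⟨D1, g1, rfl⟩ := mem_image.1 h1
    obtain ⟨D2, g2, rfl⟩ := mem_image.1 h2
    obtain ⟨D3, g3, rfl⟩ := mem_image.1 h3
    have no : ∀ D ∈ 𝒟, ∀ D' ∈ 𝒟, z D ≠ z D' → ∀ v ∈ Y D, v ∈ Y D' → v = z0 := by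
      intro D hD D' hD' hne v a1 a2
      have := key D hD D' hD' (fun e => hne (e ▸ rfl)) v a1 a2
      exact absurd (this.1.symm.trans this.2) hne
    exact hN _ _ _ z0 (hden D1 g1) (hden D2 g2) (hden D3 g3) (no _ g1 _ g2 n12) (no _ g1 _ g3 n13)
      (no _ g2 _ g3 n23)

lemma Main_comp_sdiff {O D : Finset V} (h : IsComp G O D) {u : V} (hu : u ∉ D) :
    IsComp G (O \ {u}) D :=
  ⟨h.1, fun _ hv => mem_sdiff.2 ⟨h.2.1 hv, fun e => hu (mem_singleton.1 e ▸ hv)⟩, h.2.2.1,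
    fun a ha b hb => h.2.2.2 a ha b (mem_sdiff.1 hb).1⟩

lemma Main_comp_child {O C D : Finset V} (h : IsComp G O C) {u : V}
    (hD : IsComp G (C \ {u}) D) : IsComp G (O \ {u}) D :=
  ⟨hD.1, hD.2.1.trans (sdiff_subset_sdiff h.2.1 Subset.rfl), hD.2.2.1, fun a ha b hb e =>
    hD.2.2.2 a ha b (mem_sdiff.2 ⟨h.2.2.2 a (mem_sdiff.1 (hD.2.1 ha)).1 b (mem_sdiff.1 hb).1 e,
      (mem_sdiff.1 hb).2⟩) e⟩

lemma Main_child_adj {C O D : Finset V} (h : Conn G C) {u : V} (hu : u ∈ C) (hO : C \ {u} ⊆ O)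
    (hu' : u ∉ O) (hD : IsComp G O D) {a : V} (haD : a ∈ D) (haC : a ∈ C) :
    ∃ a ∈ D, G.Adj a u := by
  obtain ⟨a, ha, b, hb, hbD, -, e⟩ := h.exists_adj haD haC hu fun e => hu' (hD.2.1 e)
  by_cases hbu : b = u
  · exact ⟨a, ha, hbu ▸ e⟩
  · exact absurd (hD.2.2.2 a ha b (hO (by simp [hb, hbu])) e) hbD

lemma Main_pv_snoc (p : ℕ → V) (T : ℕ) (u : V) :
    pv (fun i => if i ≤ T then p i else u) (T + 1) = insert u (pv p T) := by
  ext v
  simp only [mem_pv, mem_insert]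
  constructor
  · rintro ⟨i, -, e⟩
    by_cases h : i ≤ T
    · rw [if_pos h] at e; exact Or.inr ⟨i, h, e⟩
    · rw [if_neg h] at e; exact Or.inl e.symm
  · rintro (e | ⟨i, h, e⟩)
    · exact ⟨T + 1, le_rfl, by simp [e]⟩
    · exact ⟨i, by omega, by simp [h, e]⟩

variable [Fintype V]

lemma Main_out {P D : Finset V} (h : IsComp G (univ \ P) D) {u w : V} (hu : u ∈ D)
    (a : G.Adj u w) : w ∈ D ∨ w ∈ P := by
  by_cases e : w ∈ P
  · exact Or.inr e
  · exact Or.inl (h.2.2.2 u hu w (by simp [e]) a)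

lemma Main_disj {P D : Finset V} (h : IsComp G (univ \ P) D) : Disjoint D P :=
  disjoint_left.2 fun _ hv => (mem_sdiff.1 (h.2.1 hv)).2

lemma Main_nongood (hψ : Main_Psi G k c) {P : Finset V} (𝒟 : Finset (Finset V))
    (h : ∀ D ∈ 𝒟, IsComp G (univ \ P) D ∧ inc2 G D P < 2 * k * D.card) : 𝒟.card ≤ c := by
  have h1 := hψ (𝒟.biUnion id)
  have h2 : inc2 G (𝒟.biUnion id) (univ \ 𝒟.biUnion id) ≤ inc2 G (𝒟.biUnion id) P := by
    refine inc2_le_of fun u hu w hw a => ?_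
    obtain ⟨D, hD, hu⟩ := mem_biUnion.1 hu
    exact (Main_out (h D hD).1 hu a).resolve_left fun e =>
      (mem_sdiff.1 hw).2 (mem_biUnion.2 ⟨D, hD, e⟩)
  rw [inc2_biUnion P 𝒟 fun D hD => (h D hD).1] at h2
  rw [card_biUnion_comps 𝒟 fun D hD => (h D hD).1, mul_sum] at h1
  have h3 : ∑ D ∈ 𝒟, (inc2 G D P + 1) ≤ ∑ D ∈ 𝒟, 2 * k * D.card :=
    sum_le_sum fun D hD => (h D hD).2
  rw [sum_add_distrib, sum_const, smul_eq_mul] at h3
  omega

lemma Main_good_split (hψ : Main_Psi G k c) {P : Finset V} (𝒟 : Finset (Finset V))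
    (h : ∀ D ∈ 𝒟, IsComp G (univ \ P) D) :
    𝒟.card ≤ (𝒟.filter fun D => 2 * k * D.card ≤ inc2 G D P).card + c := by
  have h1 := card_filter_add_card_filter_not (s := 𝒟) fun D => 2 * k * D.card ≤ inc2 G D P
  have h2 := Main_nongood hψ (P := P) (𝒟.filter fun D => ¬ 2 * k * D.card ≤ inc2 G D P)
    fun D hD => ⟨h D (mem_filter.1 hD).1, not_le.1 (mem_filter.1 hD).2⟩
  omega

lemma Main_cross (hX : Main_XQ G k q) (hψ : Main_Psi G k c) {p : ℕ → V} {T : ℕ} (hp : IsP G p T)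
    (t : ℕ) (𝒟 : Finset (Finset V)) (h : ∀ D ∈ 𝒟, IsComp G (univ \ pv p T) D ∧
      (∃ l ≤ t, l ≤ T ∧ ∃ u ∈ D, G.Adj u (p l)) ∧ ∃ r ≤ T, t < r ∧ ∃ u ∈ D, G.Adj u (p r)) :
    𝒟.card ≤ q + c := by
  refine (Main_good_split hψ 𝒟 fun D hD => (h D hD).1).trans (Nat.add_le_add_right ?_ _)
  refine hX p T t _ hp (fun D hD => ?_) fun D hD D' hD' hne =>
    (h D (mem_filter.1 hD).1).1.disjoint (h D' (mem_filter.1 hD').1).1 hne
  obtain ⟨h1, h2⟩ := mem_filter.1 hD
  exact ⟨(h D h1).1.2.2.1, Main_disj (h D h1).1, h2, (h D h1).2⟩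

lemma Main_one (hN : N3D G k) (hψ : Main_Psi G k c) {P : Finset V} (𝒟 : Finset (Finset V))
    (h : ∀ D ∈ 𝒟, IsComp G (univ \ P) D ∧ ∃ z ∈ P, ∀ u ∈ D, ∀ w ∈ P, G.Adj u w → w = z) :
    𝒟.card ≤ 4 + c := by
  refine (Main_good_split hψ 𝒟 fun D hD => (h D hD).1).trans (Nat.add_le_add_right ?_ _)
  refine Main_exc hN (P := P) _ (fun D hD => Main_disj (h D (mem_filter.1 hD).1).1)
    (fun D hD D' hD' hne =>
      (h D (mem_filter.1 hD).1).1.disjoint (h D' (mem_filter.1 hD').1).1 hne) fun D hD => ?_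
  obtain ⟨h1, h2⟩ := mem_filter.1 hD
  obtain ⟨h3, z, hz, h4⟩ := h D h1
  exact ⟨z, hz, _, Subset.rfl, dense_insert h3.1
    (fun e => disjoint_left.1 (Main_disj h3) e hz) h2 h4⟩

/-- the bound of the search lemma -/
def Main_E (w0 b : ℕ) : ℕ → ℕ
  | 0 => w0
  | n + 1 => w0 + b * Main_E w0 b n

/-- the families considered in the search lemma -/
def Main_Fam (G : SimpleGraph V) (w : V → ℕ) (T0 : ℕ) (p : ℕ → V) (T : ℕ)
    (S : Finset (Finset V)) : Prop :=
  ∀ D ∈ S, IsComp G (univ \ pv p T) D ∧ 0 < ∑ v ∈ D, w v ∧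
    ∃ i, T0 < i ∧ i ≤ T ∧ ∃ u ∈ D, G.Adj u (p i)

lemma Main_dfs (w : V → ℕ) (w0 b T0 : ℕ) (p0 : ℕ → V) (hw : ∀ u, u ∉ pv p0 T0 → w u ≤ w0)
    (H : ∀ p T S, IsP G p T → T0 ≤ T → (∀ i ≤ T0, p i = p0 i) → Main_Fam G w T0 p T S →
      ∑ i ∈ Ioc T0 T, w (p i) + S.card ≤ b) (C : Finset V) :
    ∀ n p T S, IsP G p T → T0 ≤ T → (∀ i ≤ T0, p i = p0 i) → Main_Fam G w T0 p T S → C ∉ S →
      IsComp G (univ \ pv p T) C → (∃ u ∈ C, G.Adj u (p T)) →
      b ≤ ∑ i ∈ Ioc T0 T, w (p i) + S.card + n → ∑ v ∈ C, w v ≤ Main_E w0 b n := by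
  induction C using Finset.strongInduction with
  | H C ih =>
    rintro n p T S hp hT hag hS hCS hC ⟨u, hu, hadj⟩ hb
    have hup : u ∉ pv p T := disjoint_left.1 (Main_disj hC) hu
    have hp' := hp.snoc hadj.symm fun i hi e => hup (mem_pv.2 ⟨i, hi, e⟩)
    set p' : ℕ → V := fun i => if i ≤ T then p i else u with hp'def
    have hO : univ \ pv p' (T + 1) = (univ \ pv p T) \ {u} := by
      rw [Main_pv_snoc]; ext v; simp [and_comm]
    have hlast : p' (T + 1) = u := by simp [hp'def]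
    have hag' : ∀ i ≤ T0, p' i = p0 i := fun i hi => by
      simp only [hp'def, if_pos (hi.trans hT)]; exact hag i hi
    have hsum : ∑ i ∈ Ioc T0 (T + 1), w (p' i) = ∑ i ∈ Ioc T0 T, w (p i) + w u := by
      rw [sum_Ioc_succ_top hT, hlast]
      congr 1
      exact sum_congr rfl fun i hi => by simp only [hp'def, if_pos (mem_Ioc.1 hi).2]
    set Ch := (comps G (C \ {u})).filter fun D => 0 < ∑ v ∈ D, w v with hCh
    have hCh1 : ∀ D ∈ Ch, IsComp G (C \ {u}) D := fun D hD => mem_comps.1 (mem_filter.1 hD).1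
    have hChadj : ∀ D ∈ Ch, ∃ a ∈ D, G.Adj a (p' (T + 1)) := by
      intro D hD
      obtain ⟨a, ha⟩ := (hCh1 D hD).1
      rw [hlast]
      exact Main_child_adj hC.2.2.1 hu Subset.rfl (by simp) (hCh1 D hD) ha
        (mem_sdiff.1 ((hCh1 D hD).2.1 ha)).1
    have hfam : Main_Fam G w T0 p' (T + 1) (S ∪ Ch) := by
      intro D hD
      rcases mem_union.1 hD with hD | hD
      · obtain ⟨a1, a2, i, a3, a4, a5⟩ := hS D hD
        refine ⟨hO ▸ Main_comp_sdiff a1 fun e => hCS (hC.eq_of_mem a1 hu e ▸ hD), a2, i, a3,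
          by omega, ?_⟩
        simpa only [hp'def, if_pos a4] using a5
      · exact ⟨hO ▸ Main_comp_child hC (hCh1 D hD), (mem_filter.1 hD).2, T + 1, by omega, le_rfl,
          hChadj D hD⟩
    have hdis : Disjoint S Ch := by
      refine disjoint_left.2 fun D hD hD' => hCS ?_
      obtain ⟨a, ha⟩ := (hCh1 D hD').1
      exact hC.eq_of_mem (hS D hD).1 (mem_sdiff.1 ((hCh1 D hD').2.1 ha)).1 ha ▸ hD
    have hH := H p' (T + 1) _ hp' (by omega) hag' hfam
    rw [hsum, card_union_of_disjoint hdis] at hH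
    have hwt : ∑ v ∈ C, w v = w u + ∑ D ∈ Ch, ∑ v ∈ D, w v := by
      rw [← sum_sdiff (singleton_subset_iff.2 hu), sum_singleton, add_comm, hCh,
        sum_filter_of_ne fun D _ h => Nat.pos_of_ne_zero h,
        ← sum_biUnion_comps w _ fun D hD => mem_comps.1 hD, biUnion_comps]
    have hchild : ∀ n', b + 1 ≤ ∑ i ∈ Ioc T0 T, w (p i) + w u + S.card + Ch.card + n' →
        ∑ D ∈ Ch, ∑ v ∈ D, w v ≤ Ch.card * Main_E w0 b n' := by
      intro n' hn'
      refine sum_le_card_nsmul Ch _ _ fun D hD => ?_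
      have hss : D ⊂ C := ⟨(hCh1 D hD).2.1.trans sdiff_subset, fun e => by
        simpa using (hCh1 D hD).2.1 (e hu)⟩
      refine ih D hss n' p' (T + 1) ((S ∪ Ch).erase D) hp' (by omega) hag'
        (fun D' hD' => hfam D' (mem_of_mem_erase hD')) (notMem_erase _ _)
        (hfam D (mem_union_right _ hD)).1 (hChadj D hD) ?_
      rw [hsum, card_erase_of_mem (mem_union_right _ hD), card_union_of_disjoint hdis]
      omega
    have hwu : w u ≤ w0 := hw u fun e => hup (by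
      obtain ⟨i, hi, e⟩ := mem_pv.1 e
      exact mem_pv.2 ⟨i, hi.trans hT, (hag i hi).trans e⟩)
    rcases Nat.eq_zero_or_pos Ch.card with h0 | h0
    · rw [hwt, card_eq_zero.1 h0, sum_empty, add_zero]
      cases n with
      | zero => exact hwu
      | succ n => exact hwu.trans (Nat.le_add_right _ _)
    cases n with
    | zero => omega
    | succ n =>
      by_cases h1 : w u = 0 ∧ Ch.card = 1
      · have := hchild (n + 1) (by omega)
        rw [h1.2, one_mul] at this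
        omega
      · have h2 := hchild n (by omega)
        have h3 : Ch.card * Main_E w0 b n ≤ b * Main_E w0 b n :=
          Nat.mul_le_mul_right _ (by omega)
        rw [hwt, Main_E]
        omega

/-- graphs without long paths are small -/
lemma Main_short (hX : Main_XQ G k q) (hN : N3D G k) (hψ : Main_Psi G k c) {h : ℕ}
    (hh : ∀ p T, IsP G p T → T ≤ h) : Fintype.card V ≤
      1 + (4 + c) * (1 + (4 + c) * Main_E 1 (h + (h * (q + c) + (4 + c)))
        (h + (h * (q + c) + (4 + c)))) := by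
  classical
  set b := h + (h * (q + c) + (4 + c)) with hb
  have hpv : ∀ v : V, pv (fun _ => v) 0 = {v} := fun v => by ext; simp [eq_comm]
  have hnum : ∀ v : V, (comps G (univ \ {v})).card ≤ 4 + c := fun v =>
    Main_one hN hψ (P := {v}) _ fun D hD => ⟨mem_comps.1 hD, v, by simp, fun _ _ w hw _ => by
      simpa using hw⟩
  have h1 : ∀ v C, IsComp G (univ \ {v}) C → (∃ u ∈ C, G.Adj u v) → C.card ≤ Main_E 1 b b := by
    intro v C hC hadj
    have := Main_dfs (G := G) (fun _ => 1) 1 b 0 (fun _ => v) (fun _ _ => le_rfl) ?_ C b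
      (fun _ => v) 0 ∅ (IsP.zero _) le_rfl (fun _ _ => rfl) (fun _ h => by simp at h) (by simp)
      (by rwa [hpv]) hadj (by omega)
    · simpa using this
    intro p T S hp _ _ hS
    have a1 := hh p T hp
    have a2 := card_filter_add_card_filter_not (s := S)
      fun D => ∃ z ∈ pv p T, ∀ u ∈ D, ∀ w ∈ pv p T, G.Adj u w → w = z
    have a3 := Main_one hN hψ (S.filter fun D => ∃ z ∈ pv p T, ∀ u ∈ D, ∀ w ∈ pv p T,
      G.Adj u w → w = z) fun D hD => ⟨(hS D (mem_filter.1 hD).1).1, (mem_filter.1 hD).2⟩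
    have a4 : (S.filter fun D => ¬ ∃ z ∈ pv p T, ∀ u ∈ D, ∀ w ∈ pv p T, G.Adj u w → w = z) ⊆
        (range h).biUnion fun t => S.filter fun D =>
          (∃ l ≤ t, l ≤ T ∧ ∃ u ∈ D, G.Adj u (p l)) ∧ ∃ r ≤ T, t < r ∧ ∃ u ∈ D, G.Adj u (p r) := by
      intro D hD
      obtain ⟨hD, hn⟩ := mem_filter.1 hD
      obtain ⟨-, -, i, -, hi, hu⟩ := hS D hD
      push Not at hn
      obtain ⟨u', hu', w, hw, e, hne⟩ := hn (p i) (mem_pv.2 ⟨i, hi, rfl⟩)
      obtain ⟨j, hj, rfl⟩ := mem_pv.1 hw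
      rcases lt_or_gt_of_ne (show j ≠ i from fun e => hne (e ▸ rfl)) with h1 | h1
      · exact mem_biUnion.2 ⟨j, mem_range.2 (by omega), mem_filter.2
          ⟨hD, ⟨j, le_rfl, hj, u', hu', e⟩, i, hi, h1, hu⟩⟩
      · exact mem_biUnion.2 ⟨i, mem_range.2 (by omega), mem_filter.2
          ⟨hD, ⟨i, le_rfl, hi, hu⟩, j, hj, h1, u', hu', e⟩⟩
    have a5 := (card_le_card a4).trans (card_biUnion_le_card_mul _ _ (q + c) fun t _ =>
      Main_cross hX hψ hp t _ fun D hD => ⟨(hS D (mem_filter.1 hD).1).1, (mem_filter.1 hD).2⟩)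
    rw [card_range] at a5
    simp only [sum_const, Nat.card_Ioc, smul_eq_mul]
    omega
  have h2 : ∀ D, Conn G D → D.card ≤ 1 + (4 + c) * Main_E 1 b b := by
    intro D hD
    rcases D.eq_empty_or_nonempty with rfl | ⟨v, hv⟩
    · simp
    have a1 : D ⊆ insert v (((comps G (univ \ {v})).filter
        fun C => ∃ u ∈ C, G.Adj u v).biUnion id) := by
      intro u hu
      by_cases e : u = v
      · simp [e]
      obtain ⟨C, hC, huC⟩ := exists_comp (G := G) (univ \ {v}) (u := u) (by simp [e])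
      exact mem_insert_of_mem (mem_biUnion.2 ⟨C, mem_filter.2 ⟨mem_comps.2 hC, Main_child_adj hD hv
        (sdiff_subset_sdiff (subset_univ _) Subset.rfl) (by simp) hC huC hu⟩, huC⟩)
    refine (card_le_card a1).trans ((card_insert_le _ _).trans ?_)
    rw [add_comm]
    refine Nat.add_le_add_left ((card_biUnion_le_card_mul _ _ (Main_E 1 b b) fun C hC =>
      h1 v C (mem_comps.1 (mem_filter.1 hC).1) (mem_filter.1 hC).2).trans ?_) _
    exact Nat.mul_le_mul_right _ ((card_filter_le _ _).trans (hnum v))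
  rcases isEmpty_or_nonempty V with h0 | ⟨⟨v⟩⟩
  · simp
  have a1 := card_biUnion_le_card_mul (comps G (univ \ {v})) id _
    fun C hC => h2 C (mem_comps.1 hC).2.2.1
  rw [biUnion_comps, card_sdiff_of_subset (subset_univ _), card_univ, card_singleton] at a1
  have a2 := Nat.mul_le_mul_right (1 + (4 + c) * Main_E 1 b b) (hnum v)
  omega

end Pool.Agent.Work.MP_66aaa3_co
end

-- merged part: Pool.Agent.Work.MP_66aaa3_co.MainB
section
namespace Pool.Agent.Work.MP_66aaa3_co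

open Finset

variable {V : Type} [DecidableEq V] [Fintype V] {G : SimpleGraph V} {k q c : ℕ} {p : ℕ → V}
  {T : ℕ}

/-- a chord or a component joining the positions `a < b` -/
def Main_Ear (G : SimpleGraph V) (p : ℕ → V) (T a b : ℕ) : Prop :=
  a < b ∧ b ≤ T ∧ (G.Adj (p a) (p b) ∨ ∃ D, IsComp G (univ \ pv p T) D ∧
    (∃ u ∈ D, G.Adj u (p a)) ∧ ∃ u ∈ D, G.Adj u (p b))

def Main_Cov (G : SimpleGraph V) (p : ℕ → V) (T t : ℕ) : Prop :=
  ∃ a b, a < t ∧ t < b ∧ Main_Ear G p T a b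

/-- vertices in components with an attachment before `t` -/
def Main_Off (G : SimpleGraph V) (p : ℕ → V) (T t : ℕ) (v : V) : Prop :=
  ∃ D, IsComp G (univ \ pv p T) D ∧ v ∈ D ∧ ∃ i < t, ∃ u ∈ D, G.Adj u (p i)

open Classical in
noncomputable def Main_L (G : SimpleGraph V) (p : ℕ → V) (T t : ℕ) : Finset V :=
  univ.filter fun v => (∃ i ≤ t, p i = v) ∨ Main_Off G p T t v

lemma Main_mem_L {t : ℕ} {v : V} :
    v ∈ Main_L G p T t ↔ (∃ i ≤ t, p i = v) ∨ Main_Off G p T t v := by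
  classical
  simp [Main_L]

lemma Main_Off.mono {a b : ℕ} {v : V} (h : Main_Off G p T a v) (hab : a ≤ b) :
    Main_Off G p T b v :=
  let ⟨D, h1, h2, i, hi, h3⟩ := h; ⟨D, h1, h2, i, by omega, h3⟩

lemma Main_Off.not {a j : ℕ} (hj : j ≤ T) : ¬ Main_Off G p T a (p j) :=
  fun ⟨_, h1, h2, _⟩ => disjoint_left.1 (Main_disj h1) h2 (mem_pv.2 ⟨j, hj, rfl⟩)

lemma Main_L_mono {a b : ℕ} (hab : a ≤ b) : Main_L G p T a ⊆ Main_L G p T b := by
  intro v hv
  rw [Main_mem_L] at hv ⊢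
  rcases hv with ⟨i, hi, e⟩ | h
  · exact Or.inl ⟨i, by omega, e⟩
  · exact Or.inr (h.mono hab)

lemma Main_self_mem_L (t : ℕ) : p t ∈ Main_L G p T t := Main_mem_L.2 (Or.inl ⟨t, le_rfl, rfl⟩)

lemma Main_notMem_L (hp : IsP G p T) {a b : ℕ} (hab : a < b) (hb : b ≤ T) :
    p b ∉ Main_L G p T a := by
  rw [Main_mem_L]
  rintro (⟨i, hi, e⟩ | h)
  · have := hp.inj (by omega) hb e; omega
  · exact Main_Off.not hb h

lemma Main_closed {t : ℕ} (ht : ¬ Main_Cov G p T t) {v w : V} (hv : v ∈ Main_L G p T t)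
    (hne : v ≠ p t) (a : G.Adj v w) : w ∈ Main_L G p T t := by
  rw [Main_mem_L] at hv ⊢
  rcases hv with ⟨i, hi, rfl⟩ | ⟨D, h1, h2, i, hi, h3⟩
  · have hi' : i < t := lt_of_le_of_ne hi fun e => hne (e ▸ rfl)
    by_cases hw : w ∈ pv p T
    · obtain ⟨j, hj, rfl⟩ := mem_pv.1 hw
      by_cases hjt : j ≤ t
      · exact Or.inl ⟨j, hjt, rfl⟩
      · exact absurd ⟨i, j, hi', by omega, by omega, hj, Or.inl a⟩ ht
    · obtain ⟨D, hD, hwD⟩ := exists_comp (G := G) (univ \ pv p T) (u := w)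
        (mem_sdiff.2 ⟨mem_univ _, hw⟩)
      exact Or.inr ⟨D, hD, hwD, i, hi', w, hwD, a.symm⟩
  · rcases Main_out h1 h2 a with e | e
    · exact Or.inr ⟨D, h1, e, i, hi, h3⟩
    · obtain ⟨j, hj, rfl⟩ := mem_pv.1 e
      by_cases hjt : j ≤ t
      · exact Or.inl ⟨j, hjt, rfl⟩
      · exact absurd ⟨i, j, hi, by omega, by omega, hj, Or.inr ⟨D, h1, h3, v, h2, a⟩⟩ ht

/-- the block between two uncovered positions -/
noncomputable def Main_Y (G : SimpleGraph V) (p : ℕ → V) (T a b : ℕ) : Finset V :=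
  insert (p a) (Main_L G p T b \ Main_L G p T a)

lemma Main_Y_card {a b : ℕ} (hab : a ≤ b) :
    (Main_L G p T b).card + 1 = (Main_L G p T a).card + (Main_Y G p T a b).card := by
  rw [Main_Y, card_insert_of_notMem fun h => (mem_sdiff.1 h).2 (Main_self_mem_L a)]
  have := card_sdiff_add_card_eq_card (Main_L_mono (G := G) (p := p) (T := T) hab)
  omega

lemma Main_Y_EE {a b : ℕ} (hab : a ≤ b) (ha : ¬ Main_Cov G p T a) :
    EE G (Main_L G p T b) (Main_L G p T b) = EE G (Main_L G p T a) (Main_L G p T a) +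
      EE G (Main_Y G p T a b) (Main_Y G p T a b) := by
  have h1 := EE_self_sdiff (G := G) (sdiff_subset (s := Main_L G p T b) (t := Main_L G p T a))
  rw [Finset.sdiff_sdiff_eq_self (Main_L_mono hab)] at h1
  have h2 := EE_self_union (G := G) (C := Main_L G p T b \ Main_L G p T a) (S := {p a})
    (disjoint_singleton_right.2 fun h => (mem_sdiff.1 h).2 (Main_self_mem_L a))
  have h3 : inc2 G (Main_L G p T b \ Main_L G p T a) (Main_L G p T a) =
      inc2 G (Main_L G p T b \ Main_L G p T a) {p a} := by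
    refine le_antisymm (inc2_le_of fun u hu w hw e => ?_)
      (inc2_mono (singleton_subset_iff.2 (Main_self_mem_L a)))
    by_contra hc
    exact (mem_sdiff.1 hu).2 (Main_closed ha hw (by simpa using hc) e.symm)
  have h4 : EE G {p a} {p a} = 0 := EE_eq_zero fun u hu w hw e => by
    rw [mem_singleton.1 hu, mem_singleton.1 hw] at e; exact G.irrefl e
  have h5 : Main_L G p T b \ Main_L G p T a ∪ {p a} = Main_Y G p T a b := by
    rw [Main_Y, union_comm, insert_eq]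
  rw [h5] at h2
  omega

lemma Main_Y_two (hp : IsP G p T) {a b : ℕ} (hab : a < b) (hb : b ≤ T) :
    (Main_Y G p T a b).card = ((Main_L G p T b \ Main_L G p T a) \ {p b}).card + 2 := by
  rw [Main_Y, card_insert_of_notMem fun h => (mem_sdiff.1 h).2 (Main_self_mem_L a),
    ← card_sdiff_add_card_eq_card (singleton_subset_iff.2
      (mem_sdiff.2 ⟨Main_self_mem_L b, Main_notMem_L hp hab hb⟩)), card_singleton]

lemma Main_Y_psi (hψ : Main_Psi G k c) (hp : IsP G p T) {a b : ℕ} (hab : a < b) (hb : b ≤ T)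
    (ha : ¬ Main_Cov G p T a) (hb' : ¬ Main_Cov G p T b) :
    2 * k * (Main_Y G p T a b).card ≤ EE G (Main_Y G p T a b) (Main_Y G p T a b) + 4 * k + c := by
  set C := (Main_L G p T b \ Main_L G p T a) \ {p b} with hC
  have h1 := hψ C
  have h2 : C ⊆ Main_Y G p T a b := sdiff_subset.trans (subset_insert _ _)
  have h3 := EE_self_sdiff (G := G) h2
  have h4 : inc2 G C (univ \ C) ≤ inc2 G C (Main_Y G p T a b \ C) := by
    refine inc2_le_of fun u hu w hw e => mem_sdiff.2 ⟨?_, (mem_sdiff.1 hw).2⟩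
    obtain ⟨hu1, hu2⟩ := mem_sdiff.1 hu
    obtain ⟨hu3, hu4⟩ := mem_sdiff.1 hu1
    by_cases e' : w = p a
    · exact e' ▸ mem_insert_self _ _
    · exact mem_insert_of_mem (mem_sdiff.2 ⟨Main_closed hb' hu3 (by simpa using hu2) e,
        fun h => hu4 (Main_closed ha h e' e.symm)⟩)
  rw [Main_Y_two hp hab hb, ← hC, Nat.mul_add]
  omega

lemma Main_dense_step (hψ : Main_Psi G k c) (hp : IsP G p T) (u : ℕ → ℕ) (s : ℕ)
    (h : ∀ i ≤ s + (2 * k + c + 1), u i ≤ T ∧ ¬ Main_Cov G p T (u i))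
    (hu : StrictMono u) :
    ∃ i, s ≤ i ∧ i < s + (2 * k + c + 1) ∧ Dense G k (Main_Y G p T (u i) (u (i + 1))) := by
  by_contra hc
  push Not at hc
  have key : ∀ n ≤ 2 * k + c + 1,
      2 * k * (Main_L G p T (u s)).card + EE G (Main_L G p T (u (s + n))) (Main_L G p T (u (s + n)))
        + n ≤ 2 * k * (Main_L G p T (u (s + n))).card +
          EE G (Main_L G p T (u s)) (Main_L G p T (u s)) := by
    intro n
    induction n with
    | zero => simp
    | succ n ih =>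
      intro hn
      have h1 := ih (by omega)
      have hlt : u (s + n) < u (s + n + 1) := hu (by omega)
      have h2 := Main_Y_card (G := G) (p := p) (T := T) hlt.le
      have h3 := Main_Y_EE hlt.le (h (s + n) (by omega)).2
      have h4 := Main_Y_two hp hlt (h (s + n + 1) (by omega)).1
      have h5 := hc (s + n) (by omega) (by omega)
      unfold Dense at h5
      have h6 := congrArg (2 * k * ·) h2
      simp only [Nat.mul_add] at h6
      rw [show s + (n + 1) = s + n + 1 from rfl]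
      omega
  have h1 := key _ le_rfl
  have hlt : u s < u (s + (2 * k + c + 1)) := hu (by omega)
  have h2 := congrArg (2 * k * ·) (Main_Y_card (G := G) (p := p) (T := T) hlt.le)
  simp only [Nat.mul_add] at h2
  have h3 := Main_Y_EE hlt.le (h s (by omega)).2
  have h4 := Main_Y_psi hψ hp hlt (h _ le_rfl).1 (h s (by omega)).2 (h _ le_rfl).2
  omega

lemma Main_stretch (hN : N3D G k) (hψ : Main_Psi G k c) (hp : IsP G p T) (l : ℕ)
    (hT : (3 * (2 * k + c + 1) + 3) * (l + 1) ≤ T) :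
    ∃ s, ∀ t, s ≤ t → t ≤ s + l → Main_Cov G p T t := by
  by_contra hc
  push Not at hc
  choose u h1 h2 h3 using fun i : ℕ => hc (i * (l + 1))
  have hu : StrictMono u := strictMono_nat_of_lt_succ fun i => by
    have := h1 (i + 1); have := h2 i; rw [add_mul] at *; omega
  set n := 2 * k + c + 1 with hn
  have hT' : ∀ i ≤ 3 * n + 2, u i ≤ T ∧ ¬ Main_Cov G p T (u i) := fun i hi => by
    refine ⟨?_, h3 i⟩
    have a1 := h2 i
    have a2 : (i + 1) * (l + 1) ≤ (3 * n + 3) * (l + 1) := Nat.mul_le_mul_right _ (by omega)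
    rw [add_mul] at a2
    omega
  obtain ⟨i1, a1, b1, d1⟩ := Main_dense_step hψ hp u 0 (fun i hi => hT' i (by omega)) hu
  obtain ⟨i2, a2, b2, d2⟩ := Main_dense_step hψ hp u (n + 1) (fun i hi => hT' i (by omega)) hu
  obtain ⟨i3, a3, b3, d3⟩ := Main_dense_step hψ hp u (2 * n + 2) (fun i hi => hT' i (by omega)) hu
  have key : ∀ i j, i + 1 < j → j ≤ 3 * n + 2 → ∀ v ∈ Main_Y G p T (u i) (u (i + 1)),
      v ∈ Main_Y G p T (u j) (u (j + 1)) → v = p 0 := by
    intro i j hij hj v hv hv'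
    exfalso
    have e1 : v ∈ Main_L G p T (u (i + 1)) := by
      rcases mem_insert.1 hv with e | e
      · exact e ▸ Main_L_mono (hu.monotone (by omega)) (Main_self_mem_L _)
      · exact (mem_sdiff.1 e).1
    rcases mem_insert.1 hv' with e | e
    · exact Main_notMem_L hp (hu hij) (hT' j hj).1 (e ▸ e1)
    · exact (mem_sdiff.1 e).2 (Main_L_mono (hu.monotone hij.le) e1)
  exact hN _ _ _ (p 0) d1 d2 d3 (key _ _ (by omega) (by omega)) (key _ _ (by omega) (by omega))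
    (key _ _ (by omega) (by omega))

omit [DecidableEq V] [Fintype V] in
lemma Main_cyc {S S' : Set V} {x y : V} {n n' : ℕ} (h : PathIn G S x y n)
    (h' : PathIn G S' y x n') (hd : ∀ v ∈ S, v ∈ S' → v = x ∨ v = y) (hxy : x ≠ y) :
    ∃ z r, IsP G z r ∧ G.Adj (z r) (z 0) ∧ r + 1 = n + n' := by
  have hn' := h'.pos_of_ne hxy.symm
  obtain ⟨q, g1, g2, g3, g4⟩ := h'
  obtain ⟨r, rfl⟩ : ∃ r, n' = r + 1 := ⟨n' - 1, by omega⟩
  have h2 : PathIn G (S' \ {x}) y (q r) r :=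
    ⟨q, g1.trunc (by omega), g2, rfl, fun i hi => ⟨g4 i (by omega), fun e => by
      have := g1.inj (i := i) (j := r + 1) (by omega) le_rfl (by rw [g3]; exact e); omega⟩⟩
  obtain ⟨p, p1, p2, p3, p4⟩ := h.trans h2 (fun v hv hv' => by
    rcases hd v hv hv'.1 with e | e
    · exact absurd e hv'.2
    · exact e)
  exact ⟨p, n + r, p1, by rw [p2, p3, ← g3]; exact g1.adj (by omega), by omega⟩

lemma Main_ear_path (hp : IsP G p T) {a b : ℕ} (h : Main_Ear G p T a b) :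
    ∃ n S, 1 ≤ n ∧ PathIn G S (p a) (p b) n ∧ ∀ v ∈ S, v = p a ∨ v = p b ∨
      ∃ D, IsComp G (univ \ pv p T) D ∧ v ∈ D ∧ (∃ u ∈ D, G.Adj u (p a)) ∧
        ∃ u ∈ D, G.Adj u (p b) := by
  obtain ⟨hab, hb, e | ⟨D, hD, ⟨u, hu, e1⟩, w, hw, e2⟩⟩ := h
  · refine ⟨1, {p a, p b}, le_rfl, PathIn.single e (by simp) (by simp), ?_⟩
    rintro v (rfl | rfl) <;> simp
  · have hn : ∀ j ≤ T, p j ∉ D := fun j hj e =>
      disjoint_left.1 (Main_disj hD) e (mem_pv.2 ⟨j, hj, rfl⟩)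
    obtain ⟨n, h1, h2⟩ := hD.2.2.1.ear hu hw (hn a (by omega)) (hn b hb)
      (hp.ne (by omega) hb hab.ne) e1.symm e2
    refine ⟨n, _, by omega, h2, ?_⟩
    rintro v (hv | rfl | rfl)
    · exact Or.inr (Or.inr ⟨D, hD, hv, ⟨u, hu, e1⟩, w, hw, e2⟩)
    · simp
    · simp

lemma Main_max_ear {t : ℕ} (h : Main_Cov G p T t) : ∃ a b, a < t ∧ t < b ∧ Main_Ear G p T a b ∧
    ∀ a' b', a' < t → Main_Ear G p T a' b' → b' ≤ b := by
  classical
  obtain ⟨a0, b0, h1, h2, h3⟩ := h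
  have hm : ∀ a' b', a' < t → Main_Ear G p T a' b' →
      b' ∈ (range (T + 1)).filter fun b => ∃ a < t, Main_Ear G p T a b :=
    fun a' b' e1 e2 => mem_filter.2 ⟨mem_range.2 (Nat.lt_succ_of_le e2.2.1), a', e1, e2⟩
  obtain ⟨b, hb, hmax⟩ := exists_max_image _ id ⟨b0, hm a0 b0 h1 h3⟩
  obtain ⟨a, ha, he⟩ := (mem_filter.1 hb).2
  exact ⟨a, b, ha, lt_of_lt_of_le h2 (hmax b0 (hm a0 b0 h1 h3)), he,
    fun a' b' e1 e2 => hmax b' (hm a' b' e1 e2)⟩

/-- the state of the vine argument -/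
def Main_St (G : SimpleGraph V) (p : ℕ → V) (T i x y : ℕ) : Prop :=
  x < y ∧ y ≤ T ∧ (∃ n, i ≤ n ∧
    PathIn G {v | (∃ j ≤ x, p j = v) ∨ v = p y ∨ Main_Off G p T x v} (p x) (p y) n) ∧
    ∀ a b, a < x → Main_Ear G p T a b → b ≤ y

lemma Main_St.init (hp : IsP G p T) {s : ℕ} (h : Main_Cov G p T s) : ∃ y, Main_St G p T 1 s y := by
  obtain ⟨a, b, h1, h2, h3, h4⟩ := Main_max_ear h
  obtain ⟨n, S, hn, hS, hS'⟩ := Main_ear_path hp h3
  have hb := h3.2.1
  refine ⟨b, h2, hb, ⟨s - a + n, by omega, (hp.seg h1.le (by omega)).symm.trans' hS ?_ ?_ ?_⟩, h4⟩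
  · rintro v ⟨j, hj, rfl⟩ hv
    rcases hS' _ hv with e | e | ⟨D, hD, hv, -⟩
    · exact e
    · have := hp.inj (by have := hj.2; omega) hb e; have := hj.2; omega
    · exact absurd (mem_pv.2 ⟨j, by have := hj.2; omega, rfl⟩) (disjoint_left.1 (Main_disj hD) hv)
  · rintro v ⟨j, hj, rfl⟩
    exact Or.inl ⟨j, hj.2, rfl⟩
  · intro v hv
    rcases hS' _ hv with e | e | ⟨D, hD, hv, e, -⟩
    · exact Or.inl ⟨a, h1.le, e.symm⟩
    · exact Or.inr (Or.inl e)
    · exact Or.inr (Or.inr ⟨D, hD, hv, a, h1, e⟩)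

lemma Main_St.step (hp : IsP G p T) {i x y : ℕ} (h : Main_St G p T i x y)
    (hc : Main_Cov G p T y) : ∃ y', Main_St G p T (i + 1) y y' := by
  obtain ⟨hxy, hy, ⟨n0, hn0, Q⟩, hmax⟩ := h
  obtain ⟨a, b, h1, h2, h3, h4⟩ := Main_max_ear hc
  obtain ⟨n, S, hn, hS, hS'⟩ := Main_ear_path hp h3
  have hb := h3.2.1
  have hxa : x ≤ a := by
    by_contra e
    have := hmax a b (by omega) h3
    omega
  have Q1 := Q.symm.trans (hp.seg hxa (by omega)) (by
    rintro v hv ⟨j, hj, rfl⟩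
    obtain ⟨j1, j2⟩ := hj
    rcases hv with ⟨j', hj', e⟩ | e | e
    · have := hp.inj (by omega) (by omega) e
      rw [show j = x by omega]
    · have := hp.inj (by omega) hy e; omega
    · exact absurd e (Main_Off.not (by omega)))
  refine ⟨b, h2, hb, ⟨n0 + (a - x) + n, by omega, Q1.trans' hS ?_ ?_ ?_⟩, h4⟩
  · intro v hv hv'
    rcases hS' _ hv' with e | rfl | ⟨D, hD, hvD, -, e⟩
    · exact e
    · exfalso
      rcases hv with (⟨j, hj, e⟩ | e | e) | ⟨j, hj, e⟩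
      · have := hp.inj (by omega) hb e; omega
      · have := hp.inj hb hy e; omega
      · exact Main_Off.not hb e
      · have := hp.inj (by have := hj.2; omega) hb e; have := hj.2; omega
    · exfalso
      have hn : ∀ j ≤ T, p j ≠ v := fun j hj e =>
        disjoint_left.1 (Main_disj hD) hvD (mem_pv.2 ⟨j, hj, e⟩)
      rcases hv with (⟨j, hj, e'⟩ | e' | ⟨D', hD', hv', j, hj, e'⟩) | ⟨j, hj, e'⟩
      · exact hn j (by omega) e'
      · exact hn y hy e'.symm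
      · rw [hD'.eq_of_mem hD hv' hvD] at e'
        have := hmax j b hj ⟨by omega, hb, Or.inr ⟨D, hD, e', e⟩⟩
        omega
      · exact hn j (by have := hj.2; omega) e'
  · rintro v ((⟨j, hj, e⟩ | e | e) | ⟨j, hj, e⟩)
    · exact Or.inl ⟨j, by omega, e⟩
    · exact Or.inl ⟨y, le_rfl, e.symm⟩
    · exact Or.inr (Or.inr (e.mono hxy.le))
    · exact Or.inl ⟨j, by have := hj.2; omega, e⟩
  · intro v hv
    rcases hS' _ hv with e | e | ⟨D, hD, hv, e, -⟩
    · exact Or.inl ⟨a, h1.le, e.symm⟩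
    · exact Or.inr (Or.inl e)
    · exact Or.inr (Or.inr ⟨D, hD, hv, a, h1, e⟩)

lemma Main_St.cyc (hp : IsP G p T) {i x y : ℕ} (h : Main_St G p T i x y) :
    ∃ z r, IsP G z r ∧ G.Adj (z r) (z 0) ∧ i + (y - x) ≤ r + 1 := by
  obtain ⟨hxy, hy, ⟨n0, hn0, Q⟩, -⟩ := h
  obtain ⟨z, r, h1, h2, h3⟩ := Main_cyc Q (hp.seg hxy.le hy).symm (by
    rintro v hv ⟨j, hj, rfl⟩
    obtain ⟨j1, j2⟩ := hj
    rcases hv with ⟨j', hj', e⟩ | e | e
    · have := hp.inj (by omega) (by omega) e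
      exact Or.inl (by rw [show j = x by omega])
    · exact Or.inr e
    · exact absurd e (Main_Off.not (by omega))) (hp.ne (by omega) hy hxy.ne)
  exact ⟨z, r, h1, h2, by omega⟩

/-- a long path gives a long cycle -/
lemma Main_long_cycle (hN : N3D G k) (hψ : Main_Psi G k c) (hp : IsP G p T) {T1 : ℕ}
    (h1 : 1 ≤ T1) (hT : (3 * (2 * k + c + 1) + 3) * (T1 * T1 + 1) ≤ T) :
    ∃ z r, IsP G z r ∧ G.Adj (z r) (z 0) ∧ T1 ≤ r := by
  obtain ⟨s, hs⟩ := Main_stretch hN hψ hp (T1 * T1) hT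
  by_contra hc
  push Not at hc
  have key : ∀ i, i + 1 ≤ T1 → ∃ x y, Main_St G p T (i + 1) x y ∧ s ≤ y ∧ y ≤ s + (i + 1) * T1 := by
    intro i
    induction i with
    | zero =>
      intro _
      obtain ⟨y, hy⟩ := Main_St.init hp (hs s le_rfl (by omega))
      obtain ⟨z, r, a1, a2, a3⟩ := hy.cyc hp
      have := hc z r a1 a2
      have := hy.1
      exact ⟨s, y, hy, by omega, by omega⟩
    | succ i ih =>
      intro hi
      obtain ⟨x, y, hy, b1, b2⟩ := ih (by omega)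
      have b3 : (i + 1) * T1 ≤ T1 * T1 := Nat.mul_le_mul_right _ (by omega)
      obtain ⟨y', hy'⟩ := hy.step hp (hs y b1 (by omega))
      obtain ⟨z, r, a1, a2, a3⟩ := hy'.cyc hp
      have := hc z r a1 a2
      have := hy'.1
      refine ⟨y, y', hy', by omega, ?_⟩
      rw [add_mul (i + 1) 1 T1]
      omega
  obtain ⟨x, y, hy, -⟩ := key (T1 - 1) (by omega)
  obtain ⟨z, r, a1, a2, a3⟩ := hy.cyc hp
  have := hc z r a1 a2
  have := hy.1
  omega

end Pool.Agent.Work.MP_66aaa3_co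
end

-- merged part: Pool.Agent.Work.MP_66aaa3_co.MainC
section
namespace Pool.Agent.Work.MP_66aaa3_co

open Finset

variable {V : Type} {G : SimpleGraph V} {k q c : ℕ} {z : ℕ → V} {T : ℕ}

lemma Main_class_le (hk : 1 ≤ k) (A : Finset ℕ) (e : ℕ) (h : ∀ i ∈ A, i % 2 = e)
    (hi : ∀ i ∈ A, ∀ j ∈ A, (i : ZMod (2 * k)) = j → i = j) : A.card ≤ k := by
  have := card_le_card_of_injOn (s := A) (t := range k) (fun i => i % (2 * k) / 2)
    (fun i _ => by
      have := Nat.mod_lt i (show 0 < 2 * k by omega)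
      simp only [coe_range, Set.mem_Iio]
      omega)
    (fun i h1 j h2 e => by
      apply hi i h1 j h2
      rw [ZMod.natCast_eq_natCast_iff']
      have a1 := Nat.mod_mod_of_dvd i (dvd_mul_right 2 k)
      have a2 := Nat.mod_mod_of_dvd j (dvd_mul_right 2 k)
      have a3 := h i h1
      have a4 := h j h2
      simp only at e
      omega)
  simpa using this

lemma Main_interval {ι : Type} (s : Finset ι) (lo hi : ι → ℕ) (Q : ℕ)
    (h1 : ∀ a ∈ s, lo a < hi a)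
    (h2 : ∀ a ∈ s, ∀ b ∈ s, ∀ d ∈ s, hi a ≤ lo b → hi b ≤ lo d → False)
    (h3 : ∀ t, ∀ s' ⊆ s, (∀ a ∈ s', lo a ≤ t ∧ t < hi a) → s'.card ≤ Q) : s.card ≤ 2 * Q := by
  have step : ∀ s' ⊆ s, s'.Nonempty →
      ∃ a ∈ s', s'.card ≤ Q + (s'.filter fun b => hi a ≤ lo b).card := by
    intro s' hs hne
    obtain ⟨a, ha, hmin⟩ := exists_min_image s' hi hne
    refine ⟨a, ha, ?_⟩
    have a1 := card_filter_add_card_filter_not (s := s') fun b => hi a ≤ lo b
    have a2 := h3 (hi a - 1) (s'.filter fun b => ¬ hi a ≤ lo b) ((filter_subset _ _).trans hs)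
      fun b hb => by
        have b1 := (mem_filter.1 hb).2
        have b2 := hmin b (mem_filter.1 hb).1
        have b3 := h1 a (hs ha)
        omega
    omega
  rcases s.eq_empty_or_nonempty with rfl | hne
  · simp
  obtain ⟨a, ha, a1⟩ := step s Subset.rfl hne
  rcases (s.filter fun b => hi a ≤ lo b).eq_empty_or_nonempty with e | hne
  · rw [e, card_empty] at a1; omega
  obtain ⟨b, hb, b1⟩ := step _ (filter_subset _ _) hne
  rcases ((s.filter fun b => hi a ≤ lo b).filter fun d => hi b ≤ lo d).eq_empty_or_nonempty with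
    e | ⟨d, hd⟩
  · rw [e, card_empty] at b1; omega
  · exact (h2 a ha b (mem_filter.1 hb).1 d (mem_filter.1 (mem_filter.1 hd).1).1 (mem_filter.1 hb).2
      (mem_filter.1 hd).2).elim

/-- few edges cross a cut of a path -/
lemma Main_cut_edges {m : ℕ} (hm : 0 < m) (hG : NB G m) (hz : IsP G z T) (t : ℕ) {ι : Type}
    (s : Finset ι) (a b : ι → ℕ) (h : ∀ x ∈ s, a x ≤ t ∧ t < b x ∧ b x ≤ T ∧ G.Adj (z (a x)) (z (b x)))
    (hi : ∀ x ∈ s, ∀ y ∈ s, a x = a y → b x = b y → x = y) : s.card ≤ m * m := by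
  have : NeZero m := ⟨hm.ne'⟩
  have := card_le_card_of_injOn (s := s) (t := (univ : Finset (ZMod m × ZMod m)))
    (fun x => ((a x : ZMod m), ((b x - (t + 1) : ℕ) : ZMod m))) (by simp) (fun x hx y hy e => by
      obtain ⟨x1, x2, x3, x4⟩ := h x hx
      obtain ⟨y1, y2, y3, y4⟩ := h y hy
      have := hG.CH (hz.trunc (show t ≤ T by omega)) (hz.shift (show t + 1 ≤ T by omega))
        (fun i hi j hj => hz.ne (by omega) (by omega) (by omega)) x1 y1
        (show b x - (t + 1) ≤ _ by omega) (show b y - (t + 1) ≤ _ by omega)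
        (by rwa [show t + 1 + (b x - (t + 1)) = b x by omega])
        (by rwa [show t + 1 + (b y - (t + 1)) = b y by omega])
        (congrArg Prod.fst e) (congrArg Prod.snd e)
      exact hi x hx y hy this.1 (by omega))
  simpa using this

/-- a gadget on an interval of the cycle -/
def Main_GI (G : SimpleGraph V) (k : ℕ) (z : ℕ → V) (T lo hi : ℕ) (W : Set V) : Prop :=
  lo < hi ∧ hi ≤ T ∧ (∀ i ≤ T, z i ∉ W) ∧ ∃ L : Finset (ZMod (2 * k)), k ≤ L.card ∧ BothPar k L ∧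
    ∀ r ∈ L, ∃ n : ℕ, (n : ZMod (2 * k)) = r ∧ PathIn G (W ∪ z '' Set.Icc lo hi) (z lo) (z hi) n

lemma Main_ext (hz : IsP G z T) {W W' : Set V} {t t' n n' : ℕ} (h1 : t ≤ t') (h2 : t' ≤ T)
    (hW : ∀ i ≤ T, z i ∉ W) (hW' : ∀ i ≤ T, z i ∉ W') (hd : ∀ v ∈ W, v ∉ W')
    (p1 : PathIn G (W ∪ z '' Set.Icc 0 t) (z 0) (z t) n)
    (p2 : PathIn G (W' ∪ z '' Set.Icc t t') (z t) (z t') n') :
    PathIn G ((W ∪ W') ∪ z '' Set.Icc 0 t') (z 0) (z t') (n + n') := by
  refine p1.trans' p2 ?_ ?_ ?_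
  · rintro v (hv | ⟨i, hi, rfl⟩) (hv' | ⟨j, hj, e⟩)
    · exact absurd hv' (hd v hv)
    · exact absurd (e ▸ hv) (hW j (hj.2.trans h2))
    · exact absurd hv' (hW' i (hi.2.trans (h1.trans h2)))
    · have := hz.inj (hj.2.trans h2) (hi.2.trans (h1.trans h2)) e
      have := hi.2; have := hj.1
      rw [show i = t by omega]
  · rintro v (hv | ⟨i, hi, rfl⟩)
    · exact Or.inl (Or.inl hv)
    · exact Or.inr ⟨i, ⟨hi.1, hi.2.trans h1⟩, rfl⟩
  · rintro v (hv | ⟨i, hi, rfl⟩)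
    · exact Or.inl (Or.inr hv)
    · exact Or.inr ⟨i, ⟨Nat.zero_le _, hi.2⟩, rfl⟩

lemma Main_ext_seg (hz : IsP G z T) {W : Set V} {t t' n : ℕ} (h1 : t ≤ t') (h2 : t' ≤ T)
    (hW : ∀ i ≤ T, z i ∉ W) (p1 : PathIn G (W ∪ z '' Set.Icc 0 t) (z 0) (z t) n) :
    PathIn G (W ∪ z '' Set.Icc 0 t') (z 0) (z t') (n + (t' - t)) := by
  have := Main_ext hz (W' := ∅) h1 h2 hW (by simp) (by simp) p1
    ((hz.seg h1 h2).mono Set.subset_union_right)
  rwa [Set.union_empty] at this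

lemma Main_series (hk : 1 ≤ k) (hG : NB G (2 * k)) (hz : IsP G z T) (hc : G.Adj (z T) (z 0))
    {l1 h1 l2 h2 l3 h3 : ℕ} {W1 W2 W3 : Set V} (g1 : Main_GI G k z T l1 h1 W1)
    (g2 : Main_GI G k z T l2 h2 W2) (g3 : Main_GI G k z T l3 h3 W3) (a12 : h1 ≤ l2) (a23 : h2 ≤ l3)
    (d12 : ∀ v ∈ W1, v ∉ W2) (d13 : ∀ v ∈ W1, v ∉ W3) (d23 : ∀ v ∈ W2, v ∉ W3) : False := by
  obtain ⟨a1, b1, c1, L1, e1, -, f1⟩ := g1
  obtain ⟨a2, b2, c2, L2, e2, -, f2⟩ := g2
  obtain ⟨a3, b3, c3, L3, e3, bp, f3⟩ := g3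
  obtain ⟨r1, m1, r2, m2, r3, m3, e⟩ := s3 hk e1 e2 e3 bp
    (1 - ((l1 + (l2 - h1) + (l3 - h2) + (T - h3) : ℕ) : ZMod (2 * k)))
  obtain ⟨n1, rfl, p1⟩ := f1 r1 m1
  obtain ⟨n2, rfl, p2⟩ := f2 r2 m2
  obtain ⟨n3, rfl, p3⟩ := f3 r3 m3
  have q0 : PathIn G (∅ ∪ z '' Set.Icc 0 l1) (z 0) (z l1) (l1 - 0) :=
    (hz.seg (Nat.zero_le _) (by omega)).mono Set.subset_union_right
  have q1 := Main_ext hz a1.le b1 (by simp) c1 (by simp) q0 p1
  rw [Set.empty_union] at q1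
  have q2 := Main_ext hz a2.le b2 c1 c2 d12 (Main_ext_seg hz a12 (by omega) c1 q1) p2
  have c12 : ∀ i ≤ T, z i ∉ W1 ∪ W2 := fun i hi h => h.elim (c1 i hi) (c2 i hi)
  have q3 := Main_ext hz a3.le b3 c12 c3 (fun v h => h.elim (d13 v) (d23 v))
    (Main_ext_seg hz a23 (by omega) c12 q2) p3
  have q4 := Main_ext_seg hz b3 le_rfl (fun i hi h => h.elim (c12 i hi) (c3 i hi)) q3
  have := p1.pos_of_ne (hz.ne (by omega) b1 a1.ne)
  have := p2.pos_of_ne (hz.ne (by omega) b2 a2.ne)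
  refine hG.close q4 hc (by omega) ?_
  push_cast at e ⊢
  rw [Nat.sub_zero]
  linear_combination e

open Classical in
/-- positions of the earlier neighbours -/
noncomputable def Main_bn (G : SimpleGraph V) (z : ℕ → V) (j : ℕ) : Finset ℕ :=
  (range j).filter fun i => G.Adj (z j) (z i)

lemma Main_mem_bn {i j : ℕ} : i ∈ Main_bn G z j ↔ i < j ∧ G.Adj (z j) (z i) := by
  classical
  simp [Main_bn]

lemma Main_bn_inj {m : ℕ} (hG : NB G m) (hz : IsP G z T) {j : ℕ} (hj : j ≤ T) :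
    ∀ a ∈ Main_bn G z j, ∀ b ∈ Main_bn G z j, (a : ZMod m) = b → a = b := by
  intro a ha b hb e
  rw [Main_mem_bn] at ha hb
  exact hG.F0 (hz.trunc (show j - 1 ≤ T by omega)) (v := z j)
    (fun i hi => hz.ne (by omega) hj (by omega)) (by omega) (by omega) ha.2 hb.2 e

lemma Main_bn_le {m : ℕ} (hm : 0 < m) (hG : NB G m) (hz : IsP G z T) {j : ℕ} (hj : j ≤ T) :
    (Main_bn G z j).card ≤ m := by
  have : NeZero m := ⟨hm.ne'⟩
  have := card_le_card_of_injOn (s := Main_bn G z j) (t := (univ : Finset (ZMod m)))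
    (fun i => (i : ZMod m)) (by simp) (fun a ha b hb e => Main_bn_inj hG hz hj a ha b hb e)
  simpa using this

lemma Main_EE_Z [DecidableEq V] (hz : IsP G z T) :
    EE G (pv z T) (pv z T) = 2 * ∑ j ∈ range (T + 1), (Main_bn G z j).card := by
  induction T with
  | zero =>
    have h1 : Main_bn G z 0 = ∅ := by ext; simp [Main_mem_bn]
    have h2 : pv z 0 = {z 0} := by ext; simp [eq_comm]
    rw [h2, EE_single, deg_eq_zero fun w hw => by rw [mem_singleton.1 hw]; exact G.irrefl]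
    simp [h1]
  | succ T ih =>
    have h1 : pv z (T + 1) = {z (T + 1)} ∪ pv z T := by
      ext v
      simp only [mem_pv, mem_union, mem_singleton]
      constructor
      · rintro ⟨i, hi, rfl⟩
        by_cases e : i = T + 1
        · exact Or.inl (by rw [e])
        · exact Or.inr ⟨i, by omega, rfl⟩
      · rintro (rfl | ⟨i, hi, rfl⟩)
        · exact ⟨_, le_rfl, rfl⟩
        · exact ⟨i, by omega, rfl⟩
    have h2 : Disjoint {z (T + 1)} (pv z T) := disjoint_singleton_left.2 fun h => by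
      obtain ⟨i, hi, e⟩ := mem_pv.1 h
      have := hz.inj (by omega) le_rfl e
      omega
    have h3 : Main_bn G z (T + 1) = np G z T (z (T + 1)) := by
      ext i; rw [Main_mem_bn, mem_np, Nat.lt_succ_iff]
    rw [h1, EE_self_union h2, ih (hz.trunc (by omega)), inc2_single, sum_range_succ _ (T + 1), h3,
      (hz.trunc (Nat.le_succ T)).card_np]
    omega

def Main_rich (G : SimpleGraph V) (k : ℕ) (z : ℕ → V) (j : ℕ) : Prop :=
  k ≤ (Main_bn G z j).card ∧ ∃ a ∈ Main_bn G z j, ∃ b ∈ Main_bn G z j, a % 2 ≠ b % 2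

def Main_tight (G : SimpleGraph V) (k : ℕ) (z : ℕ → V) (j : ℕ) : Prop :=
  ∃ a ∈ Main_bn G z j, (a : ZMod (2 * k)) = j + 1

lemma Main_rich_GI (hG : NB G (2 * k)) (hz : IsP G z T) {j : ℕ} (hj : j ≤ T)
    (h : Main_rich G k z j) : ∃ lo, G.Adj (z lo) (z j) ∧ Main_GI G k z T lo j ∅ := by
  obtain ⟨h1, a, ha, b, hb, hab⟩ := h
  obtain ⟨lo, hlo, hmin⟩ := exists_min_image (Main_bn G z j) id ⟨a, ha⟩
  simp only [id] at hmin
  have hlo' := Main_mem_bn.1 hlo
  refine ⟨lo, hlo'.2.symm, hlo'.1, hj, by simp,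
    (Main_bn G z j).image fun i => ((i - lo + 1 : ℕ) : ZMod (2 * k)), ?_,
    ⟨_, mem_image_of_mem _ ha, _, mem_image_of_mem _ hb, ?_⟩, ?_⟩
  · rw [card_image_of_injOn]
    · exact h1
    intro x hx y hy e
    apply Main_bn_inj hG hz hj x hx y hy
    simp only [Nat.cast_add, Nat.cast_sub (hmin x hx), Nat.cast_sub (hmin y hy)] at e
    linear_combination e
  · rw [Ne, par_eq_iff]
    have := hmin a ha; have := hmin b hb
    omega
  · intro r hr
    obtain ⟨i, hi, rfl⟩ := mem_image.1 hr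
    have hi' := Main_mem_bn.1 hi
    refine ⟨_, rfl, ((hz.seg (hmin i hi) (by omega)).snoc hi'.2.symm ?_).mono ?_⟩
    · rintro ⟨t, ht, e⟩
      have := hz.inj (by have := ht.2; omega) hj e
      have := ht.2
      omega
    · rintro v (rfl | ⟨t, ht, rfl⟩)
      · exact Or.inr ⟨j, ⟨hlo'.1.le, le_rfl⟩, rfl⟩
      · exact Or.inr ⟨t, ⟨ht.1, by have := ht.2; omega⟩, rfl⟩

lemma Main_rich_card (hk : 1 ≤ k) (hG : NB G (2 * k)) (hz : IsP G z T) (hc : G.Adj (z T) (z 0))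
    (s : Finset ℕ) (h : ∀ j ∈ s, j ≤ T ∧ Main_rich G k z j) :
    s.card ≤ 2 * (2 * k * (2 * k)) := by
  choose! lo h1 h2 using fun j (hj : j ∈ s) => Main_rich_GI hG hz (h j hj).1 (h j hj).2
  refine Main_interval s lo id _ (fun j hj => (h2 j hj).1) (fun a ha b hb d hd e1 e2 =>
    Main_series hk hG hz hc (h2 a ha) (h2 b hb) (h2 d hd) e1 e2 (by simp) (by simp) (by simp))
    fun t s' hs h3 => ?_
  exact Main_cut_edges (by omega) hG hz t s' lo id
    (fun j hj => ⟨(h3 j hj).1, (h3 j hj).2, (h j (hs hj)).1, h1 j (hs hj)⟩) fun _ _ _ _ _ e => e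

lemma Main_nonrich (hk : 1 ≤ k) (hG : NB G (2 * k)) (hz : IsP G z T) {j : ℕ} (hj : j ≤ T)
    (h : ¬ Main_rich G k z j) : (Main_bn G z j).card ≤ k ∧
      (¬ Main_tight G k z j → (Main_bn G z j).card + 1 ≤ k) := by
  by_cases h0 : (Main_bn G z j).card < k
  · exact ⟨h0.le, fun _ => h0⟩
  unfold Main_rich at h
  push Not at h
  have h1 := h (by omega)
  obtain ⟨a, ha⟩ := card_pos.1 (show 0 < (Main_bn G z j).card by omega)
  have hj0 : 0 < j := by have := (Main_mem_bn.1 ha).1; omega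
  have h2 : j - 1 ∈ Main_bn G z j := Main_mem_bn.2 ⟨by omega, by
    have := (hz.adj (show j - 1 < T by omega)).symm
    rwa [show j - 1 + 1 = j by omega] at this⟩
  refine ⟨Main_class_le hk _ _ (fun i hi => h1 i hi _ h2) (Main_bn_inj hG hz hj), fun ht => ?_⟩
  unfold Main_tight at ht
  push Not at ht
  have h3 : j + 1 ∉ Main_bn G z j := fun e => by have := (Main_mem_bn.1 e).1; omega
  rw [← card_insert_of_notMem h3]
  refine Main_class_le hk _ ((j - 1) % 2) (fun i hi => ?_) fun x hx y hy e => ?_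
  · rcases mem_insert.1 hi with rfl | hi
    · omega
    · exact h1 i hi _ h2
  · rcases mem_insert.1 hx with rfl | hx <;> rcases mem_insert.1 hy with rfl | hy
    · rfl
    · exact absurd (by rw [← e]; push_cast; rfl) (ht y hy)
    · exact absurd (by rw [e]; push_cast; rfl) (ht x hx)
    · exact Main_bn_inj hG hz hj x hx y hy e

lemma Main_tight_not (hk : 2 ≤ k) (hG : NB G (2 * k)) (hz : IsP G z T) {j : ℕ} (hj : j + k ≤ T)
    (h : Main_tight G k z j) (h' : Main_tight G k z (j + k)) : False := by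
  obtain ⟨a, ha, e⟩ := h
  obtain ⟨b, hb, e'⟩ := h'
  rw [Main_mem_bn] at ha hb
  have hbj : b < j := by
    have e2 : (b : ZMod (2 * k)) = ((j + k + 1 : ℕ) : ZMod (2 * k)) := by rw [e']; push_cast; rfl
    rw [ZMod.natCast_eq_natCast_iff] at e2
    have := Nat.le_of_dvd (by omega) ((Nat.modEq_iff_dvd' (by omega)).1 e2)
    omega
  have p1 := (hz.seg (Nat.le_add_right j k) hj).snoc hb.2 (by
    rintro ⟨t, ht, e⟩
    have := hz.inj (ht.2.trans hj) (by omega) e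
    have := ht.1
    omega)
  have hu : ∀ t ∈ Set.uIcc b a, t < j := fun t ht => lt_of_le_of_lt ht.2 (max_lt hbj ha.1)
  have p2 := (hz.useg (show b ≤ T by omega) (show a ≤ T by omega)).snoc ha.2.symm (by
    rintro ⟨t, ht, e⟩
    have := hu t ht
    have := hz.inj (by omega) (by omega) e
    omega)
  refine hG.cyc p1 p2 ?_ (hz.ne (by omega) (by omega) (by omega)) (by omega) ?_
  · rintro v (rfl | ⟨t, ht, rfl⟩) hv
    · exact Or.inr rfl
    · rcases hv with e | ⟨t', ht', e⟩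
      · exact Or.inl e
      · have := hu t' ht'
        have := hz.inj (by omega) (ht.2.trans hj) e
        have := ht.1
        omega
  · have h0 : (2 : ZMod (2 * k)) * k = 0 := by exact_mod_cast ZMod.natCast_self (2 * k)
    rw [Nat.add_sub_cancel_left]
    push_cast at e' ⊢
    rcases le_total a b with hab | hab
    · rw [Nat.dist_eq_sub_of_le_right hab, Nat.cast_sub hab]
      linear_combination e' - e + h0
    · rw [Nat.dist_eq_sub_of_le hab, Nat.cast_sub hab]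
      linear_combination e - e'

lemma Main_tight_card (hk : 2 ≤ k) (hG : NB G (2 * k)) (hz : IsP G z T)
    (s : Finset ℕ) (h : ∀ j ∈ s, j ≤ T ∧ Main_tight G k z j) : 2 * s.card ≤ T + 1 + k := by
  have h1 : Disjoint s (s.image (· + k)) := disjoint_left.2 fun j hj hj' => by
    obtain ⟨i, hi, rfl⟩ := mem_image.1 hj'
    exact Main_tight_not hk hG hz (h _ hj).1 (h i hi).2 (h _ hj).2
  have h2 : s ∪ s.image (· + k) ⊆ range (T + 1 + k) := by
    intro j hj
    rcases mem_union.1 hj with hj | hj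
    · have := (h j hj).1; rw [mem_range]; omega
    · obtain ⟨i, hi, rfl⟩ := mem_image.1 hj
      have := (h i hi).1; rw [mem_range]; omega
  have h3 := card_le_card h2
  rw [card_union_of_disjoint h1, card_image_of_injective _ (add_left_injective k), card_range] at h3
  omega

/-- the vertex set of a long cycle is sparse -/
lemma Main_EE_le [DecidableEq V] (hk : 2 ≤ k) (hG : NB G (2 * k)) (hz : IsP G z T)
    (hc : G.Adj (z T) (z 0)) : EE G (pv z T) (pv z T) + (T + 1) ≤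
      2 * k * (T + 1) + k + 2 * ((k + 1) * (2 * (2 * k * (2 * k)))) := by
  classical
  have h1 : ∑ j ∈ range (T + 1), ((Main_bn G z j).card + 1) ≤ ∑ j ∈ range (T + 1),
      (k + (if Main_tight G k z j then 1 else 0) + if Main_rich G k z j then k + 1 else 0) := by
    refine sum_le_sum fun j hj => ?_
    have hj := Nat.lt_succ_iff.1 (mem_range.1 hj)
    by_cases e : Main_rich G k z j
    · have := Main_bn_le (by omega) hG hz hj
      rw [if_pos e]; omega
    · have := Main_nonrich (by omega) hG hz hj e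
      by_cases e' : Main_tight G k z j
      · rw [if_pos e']; omega
      · have := this.2 e'; omega
  have h2 := Main_tight_card hk hG hz ((range (T + 1)).filter fun j => Main_tight G k z j)
    fun j hj => ⟨Nat.lt_succ_iff.1 (mem_range.1 (mem_filter.1 hj).1), (mem_filter.1 hj).2⟩
  have h3 := Main_rich_card (by omega) hG hz hc ((range (T + 1)).filter fun j => Main_rich G k z j)
    fun j hj => ⟨Nat.lt_succ_iff.1 (mem_range.1 (mem_filter.1 hj).1), (mem_filter.1 hj).2⟩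
  have h4 := Nat.mul_le_mul_left (k + 1) h3
  rw [sum_add_distrib, sum_add_distrib, sum_add_distrib, ← sum_filter, ← sum_filter] at h1
  simp only [sum_const, card_range, smul_eq_mul, mul_one] at h1
  rw [Main_EE_Z hz, mul_assoc 2 k, mul_comm k (T + 1)]
  rw [mul_comm (k + 1)] at h4
  omega

end Pool.Agent.Work.MP_66aaa3_co
end

-- merged part: Pool.Agent.Work.MP_66aaa3_co.ThreeA
section
/-! Two disjoint paths; series, theta and ladder configurations of gadgets. -/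

namespace Pool.Agent.Work.MP_66aaa3_co

open Finset

variable {V : Type} {G : SimpleGraph V} {k : ℕ}

/-- a shortest path from `X` to `Y` inside `W` -/
lemma three_trim {W X Y : Set V} {x y : V} {n : ℕ} (h : PathIn G W x y n) (hx : x ∈ X)
    (hy : y ∈ Y) : ∃ p r, IsP G p r ∧ (∀ i ≤ r, p i ∈ W) ∧
      ∀ i ≤ r, (p i ∈ X ↔ i = 0) ∧ (p i ∈ Y ↔ i = r) := by
  classical
  have hex : ∃ r, ∃ x ∈ X, ∃ y ∈ Y, PathIn G W x y r := ⟨n, x, hx, y, hy, h⟩
  obtain ⟨x', hx', y', hy', p, p1, p2, p3, p4⟩ := Nat.find_spec hex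
  have hmin := fun r => Nat.find_min hex (m := r)
  set r := Nat.find hex
  have sub : ∀ a b, b ≤ r → p '' Set.Icc a b ⊆ W := by
    rintro a b hb _ ⟨s, hs, rfl⟩
    exact p4 s (hs.2.trans hb)
  refine ⟨p, r, p1, p4, fun i hi => ⟨⟨fun hX => ?_, ?_⟩, ⟨fun hY => ?_, ?_⟩⟩⟩
  · by_contra h0
    exact hmin (r - i) (by omega) ⟨_, hX, _, p3 ▸ hy', (p1.seg hi le_rfl).mono (sub _ _ le_rfl)⟩
  · rintro rfl
    exact p2 ▸ hx'
  · by_contra h0
    exact hmin (i - 0) (by omega)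
      ⟨_, p2 ▸ hx', _, hY, (p1.seg (Nat.zero_le i) hi).mono (sub _ _ hi)⟩
  · rintro rfl
    exact p3 ▸ hy'

open Pool.Agent.Work.MP_97603a_co in
/-- two disjoint paths inside a set that stays connected after deleting any vertex -/
lemma three_link2 [Finite V] (S : Set V)
    (h : ∀ v, ∀ a ∈ S, ∀ b ∈ S, a ≠ v → b ≠ v → ∃ n, PathIn G (S \ {v}) a b n) {X Y : Finset V}
    (hX : 2 ≤ X.card) (hY : 2 ≤ Y.card) (XS : ∀ x ∈ X, x ∈ S) (YS : ∀ x ∈ Y, x ∈ S) :
    ∃ (p q : ℕ → V) (n n' : ℕ), IsP G p n ∧ IsP G q n' ∧ (∀ i ≤ n, ∀ j ≤ n', p i ≠ q j) ∧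
      (∀ i ≤ n, p i ∈ S) ∧ (∀ i ≤ n', q i ∈ S) ∧
      (∀ i ≤ n, (p i ∈ X ↔ i = 0) ∧ (p i ∈ Y ↔ i = n)) ∧
      (∀ i ≤ n', (q i ∈ X ↔ i = 0) ∧ (q i ∈ Y ↔ i = n')) := by
  classical
  obtain ⟨s, t, P, h1, h2⟩ := menger 2 (fun x y => G.Adj x y ∧ y ∈ S) X Y (by
    intro Z hZ
    obtain ⟨x0, hx0⟩ := card_pos.1 (show 0 < X.card by omega)
    obtain ⟨v, hv⟩ : ∃ v, ∀ z ∈ Z, z = v := by
      rcases Z.eq_empty_or_nonempty with rfl | ⟨v, hv⟩
      · exact ⟨x0, by simp⟩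
      · exact ⟨v, fun z hz => card_le_one.1 (by omega) z hz v hv⟩
    obtain ⟨a, ha, hav⟩ := exists_mem_ne (show 1 < X.card by omega) v
    obtain ⟨b, hb, hbv⟩ := exists_mem_ne (show 1 < Y.card by omega) v
    obtain ⟨n, hn⟩ := h v a (XS a ha) b (YS b hb) hav hbv
    refine ⟨a, ha, b, hb, fun e => hav (hv a e), ?_⟩
    exact hn.ind Relation.ReflTransGen.refl fun c _ d hd hc hcd =>
      hc.tail ⟨⟨hcd, hd.1⟩, fun e => hd.2 (hv d e)⟩)
  have h3 : ∀ i, ∃ n, PathIn G (P i ∩ S) (s i) (t i) n := fun i => by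
    obtain ⟨a1, -, a2, a3⟩ := h1 i
    generalize t i = y at a3
    induction a3 with
    | refl => exact ⟨0, PathIn.refl ⟨a2, XS _ a1⟩⟩
    | tail _ hc ih =>
      obtain ⟨n, hn⟩ := ih
      exact hn.step hc.1.1 ⟨hc.2, hc.1.2⟩
  obtain ⟨n0, g0⟩ := h3 0
  obtain ⟨n1, g1⟩ := h3 1
  obtain ⟨p, n, p1, p2, p3⟩ := three_trim g0 (h1 0).1 (h1 0).2.1
  obtain ⟨q, n', q1, q2, q3⟩ := three_trim g1 (h1 1).1 (h1 1).2.1
  exact ⟨p, q, n, n', p1, q1, fun i hi j hj e => Set.disjoint_left.1 (h2 0 1 (by decide))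
    (p2 i hi).1 (e ▸ (q2 j hj).1), fun i hi => (p2 i hi).2, fun i hi => (q2 i hi).2, p3, q3⟩

/-- three gadgets in series -/
theorem series (hk : 1 ≤ k) (hG : NB G (2 * k)) {W₁ W₂ W₃ : Set V} {x y z : V}
    (g₁ : Gad G k W₁ x y) (g₂ : Gad G k W₂ y z) (g₃ : Gad G k W₃ z x) (hxz : x ≠ z)
    (h12 : ∀ v ∈ W₁, v ∈ W₂ → v = y) (h23 : ∀ v ∈ W₂, v ∈ W₃ → v = z)
    (h13 : ∀ v ∈ W₁, v ∈ W₃ → v = x) : False := by
  obtain ⟨L₁, a1, -, b1⟩ := g₁
  obtain ⟨L₂, a2, -, b2⟩ := g₂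
  obtain ⟨L₃, a3, c3, b3⟩ := g₃
  obtain ⟨a, ha, b, hb, d, hd, e⟩ := s3 hk a1 a2 a3 c3 2
  refine hG.cycLL ((b1 a ha).trans (b2 b hb) h12) (b3 d hd) ?_ hxz e
  rintro v (hv | hv) hv'
  · exact Or.inl (h13 v hv hv')
  · exact Or.inr (h23 v hv hv')

/-- three gadgets in parallel -/
theorem theta (hk : 1 ≤ k) (hG : NB G (2 * k)) {W₁ W₂ W₃ : Set V} {x y : V}
    (g₁ : Gad G k W₁ x y) (g₂ : Gad G k W₂ x y) (g₃ : Gad G k W₃ x y) (hxy : x ≠ y)
    (h12 : ∀ v ∈ W₁, v ∈ W₂ → v = x ∨ v = y) (h13 : ∀ v ∈ W₁, v ∈ W₃ → v = x ∨ v = y)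
    (h23 : ∀ v ∈ W₂, v ∈ W₃ → v = x ∨ v = y) : False := by
  obtain ⟨L₁, a1, -, b1⟩ := g₁
  obtain ⟨L₂, a2, -, b2⟩ := g₂
  obtain ⟨L₃, a3, -, b3⟩ := g₃
  exact theta_arith hk a1 a2 a3 (fun a ha b hb => hG.cycLL (b1 a ha) (b2 b hb).symm h12 hxy)
    (fun a ha b hb => hG.cycLL (b1 a ha) (b3 b hb).symm h13 hxy)
    fun a ha b hb => hG.cycLL (b2 a ha) (b3 b hb).symm h23 hxy

/-- total lengths of linkages -/
def ThreeLk (G : SimpleGraph V) (k : ℕ) (F : Set V) (a b a' b' : V) (r : ZMod (2 * k)) : Prop :=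
  ∃ (S S' : Set V) (n n' : ℕ), S ⊆ F ∧ S' ⊆ F ∧ (∀ v ∈ S, v ∉ S') ∧ PathIn G S a b n ∧
    PathIn G S' a' b' n' ∧ ((n + n' : ℕ) : ZMod (2 * k)) = r

lemma ThreeLk.swap {F : Set V} {a b a' b' : V} {r : ZMod (2 * k)} (h : ThreeLk G k F a b a' b' r) :
    ThreeLk G k F a' b' a b r := by
  obtain ⟨S, S', n, n', h1, h2, h3, h4, h5, h6⟩ := h
  exact ⟨S', S, n', n, h2, h1, fun v h h' => h3 v h' h, h5, h4, by rw [add_comm, h6]⟩

/-- the arithmetic constraints in a ladder -/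
structure ThreeLad (G : SimpleGraph V) (k : ℕ) (F : Set V) (a b a' b' : V) : Prop where
  stab : ∀ r d₁ d₂, ThreeLk G k F a b a' b' r → ThreeLk G k F a b a' b' (r + 2 - d₁) →
    ThreeLk G k F a b a' b' (r + 2 - d₂) → ThreeLk G k F a b a' b' (r + 2 - d₁ - d₂) → False
  star : ∀ r (t t' : ℕ), ThreeLk G k F a b a' b' r → PathIn G F a a' t → PathIn G F b b' t' →
    (t : ZMod (2 * k)) + t' ≠ r + 2

lemma ThreeLad.swap {F : Set V} {a b a' b' : V} (h : ThreeLad G k F a b a' b') :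
    ThreeLad G k F a' b' a b :=
  ⟨fun r d₁ d₂ h1 h2 h3 h4 => h.stab r d₁ d₂ h1.swap h2.swap h3.swap h4.swap,
    fun r t t' h1 h2 h3 => h.star r t t' h1.swap h2.symm h3.symm⟩

lemma three_lad (hk : 1 ≤ k) (hG : NB G (2 * k)) {F W₂ W₃ : Set V} {a b a' b' : V} (ha : a ≠ a')
    (hb : b ≠ b') (g₂ : Gad G k W₂ a a') (g₃ : Gad G k W₃ b b')
    (h2 : ∀ v ∈ W₂, v ∈ F → v = a ∨ v = a') (h3 : ∀ v ∈ W₃, v ∈ F → v = b ∨ v = b')
    (h23 : ∀ v ∈ W₂, v ∈ W₃ → (v = a ∨ v = a') ∧ (v = b ∨ v = b')) :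
    ThreeLad G k F a b a' b' := by
  obtain ⟨L₂, a2, c2, b2⟩ := g₂
  obtain ⟨L₃, a3, -, b3⟩ := g₃
  have key : ∀ r, ThreeLk G k F a b a' b' r → ∀ x ∈ L₂, ∀ y ∈ L₃, x + y + r ≠ 2 := by
    rintro r ⟨S, S', n, n', h1, h1', h4, h5, h6, rfl⟩ x hx y hy
    have m1 := h5.left_mem
    have m2 := h5.right_mem
    have m3 := h6.left_mem
    have m4 := h6.right_mem
    have := hG.cycLL ((b2 x hx).symm.trans_path h5 (by grind)) ((b3 y hy).trans_path h6.symm
      (by grind)) (by grind) (by grind)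
    push_cast
    rwa [show x + y + (n + n' : ZMod (2 * k)) = x + n + (y + n') by ring]
  exact ⟨fun r d₁ d₂ h1 h4 h5 h6 => stab_arith hk a2 a3 c2 r d₁ d₂ (key _ h1) (key _ h4) (key _ h5)
    (key _ h6), fun r t t' h1 h4 h5 => star_arith hk a2 a3 r t t' (key _ h1)
      (fun x hx => hG.cycL (b2 x hx) h4.symm h2 ha) fun x hx => hG.cycL (b3 x hx) h5.symm h3 hb⟩

/-- two disjoint rails inside `F` -/
structure ThreeRails (G : SimpleGraph V) (F : Set V) (p : ℕ → V) (n : ℕ) (q : ℕ → V) (n' : ℕ) :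
    Prop where
  hp : IsP G p n
  hq : IsP G q n'
  pq : ∀ i ≤ n, ∀ j ≤ n', p i ≠ q j
  pF : ∀ i ≤ n, p i ∈ F
  qF : ∀ i ≤ n', q i ∈ F

namespace ThreeRails

variable {F : Set V} {p q : ℕ → V} {n n' : ℕ}

lemma swap (h : ThreeRails G F p n q n') : ThreeRails G F q n' p n :=
  ⟨h.hq, h.hp, fun i hi j hj => (h.pq j hj i hi).symm, h.qF, h.pF⟩

lemma lk (h : ThreeRails G F p n q n') :
    ThreeLk G k F (p 0) (p n) (q 0) (q n') ((n + n' : ℕ) : ZMod (2 * k)) := by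
  have h1 := h.pq
  have h2 := h.pF
  have h3 := h.qF
  exact ⟨_, _, _, _, by grind, by grind, by grind, h.hp.seg (Nat.zero_le n) le_rfl,
    h.hq.seg (Nat.zero_le n') le_rfl, rfl⟩

lemma reroute (h : ThreeRails G F p n q n') {v : V} (hv : v ∈ F) (vp : ∀ i ≤ n, p i ≠ v)
    (vq : ∀ i ≤ n', q i ≠ v) {i j : ℕ} (hij : i < j) (hj : j ≤ n) (ai : G.Adj v (p i))
    (aj : G.Adj v (p j)) : ThreeLk G k F (p 0) (p n) (q 0) (q n')
      (((n + n' : ℕ) : ZMod (2 * k)) + 2 - ((j - i : ℕ) : ZMod (2 * k))) := by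
  have h1 := h.pq
  have h2 := h.pF
  have h3 := h.qF
  have h4 := h.hp.2
  have s1 := (h.hp.seg (Nat.zero_le i) (by omega)).snoc ai.symm (by grind)
  have s2 := (h.hp.seg hj le_rfl).cons aj (by grind)
  refine ⟨_, _, _, _, ?_, by grind, ?_, s1.trans s2 (by grind),
    h.hq.seg (Nat.zero_le n') le_rfl, ?_⟩
  · grind
  · grind
  · rw [eq_sub_iff_add_eq]
    norm_cast
    congr 1
    omega

lemma rung (h : ThreeRails G F p n q n') {R : Set V} (hR : R ⊆ F) {i j ρ : ℕ} (hi : i ≤ n)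
    (hj : j ≤ n') (hρ : PathIn G R (p i) (q j) ρ) (Rp : ∀ s ≤ n, p s ∈ R → s = i)
    (Rq : ∀ s ≤ n', q s ∈ R → s = j) :
    PathIn G F (p 0) (q 0) (i + ρ + j) ∧ PathIn G F (p n) (q n') (n - i + ρ + (n' - j)) := by
  have h1 := h.pq
  have h2 := h.pF
  have h3 := h.qF
  constructor
  · exact (((h.hp.seg (Nat.zero_le i) hi).trans hρ (by grind)).trans
      (h.hq.seg (Nat.zero_le j) hj).symm (by grind)).mono (by grind)
  · exact (((h.hp.seg hi le_rfl).symm.trans hρ (by grind)).trans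
      (h.hq.seg hj le_rfl) (by grind)).mono (by grind)

lemma rung2 (h : ThreeRails G F p n q n') {v : V} (hv : v ∈ F) (vp : ∀ i ≤ n, p i ≠ v)
    (vq : ∀ i ≤ n', q i ≠ v) {i j : ℕ} (hi : i ≤ n) (hj : j ≤ n') (ai : G.Adj v (p i))
    (aj : G.Adj v (q j)) :
    PathIn G F (p 0) (q 0) (i + 2 + j) ∧ PathIn G F (p n) (q n') (n - i + 2 + (n' - j)) := by
  have h1 := h.pq
  have h2 := h.pF
  have h3 := h.qF
  have h4 := h.hp.2
  have h5 := h.hq.2
  exact h.rung (by grind) hi hj ((PathIn.single ai.symm (S := {p i, v}) (by simp) (by simp)).snoc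
    aj (by grind)) (by grind) (by grind)

variable (h : ThreeRails G F p n q n') (H : ThreeLad G k F (p 0) (p n) (q 0) (q n'))
include h H

lemma no_edge {i j : ℕ} (hi : i ≤ n) (hj : j ≤ n') : ¬ G.Adj (p i) (q j) := by
  intro a
  have h1 := h.pq
  have h2 := h.pF
  have h3 := h.qF
  have h4 := h.hp.2
  have h5 := h.hq.2
  obtain ⟨t1, t2⟩ := h.rung (R := {p i, q j}) (by grind) hi hj
    (PathIn.single a (by simp) (by simp)) (by grind) (by grind)
  refine H.star _ _ _ h.lk t1 t2 ?_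
  norm_cast
  congr 1
  omega

lemma not_three {v : V} (hv : v ∈ F) (vp : ∀ i ≤ n, p i ≠ v) (vq : ∀ i ≤ n', q i ≠ v) :
    (np G p n v).card ≤ 2 ∧ (2 ≤ (np G p n v).card → (np G q n' v).card = 0) := by
  constructor
  · by_contra hc
    obtain ⟨i, j, l, hi, hj, hl, hij, hjl⟩ : ∃ i j l, i ∈ np G p n v ∧ j ∈ np G p n v ∧
        l ∈ np G p n v ∧ i < j ∧ j < l := by
      obtain ⟨i, j, l, hi, hj, hl, h1, h2, h3⟩ := two_lt_card_iff.1 (not_le.1 hc)
      rcases lt_or_gt_of_ne h1 with h1 | h1 <;> rcases lt_or_gt_of_ne h2 with h2 | h2 <;>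
        rcases lt_or_gt_of_ne h3 with h3 | h3
      · exact ⟨i, j, l, hi, hj, hl, h1, h3⟩
      · exact ⟨i, l, j, hi, hl, hj, h2, h3⟩
      · omega
      · exact ⟨l, i, j, hl, hi, hj, h2, h1⟩
      · exact ⟨j, i, l, hj, hi, hl, h1, h2⟩
      · omega
      · exact ⟨j, l, i, hj, hl, hi, h3, h2⟩
      · exact ⟨l, j, i, hl, hj, hi, h3, h1⟩
    rw [mem_np] at hi hj hl
    refine H.stab _ _ _ h.lk (h.reroute hv vp vq hij hj.1 hi.2 hj.2)
      (h.reroute hv vp vq hjl hl.1 hj.2 hl.2) ?_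
    have := h.reroute (k := k) hv vp vq (hij.trans hjl) hl.1 hi.2 hl.2
    rwa [show l - i = (j - i) + (l - j) by omega, Nat.cast_add (j - i), ← sub_sub] at this
  · intro h2
    by_contra hc
    obtain ⟨j', hj'⟩ := card_pos.1 (Nat.pos_of_ne_zero hc)
    obtain ⟨i, j, hi, hj, hij⟩ : ∃ i j, i ∈ np G p n v ∧ j ∈ np G p n v ∧ i < j := by
      obtain ⟨i, j, hi, hj, h1⟩ := one_lt_card_iff.1 h2
      rcases lt_or_gt_of_ne h1 with h1 | h1
      · exact ⟨i, j, hi, hj, h1⟩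
      · exact ⟨j, i, hj, hi, h1⟩
    rw [mem_np] at hi hj hj'
    refine H.star _ _ _ (h.reroute hv vp vq hij hj.1 hi.2 hj.2)
      (h.rung2 hv vp vq hi.1 hj'.1 hi.2 hj'.2).1 (h.rung2 hv vp vq hj.1 hj'.1 hj.2 hj'.2).2 ?_
    rw [sub_add_eq_add_sub, eq_sub_iff_add_eq]
    norm_cast
    congr 1
    omega

lemma deg_le [DecidableEq V] {v : V} (hv : v ∈ F) (vp : v ∉ pv p n) (vq : v ∉ pv q n') :
    deg G (pv p n ∪ pv q n') v ≤ 2 := by
  have vp' : ∀ i ≤ n, p i ≠ v := by simpa using vp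
  have vq' : ∀ i ≤ n', q i ≠ v := by simpa using vq
  have h1 := h.not_three H hv vp' vq'
  have h2 := h.swap.not_three H.swap hv vq' vp'
  have h3 := deg_union_le (G := G) (pv p n) (pv q n') v
  rw [← h.hp.card_np, ← h.hq.card_np] at h3
  omega

end ThreeRails

end Pool.Agent.Work.MP_66aaa3_co
end

-- merged part: Pool.Agent.Work.MP_66aaa3_co.ThreeB
section
/-! The ladder lemma and the configuration of two cores joined by two rails. -/

namespace Pool.Agent.Work.MP_66aaa3_co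

open Finset

variable {V : Type} [DecidableEq V] {G : SimpleGraph V} {k : ℕ}

/-- reroute one rail so that a piece of the rest has one attachment on it -/
lemma three_step (hk : 3 ≤ k) {F C : Finset V} (hF : Core G k F) {p q : ℕ → V} {n n' : ℕ}
    (h : ThreeRails G F p n q n') (H : ThreeLad G k F (p 0) (p n) (q 0) (q n'))
    (hC : C.Nonempty) (CF : C ⊆ F) (Cp : Disjoint C (pv p n)) (Cq : Disjoint C (pv q n'))
    (hcl : ∀ u ∈ C, ∀ w ∈ F, G.Adj u w → w ∈ C ∨ w ∈ pv p n ∨ w ∈ pv q n') :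
    ∃ (p' : ℕ → V) (T : ℕ) (C' : Finset V), ThreeRails G F p' T q n' ∧ p' 0 = p 0 ∧ p' T = p n ∧
      C'.Nonempty ∧ C' ⊆ C ∧ Disjoint C' (pv p' T) ∧
      (∀ u ∈ C', ∀ w ∈ F, G.Adj u w → w ∈ C' ∨ w ∈ pv p' T ∨ w ∈ pv q n') ∧
      ∃ i ≤ T, ∀ u ∈ C', ∀ j ≤ T, G.Adj u (p' j) → j = i := by
  obtain ⟨p', T, C', a1, a2, a3, a4, a5, a6, -, a8, a9, a10⟩ := min_piece (F \ pv q n') C p n h.hp
    hC Cp fun u hu w hw a => by
      rw [mem_sdiff] at hw
      rcases hcl u hu w hw.1 a with e | e | e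
      · exact Or.inl e
      · exact Or.inr e
      · exact absurd e hw.2
  have m : ∀ i ≤ T, p' i ∈ C ∨ ∃ j ≤ n, p j = p' i := fun i hi => by
    simpa using a4 (mem_pv.2 ⟨i, hi, rfl⟩)
  have h' : ThreeRails G F p' T q n' := by
    refine ⟨a1, h.hq, fun i hi j hj e => ?_, fun i hi => ?_, h.qF⟩
    · rcases m i hi with e1 | ⟨s, hs, e1⟩
      · exact disjoint_left.1 Cq e1 (mem_pv.2 ⟨j, hj, e.symm⟩)
      · exact h.pq s hs j hj (e1.trans e)
    · rcases m i hi with e1 | ⟨s, hs, e1⟩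
      · exact CF e1
      · exact e1 ▸ h.pF s hs
  have cl : ∀ u ∈ C', ∀ w ∈ F, G.Adj u w → w ∈ C' ∨ w ∈ pv p' T ∨ w ∈ pv q n' := by
    intro u hu w hw a
    by_cases e : w ∈ pv q n'
    · exact Or.inr (Or.inr e)
    · rcases a9 u hu w (mem_union_left _ (mem_union_left _ (mem_sdiff.2 ⟨hw, e⟩))) a with e | e
      · exact Or.inl e
      · exact Or.inr (Or.inl e)
  have dg : ∀ u ∈ C', 2 ≤ deg G C' u := fun u hu => by
    have h1 := hF.dg u (CF (a6 hu))
    have h2 := h'.deg_le (a2 ▸ a3 ▸ H) (CF (a6 hu)) (disjoint_left.1 a8 hu)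
      (disjoint_left.1 Cq (a6 hu))
    have h3 : deg G F u ≤ deg G (C' ∪ (pv p' T ∪ pv q n')) u := deg_le_of fun w hw a => by
      simpa only [mem_union] using cl u hu w hw a
    have h4 := deg_union_le (G := G) C' (pv p' T ∪ pv q n') u
    omega
  refine ⟨p', T, C', h', a2, a3, a5, a6, a8, cl, ?_⟩
  rcases a10 with ⟨v, rfl⟩ | ⟨a, ha, -, -, -, b1, -⟩ | b1
  · have h1 := dg v (mem_singleton_self v)
    have h2 := deg_le_card (G := G) {v} v
    rw [card_singleton] at h2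
    omega
  · have := dg a ha
    omega
  · exact b1

lemma three_rails_false (hk : 3 ≤ k) (hG : NB G (2 * k)) {F : Finset V} (hF : Core G k F)
    {p q : ℕ → V} {n n' : ℕ} (h : ThreeRails G F p n q n')
    (H : ThreeLad G k F (p 0) (p n) (q 0) (q n')) : False := by
  rcases (F \ (pv p n ∪ pv q n')).eq_empty_or_nonempty with h0 | h0
  · obtain ⟨a, ha, b, hb, h1, -, h2⟩ := hF.conn.exists_adj (C := pv p n) (u := p 0) (v := q 0)
      (mem_pv.2 ⟨0, Nat.zero_le _, rfl⟩) (h.pF 0 (Nat.zero_le _)) (h.qF 0 (Nat.zero_le _)) (by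
        rw [mem_pv]
        rintro ⟨i, hi, e⟩
        exact h.pq i hi 0 (Nat.zero_le _) e)
    have h3 := sdiff_eq_empty_iff_subset.1 h0 hb
    obtain ⟨i, hi, rfl⟩ := mem_pv.1 ha
    obtain ⟨j, hj, rfl⟩ := mem_pv.1 ((mem_union.1 h3).resolve_left h1)
    exact h.no_edge H hi hj h2
  obtain ⟨p', T, C', a1, a2, a3, a4, a5, a6, a7, i, hi, a8⟩ := three_step hk hF h H h0 sdiff_subset
    (disjoint_left.2 fun v hv e => (mem_sdiff.1 hv).2 (mem_union_left _ e))
    (disjoint_left.2 fun v hv e => (mem_sdiff.1 hv).2 (mem_union_right _ e)) fun u _ w hw _ => by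
      simp only [mem_sdiff, mem_union]
      tauto
  rw [← a2, ← a3] at H
  obtain ⟨q', T', C'', b1, b2, b3, b4, b5, b6, b7, j, hj, b8⟩ := three_step hk hF a1.swap H.swap a4
    (a5.trans sdiff_subset)
    (disjoint_left.2 fun v hv e => (mem_sdiff.1 (a5 hv)).2 (mem_union_right _ e)) a6
    fun u hu w hw a => by
      have := a7 u hu w hw a
      tauto
  rw [← b2, ← b3] at H
  have R := b1.swap
  have CF : C'' ⊆ F := b5.trans (a5.trans sdiff_subset)
  have c1 : ∀ s ≤ T, p' s ∉ C'' := fun s hs e =>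
    disjoint_left.1 a6 (b5 e) (mem_pv.2 ⟨s, hs, rfl⟩)
  have c2 : ∀ s ≤ T', q' s ∉ C'' := fun s hs e => disjoint_left.1 b6 e (mem_pv.2 ⟨s, hs, rfl⟩)
  have c3 : ∀ u ∈ C'', ∀ w ∈ F, G.Adj u w → w ∈ C'' ∪ {p' i, q' j} := by
    intro u hu w hw a
    rcases b7 u hu w hw a with e | e | e
    · exact mem_union_left _ e
    · obtain ⟨s, hs, rfl⟩ := mem_pv.1 e
      simp [b8 u hu s hs a]
    · obtain ⟨s, hs, rfl⟩ := mem_pv.1 e
      simp [a8 u (b5 hu) s hs a]
  have hne := R.pq i hi j hj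
  obtain ⟨L, l1, -, l2⟩ := (r1_pod hk hG hne (c1 i hi) (c2 j hj) b4
    (fun u hu => (hF.dg u (CF hu)).trans (deg_le_of (c3 u hu))) fun D hD hne' z => by
      obtain ⟨u, hu, w, hw, e1, e2, e3⟩ := hF.att2 (R.pF i hi) (R.qF j hj) hne D (fun v hv => by
        have h1 := c1 i hi
        have h2 := c2 j hj
        have h3 := hD hv
        have h4 := CF h3
        (clear * - a4 b4 h0 h1 h2 h4 hD hne' hv; grind)) hne' z
      exact ⟨u, hu, w, c3 u (hD hu) w hw e3, e1, e2, e3⟩).1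
  obtain ⟨x, hx, y, hy, e⟩ := doubling (by omega) l1 1
  obtain ⟨ρ, -, rfl, r1⟩ := l2 x hx
  obtain ⟨ρ', -, rfl, r2⟩ := l2 y hy
  have d0 : (↑(C'' ∪ {p' i, q' j}) : Set V) ⊆ F := by
    clear * - V F p' i G T q' T' R hi j hj C'' p q n n' h0 C' a4 b4 CF
    have := R.pF i hi
    have := R.qF j hj
    intro v hv
    grind
  have d1 : ∀ s ≤ T, p' s ∈ (↑(C'' ∪ {p' i, q' j}) : Set V) → s = i := by
    clear * - T T' V p' q' G F R p q n n' h0 i hi C'' j hj c1
    have := R.pq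
    have := R.hp.2
    grind
  have d2 : ∀ s ≤ T', q' s ∈ (↑(C'' ∪ {p' i, q' j}) : Set V) → s = j := by
    clear * - T T' V p' q' G F R p q n n' h0 i hi C'' j hj c2
    have := R.pq
    have := R.hq.2
    grind
  refine H.star _ _ _ R.lk (R.rung d0 hi hj r1 d1 d2).1 (R.rung d0 hi hj r2 d1 d2).2 ?_
  rw [← Nat.cast_add, show i + ρ + j + (T - i + ρ' + (T' - j)) = T + T' + (ρ + ρ') by omega,
    Nat.cast_add _ (ρ + ρ'), Nat.cast_add ρ, e, mul_one]

/-- two gadgets attached to a core -/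
theorem ladder [Finite V] (hk : 3 ≤ k) (hG : NB G (2 * k)) {F : Finset V} (hF : Core G k F)
    {W₂ W₃ : Set V} {a b a' b' : V} (aF : a ∈ F) (aF' : a' ∈ F) (bF : b ∈ F) (bF' : b' ∈ F)
    (ha : a ≠ a') (hb : b ≠ b') (g₂ : Gad G k W₂ a a') (g₃ : Gad G k W₃ b b')
    (h2 : ∀ v ∈ W₂, v ∈ F → v = a ∨ v = a') (h3 : ∀ v ∈ W₃, v ∈ F → v = b ∨ v = b')
    (h23 : ∀ v ∈ W₂, v ∈ W₃ → (v = a ∨ v = a') ∧ (v = b ∨ v = b')) : False := by
  obtain ⟨p, q, n, n', p1, q1, pq, pF, qF, p2, q2⟩ := three_link2 (G := G) (F : Set V)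
    (fun v x hx y hy h1 h2 => by
      have := hF.conn_erase v x (by simpa [h1] using hx) y (by simpa [h2] using hy)
      simpa using this) (X := {a, a'}) (Y := {b, b'}) (card_pair ha).ge (card_pair hb).ge
    (by grind) (by grind)
  have e1 := (p2 0 (Nat.zero_le _)).1.2 rfl
  have e2 := (p2 n le_rfl).2.2 rfl
  have e3 := (q2 0 (Nat.zero_le _)).1.2 rfl
  have e4 := (q2 n' le_rfl).2.2 rfl
  have e5 := pq 0 (Nat.zero_le _) 0 (Nat.zero_le _)
  have e6 := pq n le_rfl n' le_rfl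
  have g₂' : Gad G k W₂ (p 0) (q 0) := by
    clear * - V G k W₂ a' a g₂ b b' p q n n' p2 q2 e1 e3 e5
    have := g₂.symm
    grind
  have g₃' : Gad G k W₃ (p n) (q n') := by
    clear * - V G k W₃ b' b g₃ a a' p q n n' pq p2 q2 e1 e2 e4 e5 e6
    have := g₃.symm
    grind
  exact three_rails_false hk hG hF ⟨p1, q1, pq, pF, qF⟩
    (three_lad (by omega) hG e5 e6 g₂' g₃' (by clear * - V F W₂ a b a' b' h2 p q n n' p2 q2 e1 e3 e5 e2 e4 e6 h3; grind) (by (clear * - e1 e2 e3 e4 e5 e6 h3 p2 q2; grind)) (by clear * - V F W₂ W₃ a b a' b' aF aF' h3 h23 p q n n' p2 q2 e1 e2 e3 e4 e5 e6; grind))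

/-- two cores joined by two rails -/
structure ThreeTh (G : SimpleGraph V) (k : ℕ) (A B : Finset V) (p : ℕ → V) (n : ℕ) (q : ℕ → V)
    (n' : ℕ) : Prop where
  cA : Core G k A
  cB : Core G k B
  hp : IsP G p n
  hq : IsP G q n'
  pq : ∀ i ≤ n, ∀ j ≤ n', p i ≠ q j
  pA : ∀ i ≤ n, p i ∈ A ↔ i = 0
  pB : ∀ i ≤ n, p i ∈ B ↔ i = n
  qA : ∀ i ≤ n', q i ∈ A ↔ i = 0
  qB : ∀ i ≤ n', q i ∈ B ↔ i = n'
  AB : ∀ v ∈ A, v ∈ B → v = q 0

/-- a core with initial parts of two rails -/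
def threeL (A : Finset V) (p q : ℕ → V) (i j : ℕ) : Set V :=
  {v | v ∈ A ∨ (∃ s ≤ i, p s = v) ∨ ∃ s ≤ j, q s = v}

/-- a core with final parts of two rails -/
def threeR (B : Finset V) (p q : ℕ → V) (i n j n' : ℕ) : Set V :=
  {v | v ∈ B ∨ (∃ s, i ≤ s ∧ s ≤ n ∧ p s = v) ∨ ∃ s, j ≤ s ∧ s ≤ n' ∧ q s = v}

omit [DecidableEq V] in
lemma mem_threeL {A : Finset V} {p q : ℕ → V} {i j : ℕ} {v : V} : v ∈ threeL A p q i j ↔
    v ∈ A ∨ (∃ s ≤ i, p s = v) ∨ ∃ s ≤ j, q s = v := Iff.rfl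

omit [DecidableEq V] in
lemma mem_threeR {B : Finset V} {p q : ℕ → V} {i n j n' : ℕ} {v : V} : v ∈ threeR B p q i n j n' ↔
    v ∈ B ∨ (∃ s, i ≤ s ∧ s ≤ n ∧ p s = v) ∨ ∃ s, j ≤ s ∧ s ≤ n' ∧ q s = v := Iff.rfl

lemma three_gadL (hk : 3 ≤ k) (hG : NB G (2 * k)) {A : Finset V} {p q : ℕ → V} {n n' : ℕ}
    (cA : Core G k A) (hp : IsP G p n) (hq : IsP G q n') (pq : ∀ i ≤ n, ∀ j ≤ n', p i ≠ q j)
    (pA : ∀ i ≤ n, p i ∈ A ↔ i = 0) (qA : ∀ i ≤ n', q i ∈ A ↔ i = 0) {i j : ℕ} (hi : i ≤ n)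
    (hj : j ≤ n') : Gad G k (threeL A p q i j) (p i) (q j) := by
  have g := cA.gad hk hG ((pA 0 (Nat.zero_le _)).2 rfl) ((qA 0 (Nat.zero_le _)).2 rfl)
    (pq 0 (Nat.zero_le _) 0 (Nat.zero_le _))
  refine ((Gad.path_trans (hp.seg (Nat.zero_le i) hi).symm g (by grind)).trans_path
    (hq.seg (Nat.zero_le j) hj) (by grind)).mono fun v hv => ?_
  rw [mem_threeL]
  grind

namespace ThreeTh

variable {A B : Finset V} {p q : ℕ → V} {n n' : ℕ}

lemma rev (h : ThreeTh G k A B p n q n') :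
    ThreeTh G k B A (fun i => p (n - i)) n (fun i => q (n' - i)) n' := by
  obtain ⟨cA, cB, hp, hq, pq, pA, pB, qA, qB, AB⟩ := h
  refine ⟨cB, cA, hp.rev, hq.rev, fun i _ j _ => pq _ (by omega) _ (by omega), fun i hi => ?_,
    fun i hi => ?_, fun i hi => ?_, fun i hi => ?_, fun v h1 h2 => ?_⟩
  · rw [pB _ (by omega)]
    omega
  · rw [pA _ (by omega)]
    omega
  · rw [qB _ (by omega)]
    omega
  · rw [qA _ (by omega)]
    omega
  · have e := AB v h2 h1
    rw [e, qB 0 (Nat.zero_le _)] at h1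
    rw [e, ← h1]

variable (hk : 3 ≤ k) (hG : NB G (2 * k)) (h : ThreeTh G k A B p n q n')
include hk hG h

lemma gadL {i j : ℕ} (hi : i ≤ n) (hj : j ≤ n') : Gad G k (threeL A p q i j) (p i) (q j) :=
  three_gadL hk hG h.cA h.hp h.hq h.pq h.pA h.qA hi hj

lemma gadR {i j : ℕ} (hi : i ≤ n) (hj : j ≤ n') :
    Gad G k (threeR B p q i n j n') (p i) (q j) := by
  obtain ⟨cA, cB, hp, hq, pq, pA, pB, qA, qB, AB⟩ := h
  have g := cB.gad hk hG ((pB n le_rfl).2 rfl) ((qB n' le_rfl).2 rfl) (pq n le_rfl n' le_rfl)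
  refine ((Gad.path_trans (hp.seg hi le_rfl) g (by grind)).trans_path
    (hq.seg hj le_rfl).symm (by grind)).mono fun v hv => ?_
  rw [mem_threeR]
  grind

omit hk hG in
lemma inter {i j i' j' : ℕ} (hi : i ≤ i') (hi' : i' ≤ n) (hj : j ≤ j') (hj' : j' ≤ n') {v : V}
    (h1 : v ∈ threeL A p q i j) (h2 : v ∈ threeR B p q i' n j' n') :
    (v = p i ∧ i = i') ∨ (v = q j ∧ j = j') := by
  obtain ⟨-, -, hp, hq, pq, pA, pB, qA, qB, AB⟩ := h
  have ip := hp.2
  have iq := hq.2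
  rcases h1 with h1 | ⟨s, hs, rfl⟩ | ⟨s, hs, rfl⟩ <;>
    rcases h2 with h2 | ⟨t, ht, ht', e⟩ | ⟨t, ht, ht', e⟩ <;> grind

omit [DecidableEq V] hk hG h in
lemma onL {i j : ℕ} (hi : i ≤ n) (hj : j ≤ n') {v : V} (h1 : v ∈ threeL A p q i j) :
    v ∈ threeL A p q n n' ∨ v ∈ B := by
  left
  rcases h1 with h1 | ⟨s, hs, e⟩ | ⟨s, hs, e⟩
  · exact Or.inl h1
  · exact Or.inr (Or.inl ⟨s, hs.trans hi, e⟩)
  · exact Or.inr (Or.inr ⟨s, hs.trans hj, e⟩)

omit [DecidableEq V] hk hG h in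
lemma onR {i j : ℕ} {v : V} (h1 : v ∈ threeR B p q i n j n') :
    v ∈ threeL A p q n n' ∨ v ∈ B := by
  rcases h1 with h1 | ⟨s, -, hs, e⟩ | ⟨s, -, hs, e⟩
  · exact Or.inr h1
  · exact Or.inl (Or.inr (Or.inl ⟨s, hs, e⟩))
  · exact Or.inl (Or.inr (Or.inr ⟨s, hs, e⟩))

/-- a third gadget with both ends on the first rail -/
lemma railP {W : Set V} {i j : ℕ} (hij : i < j) (hj : j ≤ n) (g : Gad G k W (p i) (p j))
    (h1 : ∀ v ∈ W, v ∈ threeL A p q i 0 → v = p i)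
    (h2 : ∀ v ∈ W, v ∈ threeR B p q j n 0 n' → v = p j) : False := by
  refine series (by omega) hG g (h.gadR hk hG hj (Nat.zero_le _))
    (h.gadL hk hG (hij.le.trans hj) (Nat.zero_le _)).symm (h.pq i (by omega) 0 (Nat.zero_le _))
    h2 (fun v a b => ?_) h1
  have := h.inter hij.le hj le_rfl (Nat.zero_le _) b a
  grind

/-- a third gadget with both ends on the second rail -/
lemma railQ {W : Set V} {i j : ℕ} (hij : i < j) (hj : j ≤ n') (g : Gad G k W (q i) (q j))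
    (h1 : ∀ v ∈ W, v ∈ threeL A p q 0 i → v = q i)
    (h2 : ∀ v ∈ W, v ∈ threeR B p q 0 n j n' → v = q j) : False := by
  refine series (by omega) hG g (h.gadR hk hG (Nat.zero_le _) hj).symm
    (h.gadL hk hG (Nat.zero_le _) (hij.le.trans hj)) (h.pq 0 (Nat.zero_le _) i (by omega)).symm
    h2 (fun v a b => ?_) h1
  have := h.inter le_rfl (Nat.zero_le _) hij.le hj b a
  grind

/-- a third gadget with one end in the first core -/
lemma fromA [Finite V] {W : Set V} {c d : V} (g : Gad G k W c d) (hcd : c ≠ d) (hc : c ∈ A)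
    (hd : d ∈ threeL A p q n n' ∨ d ∈ B)
    (hW : ∀ v ∈ W, v ∈ threeL A p q n n' ∨ v ∈ B → v = c ∨ v = d)
    (h0 : d ∉ A → c ≠ p 0 ∧ c ≠ q 0) : False := by
  have p0 := (h.pA 0 (Nat.zero_le _)).2 rfl
  have q0 := (h.qA 0 (Nat.zero_le _)).2 rfl
  have WA : ∀ v ∈ W, v ∈ A → v = c ∨ v = d := fun v h1 h2 => hW v h1 (Or.inl (Or.inl h2))
  have AR : ∀ i ≤ n, ∀ j ≤ n', ∀ v ∈ A, v ∈ threeR B p q i n j n' →
      (v = p 0 ∧ 0 = i) ∨ (v = q 0 ∧ 0 = j) := fun i hi j hj v h1 h2 =>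
    h.inter (Nat.zero_le _) hi (Nat.zero_le _) hj (Or.inl h1) h2
  by_cases hdA : d ∈ A
  · refine ladder hk hG h.cA hc hdA p0 q0 hcd (h.pq 0 (Nat.zero_le _) 0 (Nat.zero_le _)) g
      (h.gadR hk hG (Nat.zero_le _) (Nat.zero_le _)) WA (fun v h1 h2 => ?_) fun v h1 h2 => ?_
    · have := AR 0 (Nat.zero_le _) 0 (Nat.zero_le _) v h2 h1
      tauto
    · have h3 := hW v h1 (onR h2)
      have := AR 0 (Nat.zero_le _) 0 (Nat.zero_le _) v (by grind) h2
      (clear * - h0 h3 hd this; grind)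
  obtain ⟨c1, c2⟩ := h0 hdA
  have WA' : ∀ v ∈ (A : Set V), v ∈ W → v = c := fun v h1 h2 =>
    (WA v h2 h1).resolve_right fun e => hdA (e ▸ h1)
  have WR : ∀ i ≤ n, ∀ j ≤ n', ∀ v ∈ threeR B p q i n j n', v ∈ W → v = d := by
    intro i hi j hj v h1 h2
    refine (hW v h2 (onR h1)).resolve_left ?_
    rintro rfl
    have := AR i hi j hj v hc h1
    tauto
  by_cases hP : ∃ i ≤ n, p i = d
  · obtain ⟨i, hi, rfl⟩ := hP
    refine series (by omega) hG (h.cA.gad hk hG hc q0 c2) (h.gadR hk hG hi (Nat.zero_le _)).symm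
      g.symm hcd (fun v h1 h2 => ?_) (WR i hi 0 (Nat.zero_le _)) WA'
    have := AR i hi 0 (Nat.zero_le _) v h1 h2
    grind
  by_cases hQ : ∃ i ≤ n', q i = d
  · obtain ⟨i, hi, rfl⟩ := hQ
    refine series (by omega) hG (h.cA.gad hk hG hc p0 c1) (h.gadR hk hG (Nat.zero_le _) hi)
      g.symm hcd (fun v h1 h2 => ?_) (WR 0 (Nat.zero_le _) i hi) WA'
    have := AR 0 (Nat.zero_le _) i hi v h1 h2
    grind
  have hdB : d ∈ B := hd.resolve_left fun e => e.elim hdA fun e => e.elim hP hQ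
  have qn := (h.qB n' le_rfl).2 rfl
  have qA := h.qA
  have qB := h.qB
  have AB := h.AB
  refine series (by omega) hG ((h.cA.gad hk hG hc q0 c2).trans_path
    (h.hq.seg (Nat.zero_le n') le_rfl) (by grind)) (h.cB.gad hk hG qn hdB (by grind)) g.symm hcd
    (by grind) (fun v h1 => WR n le_rfl n' le_rfl v (Or.inl h1)) ?_
  rintro v (h1 | ⟨s, hs, rfl⟩) h2
  · exact WA' v h1 h2
  · exact (hW _ h2 (Or.inl (Or.inr (Or.inr ⟨s, hs.2, rfl⟩)))).resolve_right fun e =>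
      hQ ⟨s, hs.2, e⟩

/-- no third gadget hangs on the configuration -/
lemma third [Finite V] {W : Set V} {c d : V} (g : Gad G k W c d) (hcd : c ≠ d)
    (hc : c ∈ threeL A p q n n' ∨ c ∈ B) (hd : d ∈ threeL A p q n n' ∨ d ∈ B)
    (hW : ∀ v ∈ W, v ∈ threeL A p q n n' ∨ v ∈ B → v = c ∨ v = d) : False := by
  have rv : ∀ v, (v ∈ threeL B (fun i => p (n - i)) (fun i => q (n' - i)) n n' ∨ v ∈ A) ↔
      (v ∈ threeL A p q n n' ∨ v ∈ B) := by
    intro v
    have e : ∀ (r : ℕ → V) (m : ℕ), (∃ s ≤ m, r (m - s) = v) ↔ ∃ s ≤ m, r s = v := fun r m =>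
      ⟨fun ⟨s, _, e⟩ => ⟨m - s, by omega, e⟩,
        fun ⟨s, hs, e⟩ => ⟨m - s, by omega, by rwa [show m - (m - s) = s by omega]⟩⟩
    simp only [mem_threeL, e]
    constructor <;> rintro ((h | h) | h)
    exacts [Or.inr h, Or.inl (Or.inr h), Or.inl (Or.inl h), Or.inr h, Or.inl (Or.inr h),
      Or.inl (Or.inl h)]
  have off : ∀ {c d : V}, Gad G k W c d → c ≠ d → (c ∈ threeL A p q n n' ∨ c ∈ B) →
      (d ∈ threeL A p q n n' ∨ d ∈ B) →
      (∀ v ∈ W, v ∈ threeL A p q n n' ∨ v ∈ B → v = c ∨ v = d) →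
      (∃ i ≤ n, p i = c) ∨ ∃ i ≤ n', q i = c := by
    intro c d g hcd hc hd hW
    by_contra h0
    by_cases hA : c ∈ A
    · push Not at h0
      exact h.fromA hk hG g hcd hA hd hW fun _ =>
        ⟨(h0.1 0 (Nat.zero_le _)).symm, (h0.2 0 (Nat.zero_le _)).symm⟩
    · have hB : c ∈ B := hc.resolve_left fun e => e.elim hA h0
      push Not at h0
      exact h.rev.fromA hk hG g hcd hB ((rv d).2 hd) (fun v hv e => hW v hv ((rv v).1 e)) fun _ =>
        ⟨(h0.1 _ (by omega)).symm, (h0.2 _ (by omega)).symm⟩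
  have pp : ∀ i j, i < j → j ≤ n → Gad G k W (p i) (p j) →
      (∀ v ∈ W, v ∈ threeL A p q n n' ∨ v ∈ B → v = p i ∨ v = p j) → False := by
    intro i j hij hj g hW
    have e := h.pq i (by omega) 0 (Nat.zero_le _)
    have e' := h.pq j hj 0 (Nat.zero_le _)
    refine h.railP hk hG hij hj g (fun v h1 h2 => ?_) fun v h1 h2 => ?_
    · refine (hW v h1 (onL (by omega) (Nat.zero_le _) h2)).resolve_right ?_
      rintro rfl
      have := h.inter hij.le hj le_rfl (Nat.zero_le _) h2 (Or.inr (Or.inl ⟨j, le_rfl, hj, rfl⟩))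
      grind
    · refine (hW v h1 (onR h2)).resolve_left ?_
      rintro rfl
      have := h.inter hij.le hj le_rfl (Nat.zero_le _) (Or.inr (Or.inl ⟨i, le_rfl, rfl⟩)) h2
      grind
  have qq : ∀ i j, i < j → j ≤ n' → Gad G k W (q i) (q j) →
      (∀ v ∈ W, v ∈ threeL A p q n n' ∨ v ∈ B → v = q i ∨ v = q j) → False := by
    intro i j hij hj g hW
    have e := h.pq 0 (Nat.zero_le _) i (by omega)
    have e' := h.pq 0 (Nat.zero_le _) j hj
    refine h.railQ hk hG hij hj g (fun v h1 h2 => ?_) fun v h1 h2 => ?_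
    · refine (hW v h1 (onL (Nat.zero_le _) (by omega) h2)).resolve_right ?_
      rintro rfl
      have := h.inter le_rfl (Nat.zero_le _) hij.le hj h2 (Or.inr (Or.inr ⟨j, le_rfl, hj, rfl⟩))
      grind
    · refine (hW v h1 (onR h2)).resolve_left ?_
      rintro rfl
      have := h.inter le_rfl (Nat.zero_le _) hij.le hj (Or.inr (Or.inr ⟨i, le_rfl, rfl⟩)) h2
      grind
  have pq : ∀ i j, i ≤ n → j ≤ n' → Gad G k W (p i) (q j) →
      (∀ v ∈ W, v ∈ threeL A p q n n' ∨ v ∈ B → v = p i ∨ v = q j) → False := by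
    intro i j hi hj g hW
    refine theta (by omega) hG g (h.gadL hk hG hi hj) (h.gadR hk hG hi hj) (h.pq i hi j hj)
      (fun v h1 h2 => hW v h1 (onL hi hj h2)) (fun v h1 h2 => hW v h1 (onR h2)) fun v h1 h2 => ?_
    have := h.inter le_rfl hi le_rfl hj h1 h2
    tauto
  have hW' : ∀ v ∈ W, v ∈ threeL A p q n n' ∨ v ∈ B → v = d ∨ v = c := fun v h1 h2 =>
    (hW v h1 h2).symm
  rcases off g hcd hc hd hW with ⟨i, hi, rfl⟩ | ⟨i, hi, rfl⟩ <;>
    rcases off g.symm hcd.symm hd hc hW' with ⟨j, hj, rfl⟩ | ⟨j, hj, rfl⟩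
  · rcases lt_trichotomy i j with e | rfl | e
    · exact pp i j e hj g hW
    · exact hcd rfl
    · exact pp j i e hi g.symm hW'
  · exact pq i j hi hj g hW
  · exact pq j i hj hi g.symm hW'
  · rcases lt_trichotomy i j with e | rfl | e
    · exact qq i j e hj g hW
    · exact hcd rfl
    · exact qq j i e hi g.symm hW'

end ThreeTh

end Pool.Agent.Work.MP_66aaa3_co
end

-- merged part: Pool.Agent.Work.MP_66aaa3_co.Three
section
namespace Pool.Agent.Work.MP_66aaa3_co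

open Finset

variable {V : Type} [Fintype V] [DecidableEq V] {G : SimpleGraph V} {k : ℕ}

/-- two disjoint paths between sets with at most one common vertex -/
theorem link (h : TwoConn G) {X Y : Finset V} (hX : 2 ≤ X.card) (hY : 2 ≤ Y.card)
    (hXY : ∀ u ∈ X, ∀ v ∈ X, u ∈ Y → v ∈ Y → u = v) :
    ∃ (p q : ℕ → V) (n n' : ℕ), IsP G p n ∧ IsP G q n' ∧ Disjoint (pv p n) (pv q n') ∧
      (∀ i ≤ n, (p i ∈ X ↔ i = 0) ∧ (p i ∈ Y ↔ i = n)) ∧
      (∀ i ≤ n', (q i ∈ X ↔ i = 0) ∧ (q i ∈ Y ↔ i = n')) ∧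
      ∀ v ∈ X, v ∈ Y → v = q 0 := by
  obtain ⟨p, q, n, n', p1, q1, pq, -, -, p2, q2⟩ := three_link2 (G := G) Set.univ
    (fun v a _ b _ ha hb => by simpa only [Set.compl_eq_univ_sdiff] using h.2 v a b ha hb) hX hY
    (fun _ _ => trivial) fun _ _ => trivial
  have dj : ∀ {p q : ℕ → V} {n n' : ℕ}, (∀ i ≤ n, ∀ j ≤ n', p i ≠ q j) →
      Disjoint (pv p n) (pv q n') := fun h => disjoint_left.2 fun v h1 h2 => by
    obtain ⟨i, hi, rfl⟩ := mem_pv.1 h1
    obtain ⟨j, hj, e⟩ := mem_pv.1 h2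
    exact h i hi j hj e.symm
  by_cases h0 : ∃ z ∈ X, z ∈ Y
  swap
  · exact ⟨p, q, n, n', p1, q1, dj pq, p2, q2, fun v h1 h2 => absurd ⟨v, h1, h2⟩ h0⟩
  obtain ⟨z, z1, z2⟩ := h0
  have key : ∀ {p : ℕ → V} {n : ℕ}, IsP G p n → (∀ i ≤ n, p i ≠ z) →
      (∀ i ≤ n, (p i ∈ X ↔ i = 0) ∧ (p i ∈ Y ↔ i = n)) →
      ∃ (p q : ℕ → V) (n n' : ℕ), IsP G p n ∧ IsP G q n' ∧ Disjoint (pv p n) (pv q n') ∧
      (∀ i ≤ n, (p i ∈ X ↔ i = 0) ∧ (p i ∈ Y ↔ i = n)) ∧
      (∀ i ≤ n', (q i ∈ X ↔ i = 0) ∧ (q i ∈ Y ↔ i = n')) ∧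
      ∀ v ∈ X, v ∈ Y → v = q 0 := fun {p n} h1 h2 h3 =>
    ⟨p, fun _ => z, n, 0, h1, IsP.zero _, dj fun i hi _ _ => h2 i hi, h3,
      fun i hi => by simp [z1, z2, Nat.le_zero.1 hi], fun v h4 h5 => hXY v h4 z z1 h5 z2⟩
  by_cases h1 : ∀ i ≤ n, p i ≠ z
  · exact key p1 h1 p2
  · push Not at h1
    obtain ⟨i, hi, rfl⟩ := h1
    exact key q1 (fun j hj => (pq i hi j hj).symm) q2

lemma three_ends {P : ℕ → Prop} {n : ℕ} (h : ∃ i ≤ n, P i) :
    ∃ a b, a ≤ b ∧ b ≤ n ∧ P a ∧ P b ∧ ∀ s ≤ n, P s → a ≤ s ∧ s ≤ b := by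
  classical
  obtain ⟨i, hi, h1⟩ := h
  have h2 : Nat.findGreatest P n ≤ n := Nat.findGreatest_le n
  have h3 : ∀ s ≤ n, P s → Nat.find ⟨i, h1⟩ ≤ s ∧ s ≤ Nat.findGreatest P n := fun s hs e =>
    ⟨Nat.find_min' _ e, Nat.le_findGreatest hs e⟩
  exact ⟨_, _, (h3 i hi h1).1.trans (h3 i hi h1).2, h2, Nat.find_spec ⟨i, h1⟩,
    Nat.findGreatest_spec hi h1, h3⟩

lemma three_cores (hk : 3 ≤ k) (h : TwoConn G) (hG : NB G (2 * k)) {F A B : Finset V}
    (cF : Core G k F) (cA : Core G k A) (cB : Core G k B)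
    (hAB : ∀ u ∈ A, ∀ v ∈ A, u ∈ B → v ∈ B → u = v)
    (hF : ∀ v ∈ F, v ∈ A ∨ v ∈ B → v ∈ A ∧ v ∈ B) : False := by
  obtain ⟨p, q, n, n', p1, q1, pq, p2, q2, AB⟩ := link h (X := A) (Y := B)
    (by have := cA.1; omega) (by have := cB.1; omega) hAB
  have dj : ∀ {p q : ℕ → V} {n n' : ℕ}, Disjoint (pv p n) (pv q n') →
      ∀ i ≤ n, ∀ j ≤ n', p i ≠ q j := fun h i hi j hj e =>
    disjoint_left.1 h (mem_pv.2 ⟨i, hi, rfl⟩) (mem_pv.2 ⟨j, hj, e.symm⟩)
  have T : ThreeTh G k A B p n q n' := ⟨cA, cB, p1, q1, dj pq, fun i hi => (p2 i hi).1,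
    fun i hi => (p2 i hi).2, fun i hi => (q2 i hi).1, fun i hi => (q2 i hi).2, AB⟩
  have h1 : ∀ v ∈ F, v ∈ A ∨ v ∈ B → v = q 0 ∧ n' = 0 := fun v hv e => by
    obtain ⟨e1, e2⟩ := hF v hv e
    have e3 := AB v e1 e2
    exact ⟨e3, ((T.qB 0 (Nat.zero_le _)).1 (e3 ▸ e2)).symm⟩
  have third : (∀ u ∈ F, ∀ v ∈ F, (u ∈ threeL A p q n n' ∨ u ∈ B) →
      (v ∈ threeL A p q n n' ∨ v ∈ B) → u = v) → False := by
    intro h2
    have m : ∀ v, v ∈ A ∪ pv p n ∪ pv q n' ∪ B ↔ v ∈ threeL A p q n n' ∨ v ∈ B := fun v => by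
      simp only [mem_union, mem_pv, mem_threeL, or_assoc]
    obtain ⟨r, s, l, l', r1, s1, rs, r2, s2, e⟩ := link h (X := F) (Y := A ∪ pv p n ∪ pv q n' ∪ B)
      (by have := cF.1; omega)
      (by have := cB.1; have := card_le_card (subset_union_right (s₁ := A ∪ pv p n ∪ pv q n')
            (s₂ := B)); omega)
      fun u hu v hv h3 h4 => h2 u hu v hv ((m u).1 h3) ((m v).1 h4)
    refine T.third hk hG (three_gadL hk hG cF r1 s1 (dj rs) (fun i hi => (r2 i hi).1)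
      (fun i hi => (s2 i hi).1) le_rfl le_rfl) (dj rs l le_rfl l' le_rfl)
      ((m _).1 ((r2 l le_rfl).2.2 rfl)) ((m _).1 ((s2 l' le_rfl).2.2 rfl)) fun v h3 h4 => ?_
    rw [← m] at h4
    rcases h3 with h3 | ⟨i, hi, rfl⟩ | ⟨i, hi, rfl⟩
    · have e1 := e v h3 h4
      rw [e1, (s2 0 (Nat.zero_le _)).2] at h4
      exact Or.inr (h4 ▸ e1)
    · exact Or.inl (by rw [(r2 i hi).2.1 h4])
    · exact Or.inr (by rw [(s2 i hi).2.1 h4])
  by_cases hp : ∃ i ≤ n, p i ∈ F <;> by_cases hq : ∃ i ≤ n', q i ∈ F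
  · obtain ⟨a, b, ab, bn, ha, hb, e⟩ := three_ends hp
    obtain ⟨a', b', ab', bn', ha', hb', e'⟩ := three_ends hq
    refine ladder hk hG cF ha ha' hb hb' (T.pq a (by omega) a' (by omega)) (T.pq b bn b' bn')
      (T.gadL hk hG (by omega) (by omega)) (T.gadR hk hG bn bn') ?_ ?_ fun v h2 h3 => ?_
    · rintro v (h2 | ⟨s, hs, rfl⟩ | ⟨s, hs, rfl⟩) h3 <;> grind
    · rintro v (h2 | ⟨s, hs, hs', rfl⟩ | ⟨s, hs, hs', rfl⟩) h3 <;> grind
    · have := T.inter ab bn ab' bn' h2 h3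
      clear * - V F A B p q n n' pq dj third hp hq a b ab bn e a' b' ab' bn' e' v this; grind
  · obtain ⟨a, b, ab, bn, ha, hb, e⟩ := three_ends hp
    push Not at hq
    rcases ab.eq_or_lt with rfl | ab
    · have : ∀ u ∈ F, (u ∈ threeL A p q n n' ∨ u ∈ B) → u = p a := by
        clear * - V F A p q n n' B a hF AB hq e
        rintro v h3 ((h2 | ⟨s, hs, rfl⟩ | ⟨s, hs, rfl⟩) | h2) <;> grind
      exact third fun u hu v hv h2 h3 => (this u hu h2).trans (this v hv h3).symm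
    · refine T.railP hk hG ab bn (cF.gad hk hG ha hb (p1.ne (by omega) bn ab.ne)) ?_ ?_
      · rintro v h3 (h2 | ⟨s, hs, rfl⟩ | ⟨s, hs, rfl⟩) <;> grind
      · rintro v h3 (h2 | ⟨s, hs, hs', rfl⟩ | ⟨s, hs, hs', rfl⟩) <;> grind
  · obtain ⟨a, b, ab, bn, ha, hb, e⟩ := three_ends hq
    push Not at hp
    rcases ab.eq_or_lt with rfl | ab
    · have : ∀ u ∈ F, (u ∈ threeL A p q n n' ∨ u ∈ B) → u = q a := by
        clear * - V F A p q n n' B a hF q2 AB h1 ha bn hp e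
        rintro v h3 ((h2 | ⟨s, hs, rfl⟩ | ⟨s, hs, rfl⟩) | h2) <;> grind
      exact third fun u hu v hv h2 h3 => (this u hu h2).trans (this v hv h3).symm
    · refine T.railQ hk hG ab bn (cF.gad hk hG ha hb (q1.ne (by omega) bn ab.ne)) ?_ ?_
      · rintro v h3 (h2 | ⟨s, hs, rfl⟩ | ⟨s, hs, rfl⟩) <;> grind
      · rintro v h3 (h2 | ⟨s, hs, hs', rfl⟩ | ⟨s, hs, hs', rfl⟩) <;> grind
  · push Not at hp hq
    have : ∀ u ∈ F, ¬ (u ∈ threeL A p q n n' ∨ u ∈ B) := by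
      clear * - V F A p q n n' B hF AB hq hp
      rintro v h3 ((h2 | ⟨s, hs, rfl⟩ | ⟨s, hs, rfl⟩) | h2) <;> grind
    exact third fun u hu v hv h2 h3 => absurd h2 (this u hu)

theorem n3d (hk : 3 ≤ k) (h : TwoConn G) (hG : NB G (2 * k)) : N3D G k := by
  intro Y₁ Y₂ Y₃ z d1 d2 d3 h12 h13 h23
  obtain ⟨F₁, s1, c1⟩ := exists_core (by omega) d1
  obtain ⟨F₂, s2, c2⟩ := exists_core (by omega) d2
  obtain ⟨F₃, s3, c3⟩ := exists_core (by omega) d3
  have e12 : ∀ v ∈ F₁, v ∈ F₂ → v = z := fun v a b => h12 v (s1 a) (s2 b)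
  have e13 : ∀ v ∈ F₁, v ∈ F₃ → v = z := fun v a b => h13 v (s1 a) (s3 b)
  have e23 : ∀ v ∈ F₂, v ∈ F₃ → v = z := fun v a b => h23 v (s2 a) (s3 b)
  by_cases z1 : z ∈ F₁ → (z ∈ F₂ ↔ z ∈ F₃)
  · exact three_cores hk h hG c1 c2 c3 (by grind) (by grind)
  by_cases z2 : z ∈ F₂
  · exact three_cores hk h hG c3 c1 c2 (by grind) (by grind)
  · exact three_cores hk h hG c2 c1 c3 (by grind) (by grind)

end Pool.Agent.Work.MP_66aaa3_co
end
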