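import Mathlib
import Pool.Agent.Work.MP_66aaa3_co.Three
import Pool.Agent.Lib.Ramsey.Finite
import Pool.Agent.Work.MP_66aaa3_co.R3D
import Pool.Agent.Work.MP_66aaa3_co.R3E

-- merged part: Pool.Agent.Work.MP_66aaa3_co.LemXC
section
/-! The two cases for a uniform family of pieces. -/

namespace Pool.Agent.Work.MP_66aaa3_co

open Finset

variable {V ι : Type} [DecidableEq ι] {G : SimpleGraph V} {k T N : ℕ} {p : ℕ → V}
  {D : ℕ → Finset V} {pos : ℕ → ι → ℕ} {ρ : ι → ZMod (2 * k)} {W : ι → ι → Set (ZMod (2 * k))}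
  {X X' : Finset ι} {Ω : Finset (ZMod (2 * k))}

namespace LemXUni

lemma blk (h : LemXUni G (2 * k) T N p D pos ρ W) {I : Finset ι} (hN : I.card + 2 < N)
    (hI : ∀ u ∈ I, ∀ v ∈ I, u ≠ v → LemXSep N pos u v) {U₁ U₂ : Finset ι} (s₁ : U₁ ⊆ I)
    (s₂ : U₂ ⊆ I) (n₁ : U₁.Nonempty) (n₂ : U₂.Nonempty) (hd : ∀ u ∈ U₂, u ∉ U₁)
    (c₁ : ∀ u ∈ U₁, ∀ v ∈ U₁, u ≠ v → (2 : ZMod (2 * k)) ∈ W u v)
    (c₂ : ∀ u ∈ U₂, ∀ v ∈ U₂, u ≠ v → (2 : ZMod (2 * k)) ∈ W u v) {O : Finset (ZMod (2 * k))}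
    (hO : ∀ u ∈ U₁, ∀ v ∈ U₂, ∀ w ∈ O, w ∈ W u v ∧ w ∈ W v u) :
    ∀ a ∈ O, ∀ b ∈ O, ∀ i < U₁.card + U₂.card - 1, a + b + 2 * (i : ZMod (2 * k)) ≠ 2 * 1 := by
  intro a ha b hb i hi
  have p₁ := card_pos.2 n₁
  have p₂ := card_pos.2 n₂
  obtain ⟨x, hx⟩ := n₁
  obtain ⟨z, hz⟩ := n₂
  obtain ⟨i₁, i₂, e₁, e₂, rfl⟩ : ∃ i₁ i₂, i₁ < U₁.card ∧ i₂ < U₂.card ∧ i = i₁ + i₂ :=
    ⟨min i (U₁.card - 1), i - min i (U₁.card - 1), by omega, by omega, by omega⟩
  obtain ⟨B, y, h1, h2, h3, -⟩ := h.stRun hN hI (h.stStart (by omega) (s₁ hx)) s₁ hx (by simp) c₁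
    i₁ e₁
  rw [empty_union] at h3
  have h4 := h.stStep hN hI h1 (s₂ hz) (fun e => hd z hz (h3 e)) (fun e => hd z hz (e ▸ h2))
    (hO y h2 z hz a ha).1
  obtain ⟨B', y', h5, h6, -, -⟩ := h.stRun hN hI h4 s₂ hz
    (fun u hu e => hd u hu (insert_subset h2 h3 e)) c₂ i₂ e₂
  have h7 := h.stClose (by omega) hI h5 (s₁ hx) (fun e => hd y' h6 (e ▸ hx))
    (hO x hx y' h6 b hb).2
  intro e
  apply h7
  push_cast at e
  linear_combination e

lemma caseA (hk : 3 ≤ k) (h : LemXUni G (2 * k) T N p D pos ρ W) (hc : LemXCfg k W X X' Ω)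
    (hN : (X ∪ X').card + 2 < N)
    (hI : ∀ u ∈ X ∪ X', ∀ v ∈ X ∪ X', u ≠ v → LemXSep N pos u v) :
    X'.card = k ∧ ∀ y ∈ X, pos 0 y = pos 1 y := by
  have hbig := hc.big
  have hle := hc.le
  have hk1 : 1 ≤ k := by omega
  have sX : X ⊆ X ∪ X' := subset_union_left
  have sX' : X' ⊆ X ∪ X' := subset_union_right
  rcases hc.ty with ⟨e1, e2⟩ | ⟨e1, e2⟩
  · refine ⟨e1 ▸ e2, fun y hy => ?_⟩
    by_contra hne
    have c1 : (X.erase y).card = k - 1 := by rw [card_erase_of_mem hy, e2]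
    obtain ⟨a, ha, b, hb, hab⟩ := one_lt_card.1 (show 1 < (X.erase y).card by omega)
    obtain ⟨ha1, ha2⟩ := mem_erase.1 ha
    obtain ⟨hb1, hb2⟩ := mem_erase.1 hb
    have c0 := card_le_card sX
    have h1 := h.stTwice (by omega) hI (sX hy) (sX ha2) (sX hb2) ha1.symm hb1.symm hab
      (by omega) (hc.h2 y hy a ha2 ha1.symm) (hc.h2 a ha2 y hy ha1) (hc.h2 y hy b hb2 hb1.symm)
    have s1 : (X.erase y).erase a ⊆ X := (erase_subset _ _).trans (erase_subset _ _)
    obtain ⟨B, z, h2, h3, -, -⟩ := h.stRun hN hI h1 (s1.trans sX)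
      (mem_erase.2 ⟨hab.symm, hb⟩) (by
        intro u hu
        simp only [mem_erase] at hu
        simp [hu.1, hu.2.1])
      (fun u hu v hv => hc.h2 u (s1 hu) v (s1 hv)) (k - 3)
      (by rw [card_erase_of_mem ha]; omega)
    have n : z ≠ y := (mem_erase.1 (mem_erase.1 h3).2).1
    refine h.stClose (by omega) hI h2 (sX hy) n (hc.h2 z (s1 h3) y hy n) ?_
    have : ((2 * k : ℕ) : ZMod (2 * k)) = 0 := ZMod.natCast_self _
    rw [Nat.cast_sub hk]
    push_cast at this ⊢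
    linear_combination this
  exfalso
  obtain ⟨x₀, hx₀, x₁, hx₁, hx⟩ := hc.cross
  have p0 := card_pos.2 ⟨x₀, hx₀⟩
  have hΩ : Ω.Nonempty := card_pos.1 (by omega)
  have dbl : ∀ (S : Finset (ZMod (2 * k))) (j : ℕ), 0 < j → k ≤ S.card →
      ¬ ∀ a ∈ S, ∀ b ∈ S, ∀ i < j, a + b + 2 * (i : ZMod (2 * k)) ≠ 2 * 1 := by
    intro S j hj hS hh
    obtain ⟨a, ha, b, hb, e⟩ := doubling hk1 hS 1
    exact hh a ha b hb 0 hj (by simpa using e)
  by_cases hcom : (X ∩ X').Nonempty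
  swap
  · have hd : ∀ u ∈ X', u ∉ X := fun u h1 h2 => hcom ⟨u, mem_inter.2 ⟨h2, h1⟩⟩
    have b1 := h.blk hN hI sX sX' ⟨x₀, hx₀⟩ ⟨x₁, hx₁⟩ hd hc.h2 hc.h2' (O := Ω) (by
      intro u hu v hv w hw
      have := hc.hΩ u hu v hv (fun e => hd v hv (e ▸ hu)) w hw
      exact ⟨this, hc.symm _ _ _ this⟩)
    have b2 := window hk1 hΩ (by omega) 1 b1
    exact dbl Ω _ (by omega) (by omega) b1
  have cO : (insert 2 Ω).card = Ω.card + 1 := card_insert_of_notMem (e2 hcom)
  have hO : (insert 2 Ω).Nonempty := insert_nonempty _ _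
  have pl : ∀ y ∈ X ∩ X', ∀ z ∈ X ∪ X', y ≠ z → ∀ w ∈ insert 2 Ω, w ∈ W y z ∧ w ∈ W z y := by
    intro y hy z hz e w hw
    have := hc.plus (mem_inter.1 hy).1 (mem_inter.1 hy).2 hz e w hw
    exact ⟨this, hc.symm _ _ _ this⟩
  obtain ⟨y, hy⟩ := hcom
  obtain ⟨hy1, hy2⟩ := mem_inter.1 hy
  have p1 : 2 ≤ X'.card := by
    by_contra e
    exact hx ((card_le_one.1 (by omega) x₀ hx₀ y hy1).trans
      (card_le_one.1 (by omega) y hy2 x₁ hx₁))
  have c1 : (X'.erase y).card = X'.card - 1 := card_erase_of_mem hy2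
  have b1 := h.blk hN hI (U₁ := {y}) (U₂ := X'.erase y) (singleton_subset_iff.2 (sX hy1))
    ((erase_subset _ _).trans sX') (singleton_nonempty _) (card_pos.1 (by omega))
    (by simp +contextual) (by simp)
    (fun u hu v hv => hc.h2' u (mem_of_mem_erase hu) v (mem_of_mem_erase hv)) (O := insert 2 Ω)
    (by
      intro u hu v hv
      rw [mem_singleton.1 hu]
      exact pl y hy v (sX' (mem_of_mem_erase hv)) (mem_erase.1 hv).1.symm)
  rw [card_singleton, c1] at b1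
  have b2 := window hk1 hO (by omega) 1 b1
  have aa : X.card = X'.card := by omega
  have a3 : 3 ≤ X.card := by
    by_contra e
    exact dbl _ _ (by omega) (by omega) b1
  have c2 : (X \ X').card + (X ∩ X').card = X.card := card_sdiff_add_card_inter X X'
  by_cases b2' : 2 ≤ (X \ X').card
  · have b3 := h.blk hN hI (U₁ := X \ X') (U₂ := X') (sdiff_subset.trans sX) sX'
      (card_pos.1 (by omega)) ⟨y, hy2⟩ (by simp +contextual)
      (fun u hu v hv => hc.h2 u (mem_sdiff.1 hu).1 v (mem_sdiff.1 hv).1) hc.h2' (O := Ω) (by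
        intro u hu v hv w hw
        have := hc.hΩ u (mem_sdiff.1 hu).1 v hv (fun e => (mem_sdiff.1 hu).2 (e ▸ hv)) w hw
        exact ⟨this, hc.symm _ _ _ this⟩)
    have := window hk1 hΩ (by omega) 1 b3
    omega
  obtain ⟨y₁, hy₁, y₂, hy₂, n12⟩ := one_lt_card.1 (show 1 < (X ∩ X').card by omega)
  have sI : X ∩ X' ⊆ X ∪ X' := inter_subset_union
  have st := h.stStart (I := X ∪ X') (by omega) (sI hy₂)
  by_cases b1' : (X \ X').card = 1
  · obtain ⟨x, hx'⟩ := card_pos.1 (show 0 < (X \ X').card by omega)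
    obtain ⟨hx1, hx2⟩ := mem_sdiff.1 hx'
    have m1 : y₁ ≠ x := fun e => hx2 (e ▸ (mem_inter.1 hy₁).2)
    have m2 : y₂ ≠ x := fun e => hx2 (e ▸ (mem_inter.1 hy₂).2)
    have := window hk1 hO (j := X'.card) (by omega) 1 (by
      intro a ha b hb i hi
      rcases Nat.eq_zero_or_pos i with rfl | hi0
      · exact b1 a ha b hb 0 (by omega)
      obtain ⟨s, rfl⟩ : ∃ s, i = s + 1 := ⟨i - 1, by omega⟩
      have t1 := h.stStep hN hI st (sX hx1) (by simp) m2.symm (pl y₂ hy₂ x (sX hx1) m2 a ha).1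
      have t2 := h.stStep hN hI t1 (sI hy₁) (by simpa using n12) m1
        (pl y₁ hy₁ x (sX hx1) m1 b hb).2
      obtain ⟨B, z, t3, t4, -, -⟩ := h.stRun hN hI t2 (U := X'.erase y₂)
        ((erase_subset _ _).trans sX') (mem_erase.2 ⟨n12, (mem_inter.1 hy₁).2⟩) (by
          intro u hu
          obtain ⟨q1, q2⟩ := mem_erase.1 hu
          have : u ≠ x := fun e => hx2 (e ▸ q2)
          simp [q1, this])
        (fun u hu v hv => hc.h2' u (mem_of_mem_erase hu) v (mem_of_mem_erase hv)) s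
        (by rw [card_erase_of_mem (mem_inter.1 hy₂).2]; omega)
      have t5 := h.stClose (by omega) hI t3 (sI hy₂) (mem_erase.1 t4).1
        (hc.h2' z (mem_of_mem_erase t4) y₂ (mem_inter.1 hy₂).2 (mem_erase.1 t4).1)
      intro e
      apply t5
      push_cast at e
      linear_combination e)
    omega
  have hall : ∀ u ∈ X, u ∈ X ∩ X' := by
    intro u hu
    by_contra e
    have := card_pos.2 ⟨u, mem_sdiff.2 ⟨hu, fun e' => e (mem_inter.2 ⟨hu, e'⟩)⟩⟩
    omega
  refine tight (k := k) a3 (by omega) (S := insert 2 Ω) (mem_insert_self _ _) (by omega)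
    (fun a ha b hb i hi => by simpa using b1 a ha b hb i (by omega)) ?_
  intro a ha b hb c hc'
  have q1 : y₁ ∈ X.erase y₂ := mem_erase.2 ⟨n12, (mem_inter.1 hy₁).1⟩
  have q2 : ((X.erase y₂).erase y₁).card = X.card - 2 := by
    rw [card_erase_of_mem q1, card_erase_of_mem (mem_inter.1 hy₂).1]; omega
  have s1 : (X.erase y₂).erase y₁ ⊆ X := (erase_subset _ _).trans (erase_subset _ _)
  obtain ⟨y₃, hy₃⟩ := card_pos.1 (show 0 < ((X.erase y₂).erase y₁).card by omega)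
  have q3 := (mem_erase.1 hy₃).1
  have q4 := (mem_erase.1 (mem_erase.1 hy₃).2).1
  have t1 := h.stStep hN hI st (sI hy₁) (by simp) n12 (pl y₁ hy₁ y₂ (sI hy₂) n12 a ha).2
  have t2 := h.stStep hN hI t1 (sX (s1 hy₃)) (by simpa using q4) q3
    (pl y₁ hy₁ y₃ (sX (s1 hy₃)) q3.symm b hb).1
  obtain ⟨B, z, t3, t4, -, -⟩ := h.stRun hN hI t2 (s1.trans sX) hy₃ (by
      intro u hu
      simp only [mem_erase] at hu
      simp [hu.1, hu.2.1])
    (fun u hu v hv => hc.h2 u (s1 hu) v (s1 hv)) (X.card - 3) (by omega)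
  have q5 := (mem_erase.1 (mem_erase.1 t4).2).1
  have t5 := h.stClose (by omega) hI t3 (sI hy₂) q5 (pl y₂ hy₂ z (sX (s1 t4)) q5.symm c hc').2
  intro e
  apply t5
  linear_combination e

omit [DecidableEq ι] in
lemma zRun (h : LemXUni G (2 * k) T N p D pos ρ W) {Z : ι → Prop} {α : ι} (hα : Z α)
    (hZ : ∀ u v, Z u → Z v → ∀ j j', j < j' → j' < N → pos j u < pos j' v) {a : ℕ}
    (l : List (ZMod (2 * k)))
    (hl : ∀ d ∈ l, ∃ x y, Z x ∧ Z y ∧ pos 0 x < pos 0 y ∧ ∃ w ∈ W x y, d = w - (ρ y - ρ x)) :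
    ∀ t u r, Z u → t + l.length + 1 < N → LemXCh G (2 * k) T N p D {i | i ≤ t}
      {y | y ≤ pos t u ∨ pos (N - 1) α < y} a (pos t u) r →
      ∃ v, Z v ∧ LemXCh G (2 * k) T N p D {i | i ≤ t + l.length}
        {y | y ≤ pos (t + l.length) v ∨ pos (N - 1) α < y} a (pos (t + l.length) v)
        (r + (ρ v - ρ u) + l.sum) := by
  induction l with
  | nil => exact fun t u r hu _ hc => ⟨u, hu, by simpa using hc⟩
  | cons d l ih =>
    intro t u r hu ht hc
    rw [List.length_cons] at ht ⊢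
    obtain ⟨x, y, zx, zy, hxy, w, hw, rfl⟩ := hl d List.mem_cons_self
    have e1 := hZ u x hu zx t (t + 1) (by omega) (by omega)
    have e2 := h.u00 x y 0 (by omega) (t + 1) (by omega) hxy
    have e3 := hZ y α zy hα (t + 1) (N - 1) (by omega) (by omega)
    have c1 := h.segUp hc (by omega) (show t + 1 < N by omega) e1.le (by
      intro i h1 h2
      simp only [Set.mem_ofPred_eq]; omega)
    have c2 := h.earS c1 (by omega) (by simp) (by
      simp only [Set.mem_union, Set.mem_ofPred_eq, Set.mem_Icc]; omega) hw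
    obtain ⟨v, zv, c3⟩ := ih (fun d hd => hl d (List.mem_cons_of_mem _ hd)) (t + 1) y _ zy
      (by omega) (c2.mono (by
        intro i
        simp only [Set.mem_insert_iff, Set.mem_ofPred_eq]; omega) (by
        intro i
        simp only [Set.mem_insert_iff, Set.mem_union, Set.mem_ofPred_eq, Set.mem_Icc]; omega))
    refine ⟨v, zv, ?_⟩
    rw [show t + (l.length + 1) = t + 1 + l.length by omega]
    convert c3 using 1
    rw [List.sum_cons]; ring

lemma caseB (hk : 3 ≤ k) (h : LemXUni G (2 * k) T N p D pos ρ W) (hc : LemXCfg k W X X' Ω)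
    (hN : (2 * k) ^ 2 + 4 ≤ N) (hne : ∀ u v, pos 0 u ≠ pos 0 v → (W u v).Nonempty)
    (inj : ∀ u ∈ X ∪ X', ∀ v ∈ X ∪ X', pos 0 u = pos 0 v → u = v) {l r : ι} {c : ℕ}
    (hl : pos 1 l ≤ c) (hr : c < pos 0 r) {α β : ι} (hα : α ∈ X ∪ X') (hβ : β ∈ X ∪ X')
    (hαβ : pos 0 α < pos 0 β) (hs : pos 0 β < pos 1 α) : False := by
  have u01 := h.u01
  have u10 := h.u10
  have N4 : 4 ≤ N := by omega
  let Z : ι → Prop := fun u => pos 0 u < pos 1 α ∧ pos 0 α < pos 1 u
  have Zα : Z α := ⟨by omega, by omega⟩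
  have Zβ : Z β := ⟨hs, by have := h.u00 α β 0 (by omega) 1 (by omega) hαβ; omega⟩
  have hZ : ∀ u v, Z u → Z v → ∀ j j', j < j' → j' < N → pos j u < pos j' v := by
    intro u v zu zv j j' h1 h2
    have := u01 α v 0 1 1 2 (by omega) (by omega) (by omega) (by omega) zv.2
    exact u01 u v 0 2 j j' (by omega) (by omega) h1 h2 (lt_trans zu.1 this)
  have mon := hZ α α Zα Zα
  have sep : ∀ g, ¬ Z g → (∀ j < N, pos j g < pos 0 α) ∨ ∀ j < N, pos (N - 1) α < pos j g := by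
    intro g zg
    have m1 := mon 0 1 (by omega) (by omega)
    have m2 := mon 1 2 (by omega) (by omega)
    by_cases e : pos 0 g < pos 1 α
    · left
      have e' : ¬ pos 0 α < pos 1 g := fun e' => zg ⟨e, e'⟩
      have e2 : ¬ pos 0 α < pos 2 g := fun e2 =>
        e' (u01 α g 0 2 0 1 (by omega) (by omega) (by omega) (by omega) e2)
      intro j hj
      rcases Nat.eq_zero_or_pos j with rfl | h0
      · exact h.u00 g α 1 (by omega) 0 hj (by omega)
      · exact u10 g α 1 2 0 j (by omega) (by omega) h0 hj (by omega)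
    · right
      have e2 : ¬ pos 0 g < pos 2 α := fun e2 =>
        e (u01 g α 0 2 0 1 (by omega) (by omega) (by omega) (by omega) e2)
      intro j hj
      rcases eq_or_lt_of_le (show j ≤ N - 1 by omega) with rfl | h0
      · exact h.u00 α g 0 (by omega) _ hj (by omega)
      · exact u10 α g 0 1 j (N - 1) (by omega) (by omega) h0 (by omega) (by omega)
  let Δ : Set (ZMod (2 * k)) :=
    {d | ∃ x y, Z x ∧ Z y ∧ pos 0 x < pos 0 y ∧ ∃ w ∈ W x y, d = w - (ρ y - ρ x)}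
  have Z2 : ∀ g, ¬ Z g → ∀ u v, Z u → Z v → ∀ w ∈ W g u, ∀ w' ∈ W v g, ∀ κ ∈ Ideal.span Δ,
      w + w' + (ρ v - ρ u) + κ ≠ 2 := by
    intro g zg u v zu zv w hw w' hw' κ hκ
    obtain ⟨L, h1, h2, rfl⟩ := span_list (by omega) Δ hκ
    have hL : 1 + L.length + 1 < N - 1 := by omega
    have g1 : (pos 1 g < pos 0 α ∧ pos (1 + L.length + 1) g < pos 0 α) ∨
        (pos (N - 1) α < pos 1 g ∧ pos (N - 1) α < pos (1 + L.length + 1) g) :=
      (sep g zg).imp (fun e => ⟨e _ (by omega), e _ (by omega)⟩)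
        fun e => ⟨e _ (by omega), e _ (by omega)⟩
    have g2 := hZ α u Zα zu 0 1 (by omega) (by omega)
    have g3 := hZ u α zu Zα 1 (N - 1) (by omega) (by omega)
    have c0 : LemXCh G (2 * k) T N p D ∅ {pos (1 + L.length + 1) g} _ _ 0 :=
      LemXCh.start (h.le (1 + L.length + 1) (by omega) g)
    have c1 := h.seg0 (j' := 1) c0 (by omega) (by omega) fun i _ e => e
    have c2 := h.earS c1 (by omega) (by simp) (by
      simp only [Set.mem_union, Set.mem_singleton_iff, Set.mem_uIcc]; omega) hw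
    obtain ⟨x, zx, c3⟩ := h.zRun Zα hZ L h1 1 u _ zu (by omega) (c2.mono (by simp) (by
      intro i
      simp only [Set.mem_insert_iff, Set.mem_union, Set.mem_singleton_iff, Set.mem_uIcc,
        Set.mem_ofPred_eq]
      omega))
    have g4 := hZ x v zx zv (1 + L.length) (1 + L.length + 1) (by omega) (by omega)
    have g5 := hZ v α zv Zα (1 + L.length + 1) (N - 1) hL (by omega)
    have g6 := hZ α v Zα zv 0 (1 + L.length + 1) (by omega) (by omega)
    have c4 := h.segUp c3 (by omega) (show 1 + L.length + 1 < N by omega) g4.le (by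
      intro i h1 h2
      simp only [Set.mem_ofPred_eq]; omega)
    have c5 := h.close c4 (by omega) (by simp) (by omega) hw'
    intro e
    apply c5
    linear_combination e
  refine hc.arithB hk (pos 0) Z (Ideal.span Δ) inj hα hβ hαβ Zα Zβ ?_
    (fun a b za zb e w hw => Ideal.subset_span ⟨a, b, za, zb, e, w, hw, rfl⟩) Z2
  intro h2
  obtain ⟨g, zg⟩ : ∃ g, ¬ Z g := by
    by_contra e
    push Not at e
    have := hZ r l (e r) (e l) 0 1 (by omega) (by omega)
    omega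
  obtain ⟨w, hw⟩ := hne g α (by
    have := mon 0 (N - 1) (by omega) (by omega)
    rcases sep g zg with e | e <;> have := e 0 (by omega) <;> omega)
  exact Z2 g zg α α Zα Zα w hw w (hc.symm _ _ _ hw) _ (Ideal.mul_mem_left _ (1 - w) h2) (by ring)

theorem main (hk : 3 ≤ k) (h : LemXUni G (2 * k) T N p D pos ρ W) (hc : LemXCfg k W X X' Ω)
    (hN : (2 * k) ^ 2 + 4 ≤ N) (hN' : (X ∪ X').card + 2 < N)
    (hne : ∀ j < N, ∀ u v, pos j u ≠ pos j v → (W u v).Nonempty)
    (inj : ∀ j < N, ∀ u ∈ X ∪ X', ∀ v ∈ X ∪ X', pos j u = pos j v → u = v) {l r : ι} {c : ℕ}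
    (hl : ∀ j < N, pos j l ≤ c) (hr : ∀ j < N, c < pos j r) :
    X'.card = k ∧ ∀ y ∈ X, ∀ j < N, pos j y = pos 0 y := by
  have N4 : 4 ≤ N := by omega
  have key : ∀ u ∈ X ∪ X', ∀ v ∈ X ∪ X', pos 0 u < pos 0 v → LemXSep N pos u v := by
    intro u hu v hv e
    have e0 := fun j hj => h.u00 u v 0 (by omega) j hj e
    have e1 : pos 1 u < pos 0 v := by
      by_contra n
      have n2 : ¬ pos 2 u < pos 1 v := fun e2 =>
        n (h.u10 u v 1 2 0 1 (by omega) (by omega) (by omega) (by omega) e2)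
      have := e0 1 (by omega)
      exact h.caseB hk hc hN (hne 0 (by omega)) (inj 0 (by omega)) (hl 1 (by omega))
        (hr 0 (by omega)) hu hv e
        (h.u01 v u 0 2 0 1 (by omega) (by omega) (by omega) (by omega) (by omega))
    have e2 : pos 0 u < pos 1 v := by
      by_contra n
      have n2 : ¬ pos 1 u < pos 2 v := fun e2 =>
        n (h.u01 u v 1 2 0 1 (by omega) (by omega) (by omega) (by omega) e2)
      have := e0 1 (by omega)
      exact h.rev.caseB hk hc hN (hne _ (by omega)) (inj _ (by omega)) (hl _ (by omega))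
        (hr _ (by omega)) hu hv (e0 _ (by omega))
        (h.u10 v u 0 2 _ _ (by omega) (by omega) (by omega) (by omega) (by omega))
    refine Or.inl fun j hj j' hj' => ?_
    rcases lt_trichotomy j j' with e3 | rfl | e3
    · exact h.u01 u v 0 1 j j' (by omega) (by omega) e3 hj' e2
    · exact e0 j hj
    · exact h.u10 u v 0 1 j' j (by omega) (by omega) e3 hj e1
  obtain ⟨h1, h2⟩ := h.caseA hk hc hN' (by
    intro u hu v hv n
    rcases lt_trichotomy (pos 0 u) (pos 0 v) with e | e | e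
    · exact key u hu v hv e
    · exact absurd (inj 0 (by omega) u hu v hv e) n
    · exact (key v hv u hu e).symm)
  refine ⟨h1, fun y hy j hj => ?_⟩
  have h3 := h2 y hy
  rcases Nat.eq_zero_or_pos j with rfl | h0
  · rfl
  rcases lt_trichotomy (pos j y) (pos 0 y) with e | e | e
  · have := h.u10 y y 0 j 0 1 h0 hj (by omega) (by omega) e
    omega
  · exact e
  · have := h.u01 y y 0 j 0 1 h0 hj (by omega) (by omega) e
    omega

end LemXUni

end Pool.Agent.Work.MP_66aaa3_co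
end

-- merged part: Pool.Agent.Work.MP_66aaa3_co.LemXD
section
/-! The data of one piece, and the Ramsey selection. -/

namespace Pool.Agent.Work.MP_66aaa3_co

open Finset

lemma LemX_ramsey (κ : Type) [Finite κ] [Nonempty κ] (n : ℕ) : ∃ q : ℕ, ∀ (α : Type)
    (S : Finset α) (c : α → α → κ), q < S.card → ∃ g : ℕ → α, (∀ i < n, g i ∈ S) ∧
      (∀ i < n, ∀ j < n, g i = g j → i = j) ∧ ∃ x, ∀ i j, i < j → j < n → c (g i) (g j) = x := by
  obtain ⟨q, hq, h⟩ := Pool.Agent.Lib.Ramsey.finite_ramsey κ n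
  refine ⟨q, fun α S c hS => ?_⟩
  obtain ⟨e⟩ : Nonempty (Fin q ↪ S) := Function.Embedding.nonempty_of_card_le (by simp; omega)
  obtain ⟨g, hg, x, hx⟩ := h fun a b => c (e a) (e b)
  refine ⟨fun i => if hi : i < n then e (g ⟨i, hi⟩) else e ⟨0, hq⟩, fun i hi => ?_,
    fun i hi j hj e' => ?_, x, fun i j hij hj => ?_⟩
  · simp [hi]
  · simp only [hi, hj, dif_pos] at e'
    simpa using hg.injective (e.injective (Subtype.ext e'))
  · simp only [hj, hij.trans hj, dif_pos]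
    exact hx _ _ hij

lemma LemX_coord (ι : Type) [Fintype ι] (B : Finset ℕ) (hB : B.card ≤ Fintype.card ι)
    (hne : B.Nonempty) : ∃ (σ : ℕ → ι) (pos : ι → ℕ), (∀ u, pos u ∈ B) ∧ ∀ i ∈ B, pos (σ i) = i := by
  obtain ⟨e⟩ : Nonempty (B ↪ ι) := Function.Embedding.nonempty_of_card_le (by simpa using hB)
  obtain ⟨b, hb⟩ := hne
  have : Nonempty B := ⟨⟨b, hb⟩⟩
  refine ⟨fun i => if h : i ∈ B then e ⟨i, h⟩ else e ⟨b, hb⟩,
    fun u => (Function.invFun e u).1, fun u => (Function.invFun e u).2, fun i hi => ?_⟩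
  simp only [hi, dif_pos]
  rw [Function.leftInverse_invFun e.injective]

variable {V : Type} [DecidableEq V] {G : SimpleGraph V} {k T : ℕ} {p : ℕ → V} {D : Finset V}

omit [DecidableEq V] in
lemma LemX_two {s a b : V} (hs : s ∈ D) (ha : a ∉ D) (hb : b ∉ D) (hab : a ≠ b) (sa : G.Adj s a)
    (sb : G.Adj s b) : InL G (2 * k) (↑D ∪ {a, b}) a b 2 := by
  refine ⟨0 + 1 + 1, le_rfl, by norm_num, (((PathIn.refl (S := ↑D) hs).cons sa.symm ha).snoc sb
    ?_).mono ?_⟩
  · rintro (e | e)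
    · exact hab e.symm
    · exact hb e
  · rintro v (rfl | rfl | e)
    · simp
    · simp
    · exact Or.inl e

/-- exceptional piece -/
def LemXExc (G : SimpleGraph V) (k T : ℕ) (p : ℕ → V) (D : Finset V) : Prop :=
  ∃ z ∈ pv p T, ∃ Y ⊆ insert z D, Dense G k Y

/-- residues of ears between two positions -/
def LemXW {ι : Type} (G : SimpleGraph V) (k : ℕ) (p : ℕ → V) (D : Finset V) (pos : ι → ℕ)
    (u v : ι) : Set (ZMod (2 * k)) :=
  {w | InL G (2 * k) (↑D ∪ {p (pos u), p (pos v)}) (p (pos u)) (p (pos v)) w}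

lemma LemX_nat (hk : 3 ≤ k) (hG : NB G (2 * k)) (hp : IsP G p T) (hne : D.Nonempty)
    (hd : Disjoint D (pv p T)) (hg : 2 * k * D.card ≤ inc2 G D (pv p T))
    (hE : ¬ LemXExc G k T p D) : ∃ (A A' : Finset ℕ) (Ω : Finset (ZMod (2 * k))),
      LemXCfg k (LemXW G k p D id) A A' Ω ∧ (∀ i ∈ A ∪ A', i ≤ T ∧ ∃ v ∈ D, G.Adj v (p i)) ∧
      (A'.card = k → ∃ s ∈ D, ∀ i ∈ A, G.Adj s (p i)) := by
  have sy : ∀ u v w, w ∈ LemXW G k p D id u v → w ∈ LemXW G k p D id v u := by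
    intro u v w hw
    exact InL.mono (InL.symm hw) (by rw [Set.pair_comm])
  have nD : ∀ i ≤ T, p i ∉ D := fun i hi e => disjoint_left.1 hd e (mem_pv.2 ⟨i, hi, rfl⟩)
  have two : ∀ s ∈ D, ∀ i ∈ np G p T s, ∀ j ∈ np G p T s, i ≠ j → 2 ∈ LemXW G k p D id i j := by
    intro s hs i hi j hj n
    rw [mem_np] at hi hj
    exact LemX_two hs (nD i hi.1) (nD j hj.1) (hp.ne hi.1 hj.1 n) hi.2 hj.2
  by_cases hK : ∃ s ∈ D, k ≤ (np G p T s).card
  · obtain ⟨s, hs, h1⟩ := hK
    obtain ⟨A, hA, h2⟩ := exists_subset_card_eq h1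
    have h3 : ∀ i ∈ A, ∀ j ∈ A, i ≠ j → 2 ∈ LemXW G k p D id i j :=
      fun i hi j hj => two s hs i (hA hi) j (hA hj)
    obtain ⟨a, ha, b, hb, hab⟩ := one_lt_card.1 (show 1 < A.card by omega)
    refine ⟨A, A, {2}, ⟨sy, h3, h3, ?_, le_rfl, by rw [card_singleton]; omega,
      ⟨a, ha, b, hb, hab⟩, Or.inl ⟨rfl, h2⟩⟩, ?_, fun _ => ⟨s, hs, fun i hi => ?_⟩⟩
    · intro i hi j hj n w hw
      rw [mem_singleton.1 hw]; exact h3 i hi j hj n
    · intro i hi
      rw [union_self] at hi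
      exact ⟨(mem_np.1 (hA hi)).1, s, hs, (mem_np.1 (hA hi)).2⟩
    · exact (mem_np.1 (hA hi)).2
  push Not at hK
  have hK' : ∀ s ∈ D, deg G (pv p T) s < k := fun s hs => hp.card_np s ▸ hK s hs
  obtain ⟨U, hU, hUn, h1, h2⟩ := min_good hne hd hg
  have hdU : Disjoint U (pv p T) := hd.mono_left hU
  have hdg : Dg G U (U ∪ pv p T) (k + 1) := by
    intro v hv
    refine deg_of_inc2 (h2 {v} (singleton_subset_iff.2 hv) (singleton_nonempty v) fun e => ?_)
    have h3 := h1 {v} (singleton_subset_iff.2 hv)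
    rw [← e, sdiff_self, bot_eq_empty, union_empty, inc2_single, card_singleton] at h3
    have := hK' v (hU hv)
    omega
  rcases att2_or_dense (k := k) ⟨p 0, mem_pv.2 ⟨0, Nat.zero_le _, rfl⟩⟩ hdU
    (fun C hC _ => h1 C hC) with hat | ⟨z, hz, Y, hY, h3⟩
  swap
  · exact absurd ⟨z, hz, Y, hY.trans (insert_subset_insert _ hU), h3⟩ hE
  rcases cfg hk hG hUn hdU hdg hat with ⟨s, hs, h3⟩ | ⟨s, hs, s', hs', Ω, -, h4, h5, h6, h7, h8⟩
  · have := hK' s (hU hs)
    omega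
  have nbp : ∀ {v : V} {i : ℕ}, i ∈ np G p T v → p i ∈ nb G (pv p T) v := fun hi =>
    mem_nb.2 ⟨mem_pv.2 ⟨_, (mem_np.1 hi).1, rfl⟩, (mem_np.1 hi).2⟩
  refine ⟨np G p T s, np G p T s', Ω, ⟨sy, two s (hU hs), two s' (hU hs'), ?_, ?_, ?_, ?_,
    Or.inr ⟨hK s' (hU hs'), ?_⟩⟩, ?_, fun e => ?_⟩
  · intro i hi j hj n w hw
    exact (h6 w hw _ (nbp hi) _ (nbp hj) (hp.ne (mem_np.1 hi).1 (mem_np.1 hj).1 n)).mono
      (Set.union_subset_union_left _ (coe_subset.2 hU))
  · rwa [hp.card_np, hp.card_np]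
  · rwa [hp.card_np]
  · obtain ⟨x, hx, x', hx', n⟩ := h8
    rw [mem_nb, mem_pv] at hx hx'
    obtain ⟨⟨i, hi, rfl⟩, a⟩ := hx
    obtain ⟨⟨j, hj, rfl⟩, a'⟩ := hx'
    exact ⟨i, mem_np.2 ⟨hi, a⟩, j, mem_np.2 ⟨hj, a'⟩, fun e => n (by rw [e])⟩
  · rintro ⟨i, hi⟩
    exact h7 ⟨p i, nbp (mem_inter.1 hi).1, nbp (mem_inter.1 hi).2⟩
  · intro i hi
    rcases mem_union.1 hi with e | e
    · exact ⟨(mem_np.1 e).1, s, hU hs, (mem_np.1 e).2⟩
    · exact ⟨(mem_np.1 e).1, s', hU hs', (mem_np.1 e).2⟩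
  · have := hK s' (hU hs')
    omega

/-- the data of a piece in coordinates -/
structure LemXDat {ι : Type} [DecidableEq ι] (G : SimpleGraph V) (k T : ℕ) (p : ℕ → V) (c : ℕ)
    (D : Finset V) (pos : ι → ℕ) (X X' : Finset ι) (Ω : Finset (ZMod (2 * k))) (l r : ι) :
    Prop where
  cfg : LemXCfg k (LemXW G k p D pos) X X' Ω
  att : ∀ u, pos u ≤ T ∧ ∃ v ∈ D, G.Adj v (p (pos u))
  inj : ∀ u ∈ X ∪ X', ∀ v ∈ X ∪ X', pos u = pos v → u = v
  cl : pos l ≤ c
  cr : c < pos r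
  hub : X'.card = k → ∃ s ∈ D, ∀ u ∈ X, G.Adj s (p (pos u))

lemma LemX_dat (hk : 3 ≤ k) (hG : NB G (2 * k)) (hp : IsP G p T)
    (hd : Disjoint D (pv p T)) (hg : 2 * k * D.card ≤ inc2 G D (pv p T)) {c : ℕ}
    (hl : ∃ l ≤ c, l ≤ T ∧ ∃ u ∈ D, G.Adj u (p l)) (hr : ∃ r ≤ T, c < r ∧ ∃ u ∈ D, G.Adj u (p r))
    (hE : ¬ LemXExc G k T p D) : ∃ (pos : Fin (2 * k + 2) → ℕ) (X X' : Finset (Fin (2 * k + 2)))
      (Ω : Finset (ZMod (2 * k))) (l r : Fin (2 * k + 2)), LemXDat G k T p c D pos X X' Ω l r := by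
  obtain ⟨l, hl1, hl2, hl3⟩ := hl
  obtain ⟨r, hr1, hr2, hr3⟩ := hr
  obtain ⟨A, A', Ω, hc, h1, h2⟩ := LemX_nat hk hG hp ⟨_, hl3.choose_spec.1⟩ hd hg hE
  have hle := hc.le
  have hA' : A'.card ≤ k := by
    rcases hc.ty with ⟨e, e'⟩ | e
    · rw [← e, e']
    · exact e.1.le
  obtain ⟨σ, pos, h3, h4⟩ := LemX_coord (Fin (2 * k + 2)) (insert l (insert r (A ∪ A'))) (by
    have := card_insert_le l (insert r (A ∪ A'))
    have := card_insert_le r (A ∪ A')
    have := card_union_le A A'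
    rw [Fintype.card_fin]; omega) (insert_nonempty _ _)
  have h5 : ∀ i ∈ A ∪ A', pos (σ i) = i := fun i hi =>
    h4 i (mem_insert_of_mem (mem_insert_of_mem hi))
  have h6 : ∀ i ∈ A ∪ A', ∀ j ∈ A ∪ A', σ i = σ j → i = j := fun i hi j hj e => by
    rw [← h5 i hi, e, h5 j hj]
  have cA : (A.image σ).card = A.card := card_image_of_injOn fun i hi j hj =>
    h6 i (mem_union_left _ hi) j (mem_union_left _ hj)
  have cA' : (A'.image σ).card = A'.card := card_image_of_injOn fun i hi j hj =>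
    h6 i (mem_union_right _ hi) j (mem_union_right _ hj)
  have tr : ∀ B ⊆ A ∪ A', ∀ B' ⊆ A ∪ A', ∀ w, (∀ i ∈ B, ∀ j ∈ B', i ≠ j →
      w ∈ LemXW G k p D id i j) → ∀ u ∈ B.image σ, ∀ v ∈ B'.image σ, u ≠ v →
      w ∈ LemXW G k p D pos u v := by
    intro B hB B' hB' w hw u hu v hv n
    obtain ⟨i, hi, rfl⟩ := mem_image.1 hu
    obtain ⟨j, hj, rfl⟩ := mem_image.1 hv
    have := hw i hi j hj fun e => n (by rw [e])
    unfold LemXW at this ⊢
    rwa [h5 i (hB hi), h5 j (hB' hj)]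
  have sA : A ⊆ A ∪ A' := subset_union_left
  have sA' : A' ⊆ A ∪ A' := subset_union_right
  refine ⟨pos, A.image σ, A'.image σ, Ω, σ l, σ r, ⟨fun u v w hw => hc.symm (pos u) (pos v) w hw,
    tr A sA A sA 2 hc.h2, tr A' sA' A' sA' 2 hc.h2', fun u hu v hv n w hw =>
      tr A sA A' sA' w (fun i hi j hj e => hc.hΩ i hi j hj e w hw) u hu v hv n,
    by omega, by have := hc.big; omega, ?_, ?_⟩, fun u => ?_, ?_, ?_, ?_, fun e => ?_⟩
  · obtain ⟨i, hi, j, hj, n⟩ := hc.cross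
    exact ⟨σ i, mem_image_of_mem _ hi, σ j, mem_image_of_mem _ hj,
      fun e => n (h6 i (sA hi) j (sA' hj) e)⟩
  · rcases hc.ty with ⟨e, e'⟩ | ⟨e, e'⟩
    · exact Or.inl ⟨by rw [e], by omega⟩
    · refine Or.inr ⟨by omega, fun ⟨u, hu⟩ => e' ?_⟩
      obtain ⟨i, hi, rfl⟩ := mem_image.1 (mem_inter.1 hu).1
      obtain ⟨j, hj, e2⟩ := mem_image.1 (mem_inter.1 hu).2
      exact ⟨i, mem_inter.2 ⟨hi, h6 j (sA' hj) i (sA hi) e2 ▸ hj⟩⟩
  · rcases mem_insert.1 (h3 u) with e | e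
    · rw [e]; exact ⟨hl2, hl3⟩
    rcases mem_insert.1 e with e | e
    · rw [e]; exact ⟨hr1, hr3⟩
    · exact h1 _ e
  · intro u hu v hv e
    rw [← image_union] at hu hv
    obtain ⟨i, hi, rfl⟩ := mem_image.1 hu
    obtain ⟨j, hj, rfl⟩ := mem_image.1 hv
    rw [h5 i hi, h5 j hj] at e
    rw [e]
  · rwa [h4 l (mem_insert_self _ _)]
  · rwa [h4 r (mem_insert_of_mem (mem_insert_self _ _))]
  · obtain ⟨s, hs, h7⟩ := h2 (by omega)
    refine ⟨s, hs, fun u hu => ?_⟩
    obtain ⟨i, hi, rfl⟩ := mem_image.1 hu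
    rw [h5 i (sA hi)]
    exact h7 i hi

end Pool.Agent.Work.MP_66aaa3_co
end

-- merged part: Pool.Agent.Work.MP_66aaa3_co.LemX
section
namespace Pool.Agent.Work.MP_66aaa3_co

open Finset

lemma LemX_exc (k : ℕ) : ∃ q : ℕ, ∀ (V : Type) [DecidableEq V] (G : SimpleGraph V),
    N3D G k → ∀ (p : ℕ → V) (T : ℕ) (𝒟 : Finset (Finset V)),
    (∀ D ∈ 𝒟, Disjoint D (pv p T) ∧ LemXExc G k T p D) →
    (∀ D ∈ 𝒟, ∀ D' ∈ 𝒟, D ≠ D' → Disjoint D D') → 𝒟.card ≤ q := by
  obtain ⟨q, hq⟩ := LemX_ramsey Prop 3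
  refine ⟨q, fun V _ G h3 p T 𝒟 h hd => ?_⟩
  by_contra hc
  have : Nonempty V := ⟨p 0⟩
  choose! z hz Y hY hD using fun D hD => (h D hD).2
  obtain ⟨g, g1, g2, x, g3⟩ := hq _ 𝒟 (fun D D' => z D = z D') (by omega)
  have key : ∀ i j, i < j → j < 3 → ∀ v ∈ Y (g i), v ∈ Y (g j) → v = z (g 0) := by
    intro i j hij hj v h1 h2
    have m1 := g1 i (by omega)
    have m2 := g1 j hj
    rcases mem_insert.1 (hY _ m1 h1) with e | e <;> rcases mem_insert.1 (hY _ m2 h2) with e' | e'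
    · have hx : x := by rw [← g3 i j hij hj, ← e, ← e']
      rw [e']
      exact (show z (g 0) = z (g j) by rw [g3 0 j (by omega) hj]; exact hx).symm
    · exact absurd (e ▸ hz _ m1) (disjoint_left.1 (h _ m2).1 e')
    · exact absurd (e' ▸ hz _ m2) (disjoint_left.1 (h _ m1).1 e)
    · exact absurd e' (disjoint_left.1 (hd _ m1 _ m2 fun e2 => by
        have := g2 i (by omega) j hj e2; omega) e)
  exact h3 _ _ _ _ (hD _ (g1 0 (by omega))) (hD _ (g1 1 (by omega))) (hD _ (g1 2 (by omega)))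
    (key 0 1 (by omega) (by omega)) (key 0 2 (by omega) (by omega)) (key 1 2 (by omega) (by omega))

lemma LemX_gen (k M : ℕ) (hk : 3 ≤ k) (ι : Type) [Fintype ι] [DecidableEq ι] [Nonempty ι] :
    ∃ q : ℕ, ∀ (V : Type) [DecidableEq V] (G : SimpleGraph V),
    NB G (2 * k) → ¬ KM G k M → ∀ (p : ℕ → V) (T c : ℕ) (𝒟 : Finset (Finset V)),
    IsP G p T → (∀ D ∈ 𝒟, Conn G D ∧ Disjoint D (pv p T) ∧ ∃ (pos : ι → ℕ) (X X' : Finset ι)
      (Ω : Finset (ZMod (2 * k))) (l r : ι), LemXDat G k T p c D pos X X' Ω l r) →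
    (∀ D ∈ 𝒟, ∀ D' ∈ 𝒟, D ≠ D' → Disjoint D D') → 𝒟.card ≤ q := by
  have : NeZero (2 * k) := ⟨by omega⟩
  obtain ⟨N, hN1, hN2, hN3⟩ : ∃ N, (2 * k) ^ 2 + 4 ≤ N ∧ Fintype.card ι + 2 < N ∧ M ≤ N :=
    ⟨(2 * k) ^ 2 + 4 + Fintype.card ι + M, by omega, by omega, by omega⟩
  obtain ⟨q, hq⟩ := LemX_ramsey ((Finset ι × Finset ι × Finset (ZMod (2 * k)) × ι × ι) ×
    (ι → ZMod (2 * k)) × (ι → ι → Set (ZMod (2 * k))) × (ι → ι → Prop) × (ι → ι → Prop) ×
    (ι → ι → Prop)) (N + 1)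
  refine ⟨q, fun V _ G hG hKM p T c 𝒟 hp h hd => ?_⟩
  by_contra hc
  choose! pos X X' Ω l r hD using fun D hD => (h D hD).2.2
  obtain ⟨g, g1, g2, ⟨⟨X₀, X₀', Ω₀, l₀, r₀⟩, ρ, W, o₁, o₂, o₃⟩, g3⟩ := hq _ 𝒟
    (fun D D' => ((X D, X' D, Ω D, l D, r D), fun u => (pos D u : ZMod (2 * k)),
      LemXW G k p D (pos D), fun u v => pos D u < pos D v, fun u v => pos D u < pos D' v,
      fun u v => pos D' u < pos D v)) (by omega)
  simp only [Prod.mk.injEq] at g3
  have m : ∀ j < N, g j ∈ 𝒟 := fun j hj => g1 j (by omega)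
  have dat : ∀ j < N, LemXDat G k T p c (g j) (pos (g j)) X₀ X₀' Ω₀ l₀ r₀ := by
    intro j hj
    obtain ⟨⟨e1, e2, e3, e4, e5⟩, -⟩ := g3 j N hj (by omega)
    rw [← e1, ← e2, ← e3, ← e4, ← e5]
    exact hD _ (m j hj)
  have eW : ∀ j < N, LemXW G k p (g j) (pos (g j)) = W := fun j hj => (g3 j N hj (by omega)).2.2.1
  have nD : ∀ j < N, ∀ i ≤ T, p i ∉ g j := fun j hj i hi e =>
    disjoint_left.1 (h _ (m j hj)).2.1 e (mem_pv.2 ⟨i, hi, rfl⟩)
  have dD : ∀ j < N, ∀ j' < N, ∀ v ∈ g j, v ∈ g j' → j = j' := by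
    intro j hj j' hj' v h1 h2
    by_contra n
    exact disjoint_left.1 (hd _ (m j hj) _ (m j' hj') fun e =>
      n (g2 j (by omega) j' (by omega) e)) h1 h2
  have uni : LemXUni G (2 * k) T N p g (fun j => pos (g j)) ρ W :=
    { hP := hp
      nb := hG
      le := fun j hj u => ((dat j hj).att u).1
      dP := nD
      dD := dD
      res := fun j hj u => congrFun (g3 j N hj (by omega)).2.1 u
      ear := fun j hj u v w hw => by rw [← eW j hj] at hw; exact hw
      u00 := fun u v i hi j hj e => by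
        have e1 := congrFun₂ (g3 i N hi (by omega)).2.2.2.1 u v
        have e2 := congrFun₂ (g3 j N hj (by omega)).2.2.2.1 u v
        exact (e1.trans e2.symm).mp e
      u01 := fun u v i i' j j' h1 h2 h3 h4 e => by
        have e1 := congrFun₂ (g3 i i' h1 (by omega)).2.2.2.2.1 u v
        have e2 := congrFun₂ (g3 j j' h3 (by omega)).2.2.2.2.1 u v
        exact (e1.trans e2.symm).mp e
      u10 := fun u v i i' j j' h1 h2 h3 h4 e => by
        have e1 := congrFun₂ (g3 i i' h1 (by omega)).2.2.2.2.2 u v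
        have e2 := congrFun₂ (g3 j j' h3 (by omega)).2.2.2.2.2 u v
        exact (e1.trans e2.symm).mp e }
  have N0 : 0 < N := by omega
  have cf : LemXCfg k W X₀ X₀' Ω₀ := eW 0 N0 ▸ (dat 0 N0).cfg
  obtain ⟨h1, h2⟩ := uni.main hk cf hN1 (lt_of_le_of_lt (by
    have := card_le_univ (X₀ ∪ X₀'); omega) hN2) (by
      intro j hj u v n
      obtain ⟨a1, s, hs, a2⟩ := (dat j hj).att u
      obtain ⟨b1, t, ht, b2⟩ := (dat j hj).att v
      obtain ⟨n', h3, h4⟩ := (h _ (m j hj)).1.ear hs ht (nD j hj _ a1) (nD j hj _ b1)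
        (hp.ne a1 b1 n) a2.symm b2
      rw [← eW j hj]
      exact ⟨n', n', h3, rfl, h4⟩) (fun j hj => (dat j hj).inj) (fun j hj => (dat j hj).cl)
    fun j hj => (dat j hj).cr
  have : Nonempty V := ⟨p 0⟩
  choose! s hs ha using fun j hj => (dat j hj).hub h1
  have cX : X₀.card = k := by
    rcases cf.ty with e | e
    · exact e.2
    · omega
  refine hKM ⟨X₀.image fun u => p (pos (g 0) u), (range M).image s, ?_, ?_, ?_, ?_⟩
  · rw [card_image_of_injOn, cX]
    intro u hu v hv e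
    exact (dat 0 N0).inj u (mem_union_left _ hu) v (mem_union_left _ hv)
      (hp.inj ((dat 0 N0).att u).1 ((dat 0 N0).att v).1 e)
  · rw [card_image_of_injOn, card_range]
    intro i hi j hj e
    have hi' : i < N := lt_of_lt_of_le (mem_range.1 hi) hN3
    have hj' : j < N := lt_of_lt_of_le (mem_range.1 hj) hN3
    exact dD i hi' j hj' _ (hs i hi') (e ▸ hs j hj')
  · rw [disjoint_left]
    intro v h3 h4
    obtain ⟨u, -, rfl⟩ := mem_image.1 h3
    obtain ⟨j, hj, e⟩ := mem_image.1 h4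
    have hj' : j < N := lt_of_lt_of_le (mem_range.1 hj) hN3
    exact nD j hj' _ ((dat 0 N0).att u).1 (e ▸ hs j hj')
  · intro a h3 v h4
    obtain ⟨u, hu, rfl⟩ := mem_image.1 h3
    obtain ⟨j, hj, rfl⟩ := mem_image.1 h4
    have hj' : j < N := lt_of_lt_of_le (mem_range.1 hj) hN3
    have h5 : pos (g j) u = pos (g 0) u := h2 u hu j hj'
    rw [← h5]
    exact (ha j hj' u hu).symm

theorem lemmaX (k M : ℕ) (hk : 3 ≤ k) : ∃ q : ℕ, ∀ (V : Type) [DecidableEq V] (G : SimpleGraph V),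
    NB G (2 * k) → N3D G k → ¬ KM G k M → ∀ (p : ℕ → V) (T c : ℕ) (𝒟 : Finset (Finset V)),
    IsP G p T → (∀ D ∈ 𝒟, Conn G D ∧ Disjoint D (pv p T) ∧ 2 * k * D.card ≤ inc2 G D (pv p T) ∧
      (∃ l ≤ c, l ≤ T ∧ ∃ u ∈ D, G.Adj u (p l)) ∧ ∃ r ≤ T, c < r ∧ ∃ u ∈ D, G.Adj u (p r)) →
    (∀ D ∈ 𝒟, ∀ D' ∈ 𝒟, D ≠ D' → Disjoint D D') → 𝒟.card ≤ q := by
  classical
  obtain ⟨q₁, h₁⟩ := LemX_exc k
  obtain ⟨q₂, h₂⟩ := LemX_gen k M hk (Fin (2 * k + 2))
  refine ⟨q₁ + q₂, fun V _ G hG h3 hKM p T c 𝒟 hp h hd => ?_⟩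
  rw [← card_filter_add_card_filter_not (s := 𝒟) (LemXExc G k T p)]
  refine Nat.add_le_add (h₁ V G h3 p T _ (fun D hD => ?_) fun D hD D' hD' =>
    hd D (mem_filter.1 hD).1 D' (mem_filter.1 hD').1) (h₂ V G hG hKM p T c _ hp (fun D hD => ?_)
      fun D hD D' hD' => hd D (mem_filter.1 hD).1 D' (mem_filter.1 hD').1)
  · exact ⟨(h D (mem_filter.1 hD).1).2.1, (mem_filter.1 hD).2⟩
  · obtain ⟨a1, a2, a3, a4, a5⟩ := h D (mem_filter.1 hD).1
    exact ⟨a1, a2, LemX_dat hk hG hp a2 a3 a4 a5 (mem_filter.1 hD).2⟩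

end Pool.Agent.Work.MP_66aaa3_co
end

-- merged part: Pool.Agent.Work.MP_66aaa3_co.MainD
section
namespace Pool.Agent.Work.MP_66aaa3_co

open Finset

variable {V : Type} [DecidableEq V] [Fintype V] {G : SimpleGraph V} {k q c : ℕ} {z : ℕ → V} {T : ℕ}

omit [Fintype V] in
lemma Main_strict_GI (hk : 3 ≤ k) (hG : NB G (2 * k)) (hz : IsP G z T) {D : Finset V}
    (hd : Disjoint D (pv z T)) (hs : 2 * k * D.card < inc2 G D (pv z T))
    (hne : ¬ ∃ y ∈ pv z T, ∃ Y ⊆ insert y D, Dense G k Y) :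
    ∃ lo hi, (∃ u ∈ D, G.Adj u (z lo)) ∧ (∃ u ∈ D, G.Adj u (z hi)) ∧
      Main_GI G k z T lo hi ↑D := by
  classical
  obtain ⟨U, hU, hUne, -, hsup⟩ := min_strict hd hs
  have hdU := hd.mono_left hU
  rcases att2_or_dense ⟨z 0, mem_pv.2 ⟨0, Nat.zero_le _, rfl⟩⟩ hdU
    (fun C hC hC' => (hsup C hC hC').le) with hat | ⟨y, hy, Y, hY, hden⟩
  swap
  · exact absurd ⟨y, hy, Y, hY.trans (insert_subset_insert _ hU), hden⟩ hne
  set A := (range (T + 1)).filter fun i => ∃ u ∈ U, G.Adj u (z i) with hA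
  have mA : ∀ i, i ∈ A ↔ i ≤ T ∧ ∃ u ∈ U, G.Adj u (z i) := fun i => by
    rw [hA, mem_filter, mem_range, Nat.lt_succ_iff]
  have h1 : ∀ y, ∃ i ∈ A, z i ≠ y := fun y => by
    obtain ⟨u, hu, w, hw, a1, a2, a3⟩ := hat U Subset.rfl hUne y
    obtain ⟨i, hi, rfl⟩ := mem_pv.1 ((mem_union.1 hw).resolve_left a1)
    exact ⟨i, (mA i).2 ⟨hi, u, hu, a3⟩, a2⟩
  obtain ⟨i0, hi0, -⟩ := h1 (z 0)
  obtain ⟨lo, hlo, hmin⟩ := exists_min_image A id ⟨i0, hi0⟩
  obtain ⟨hi, hhi, hmax⟩ := exists_max_image A id ⟨i0, hi0⟩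
  simp only [id] at hmin hmax
  have hlt : lo < hi := by
    obtain ⟨i, h2, h3⟩ := h1 (z lo)
    have : i ≠ lo := fun e => h3 (e ▸ rfl)
    have := hmin i h2; have := hmax i h2
    omega
  obtain ⟨hhiT, u2, hu2, e2⟩ := (mA hi).1 hhi
  obtain ⟨-, u1, hu1, e1⟩ := (mA lo).1 hlo
  have hp := (hz.trunc hhiT).shift hlt.le
  have hsub : pv (fun i => z (lo + i)) (hi - lo) ⊆ pv z T := fun v hv => by
    obtain ⟨i, h2, rfl⟩ := mem_pv.1 hv
    exact mem_pv.2 ⟨lo + i, by omega, rfl⟩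
  have hin : ∀ u ∈ U, ∀ w ∈ U ∪ pv z T, G.Adj u w →
      w ∈ U ∪ pv (fun i => z (lo + i)) (hi - lo) := fun u hu w hw e => by
    rcases mem_union.1 hw with h2 | h2
    · exact mem_union_left _ h2
    · obtain ⟨i, h3, rfl⟩ := mem_pv.1 h2
      have h4 := (mA i).2 ⟨h3, u, hu, e⟩
      have := hmin i h4; have := hmax i h4
      exact mem_union_right _ (mem_pv.2 ⟨i - lo, by omega, by
        rw [show lo + (i - lo) = i by omega]⟩)
  obtain ⟨⟨L, l1, l2, l3⟩, -⟩ := r1_path hk hG hp hUne (hdU.mono_right hsub)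
    (fun v hv => (hsup.dg v hv).trans (deg_le_of (hin v hv)))
    (fun C hC hC' y => by
      obtain ⟨u, hu, w, hw, a1, a2, a3⟩ := hat C hC hC' y
      exact ⟨u, hu, w, hin u (hC hu) w hw a3, a1, a2, a3⟩)
  refine ⟨lo, hi, ⟨u1, hU hu1, e1⟩, ⟨u2, hU hu2, e2⟩, hlt, hhiT,
    fun i h2 h3 => disjoint_left.1 hd h3 (mem_pv.2 ⟨i, h2, rfl⟩), L, l1, l2, fun r hr => ?_⟩
  obtain ⟨n, -, n1, n2⟩ := l3 r hr
  simp only [Nat.add_zero, show lo + (hi - lo) = hi by omega] at n2
  refine ⟨n, n1, n2.mono fun v hv => ?_⟩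
  rcases mem_union.1 (mem_coe.1 hv) with h2 | h2
  · exact Or.inl (hU h2)
  · obtain ⟨i, h3, rfl⟩ := mem_pv.1 h2
    exact Or.inr ⟨lo + i, ⟨by omega, by omega⟩, rfl⟩

lemma Main_strict_card (hk : 3 ≤ k) (hG : NB G (2 * k)) (hX : Main_XQ G k q) (hN : N3D G k)
    (hz : IsP G z T) (hc : G.Adj (z T) (z 0)) (𝒟 : Finset (Finset V))
    (h : ∀ D ∈ 𝒟, IsComp G (univ \ pv z T) D ∧ 2 * k * D.card < inc2 G D (pv z T)) :
    𝒟.card ≤ 2 * q + 4 := by
  classical
  have a1 := card_filter_add_card_filter_not (s := 𝒟)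
    fun D => ∃ y ∈ pv z T, ∃ Y ⊆ insert y D, Dense G k Y
  have a2 := Main_exc hN (P := pv z T) (𝒟.filter fun D => ∃ y ∈ pv z T, ∃ Y ⊆ insert y D, Dense G k Y)
    (fun D hD => Main_disj (h D (mem_filter.1 hD).1).1)
    (fun D hD D' hD' hne => (h D (mem_filter.1 hD).1).1.disjoint (h D' (mem_filter.1 hD').1).1 hne)
    fun D hD => (mem_filter.1 hD).2
  set s := 𝒟.filter fun D => ¬ ∃ y ∈ pv z T, ∃ Y ⊆ insert y D, Dense G k Y
  have hs : ∀ D ∈ s, IsComp G (univ \ pv z T) D ∧ 2 * k * D.card < inc2 G D (pv z T) :=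
    fun D hD => h D (mem_filter.1 hD).1
  choose! lo hi h1 h2 h3 using fun D (hD : D ∈ s) => Main_strict_GI hk hG hz
    (Main_disj (hs D hD).1) (hs D hD).2 (mem_filter.1 hD).2
  have dis : ∀ a ∈ s, ∀ b ∈ s, hi a < hi b → ∀ v ∈ (a : Set V), v ∉ (b : Set V) :=
    fun a ha b hb e => disjoint_left.1 ((hs a ha).1.disjoint (hs b hb).1 fun e' => by
      rw [e'] at e; omega)
  have a3 := Main_interval s lo hi q (fun D hD => (h3 D hD).1) (fun a ha b hb d hd e1 e2 => by
      have := (h3 b hb).1; have := (h3 d hd).1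
      exact Main_series (by omega) hG hz hc (h3 a ha) (h3 b hb) (h3 d hd) e1 e2
        (dis a ha b hb (by omega)) (dis a ha d hd (by omega)) (dis b hb d hd (by omega)))
    fun t s' hs' h4 => hX z T t s' hz (fun D hD => by
      have hD' := hs' hD
      have := (h3 D hD').1; have := (h3 D hD').2.1
      exact ⟨(hs D hD').1.2.2.1, Main_disj (hs D hD').1, (hs D hD').2.le,
        ⟨lo D, (h4 D hD).1, by omega, h1 D hD'⟩, hi D, by omega, (h4 D hD).2, h2 D hD'⟩)
      fun D hD D' hD' hne => (hs D (hs' hD)).1.disjoint (hs D' (hs' hD')).1 hne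
  omega

omit [Fintype V] in
lemma Main_rot (hz : IsP G z T) (hc : G.Adj (z T) (z 0)) {t : ℕ} (ht : t ≤ T) :
    ∃ y, IsP G y T ∧ y T = z t ∧ pv y T = pv z T := by
  refine ⟨fun i => z (if t + 1 + i ≤ T then t + 1 + i else t + i - T), ⟨fun i hi => ?_,
    fun i hi j hj e => ?_⟩, ?_, ?_⟩
  · by_cases h1 : t + 1 + (i + 1) ≤ T
    · simp only [if_pos h1, if_pos (show t + 1 + i ≤ T by omega)]
      exact hz.adj (by omega)
    · by_cases h2 : t + 1 + i ≤ T
      · simp only [if_neg h1, if_pos h2]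
        rw [show t + 1 + i = T by omega, show t + (i + 1) - T = 0 by omega]
        exact hc
      · simp only [if_neg h1, if_neg h2]
        rw [show t + (i + 1) - T = t + i - T + 1 by omega]
        exact hz.adj (by omega)
  · have := hz.inj (by split_ifs <;> omega) (by split_ifs <;> omega) e
    split_ifs at this <;> omega
  · simp only [if_neg (show ¬ t + 1 + T ≤ T by omega), Nat.add_sub_cancel]
  · ext v
    simp only [mem_pv]
    constructor
    · rintro ⟨i, hi, rfl⟩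
      exact ⟨_, by split_ifs <;> omega, rfl⟩
    · rintro ⟨i, hi, rfl⟩
      by_cases h1 : t < i
      · exact ⟨i - (t + 1), by omega, by congr 1; split_ifs <;> omega⟩
      · exact ⟨T - t + i, by omega, by congr 1; split_ifs <;> omega⟩

lemma Main_comp_EE (hk : 1 ≤ k) (hG : NB G (2 * k)) (hX : Main_XQ G k q) (hψ : Main_Psi G k c)
    (hz : IsP G z T) (hc : G.Adj (z T) (z 0)) {D : Finset V} (hD : IsComp G (univ \ pv z T) D) :
    EE G D (pv z T) ≤ Main_E (2 * k) (2 * k * (2 * k) + (q + c)) (2 * k * (2 * k) + (q + c)) := by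
  by_cases h0 : ∃ u ∈ D, ∃ w ∈ pv z T, G.Adj u w
  swap
  · push Not at h0
    rw [EE_eq_zero h0]
    exact Nat.zero_le _
  obtain ⟨u, hu, w, hw, e⟩ := h0
  obtain ⟨t, ht, rfl⟩ := mem_pv.1 hw
  obtain ⟨y, hy, y1, y2⟩ := Main_rot hz hc ht
  rw [← y2] at hD ⊢
  refine Main_dfs (G := G) (fun u => deg G (pv y T) u) (2 * k) _ T y (fun u hu => ?_) ?_ D _ y T ∅
    hy le_rfl (fun _ _ => rfl) (fun _ h => by simp at h) (by simp) hD ⟨u, hu, y1 ▸ e⟩ (by omega)
  · rw [← hy.card_np]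
    exact hG.card_np_le (by omega) hy fun i hi e => hu (mem_pv.2 ⟨i, hi, e⟩)
  intro p T' S hp hT hag hS
  refine Nat.add_le_add ?_ (Main_cross hX hψ hp T S fun D hD => ?_)
  · have := Main_cut_edges (show 0 < 2 * k by omega) hG hp T
      ((Ioc T T').sigma fun i => np G y T (p i)) (fun x => x.2) (fun x => x.1)
      (fun x hx => by
        obtain ⟨a1, a2⟩ := mem_sigma.1 hx
        rw [mem_np] at a2
        exact ⟨a2.1, (mem_Ioc.1 a1).1, (mem_Ioc.1 a1).2, by rw [hag _ a2.1]; exact a2.2.symm⟩)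
      (fun x _ y _ e1 e2 => Sigma.ext e2 (heq_of_eq e1))
    rw [card_sigma] at this
    simpa only [hy.card_np] using this
  · obtain ⟨a1, a2, i, a3, a4, a5⟩ := hS D hD
    obtain ⟨v, hv, a6⟩ := exists_ne_zero_of_sum_ne_zero a2.ne'
    obtain ⟨w, hw, a7⟩ := exists_adj_of_deg_pos (Nat.pos_of_ne_zero a6)
    obtain ⟨j, hj, rfl⟩ := mem_pv.1 hw
    exact ⟨a1, ⟨j, hj, hj.trans hT, v, hv, by rwa [hag j hj]⟩, i, a4, a3, a5⟩

/-- the bound on the length of cycles -/
def Main_B (k q c : ℕ) : ℕ :=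
  k + 2 * ((k + 1) * (2 * (2 * k * (2 * k)))) +
    2 * ((2 * q + 4) * Main_E (2 * k) (2 * k * (2 * k) + (q + c)) (2 * k * (2 * k) + (q + c))) + c

lemma Main_cycle_le (hk : 3 ≤ k) (hG : NB G (2 * k)) (hX : Main_XQ G k q) (hN : N3D G k)
    (hψ : Main_Psi G k c) (hz : IsP G z T) (hc : G.Adj (z T) (z 0)) : T + 1 ≤ Main_B k q c := by
  classical
  set Z := pv z T with hZ
  set St := (comps G (univ \ Z)).filter fun D => 2 * k * D.card < inc2 G D Z with hSt
  set Ns := (comps G (univ \ Z)).filter fun D => ¬ 2 * k * D.card < inc2 G D Z with hNs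
  have cS : ∀ D ∈ St, IsComp G (univ \ Z) D := fun D hD => mem_comps.1 (mem_filter.1 hD).1
  have cN : ∀ D ∈ Ns, IsComp G (univ \ Z) D := fun D hD => mem_comps.1 (mem_filter.1 hD).1
  have dN : Disjoint (Ns.biUnion id) Z := (disjoint_biUnion_left _ _ _).2 fun D hD =>
    Main_disj (cN D hD)
  have a1 := hψ (Ns.biUnion id ∪ Z)
  have a2 : EE G (Ns.biUnion id) (univ \ (Ns.biUnion id ∪ Z)) = 0 := EE_eq_zero fun u hu w hw e => by
    obtain ⟨D, hD, hu⟩ := mem_biUnion.1 hu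
    refine (mem_sdiff.1 hw).2 ?_
    rcases Main_out (cN D hD) hu e with h | h
    · exact mem_union_left _ (mem_biUnion.2 ⟨D, hD, h⟩)
    · exact mem_union_right _ h
  have a3 : EE G Z (univ \ (Ns.biUnion id ∪ Z)) ≤ EE G Z (St.biUnion id) := by
    refine EE_mono Subset.rfl fun w hw => ?_
    have h1 := (mem_sdiff.1 hw).2
    rw [mem_union, not_or] at h1
    obtain ⟨D, hD, hwD⟩ := exists_comp (G := G) (univ \ Z) (mem_sdiff.2 ⟨mem_univ w, h1.2⟩)
    refine mem_biUnion.2 ⟨D, mem_filter.2 ⟨mem_comps.2 hD, ?_⟩, hwD⟩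
    by_contra h2
    exact h1.1 (mem_biUnion.2 ⟨D, mem_filter.2 ⟨mem_comps.2 hD, h2⟩, hwD⟩)
  have a4 : EE G (St.biUnion id) Z = ∑ D ∈ St, EE G D Z := sum_biUnion_comps _ St cS
  have a5 := sum_le_card_nsmul St (fun D => EE G D Z) _ fun D hD =>
    Main_comp_EE (by omega) hG hX hψ hz hc (cS D hD)
  have a6 := Nat.mul_le_mul_right (Main_E (2 * k) (2 * k * (2 * k) + (q + c))
    (2 * k * (2 * k) + (q + c))) (Main_strict_card hk hG hX hN hz hc St
      fun D hD => ⟨cS D hD, (mem_filter.1 hD).2⟩)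
  have a7 : inc2 G (Ns.biUnion id) Z ≤ 2 * k * (Ns.biUnion id).card := by
    rw [inc2_biUnion Z Ns cN, card_biUnion_comps Ns cN, mul_sum]
    exact sum_le_sum fun D hD => not_lt.1 (mem_filter.1 hD).2
  have a8 := Main_EE_le (by omega) hG hz hc
  rw [inc2, EE_union_left dN, a2, EE_self_union dN, card_union_of_disjoint dN, hz.card_pv,
    Nat.mul_add] at a1
  rw [EE_comm Z (St.biUnion id)] at a3
  rw [smul_eq_mul] at a5
  rw [← hZ] at a8
  unfold Main_B
  omega

end Pool.Agent.Work.MP_66aaa3_co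
end

-- merged part: Pool.Agent.Work.MP_66aaa3_co.Main
section
namespace Pool.Agent.Work.MP_66aaa3_co

open Finset

theorem mainL (k M c : ℕ) (hk : 3 ≤ k) : ∃ N : ℕ, ∀ (V : Type) [Fintype V] [DecidableEq V]
    (G : SimpleGraph V), NB G (2 * k) → N3D G k → ¬ KM G k M →
    (∀ C : Finset V, 2 * k * C.card ≤ inc2 G C (univ \ C) + c) → Fintype.card V ≤ N := by
  obtain ⟨q, hq⟩ := lemmaX k M hk
  refine ⟨_, fun V _ _ G hG hN hK hψ => Main_short (hq V G hG hN hK) hN hψ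
    (h := (3 * (2 * k + c + 1) + 3) * ((Main_B k q c + 1) * (Main_B k q c + 1) + 1))
    fun p T hp => ?_⟩
  by_contra hT
  obtain ⟨z, r, h1, h2, h3⟩ := Main_long_cycle hN hψ hp (T1 := Main_B k q c + 1) (by omega)
    (not_le.1 hT).le
  have := Main_cycle_le hk hG (hq V G hG hN hK) hN hψ h1 h2
  omega

section transfer

variable {V W : Type} {G : SimpleGraph V} (f : W ↪ V) {k M : ℕ}

lemma Main_NB_comap {m : ℕ} (h : NB G m) : NB (G.comap f) m :=
  fun p n hp h2 ha => h (fun i => f (p i)) n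
    ⟨hp.1, fun i hi j hj e => hp.2 i hi j hj (f.injective e)⟩ h2 ha

lemma Main_deg_comap (S : Finset W) (v : W) : deg (G.comap f) S v = deg G (S.map f) (f v) := by
  rw [deg, deg, ← card_map f]
  congr 1
  ext w
  simp only [mem_map, mem_nb, SimpleGraph.comap_adj]
  constructor
  · rintro ⟨a, ⟨h1, h2⟩, rfl⟩
    exact ⟨⟨a, h1, rfl⟩, h2⟩
  · rintro ⟨⟨a, h1, rfl⟩, h2⟩
    exact ⟨a, ⟨h1, h2⟩, rfl⟩

lemma Main_EE_comap (S T : Finset W) : EE (G.comap f) S T = EE G (S.map f) (T.map f) := by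
  simp only [EE, sum_map, Main_deg_comap]

lemma Main_N3D_comap (h : N3D G k) : N3D (G.comap f) k := by
  intro Y₁ Y₂ Y₃ z d1 d2 d3 a1 a2 a3
  have hd : ∀ Y, Dense (G.comap f) k Y → Dense G k (Y.map f) := fun Y hY => by
    unfold Dense at hY ⊢
    rwa [card_map, ← Main_EE_comap]
  have hm : ∀ Y Y' : Finset W, (∀ v ∈ Y, v ∈ Y' → v = z) →
      ∀ v ∈ Y.map f, v ∈ Y'.map f → v = f z := fun Y Y' hY v hv hv' => by
    obtain ⟨a, ha, rfl⟩ := mem_map.1 hv
    rw [hY a ha ((mem_map' f).1 hv')]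
  exact h _ _ _ (f z) (hd _ d1) (hd _ d2) (hd _ d3) (hm _ _ a1) (hm _ _ a2) (hm _ _ a3)

lemma Main_KM_comap (h : KM (G.comap f) k M) : KM G k M := by
  obtain ⟨A, I, h1, h2, h3, h4⟩ := h
  refine ⟨A.map f, I.map f, by rwa [card_map], by rwa [card_map], (disjoint_map f).2 h3, ?_⟩
  intro a ha i hi
  obtain ⟨a', ha', rfl⟩ := mem_map.1 ha
  obtain ⟨i', hi', rfl⟩ := mem_map.1 hi
  exact h4 a' ha' i' hi'

end transfer

theorem exists_KM (k M c : ℕ) (hk : 3 ≤ k) : ∃ N : ℕ, ∀ (V : Type) [Fintype V] [DecidableEq V]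
    (G : SimpleGraph V), NB G (2 * k) → N3D G k → N ≤ Fintype.card V →
    2 * k * Fintype.card V ≤ EE G univ univ + c → KM G k M := by
  obtain ⟨N0, h0⟩ := mainL k M 0 hk
  obtain ⟨N1, h1⟩ := mainL k M (c + N0 * N0) hk
  refine ⟨N1 + 1, fun V _ _ G hG hN hV hE => ?_⟩
  by_contra hK
  obtain ⟨X, -, hX⟩ := exists_max_image (univ : Finset (Finset V))
    (fun X => (EE G X X : ℤ) - (2 * k * X.card : ℕ)) univ_nonempty
  have hX' : ∀ Y : Finset V, EE G Y Y + 2 * k * X.card ≤ EE G X X + 2 * k * Y.card := fun Y => by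
    have := hX Y (mem_univ _)
    omega
  let f : {v // v ∈ X} ↪ V := Function.Embedding.subtype _
  have hf : (univ : Finset {v // v ∈ X}).map f = X := by
    ext v; simp [f]
  have a1 := h0 {v // v ∈ X} (G.comap f) (Main_NB_comap f hG) (Main_N3D_comap f hN)
    (fun h => hK (Main_KM_comap f h)) fun C => by
      have b1 : C.map f ⊆ X := (map_subset_map.2 (subset_univ _)).trans hf.subset
      have b2 := hX' (X \ C.map f)
      have b3 := EE_self_sdiff (G := G) b1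
      have b4 := congrArg (2 * k * ·) (card_sdiff_add_card_eq_card b1)
      simp only [Nat.mul_add, card_map] at b4
      rw [inc2, Main_EE_comap, Main_EE_comap, Finset.map_sdiff, hf]
      rw [inc2] at b3
      omega
  rw [Fintype.card_coe] at a1
  have a2 : EE G X X ≤ N0 * N0 := (EE_le_sq X X).trans (Nat.mul_le_mul a1 a1)
  have a3 := h1 V G hG hN hK fun C => by
    have b2 := hX' (univ \ C)
    have b3 := EE_self_sdiff (G := G) (subset_univ C)
    have b4 := congrArg (2 * k * ·) (card_sdiff_add_card_eq_card (subset_univ C))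
    simp only [Nat.mul_add, card_univ] at b4
    omega
  omega

end Pool.Agent.Work.MP_66aaa3_co
end

-- merged part: Pool.Agent.Work.MP_66aaa3_co.R3F
section
/-! The case of no further vertex off the path. -/

namespace Pool.Agent.Work.MP_66aaa3_co.R3

open Finset

variable {V : Type} [DecidableEq V] {G : SimpleGraph V} {U Z : Finset V} {α β : ℕ} {p : ℕ → V}
  {T : ℕ} {v : V} {q : R4} {i j j' : ℕ}

/-- a chord -/
def Ch (G : SimpleGraph V) (p : ℕ → V) (T i j : ℕ) : Prop :=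
  j ≤ T ∧ (j + 2 ≤ i ∨ i + 2 ≤ j) ∧ G.Adj (p i) (p j)

/-- the hypotheses of the last case -/
structure Em (G : SimpleGraph V) (U Z : Finset V) (p : ℕ → V) (T : ℕ) (v : V) (q : R4) :
    Prop where
  only : ∀ i ≤ T, G.Adj v (p i) → i = q.a ∨ i = q.b ∨ i = q.c ∨ i = q.d
  hZ : Z.card ≤ 1
  sup : Sup G 3 U ({p 0, p T} ∪ Z)
  dS : Disjoint U ({p 0, p T} ∪ Z)
  cov : ∀ w ∈ U ∪ ({p 0, p T} ∪ Z), w = v ∨ w ∈ Z ∨ ∃ j ≤ T, p j = w
  vn : ∀ w ∈ U ∪ ({p 0, p T} ∪ Z), G.Adj v w → ∃ j ≤ T, p j = w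

lemma Em.nbr (M : Em G U Z p T v q) {w : V} (hw : w ∈ U ∪ ({p 0, p T} ∪ Z)) (a : G.Adj (p i) w) :
    w = p (i - 1) ∨ w = p (i + 1) ∨ w = v ∨ w ∈ Z ∨ ∃ j, Ch G p T i j ∧ w = p j := by
  rcases M.cov w hw with e | e | ⟨j, hj, rfl⟩
  · simp [e]
  · simp [e]
  have : i ≠ j := fun e => a.ne (by rw [e])
  by_cases h1 : j = i - 1
  · simp [h1]
  by_cases h2 : j = i + 1
  · simp [h2]
  exact Or.inr (Or.inr (Or.inr (Or.inr ⟨j, ⟨hj, by omega, a⟩, rfl⟩)))

lemma Em.count (M : Em G U Z p T v q) {C : Finset V} (hC : C ⊆ U) (hne : C.Nonempty)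
    (h : ∀ u ∈ C, ∃ A B : Finset V, 2 * A.card + B.card ≤ 6 ∧ B ⊆ C ∧
      ∀ w ∈ U ∪ ({p 0, p T} ∪ Z), G.Adj u w → w ∈ A ∨ w ∈ B) : False := by
  have h1 := M.sup C hC hne
  have hd : Disjoint ({p 0, p T} ∪ Z ∪ (U \ C)) C :=
    disjoint_union_left.2 ⟨(M.dS.mono_left hC).symm, sdiff_disjoint⟩
  have hs : {p 0, p T} ∪ Z ∪ (U \ C) ∪ C ⊆ U ∪ ({p 0, p T} ∪ Z) :=
    union_subset (union_subset subset_union_right (sdiff_subset.trans subset_union_left))
      (hC.trans subset_union_left)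
  have h2 : ∑ u ∈ C, (2 * deg G ({p 0, p T} ∪ Z ∪ (U \ C)) u + deg G C u) ≤ C.card • 6 := by
    refine sum_le_card_nsmul _ _ _ fun u hu => ?_
    obtain ⟨A, B, e1, e2, e3⟩ := h u hu
    have e4 : deg G ({p 0, p T} ∪ Z ∪ (U \ C)) u ≤ A.card := deg_le_card' fun w hw a =>
      (e3 w (hs (mem_union_left _ hw)) a).resolve_right fun e => disjoint_left.1 hd hw (e2 e)
    have e5 : deg G ({p 0, p T} ∪ Z ∪ (U \ C) ∪ C) u ≤ (A ∪ B).card := deg_le_card' fun w hw a =>
      mem_union.2 (e3 w (hs hw) a)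
    have e6 := card_union_le A B
    rw [deg_union hd] at e5
    omega
  rw [sum_add_distrib, ← mul_sum, smul_eq_mul] at h2
  unfold inc2 EE at h1
  omega

namespace Hy

lemma inner (H : Hy G U Z α β p T v) (h0 : 0 < i) (hi : i < T) : p i ∈ U := by
  rcases H.mem hi.le with e | e | e
  exacts [e, by omega, by omega]

lemma ch_of (H : Hy G U Z α β p T v) (N : Nb4 G p T v q) (hi : i ≤ T) (h : Ch G p T i j) :
    ch (rs 0 q) (sl q i) ((0 + i) % 6) (sl q j) ((0 + j) % 6) := by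
  obtain ⟨hj, h1, a⟩ := h
  have e : Ear G U p T v i j 1 :=
    ⟨_, _, Pa.chord hi hj a, by simp, by simp, by unfold Nat.dist; omega, rfl⟩
  refine ⟨N.cons_of 0 j, ?_⟩
  rcases h1 with h1 | h1
  · exact Or.inr ⟨N.ord_of (by omega), H.feas_of N 0 (by omega) hi e.symm⟩
  · exact Or.inl ⟨N.ord_of (by omega), H.feas_of N 0 (by omega) hj e⟩

lemma hz_of (H : Hy G U Z α β p T v) (N : Nb4 G p T v q) (h0 : 0 < i) (hi : i < T) {z : V}
    (hz : z ∈ Z) (a : G.Adj (p i) z) : hang (rs 0 q) (sl q i) ((0 + i) % 6) 1 := by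
  refine H.hang_of N h0 hi ⟨z, hz, {z}, 1, ⟨PathIn.single a (by simp) (by simp),
    by simpa using hi.le, by simpa using H.zP z hz⟩, by simp, fun e => ?_, rfl⟩
  exact disjoint_left.1 H.zU H.vU (e ▸ hz)

lemma ch_ne (H : Hy G U Z α β p T v) (hi : i ≤ T) (h : Ch G p T i j) (h' : Ch G p T i j')
    (hne : j ≠ j') (hs : (j < i ∧ j' < i) ∨ (i < j ∧ i < j')) : j % 6 ≠ j' % 6 := by
  have := ((Pa.chord h.1 hi h.2.2.symm).trans H.hp (Pa.chord hi h'.1 h'.2.2) ?_ ?_).cyc H.nb H.hp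
    (Pa.seg H.hp h'.1 h.1) ?_ ?_ (H.hp.ne h.1 h'.1 hne) (by unfold Nat.dist; omega)
  · unfold Nat.dist at this; omega
  all_goals first
    | (simp only [Set.mem_union, Set.mem_uIcc, Set.mem_insert_iff, Set.mem_singleton_iff]; omega)
    | simp

lemma ex_of (H : Hy G U Z α β p T v) (N : Nb4 G p T v q) (M : Em G U Z p T v q) (h0 : 0 < i)
    (hi : i < T) : ex (rs 0 q) (sl q i) ((0 + i) % 6) := by
  by_contra hc
  have h1 := M.sup.dg _ (H.inner h0 hi)
  have h2 : deg G (U ∪ ({p 0, p T} ∪ Z)) (p i) ≤ ({p (i - 1), p (i + 1), v} : Finset V).card :=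
    deg_le_card' fun w hw a => by
      rcases M.nbr hw a with e | e | e | e | ⟨j, hj, e⟩
      · simp [e]
      · simp [e]
      · simp [e]
      · exact absurd (Or.inl (H.hz_of N h0 hi e a)) hc
      · exact absurd (Or.inr ⟨_, (N.sl_spec j).1, _, m6 _, H.ch_of N hi.le hj⟩) hc
  have h3 := card_le_three (a := p (i - 1)) (b := p (i + 1)) (c := v)
  omega

lemma two_of (H : Hy G U Z α β p T v) (N : Nb4 G p T v q) (M : Em G U Z p T v q) (h0 : 0 < i)
    (hi : i < T) (hv : ¬ G.Adj v (p i)) : two (rs 0 q) (sl q i) ((0 + i) % 6) := by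
  by_contra hc
  have h1 := M.sup.dg _ (H.inner h0 hi)
  by_cases h : ∃ j, Ch G p T i j
  · obtain ⟨j, hj⟩ := h
    have h2 : deg G (U ∪ ({p 0, p T} ∪ Z)) (p i) ≤ ({p (i - 1), p (i + 1), p j} : Finset V).card :=
      deg_le_card' fun w hw a => by
        rcases M.nbr hw a with e | e | e | e | ⟨j', hj', e⟩
        · simp [e]
        · simp [e]
        · exact absurd (e ▸ a.symm) hv
        · exact absurd ⟨_, (N.sl_spec j).1, _, m6 _, H.ch_of N hi.le hj,
            Or.inl (H.hz_of N h0 hi e a)⟩ hc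
        by_cases e' : j = j'
        · simp [e, e']
        refine absurd ?_ hc
        by_cases e1 : sl q j = sl q i
        · exact ⟨_, (N.sl_spec j).1, _, m6 _, H.ch_of N hi.le hj, Or.inr (Or.inl e1)⟩
        refine ⟨_, (N.sl_spec j).1, _, m6 _, H.ch_of N hi.le hj, Or.inr (Or.inr
          ⟨_, (N.sl_spec j').1, _, m6 _, H.ch_of N hi.le hj', ?_⟩)⟩
        by_contra h3
        have o1 := fun h => N.ord_of (i := j) (j := i) h
        have o2 := fun h => N.ord_of (i := i) (j := j) h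
        have o3 := fun h => N.ord_of (i := j') (j := i) h
        have o4 := fun h => N.ord_of (i := i) (j := j') h
        have o5 := hj.2.1
        have o6 := hj'.2.1
        unfold ord at o1 o2 o3 o4
        exact H.ch_ne hi.le hj hj' e' (by omega) (by omega)
    have h3 := card_le_three (a := p (i - 1)) (b := p (i + 1)) (c := p j)
    omega
  · have h2 : deg G (U ∪ ({p 0, p T} ∪ Z)) (p i) ≤ ({p (i - 1), p (i + 1)} ∪ Z : Finset V).card :=
      deg_le_card' fun w hw a => by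
        rcases M.nbr hw a with e | e | e | e | ⟨j', hj', e⟩
        · simp [e]
        · simp [e]
        · exact absurd (e ▸ a.symm) hv
        · simp [e]
        · exact absurd ⟨j', hj'⟩ h
    have h3 := card_le_two (a := p (i - 1)) (b := p (i + 1))
    have h4 := card_union_le ({p (i - 1), p (i + 1)} : Finset V) Z
    have := M.hZ
    omega

omit [DecidableEq V] in
lemma _root_.Pool.Agent.Work.MP_66aaa3_co.R3.Nb4.sl_b (N : Nb4 G p T v q) :
    sl q q.b = 3 ∧ sl q q.c = 5 := by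
  have := N.sl_spec q.b; have := N.sl_spec q.c; omega

lemma gaps (H : Hy G U Z α β p T v) (N : Nb4 G p T v q) (M : Em G U Z p T v q) :
    q.c = q.b + 1 ∧ ((q.b = q.a + 1 ∧ q.d = q.c + 1) ∨ (q.b = q.a + 2 ∧ q.d = q.c + 2)) := by
  have l1 := N.l1; have l2 := N.l2; have l3 := N.l3; have l4 := N.l4
  have h1 := H.ex_of N M (i := q.b) (by omega) (by omega)
  have h2 := H.ex_of N M (i := q.c) (by omega) (by omega)
  rw [N.sl_b.1] at h1
  rw [N.sl_b.2] at h2
  have h3 := GA.app (H.pat2 N 0) h1 h2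
  have gap : ∀ i, q.a < i → i < q.d → i ≠ q.b → i ≠ q.c → q.b % 6 = (q.a + 2) % 6 ∧
      ((i < q.b ∧ i % 6 = (q.a + 1) % 6) ∨ (q.c < i ∧ i % 6 = (q.c + 1) % 6)) := by
    intro i e1 e2 e3 e4
    obtain ⟨b9, -, b1, b2, b3, b4, b5, b6, -⟩ := N.sl_spec i
    have := GB.app (H.pat2 N 0) h3 _ b9 (by omega) _ (m6 _) (H.two_of N M (by omega) (by omega)
      fun a => by have := M.only i (by omega) a; omega)
    simp only [ty2, rs] at this
    omega
  have g1 := gap (q.a + 1)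
  have g2 := gap (q.a + 2)
  have g3 := gap (q.b + 1)
  have g4 := gap (q.c + 1)
  have g5 := gap (q.c + 2)
  simp only [ty1, ty2, rs] at h3
  refine ⟨by clear g1 g2 g4 g5 h3; omega, h3.imp (fun h => ⟨?_, ?_⟩) fun h => ⟨?_, ?_⟩⟩
  · clear g2 g3 g4 g5 h3; omega
  · clear g1 g2 g3 g5 h3; omega
  · clear g1 g3 g4 g5 h3; omega
  · clear g1 g2 g3 g4 h3; omega

lemma case1 (H : Hy G U Z α β p T v) (N : Nb4 G p T v q) (M : Em G U Z p T v q)
    (e1 : q.b = q.a + 1) (e2 : q.c = q.a + 2) (e3 : q.d = q.a + 3) : False := by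
  have l4 := N.l4
  have hN := H.hN N
  obtain ⟨z1, z2, h⟩ := GD.app (H.pat2 N 0) (by simp only [ty1, rs]; omega)
  have skip : ∀ {i j j'}, i ≤ T → Ch G p T i j → Ch G p T i j' → j < i → i < j' →
      (j' - j) % 6 ≠ 4 := fun {i j j'} hi c c' o o' => by
    have := H.full ((((Pa.seg H.hp (Nat.zero_le _) c.1).trans H.hp (Pa.chord c.1 hi c.2.2.symm)
      ?_ ?_).trans H.hp (Pa.chord hi c'.1 c'.2.2) ?_ ?_).trans H.hp (Pa.seg H.hp c'.1 le_rfl)
      ?_ ?_) (by simp)
    · have := c'.1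
      unfold ok Nat.dist at *; omega
    all_goals first
      | (simp only [Set.mem_union, Set.mem_uIcc, Set.mem_insert_iff, Set.mem_singleton_iff]
         have := c'.1; omega)
      | simp
  have c1 : ∀ j, Ch G p T q.b j → j = q.d ∨ (j < q.a ∧ j % 6 = (q.a + 5) % 6) := fun j hj => by
    have h1 := H.ch_of N (by omega) hj
    rw [N.sl_b.1] at h1
    have := (h _ (N.sl_spec j).1 _ (m6 _)).1 h1
    obtain ⟨-, b0, -, -, -, -, -, b6, b7⟩ := N.sl_spec j
    simp only [rs] at this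
    omega
  have c2 : ∀ j, Ch G p T q.c j → j = q.a ∨ (q.d < j ∧ j % 6 = (q.a + 4) % 6) := fun j hj => by
    have h1 := H.ch_of N (by omega) hj
    rw [N.sl_b.2] at h1
    have := (h _ (N.sl_spec j).1 _ (m6 _)).2 h1
    obtain ⟨-, b0, b1, -, -, -, -, -, b7⟩ := N.sl_spec j
    simp only [rs] at this
    omega
  have uniq : ∀ i, (∀ j j', Ch G p T i j → Ch G p T i j' → j = j') →
      ∃ j0, ∀ j, Ch G p T i j → j = j0 := fun i h => by
    by_cases h' : ∃ j, Ch G p T i j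
    · obtain ⟨j0, h0⟩ := h'
      exact ⟨j0, fun j hj => h j j0 hj h0⟩
    · exact ⟨0, fun j hj => absurd ⟨j, hj⟩ h'⟩
  obtain ⟨j1, u1⟩ := uniq q.b fun j j' hj hj' => by
    by_contra hne
    have a1 := c1 j hj
    have a2 := c1 j' hj'
    have a3 := H.ch_ne (by omega) hj hj' hne
    have a4 := skip (by omega) hj hj'
    have a5 := skip (by omega) hj' hj
    clear * - a1 a2 a3 a4 a5 hne e1 e3
    rcases a1 with a1 | a1 <;> rcases a2 with a2 | a2
    · exact hne (a1.trans a2.symm)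
    · exact a5 (by omega) (by omega) (by clear a3 a4 a5; omega)
    · exact a4 (by omega) (by omega) (by clear a3 a4 a5; omega)
    · exact a3 (Or.inl ⟨by omega, by omega⟩) (a1.2.trans a2.2.symm)
  obtain ⟨j2, u2⟩ := uniq q.c fun j j' hj hj' => by
    by_contra hne
    have a1 := c2 j hj
    have a2 := c2 j' hj'
    have a3 := H.ch_ne (by omega) hj hj' hne
    have a4 := skip (by omega) hj hj'
    have a5 := skip (by omega) hj' hj
    clear * - a1 a2 a3 a4 a5 hne e2 e3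
    rcases a1 with a1 | a1 <;> rcases a2 with a2 | a2
    · exact hne (a1.trans a2.symm)
    · exact a4 (by omega) (by omega) (by clear a3 a4 a5; omega)
    · exact a5 (by omega) (by omega) (by clear a3 a4 a5; omega)
    · exact a3 (Or.inr ⟨by omega, by omega⟩) (a1.2.trans a2.2.symm)
  refine M.count (C := {p q.b, p q.c, v}) ?_ (by simp) ?_
  · simp only [insert_subset_iff, singleton_subset_iff]
    exact ⟨H.inner (by omega) (by omega), H.inner (by omega) (by omega), H.vU⟩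
  simp only [mem_insert, mem_singleton]
  rintro u (rfl | rfl | rfl)
  · refine ⟨{p (q.b - 1), p j1}, {p q.c, v}, by
      have := card_le_two (a := p (q.b - 1)) (b := p j1)
      have := card_le_two (a := p q.c) (b := v); omega, by simp, fun w hw a => ?_⟩
    rcases M.nbr hw a with e | e | e | e | ⟨j, hj, e⟩
    · simp [e]
    · simp [e, show q.b + 1 = q.c by omega]
    · simp [e]
    · exact absurd (N.sl_b.1 ▸ H.hz_of N (by omega) (by omega) e a) z1
    · simp [e, u1 j hj]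
  · refine ⟨{p (q.c + 1), p j2}, {p q.b, v}, by
      have := card_le_two (a := p (q.c + 1)) (b := p j2)
      have := card_le_two (a := p q.b) (b := v); omega, by simp [insert_subset_iff],
      fun w hw a => ?_⟩
    rcases M.nbr hw a with e | e | e | e | ⟨j, hj, e⟩
    · simp [e, show q.c - 1 = q.b by omega]
    · simp [e]
    · simp [e]
    · exact absurd (N.sl_b.2 ▸ H.hz_of N (by omega) (by omega) e a) z2
    · simp [e, u2 j hj]
  · refine ⟨{p q.a, p q.d}, {p q.b, p q.c}, by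
      have := card_le_two (a := p q.a) (b := p q.d)
      have := card_le_two (a := p q.b) (b := p q.c); omega, by simp [insert_subset_iff],
      fun w hw a => ?_⟩
    obtain ⟨j, hj, rfl⟩ := M.vn w hw a
    rcases M.only j hj a with rfl | rfl | rfl | rfl <;> simp

lemma case2 (H : Hy G U Z α β p T v) (N : Nb4 G p T v q) (M : Em G U Z p T v q)
    (e1 : q.b = q.a + 2) (e2 : q.c = q.a + 3) (e3 : q.d = q.a + 5) : False := by
  have l4 := N.l4
  have hZ := M.hZ
  obtain ⟨z1, z2, h⟩ := GE.app (H.pat2 N 0) (by simp only [ty2, rs]; omega)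
    (by simp only [rs]; omega)
  have s1 : sl q (q.a + 1) = 2 := by have := N.sl_spec (q.a + 1); omega
  have s4 : sl q (q.a + 4) = 6 := by have := N.sl_spec (q.a + 4); omega
  have r1 : ((rs 0 q).a + 1) % 6 = (0 + (q.a + 1)) % 6 := by simp only [rs]; omega
  have r4 : ((rs 0 q).a + 4) % 6 = (0 + (q.a + 4)) % 6 := by simp only [rs]; omega
  rw [r1] at z1 h
  rw [r4] at z2 h
  have k2 : 2 * ({p q.a, p q.d} : Finset V).card + ({p q.b, p q.c} : Finset V).card ≤ 6 := by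
    have := card_le_two (a := p q.a) (b := p q.d)
    have := card_le_two (a := p q.b) (b := p q.c); omega
  refine M.count (C := {p (q.a + 1), p q.b, p q.c, p (q.a + 4), v}) ?_ (by simp) ?_
  · simp only [insert_subset_iff, singleton_subset_iff]
    exact ⟨H.inner (by omega) (by omega), H.inner (by omega) (by omega),
      H.inner (by omega) (by omega), H.inner (by omega) (by omega), H.vU⟩
  simp only [mem_insert, mem_singleton]
  rintro u (rfl | rfl | rfl | rfl | rfl)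
  · refine ⟨_, _, k2, by simp [insert_subset_iff], fun w hw a => ?_⟩
    rcases M.nbr hw a with e | e | e | e | ⟨j, hj, e⟩
    · simp [e]
    · simp [e, e1]
    · have := M.only (q.a + 1) (by omega) (e ▸ a.symm); omega
    · exact absurd (s1 ▸ H.hz_of N (by omega) (by omega) e a) z1
    · have := (h _ (N.sl_spec j).1 _ (m6 _)).1 (s1 ▸ H.ch_of N (by omega) hj)
      obtain ⟨-, -, -, -, -, b4, b5, b6, b7⟩ := N.sl_spec j
      rcases (show j = q.c ∨ j = q.d by omega) with rfl | rfl <;> simp [e]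
  · refine ⟨Z, {p (q.a + 1), p q.c, v, p (q.a + 4)}, by
      have := card_le_four (a := p (q.a + 1)) (b := p q.c) (c := v) (d := p (q.a + 4)); omega,
      by simp [insert_subset_iff], fun w hw a => ?_⟩
    rcases M.nbr hw a with e | e | e | e | ⟨j, hj, e⟩
    · simp [e, show q.b - 1 = q.a + 1 by omega]
    · simp [e, show q.b + 1 = q.c by omega]
    · simp [e]
    · simp [e]
    · have := (h _ (N.sl_spec j).1 _ (m6 _)).2.2.1 (N.sl_b.1 ▸ H.ch_of N (by omega) hj)
      obtain ⟨-, -, -, -, -, -, b5, b6, -⟩ := N.sl_spec j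
      have := hj.2.1
      simp [e, show j = q.a + 4 by omega]
  · refine ⟨Z, {p (q.a + 1), p q.b, v, p (q.a + 4)}, by
      have := card_le_four (a := p (q.a + 1)) (b := p q.b) (c := v) (d := p (q.a + 4)); omega,
      by simp [insert_subset_iff], fun w hw a => ?_⟩
    rcases M.nbr hw a with e | e | e | e | ⟨j, hj, e⟩
    · simp [e, show q.c - 1 = q.b by omega]
    · simp [e, show q.c + 1 = q.a + 4 by omega]
    · simp [e]
    · simp [e]
    · have := (h _ (N.sl_spec j).1 _ (m6 _)).2.2.2 (N.sl_b.2 ▸ H.ch_of N (by omega) hj)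
      obtain ⟨-, -, b1, b2, -⟩ := N.sl_spec j
      simp [e, show j = q.a + 1 by omega]
  · refine ⟨_, _, k2, by simp [insert_subset_iff], fun w hw a => ?_⟩
    rcases M.nbr hw a with e | e | e | e | ⟨j, hj, e⟩
    · simp [e, e2]
    · simp [e, e3]
    · have := M.only (q.a + 4) (by omega) (e ▸ a.symm); omega
    · exact absurd (s4 ▸ H.hz_of N (by omega) (by omega) e a) z2
    · have := (h _ (N.sl_spec j).1 _ (m6 _)).2.1 (s4 ▸ H.ch_of N (by omega) hj)
      obtain ⟨-, b0, b1, b2, b3, -⟩ := N.sl_spec j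
      rcases (show j = q.a ∨ j = q.b by omega) with rfl | rfl <;> simp [e]
  · refine ⟨_, _, k2, by simp [insert_subset_iff], fun w hw a => ?_⟩
    obtain ⟨j, hj, rfl⟩ := M.vn w hw a
    rcases M.only j hj a with rfl | rfl | rfl | rfl <;> simp

theorem caseE (H : Hy G U Z α β p T v) (N : Nb4 G p T v q) (M : Em G U Z p T v q) : False := by
  obtain ⟨h1, h2 | h2⟩ := H.gaps N M
  · exact H.case1 N M h2.1 (by omega) (by omega)
  · exact H.case2 N M h2.1 (by omega) (by omega)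

end Hy

end Pool.Agent.Work.MP_66aaa3_co.R3
end

-- merged part: Pool.Agent.Work.MP_66aaa3_co.R3
section
namespace Pool.Agent.Work.MP_66aaa3_co

open Finset

variable {V : Type} [DecidableEq V] {G : SimpleGraph V}

theorem r3 (hG : NB G (2 * 3)) {U Z : Finset V} {x y : V} {α β : ℕ} (hxy : x ≠ y) (hx : x ∉ U)
    (hy : y ∉ U) (hUZ : Disjoint U Z) (hxZ : x ∉ Z) (hyZ : y ∉ Z) (hZ : Z.card ≤ 1)
    (hαβ : Z.Nonempty → α = 0 ∧ β = 0)
    (h1 : ∀ n, PathIn G ↑(U ∪ {x, y}) x y n → OK2 3 (α + n + β))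
    (h2 : ∀ z ∈ Z, ∀ n, PathIn G ↑(U ∪ {x, z}) x z n ∨ PathIn G ↑(U ∪ {y, z}) y z n → OK2 3 n)
    (h3 : ∀ z ∈ Z, ∀ n, PathIn G ↑(U ∪ {x, y, z}) x z n ∨ PathIn G ↑(U ∪ {x, y, z}) y z n →
      (n : ZMod (2 * 3)) ≠ 0)
    (h4 : Sup G 3 U ({x, y} ∪ Z)) (h5 : Att2 G U (U ∪ ({x, y} ∪ Z)))
    {p : ℕ → V} {T : ℕ} (hp : IsP G p T) (h0 : p 0 = x) (hT : p T = y)
    (hpU : pv p T ⊆ U ∪ {x, y})
    (h6 : ∀ z ∈ Z, ∀ s ∈ U, s ∉ pv p T → ¬ (G.Adj s x ∧ G.Adj s y) ∧ ¬ (G.Adj s x ∧ G.Adj s z) ∧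
      ¬ (G.Adj s y ∧ G.Adj s z))
    {v : V} (hv : v ∈ U) (hvp : v ∉ pv p T)
    (hvn : ∀ w ∈ U ∪ ({x, y} ∪ Z), G.Adj v w → w ∈ pv p T) : False := by
  subst h0 hT
  have hvP : ∀ i ≤ T, p i ≠ v := fun i hi e => hvp (mem_pv.2 ⟨i, hi, e⟩)
  have H : R3.Hy G U Z α β p T v := ⟨hG, hp, hpU, fun n h => R3.ok_iff.1 (h1 n h),
    fun z hz n h => R3.ok_iff.1 (h2 z hz n h), hαβ, hv, hvP, fun z hz i hi e => by
      have := hpU (mem_pv.2 ⟨i, hi, e⟩)
      simp only [mem_union, mem_insert, mem_singleton] at this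
      rcases this with h | rfl | rfl
      exacts [disjoint_left.1 hUZ h hz, hxZ hz, hyZ hz], hUZ⟩
  obtain ⟨q, N, only⟩ := H.exists_q (by
    rw [hp.card_np]
    exact (h4.dg v hv).trans (deg_le_of hvn))
  have hx' : p 0 ∈ pv p T := mem_pv.2 ⟨0, Nat.zero_le _, rfl⟩
  have hy' : p T ∈ pv p T := mem_pv.2 ⟨T, le_rfl, rfl⟩
  have cov : ∀ w ∈ U ∪ ({p 0, p T} ∪ Z), w = v ∨ w ∈ U \ insert v (pv p T) ∪ (pv p T ∪ Z) := by
    intro w hw
    simp only [mem_union, mem_insert, mem_singleton, mem_sdiff] at hw ⊢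
    clear * - hw hx' hy'
    rcases hw with h | (rfl | rfl) | h <;> tauto
  rcases (U \ insert v (pv p T)).eq_empty_or_nonempty with hC | hC
  · refine H.caseE N ⟨only, hZ, h4, disjoint_union_right.2 ⟨by simp [hx, hy], hUZ⟩, fun w hw => ?_,
      fun w hw a => mem_pv.1 (hvn w hw a)⟩
    have := cov w hw
    rw [hC, empty_union, mem_union, mem_pv] at this
    clear * - this
    tauto
  have hm : ∀ s ∈ U \ insert v (pv p T), s ∈ U ∧ s ∉ pv p T := fun s hs =>
    ⟨(mem_sdiff.1 hs).1, fun e => (mem_sdiff.1 hs).2 (mem_insert_of_mem e)⟩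
  have nv : ∀ s ∈ U \ insert v (pv p T), ¬ G.Adj s v := fun s hs a =>
    (hm s hs).2 (hvn s (mem_union_left _ (hm s hs).1) a.symm)
  refine H.caseC N (C := U \ insert v (pv p T)) ⟨sdiff_subset,
    fun u hu i hi e => (hm u hu).2 (mem_pv.2 ⟨i, hi, e⟩), by simp⟩ hZ
    (fun z hz n h => mt R3.cast_zero.2 (h3 z hz n h))
    (fun z hz s hs => (h6 z hz s (hm s hs).1 (hm s hs).2).2)
    (fun z hz s hs => (h6 z hz s (hm s hs).1 (hm s hs).2).1) hC (fun s hs => ?_)
    fun C' hC' hne z => ?_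
  · exact (h4.dg s (hm s hs).1).trans (deg_le_of fun w hw a =>
      (cov w hw).resolve_left fun e => nv s hs (e ▸ a))
  · obtain ⟨u, hu, w, hw, e1, e2, a⟩ := h5 C' (hC'.trans sdiff_subset) hne z
    exact ⟨u, hu, w, (cov w hw).resolve_left fun e => nv u (hC' hu) (e ▸ a), e1, e2, a⟩

end Pool.Agent.Work.MP_66aaa3_co
end

-- merged part: Pool.Agent.Work.MP_66aaa3_co.ExactA
section
namespace Pool.Agent.Work.MP_66aaa3_co

open Finset

set_option linter.unusedSectionVars false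

variable {V : Type} [DecidableEq V] {G : SimpleGraph V} {k : ℕ}

/-- the hubs `A` and the connectors `I` of a `K_{k,4k}` -/
def Hub (G : SimpleGraph V) (k : ℕ) (A I : Finset V) : Prop :=
  A.card = k ∧ I.card = 4 * k ∧ Disjoint A I ∧ ∀ a ∈ A, ∀ i ∈ I, G.Adj a i

variable {A I : Finset V}

lemma Hub.zig (H : Hub G k A I) {h : V} (hh : h ∈ A) (B : Finset V) : ∀ (J : Finset V) (h' : V),
    h' ∈ A → h ≠ h' → B ⊆ A → h ∉ B → h' ∉ B → J ⊆ I → J.card = B.card + 1 →
    PathIn G ↑(insert h' (insert h (B ∪ J))) h' h (2 * (B.card + 1)) := by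
  have hAI : ∀ a ∈ A, a ∉ I := fun a ha => disjoint_left.1 H.2.2.1 ha
  induction B using Finset.induction_on with
  | empty =>
    intro J h' hh' hne _ _ _ hJ hc
    obtain ⟨c, rfl⟩ := card_eq_one.1 (by simpa using hc)
    have hcI : c ∈ I := hJ (mem_singleton_self c)
    have := (PathIn.single (H.2.2.2 h hh c hcI).symm (S := {c, h}) (by simp) (by simp)).cons
      (H.2.2.2 h' hh' c hcI) (by
        rintro (e | e)
        exacts [hAI h' hh' (e ▸ hcI), hne e.symm])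
    refine this.mono ?_
    rintro v (rfl | rfl | rfl) <;> simp
  | insert b B hb ih =>
    intro J h' hh' hne hB h1 h2 hJ hc
    rw [card_insert_of_notMem hb] at hc ⊢
    obtain ⟨c, hcJ⟩ := card_pos.1 (show 0 < J.card by omega)
    have hcI := hJ hcJ
    have hbA := hB (mem_insert_self _ _)
    simp only [mem_insert, not_or] at h1 h2
    have h3 := ih (J.erase c) b hbA h1.1 ((subset_insert _ _).trans hB) h1.2 hb
      ((erase_subset _ _).trans hJ) (by rw [card_erase_of_mem hcJ]; omega)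
    have h4 : ∀ v, v ∈ (↑(insert b (insert h (B ∪ J.erase c))) : Set V) ↔
        v = b ∨ v = h ∨ v ∈ B ∨ (v ≠ c ∧ v ∈ J) := by simp [and_comm]
    have := (h3.cons (H.2.2.2 b hbA c hcI).symm (by
      rw [h4]
      rintro (e | e | e | e)
      exacts [hAI b hbA (e ▸ hcI), hAI h hh (e ▸ hcI), hAI c (hB (mem_insert_of_mem e)) hcI,
        e.1 rfl])).cons (H.2.2.2 h' hh' c hcI) (by
      rw [Set.mem_insert_iff, h4]
      rintro (e | e | e | e | e)
      exacts [hAI h' hh' (e ▸ hcI), h2.1 e, hne e.symm, h2.2 e, hAI h' hh' (hJ e.2)])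
    refine (show 2 * (B.card + 1 + 1) = 2 * (B.card + 1) + 1 + 1 by omega) ▸ this.mono ?_
    rintro v (rfl | rfl | e)
    · simp
    · simp [hcJ]
    · rcases (h4 v).1 e with e | e | e | e <;> simp [e]

/-- closing a path between two hubs through connectors and unused hubs -/
lemma Hub.hc (H : Hub G k A I) (hG : NB G (2 * k)) {S : Set V} {h h' : V} {n : ℕ} (hh : h ∈ A)
    (hh' : h' ∈ A) (hne : h ≠ h') (hP : PathIn G S h h' n) {B : Finset V} (hB : B ⊆ A)
    (hBS : ∀ b ∈ B, b ∉ S) : ((n + 2 * (B.card + 1) : ℕ) : ZMod (2 * k)) ≠ 2 := by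
  have hn := hP.pos_of_ne hne
  have hk : 0 < k := H.1 ▸ card_pos.2 ⟨h, hh⟩
  have hBk : B.card ≤ k := H.1 ▸ card_le_card hB
  have h0 := hP.left_mem
  have h0' := hP.right_mem
  obtain ⟨p, p1, p2, p3, p4⟩ := hP
  have h1 : (I ∩ pv p n).card ≤ 2 * k := by
    have h2 := hG.card_np_le (by omega) (p1.shift hn) (v := h) (fun i hi => by
      rw [← p2]; exact p1.ne (by omega) (Nat.zero_le _) (by omega))
    rw [(p1.shift hn).card_np] at h2
    refine le_trans (card_le_card fun v hv => ?_) h2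
    obtain ⟨hI, hv⟩ := mem_inter.1 hv
    obtain ⟨i, hi, rfl⟩ := mem_pv.1 hv
    refine mem_nb.2 ⟨(mem_pv_shift hn).2 ⟨i, ?_, hi, rfl⟩, H.2.2.2 h hh _ hI⟩
    by_contra e
    rw [show i = 0 by omega, p2] at hI
    exact disjoint_left.1 H.2.2.1 hh hI
  obtain ⟨J, hJ, hJc⟩ := exists_subset_card_eq (s := I \ pv p n) (n := B.card + 1) (by
    have := card_sdiff_add_card_inter I (pv p n)
    have := H.2.1
    omega)
  have h2 := H.zig hh B J h' hh' hne hB (fun e => hBS h e h0) (fun e => hBS h' e h0')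
    (hJ.trans sdiff_subset) hJc
  refine hG.cyc (S := ↑(pv p n)) ⟨p, p1, p2, p3, fun i hi => mem_pv_self hi⟩ h2 ?_ hne (by omega)
  intro v hv hv'
  simp only [coe_insert, coe_union, Set.mem_insert_iff, Set.mem_union, mem_coe] at hv'
  rcases hv' with e | e | e | e
  · exact Or.inr e
  · exact Or.inl e
  · obtain ⟨i, hi, rfl⟩ := mem_pv.1 hv
    exact absurd (p4 i hi) (hBS _ e)
  · exact absurd hv (mem_sdiff.1 (hJ e)).2

lemma ex_t (hk : 0 < k) {n : ℕ} (hn : n % 2 = 0) :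
    ∃ t < k, ((n + 2 * t : ℕ) : ZMod (2 * k)) = 2 := by
  have h1 := Nat.div_add_mod (n / 2 + k - 1) k
  have h2 := Nat.mod_lt (n / 2 + k - 1) hk
  set q := (n / 2 + k - 1) / k
  set r := (n / 2 + k - 1) % k
  have h3 : ((2 * k : ℕ) : ZMod (2 * k)) = 0 := ZMod.natCast_self _
  rcases Nat.eq_zero_or_pos r with h4 | h4
  · refine ⟨0, hk, ?_⟩
    have : ((n + 2 * k : ℕ) : ZMod (2 * k)) = (2 * k * q + 2 : ℕ) := by
      congr 1; rw [mul_assoc]; omega
    rw [Nat.cast_add, Nat.cast_add, Nat.cast_mul (2 * k), h3] at this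
    simpa using this
  · refine ⟨k - r, by omega, ?_⟩
    rw [show n + 2 * (k - r) = 2 * k * q + 2 by rw [mul_assoc]; omega, Nat.cast_add,
      Nat.cast_mul (2 * k), h3]
    simp

/-- E1: ears between two hubs -/
lemma Hub.e1 (H : Hub G k A I) (hG : NB G (2 * k)) {S : Set V} {h h' : V} {n : ℕ} (hh : h ∈ A)
    (hh' : h' ∈ A) (hne : h ≠ h') (hP : PathIn G S h h' n)
    (hS : ∀ v ∈ S, v ∈ A → v = h ∨ v = h') : OK2 k n := by
  by_cases h1 : n % 2 = 1
  · exact Or.inl h1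
  right
  obtain ⟨t, ht, e⟩ := ex_t (k := k) (H.1 ▸ card_pos.2 ⟨h, hh⟩) (show n % 2 = 0 by omega)
  rcases Nat.eq_zero_or_pos t with rfl | h2
  · simpa using e
  obtain ⟨B, hB, hBc⟩ := exists_subset_card_eq (s := A \ {h, h'}) (n := t - 1) (by
    rw [card_sdiff_of_subset (insert_subset hh (singleton_subset_iff.2 hh')), card_pair hne, H.1]
    omega)
  refine absurd ?_ (H.hc hG hh hh' hne hP (hB.trans sdiff_subset) fun b hb hbS => ?_)
  · rwa [hBc, show t - 1 + 1 = t by omega]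
  · have := mem_sdiff.1 (hB hb)
    exact this.2 (by simpa using hS b hbS this.1)

/-- E2: ears avoiding an edge between two full vertices -/
lemma Hub.e2 (H : Hub G k A I) (hk : 3 ≤ k) (hG : NB G (2 * k)) {s s' : V} (hs : s ∉ A)
    (hs' : s' ∉ A) (hss : G.Adj s s') (fs : ∀ a ∈ A, G.Adj s a) (fs' : ∀ a ∈ A, G.Adj s' a)
    {S : Set V} {h h' : V} {n : ℕ} (hh : h ∈ A)
    (hh' : h' ∈ A) (hne : h ≠ h') (hP : PathIn G S h h' n)
    (hS : ∀ v ∈ S, v ∈ A → v = h ∨ v = h') (h1 : s ∉ S) (h2 : s' ∉ S) :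
    (n : ZMod (2 * k)) = 1 ∨ (n : ZMod (2 * k)) = 2 := by
  rcases H.e1 hG hh hh' hne hP hS with h3 | h3
  swap
  · exact Or.inr h3
  left
  obtain ⟨t, ht, e⟩ := ex_t (k := k) (by omega) (show (n + 3) % 2 = 0 by omega)
  have h4 := (hP.snoc (fs h' hh').symm h1).snoc hss (by
    rintro (e | e)
    exacts [hss.ne e.symm, h2 e])
  rcases Nat.eq_zero_or_pos t with rfl | h5
  · exact absurd e (hG.close h4 (fs' h hh) (by omega))
  by_cases h6 : t = k - 1
  · have h7 : ((2 * k : ℕ) : ZMod (2 * k)) = 0 := ZMod.natCast_self _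
    rw [show n + 3 + 2 * t = n + 1 + 2 * k by omega, Nat.cast_add, h7] at e
    push_cast at e
    linear_combination e
  exfalso
  have h7 : (A \ {h, h'}).card = k - 2 := by
    rw [card_sdiff_of_subset (insert_subset hh (singleton_subset_iff.2 hh')), card_pair hne, H.1]
  have h8 : ∀ b ∈ A \ {h, h'}, b ∉ insert s' (insert s S) := by
    intro b hb
    have := mem_sdiff.1 hb
    rintro (e | e | e)
    exacts [hs' (e ▸ this.1), hs (e ▸ this.1), this.2 (by simpa using hS b e this.1)]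
  obtain ⟨c, hc⟩ := card_pos.1 (show 0 < (A \ {h, h'}).card by omega)
  obtain ⟨B, hB, hBc⟩ := exists_subset_card_eq (s := (A \ {h, h'}).erase c) (n := t - 1) (by
    rw [card_erase_of_mem hc]; omega)
  have hcA := (mem_sdiff.1 hc).1
  refine H.hc hG hh hcA (fun e => (mem_sdiff.1 hc).2 (by simp [e]))
    (h4.snoc (fs' c hcA) (h8 c hc)) (hB.trans ((erase_subset _ _).trans sdiff_subset))
    (fun b hb => ?_) ?_
  · rintro (e | e)
    exacts [ne_of_mem_erase (hB hb) e, h8 b (mem_of_mem_erase (hB hb)) e]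
  · rwa [hBc, show n + 1 + 1 + 1 + 2 * (t - 1 + 1) = n + 3 + 2 * t by omega]

lemma pv_path {p : ℕ → V} {n : ℕ} (h : IsP G p n) : PathIn G ↑(pv p n) (p 0) (p n) n :=
  h.pathIn fun _ hi => mem_pv_self hi

/-- X1: no dense set meets the hubs in at most one vertex -/
lemma Hub.x1 [Fintype V] (H : Hub G k A I) (hk : 3 ≤ k) (h2 : TwoConn G) (hG : NB G (2 * k))
    {Y : Finset V} (hY : Dense G k Y) (hA : ∀ a ∈ Y, ∀ b ∈ Y, a ∈ A → b ∈ A → a = b) : False := by
  obtain ⟨F, hFY, hF⟩ := exists_core (by omega) hY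
  obtain ⟨p, q, n, n', p1, q1, hd, p2, q2, h3⟩ := link h2 (X := F) (Y := A)
    (by have := hF.1; omega) (by rw [H.1]; omega) fun u hu v hv => hA u (hFY hu) v (hFY hv)
  have hx : p 0 ∈ F := (p2 0 (Nat.zero_le _)).1.2 rfl
  have hy : q 0 ∈ F := (q2 0 (Nat.zero_le _)).1.2 rfl
  have hne : ∀ i ≤ n, ∀ j ≤ n', p i ≠ q j := fun i hi j hj e =>
    disjoint_left.1 hd (mem_pv_self hi) (e ▸ mem_pv_self hj)
  have hxy := hne 0 (Nat.zero_le _) 0 (Nat.zero_le _)
  obtain ⟨f1, f2⟩ := hF.pod hx hy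
  have rig : ∀ l, PathIn G ↑F (p 0) (q 0) l → OK2 k (n + l + n') := by
    intro l hl
    have h4 := ((pv_path p1).symm.trans hl (by
      intro v hv hv'
      obtain ⟨i, hi, rfl⟩ := mem_pv.1 hv
      rw [(p2 i hi).1.1 hv'])).trans (pv_path q1) (by
      intro v hv hv'
      obtain ⟨j, hj, rfl⟩ := mem_pv.1 hv'
      rcases hv with e | e
      · exact absurd hv' (disjoint_left.1 hd e)
      · rw [(q2 j hj).1.1 e])
    refine H.e1 hG ((p2 n le_rfl).2.2 rfl) ((q2 n' le_rfl).2.2 rfl) (hne n le_rfl n' le_rfl) h4 ?_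
    rintro v ((e | e) | e) hv
    · obtain ⟨i, hi, rfl⟩ := mem_pv.1 e
      left; rw [(p2 i hi).2.1 hv]
    · have h5 := h3 v e hv
      right; rw [h5, ← (q2 0 (Nat.zero_le _)).2.1 (h5 ▸ hv)]
    · obtain ⟨i, hi, rfl⟩ := mem_pv.1 e
      right; rw [(q2 i hi).2.1 hv]
  have hat : Att2 G (F \ {p 0, q 0}) (F \ {p 0, q 0} ∪ {p 0, q 0}) := by
    rw [f1]; exact hF.att2 hx hy hxy
  rcases (r1_pod hk hG (U := F \ {p 0, q 0}) hxy (by simp) (by simp) f2
    (by rw [f1]; exact hF.dg.mono sdiff_subset fun _ _ _ hw _ => hw) hat).2 with h4 | h4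
  · rw [f1] at h4
    exact h4.not_rigid (c := n + n') fun l hl => by
      rw [show n + n' + l = n + l + n' by omega]; exact rig l hl
  · obtain ⟨rfl, r, T, v, a1, a2, a3, a4, a5, a6, a7⟩ := h4
    refine r3 hG (U := F \ {p 0, q 0}) (Z := ∅) (α := n) (β := n') hxy (by simp) (by simp)
      (by simp) (by simp) (by simp) (by simp) (by simp) (by rw [f1]; exact rig) (by simp) (by simp)
      (by simpa using hF.sup hx hy hxy) (by simpa using hat) a1 a2 a3 a4 (by simp) a5 a6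
      (by simpa using a7)

end Pool.Agent.Work.MP_66aaa3_co
end

-- merged part: Pool.Agent.Work.MP_66aaa3_co.ExactB
section
namespace Pool.Agent.Work.MP_66aaa3_co

open Finset

set_option linter.unusedSectionVars false

variable {V : Type} [DecidableEq V] {G : SimpleGraph V} {k : ℕ} {A I U : Finset V}

lemma OK2.even {n : ℕ} (h : OK2 k n) (hn : n % 2 = 0) : (n : ZMod (2 * k)) = 2 :=
  h.resolve_left (by omega)

lemma Hub.ear (H : Hub G k A I) (hG : NB G (2 * k)) {S : Set V} (hS : ∀ v ∈ S, v ∉ A) {s s' h h' : V}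
    {n : ℕ} (hP : PathIn G S s s' n) (hh : h ∈ A) (hh' : h' ∈ A) (hne : h ≠ h') (a : G.Adj s h)
    (a' : G.Adj s' h') : OK2 k (n + 2) := by
  refine H.e1 hG hh hh' hne ((hP.cons a.symm (fun e => hS h e hh)).snoc a' ?_) ?_
  · rintro (e | e)
    exacts [hne e.symm, hS h' e hh']
  · rintro v (e | e | e) hv
    exacts [Or.inr e, Or.inl e, absurd hv (hS v e)]

lemma exists_nb_ne {S : Finset V} {u : V} (h : 2 ≤ deg G S u) (z : V) :
    ∃ w ∈ S, w ≠ z ∧ G.Adj u w := by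
  obtain ⟨w, hw, e⟩ := exists_mem_ne h z
  exact ⟨w, (mem_nb.1 hw).1, e, (mem_nb.1 hw).2⟩

lemma Hub.big (H : Hub G k A I) (hk : 3 ≤ k) (hG : NB G (2 * k)) {S : Set V} (hS : ∀ v ∈ S, v ∉ A)
    {u s z : V} (hu : k ≤ deg G A u + 1) (hz : z ∈ A) (a : G.Adj s z) (hne : u ≠ s) {n : ℕ}
    (hP : PathIn G S u s n) (hn : n % 2 = 0) : (n : ZMod (2 * k)) = 0 ∧ deg G A s ≤ 1 := by
  obtain ⟨h, hh, h1, h2⟩ := exists_nb_ne (show 2 ≤ deg G A u by omega) z
  have h3 := (H.ear hG hS hP hh hz h1 h2 a).even (by omega)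
  have h4 : (n : ZMod (2 * k)) = 0 := by
    push_cast at h3; linear_combination h3
  refine ⟨h4, ?_⟩
  have h5 : Disjoint (nb G A u) (nb G A s) := disjoint_left.2 fun w h5 h6 => by
    rw [mem_nb] at h5 h6
    exact hG.close2 hP h5.2.symm h6.2.symm (fun e => hS w e h5.1) (hP.pos_of_ne hne) h4
  have h6 := card_le_card (show nb G A u ∪ nb G A s ⊆ A from fun w hw => by
    rcases mem_union.1 hw with e | e <;> exact (mem_nb.1 e).1)
  rw [card_union_of_disjoint h5, H.1] at h6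
  unfold deg at hu ⊢
  omega

lemma Hub.hang (H : Hub G k A I) (hk : 3 ≤ k) (hG : NB G (2 * k)) (hUA : Disjoint U A)
    {p : ℕ → V} {T : ℕ} (hp : IsP G p T) (hpU : pv p T ⊆ U) (hT : T % 2 = 1)
    (hu : k ≤ deg G A (p 0) + 1) (hu' : k ≤ deg G A (p T) + 1) {q t : ℕ} (hq : q ≤ T)
    {S : Set V} (hS : S ⊆ U) (hSp : ∀ v ∈ S, v ∈ pv p T → v = p q) {s z : V}
    (hP : PathIn G S (p q) s t) (hz : z ∈ A) (a : G.Adj s z) (h1 : s ≠ p 0) (h2 : s ≠ p T) :
    deg G A s ≤ 1 ∧ (((q + t) % 2 = 0 ∧ ((q + t : ℕ) : ZMod (2 * k)) = 0) ∨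
      ((T - q + t) % 2 = 0 ∧ ((T - q + t : ℕ) : ZMod (2 * k)) = 0)) := by
  have h3 : ∀ a b, b ≤ T → p '' Set.Icc a b ⊆ pv p T := by
    rintro a b hb v ⟨i, hi, rfl⟩
    exact mem_pv_self (le_trans hi.2 hb)
  have hU : ∀ v ∈ (↑U : Set V), v ∉ A := fun v hv => disjoint_left.1 hUA hv
  by_cases h4 : (q + t) % 2 = 0
  · have h5 := (hp.seg (Nat.zero_le q) hq).trans' (U := ↑U) hP
      (fun v hv hv' => hSp v hv' (h3 _ _ hq hv)) ((h3 _ _ hq).trans (coe_subset.2 hpU)) hS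
    have := H.big hk hG hU hu hz a h1.symm h5 h4
    exact ⟨this.2, Or.inl ⟨h4, this.1⟩⟩
  · have h5 := (hp.seg hq le_rfl).symm.trans' (U := ↑U) hP
      (fun v hv hv' => hSp v hv' (h3 _ _ le_rfl hv)) ((h3 _ _ le_rfl).trans (coe_subset.2 hpU)) hS
    have := H.big hk hG hU hu' hz a h2.symm h5 (by omega)
    exact ⟨this.2, Or.inr ⟨by omega, this.1⟩⟩

lemma Gad.not_odd {W : Set V} {x y : V} (h : Gad G k W x y)
    (ho : ∀ n, PathIn G W x y n → n % 2 = 1) : False := by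
  obtain ⟨L, -, ⟨a, ha, b, hb, hab⟩, h⟩ := h
  obtain ⟨n, -, rfl, hn⟩ := h a ha
  obtain ⟨n', -, rfl, hn'⟩ := h b hb
  exact hab (par_eq_iff.2 (by rw [ho n hn, ho n' hn']))

/-- two vertices with at least `k - 1` hubs form the whole piece -/
lemma Hub.gamma (H : Hub G k A I) (hk : 3 ≤ k) (hG : NB G (2 * k)) (hUA : Disjoint U A)
    (hc : Conn G U) (hdg : Dg G U (U ∪ A) (k + 1)) (hat : Att2 G U (U ∪ A)) {u u' : V}
    (hu : u ∈ U) (hu' : u' ∈ U) (hne : u ≠ u') (du : k ≤ deg G A u + 1)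
    (du' : k ≤ deg G A u' + 1) : ∀ v ∈ U, v = u ∨ v = u' := by
  have hU : ∀ v ∈ (↑U : Set V), v ∉ A := fun v hv => disjoint_left.1 hUA hv
  have odd : ∀ n, PathIn G ↑U u u' n → n % 2 = 1 := by
    intro n hn
    by_contra h1
    obtain ⟨z, hz, a⟩ := exists_adj_of_deg_pos (show 0 < deg G A u' by omega)
    have := (H.big hk hG hU du hz a hne hn (by omega)).2
    omega
  obtain ⟨n0, hn0⟩ := hc u hu u' hu'
  obtain ⟨p, T, p1, p2, p3, p4, -, p6⟩ := exists_induced (Y := {u'}) hn0 rfl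
  replace p3 : p T = u' := p3
  have p5 : pv p T ⊆ U := fun v hv => by
    obtain ⟨i, hi, rfl⟩ := mem_pv.1 hv; exact p4 i hi
  have small : ∀ s ∈ U, s ≠ u → s ≠ u' → deg G A s ≤ 1 := by
    intro s hs h1 h2
    by_contra h3
    obtain ⟨z, hz, a⟩ := exists_adj_of_deg_pos (show 0 < deg G A s by omega)
    obtain ⟨n, hn⟩ := hc s hs u hu
    obtain ⟨r, t, r1, r2, r3, r4, r5, -⟩ := exists_induced (Y := ↑(pv p T)) hn
      (p2 ▸ mem_pv_self (Nat.zero_le _))
    obtain ⟨q, hq, e⟩ := mem_pv.1 r3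
    refine h3 (H.hang hk hG hUA p1 p5 (odd T ⟨p, p1, p2, p3, p4⟩) (p2 ▸ du) (p3 ▸ du') hq
      (S := ↑(pv r t)) (fun v hv => ?_) (fun v hv hv' => ?_) (t := t)
      (by rw [e, ← r2]; exact (pv_path r1).symm) hz a (p2 ▸ h1) (p3 ▸ h2)).1
    · obtain ⟨i, hi, rfl⟩ := mem_pv.1 hv; exact r4 i hi
    · obtain ⟨i, hi, rfl⟩ := mem_pv.1 hv
      rw [e]
      rcases eq_or_lt_of_le hi with rfl | h4
      exacts [rfl, absurd hv' (r5 i h4)]
  have dU : ∀ s ∈ U, k + 1 ≤ deg G U s + deg G A s := fun s hs =>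
    le_trans (hdg s hs) (deg_union_le _ _ _)
  rcases (U \ pv p T).eq_empty_or_nonempty with h1 | h1
  · intro v hv
    by_contra h2
    push Not at h2
    have h3 : U = pv p T := Subset.antisymm (sdiff_eq_empty_iff_subset.1 h1) p5
    have h4 := dU v hv
    have h5 := small v hv h2.1 h2.2
    rw [h3] at hv h4
    obtain ⟨i, hi, rfl⟩ := mem_pv.1 hv
    have := (deg_le_of_induced p6 hi).1
    omega
  exfalso
  obtain ⟨q, n, C, q1, q2, q3, q4, c1, c2, c3, c4, c5, c6⟩ := min_piece U (U \ pv p T) p T p1 h1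
    disjoint_sdiff.symm (fun _ _ w hw _ => by
      by_cases e : w ∈ pv p T <;> simp [e, hw])
  replace c5 : ∀ a ∈ C, ∀ w ∈ U, G.Adj a w → w ∈ C ∨ w ∈ pv q n :=
    fun a ha w hw => c5 a ha w (mem_union_left _ (mem_union_left _ hw))
  replace q4 : pv q n ⊆ U := q4.trans (union_subset sdiff_subset p5)
  rw [p2] at q2
  rw [p3] at q3
  have hCU : C ⊆ U := c2.trans sdiff_subset
  have hout : ∀ a ∈ C, a ∉ pv q n := fun a ha => disjoint_left.1 c4 ha
  have hn : n % 2 = 1 := odd n ⟨q, q1, q2, q3, fun i hi => q4 (mem_pv_self hi)⟩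
  have hCu : ∀ a ∈ C, a ≠ q 0 ∧ a ≠ q n := fun a ha =>
    ⟨fun e => hout a ha (e ▸ mem_pv_self (Nat.zero_le _)), fun e => hout a ha (e ▸ mem_pv_self le_rfl)⟩
  have sC : ∀ a ∈ C, deg G A a ≤ 1 := fun a ha =>
    small a (hCU ha) (q2 ▸ (hCu a ha).1) (q3 ▸ (hCu a ha).2)
  have dC : ∀ a ∈ C, k + 1 ≤ deg G C a + (np G q n a).card + deg G A a := fun a ha =>
    le_trans (dU a (hCU ha)) (Nat.add_le_add_right (deg_le_add_np q1 (c5 a ha)) _)
  have nb2 : ∀ a ∈ C, 0 < deg G A a → ∀ i ∈ np G q n a, ∀ j ∈ np G q n a, i % 2 = j % 2 → i = j := by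
    intro a ha h2 i hi j hj hij
    obtain ⟨z, hz, az⟩ := exists_adj_of_deg_pos h2
    have key : ∀ i ∈ np G q n a, ((i + 1) % 2 = 0 ∧ ((i + 1 : ℕ) : ZMod (2 * k)) = 0) ∨
        ((n - i + 1) % 2 = 0 ∧ ((n - i + 1 : ℕ) : ZMod (2 * k)) = 0) := by
      intro i hi
      rw [mem_np] at hi
      refine (H.hang hk hG hUA q1 q4 hn (q2 ▸ du) (q3 ▸ du') hi.1 (S := {q i, a}) ?_ ?_
        (PathIn.single hi.2.symm (by simp) (by simp)) hz az (hCu a ha).1 (hCu a ha).2).2
      · rintro v (rfl | rfl)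
        exacts [q4 (mem_pv_self hi.1), hCU ha]
      · rintro v (rfl | rfl) hv
        exacts [rfl, absurd hv (hout _ ha)]
    have hi' := (mem_np.1 hi).1
    have hj' := (mem_np.1 hj).1
    refine hG.np_inj q1 (hout a ha) i hi j hj ?_
    rcases key i hi with e | e <;> rcases key j hj with e' | e'
    · have h3 := e.2.trans e'.2.symm
      simpa using h3
    · omega
    · omega
    · have h3 := e.2.trans e'.2.symm
      push_cast [Nat.cast_sub hi', Nat.cast_sub hj'] at h3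
      linear_combination -h3
  have oddq : ∀ S : Finset V, S ⊆ U → ¬ Gad G k ↑S (q 0) (q n) := fun S hS h =>
    h.not_odd fun m hm => odd m (q2 ▸ q3 ▸ hm.mono (coe_subset.2 hS))
  rcases c6 with ⟨v, rfl⟩ | ⟨a, ha, b, hb, hab, da, db, h2, h3⟩ | ⟨r, hr, h2⟩
  · have hv := mem_singleton_self v
    have h2 := dC v hv
    have h3 := sC v hv
    rw [deg_single_self] at h2
    rcases Nat.eq_zero_or_pos (deg G A v) with h4 | h4
    · exact oddq _ (insert_subset (hCU hv) q4) (vertex_gad hk hG q1 (hout v hv) (by omega)).1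
    · obtain ⟨a, ha, b, hb, c, hc, h5, h6⟩ := ex3 (show 3 ≤ (np G q n v).card by omega)
      have := nb2 v hv h4 a ha b hb
      have := nb2 v hv h4 a ha c hc
      have := nb2 v hv h4 b hb c hc
      omega
  · have h4 : ∀ c ∈ C, c = a ∨ c = b := by
      intro c hc
      by_contra h4
      push Not at h4
      obtain ⟨h5, h6⟩ := h3 c hc h4.1 h4.2
      have h7 := dC c hc
      have h8 := sC c hc
      have h9 : np G q n c = ∅ := by
        ext i; simp only [mem_np, notMem_empty, iff_false, not_and]; exact h6 i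
      rw [h9, card_empty] at h7
      omega
    have h5 : ∀ c ∈ C, deg G C c ≤ 1 → k ≤ (np G q n c).card := by
      intro c hc h5
      have h6 := dC c hc
      have h7 := sC c hc
      rcases Nat.eq_zero_or_pos (deg G A c) with h8 | h8
      · omega
      exfalso
      obtain ⟨i, hi, j, hj, hij⟩ := ex2 (show 2 ≤ (np G q n c).card by omega)
      have h9 := nb2 c hc h8 i hi j hj
      rw [mem_np] at hi hj
      have h10 := odd _ (q2 ▸ q3 ▸ (q1.det1 (hout c hc) hij hj.1 hi.2 hj.2).mono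
        (coe_subset.2 (insert_subset (hCU hc) q4)))
      omega
    exact oddq _ (insert_subset (hCU ha) (insert_subset (hCU hb) q4))
      (edge_gad hk hG q1 (hout a ha) (hout b hb) (c3.adj_of_pair ha hb hab h4) (h5 a ha da)
        (h5 b hb db) h2).1
  · have h3 : ∀ a ∈ C, ∀ w ∈ U, G.Adj a w → w ∈ insert (q r) C := by
      intro a ha w hw aw
      rcases c5 a ha w hw aw with e | e
      · exact mem_insert_of_mem e
      · obtain ⟨i, hi, rfl⟩ := mem_pv.1 e
        rw [h2 a ha i hi aw]; exact mem_insert_self _ _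
    have h4 : q r ∉ C := fun e => hout _ e (mem_pv_self hr)
    have h5 : ∀ a ∈ C \ C.filter (fun s => 0 < deg G A s), ∀ w ∈ U ∪ A, G.Adj a w →
        w ∈ insert (q r) C := by
      intro a ha w hw aw
      rw [mem_sdiff] at ha
      rcases mem_union.1 hw with e | e
      · exact h3 a ha.1 w e aw
      · exact absurd (mem_filter.2 ⟨ha.1, deg_pos e aw⟩) ha.2
    obtain ⟨s, hs, L, l1, l2⟩ := ext_exit hk hG (U := C) (r := q r)
      (E := C.filter fun s => 0 < deg G A s) h4 (filter_subset _ _) (by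
        obtain ⟨a, ha, w, hw, h6, h7, aw⟩ := hat C hCU c1 (q r)
        refine ⟨a, mem_filter.2 ⟨ha, deg_pos ((mem_union.1 hw).resolve_left fun e => ?_) aw⟩⟩
        rcases mem_insert.1 (h3 a ha w e aw) with e | e
        exacts [h7 e, h6 e]) (by
        obtain ⟨a, ha⟩ := c1
        obtain ⟨b, hb, w, hw, h6, -, bw⟩ := hc.exists_adj (C := C) ha (hCU ha)
          (q4 (mem_pv_self hr)) h4
        rcases mem_insert.1 (h3 b hb w hw bw) with e | e
        exacts [c3.insert_adj hb (e ▸ bw.symm), absurd e h6])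
      (hdg.mono (sdiff_subset.trans hCU) h5) (hat.mono (sdiff_subset.trans hCU) h5)
    rw [mem_filter] at hs
    obtain ⟨z, hz, az⟩ := exists_adj_of_deg_pos hs.2
    have h6 : L ⊆ {-(r : ZMod (2 * k)), -((n - r : ℕ) : ZMod (2 * k))} := by
      intro t ht
      obtain ⟨m, rfl, hm⟩ := l2 t ht
      rcases (H.hang hk hG hUA q1 q4 hn (q2 ▸ du) (q3 ▸ du') hr
        (coe_subset.2 (insert_subset (q4 (mem_pv_self hr)) hCU)) (fun v hv hv' => by
          rcases mem_insert.1 hv with e | e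
          exacts [e, absurd hv' (hout v e)]) hm hz az (hCu s hs.1).1 (hCu s hs.1).2).2 with e | e
      · rw [Nat.cast_add] at e
        exact mem_insert.2 (Or.inl (by linear_combination e.2))
      · rw [Nat.cast_add] at e
        exact mem_insert.2 (Or.inr (mem_singleton.2 (by linear_combination e.2)))
    have h7 := le_trans (card_le_card h6) card_le_two
    have h8 := dU s (hCU hs.1)
    have h9 := sC s hs.1
    have h10 : deg G U s ≤ deg G (insert (q r) C) s := deg_le_of (h3 s hs.1)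
    omega

end Pool.Agent.Work.MP_66aaa3_co
end

-- merged part: Pool.Agent.Work.MP_66aaa3_co.ExactC
section
namespace Pool.Agent.Work.MP_66aaa3_co

open Finset

set_option linter.unusedSectionVars false

variable {V : Type} [DecidableEq V] {G : SimpleGraph V} {k : ℕ} {A I U : Finset V}

lemma leak_arith (hk : 3 ≤ k) {β T t : ℕ} (ht : t ≤ 1) (hN : OK2 k (T + β)) {Q : Finset ℕ}
    (hQ : ∀ i ∈ Q, i ≤ T) (hi : ∀ i ∈ Q, ∀ j ∈ Q, (i : ZMod (2 * k)) = j → i = j)
    (h1 : ∀ q ∈ Q, OK2 k (q + t + 2) ∧ OK2 k (T - q + t + 2 + β))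
    (h2 : ∀ i ∈ Q, ∀ j ∈ Q, i < j → OK2 k (i + 2 + (T - j) + β)) : Q.card ≤ 2 := by
  by_contra hc
  obtain ⟨a, ha, b, hb, c, hc, hab, hbc⟩ := ex3 (show 3 ≤ Q.card by omega)
  by_cases h3 : (T + β) % 2 = 1
  · have key : ∀ i ∈ Q, ∀ j ∈ Q, i % 2 = j % 2 → i = j := by
      intro i hi' j hj' e
      have := hQ i hi'
      have := hQ j hj'
      refine hi i hi' j hj' ?_
      by_cases h4 : (i + t) % 2 = 0
      · exact cast_c2 (((h1 i hi').1.even (by omega)).trans ((h1 j hj').1.even (by omega)).symm)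
      · have h5 := ((h1 i hi').2.even (by omega)).trans ((h1 j hj').2.even (by omega)).symm
        push_cast [Nat.cast_sub (hQ i hi'), Nat.cast_sub (hQ j hj')] at h5
        linear_combination -h5
    have := key a ha b hb
    have := key a ha c hc
    have := key b hb c hc
    omega
  · have h4 := hN.even (by omega)
    have key : ∀ i ∈ Q, (i + t) % 2 = 1 := by
      intro i hi'
      by_contra h5
      have := hQ i hi'
      have h6 := (h1 i hi').1.even (by omega)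
      have h7 := (h1 i hi').2.even (by omega)
      have h8 : ((2 * t + 2 : ℕ) : ZMod (2 * k)) ≠ 0 := cast_ne_zero' (by omega) (by omega)
      push_cast [Nat.cast_sub (hQ i hi')] at h4 h6 h7 h8
      exact h8 (by linear_combination h6 + h7 - h4)
    have := key a ha
    have := key b hb
    have := key c hc
    have hb' := hQ b hb
    have hc' := hQ c hc
    have h5 := ((h2 a ha b hb hab).even (by omega)).trans
      ((h2 a ha c hc (by omega)).even (by omega)).symm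
    push_cast [Nat.cast_sub hb', Nat.cast_sub hc'] at h5
    have := hi b hb c hc (by linear_combination -h5)
    omega

lemma leak_edge_arith (hk : 3 ≤ k) {β T : ℕ} (hN : OK2 k (T + β)) {R Q : Finset ℕ}
    (hR : ∀ i ∈ R, i ≤ T) (hQ : ∀ i ∈ Q, i ≤ T)
    (iR : ∀ i ∈ R, ∀ j ∈ R, (i : ZMod (2 * k)) = j → i = j)
    (iQ : ∀ i ∈ Q, ∀ j ∈ Q, (i : ZMod (2 * k)) = j → i = j) (cR : 2 ≤ R.card) (cQ : 2 ≤ Q.card)
    (hd : ∀ i ∈ R, ∀ j ∈ Q, i ≠ j)
    (r1 : ∀ q ∈ R, OK2 k (q + 0 + 2) ∧ OK2 k (T - q + 0 + 2 + β))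
    (q1 : ∀ q ∈ Q, OK2 k (q + 1 + 2) ∧ OK2 k (T - q + 1 + 2 + β))
    (r2 : ∀ i ∈ R, ∀ j ∈ R, i < j → OK2 k (i + 2 + (T - j) + β))
    (q2 : ∀ i ∈ Q, ∀ j ∈ Q, i < j → OK2 k (i + 2 + (T - j) + β))
    (rq : ∀ i ∈ R, ∀ j ∈ Q, i < j → OK2 k (i + 3 + (T - j) + β) ∧
      ((3 + (j - i) : ℕ) : ZMod (2 * k)) ≠ 2)
    (qr : ∀ i ∈ Q, ∀ j ∈ R, i < j → OK2 k (i + 3 + (T - j) + β) ∧
      ((3 + (j - i) : ℕ) : ZMod (2 * k)) ≠ 2) : False := by
  have n2 : ((2 : ℕ) : ZMod (2 * k)) ≠ 0 := cast_ne_zero' (by omega) (by omega)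
  have n4 : ((4 : ℕ) : ZMod (2 * k)) ≠ 0 := cast_ne_zero' (by omega) (by omega)
  obtain ⟨a, ha, b, hb, hab⟩ := ex2 cR
  obtain ⟨c, hc, d, hd', hcd⟩ := ex2 cQ
  by_cases h3 : (T + β) % 2 = 1
  · have key : ∀ (X : Finset ℕ) (t : ℕ), (∀ i ∈ X, i ≤ T) →
        (∀ i ∈ X, ∀ j ∈ X, (i : ZMod (2 * k)) = j → i = j) →
        (∀ q ∈ X, OK2 k (q + t + 2) ∧ OK2 k (T - q + t + 2 + β)) → ∀ a ∈ X, ∀ b ∈ X, a < b →
        ∃ x ∈ X, ∃ y ∈ X, (x + t) % 2 = 0 ∧ (y + t) % 2 = 1 ∧ (x : ZMod (2 * k)) + t = 0 ∧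
          (T : ZMod (2 * k)) - y + t + β = 0 := by
      intro X t x1 x2 x3 a ha b hb hab
      have e0 : ∀ i ∈ X, (i + t) % 2 = 0 → (i : ZMod (2 * k)) + t = 0 := fun i hi e => by
        have := (x3 i hi).1.even (by omega)
        push_cast at this; linear_combination this
      have e1 : ∀ i ∈ X, (i + t) % 2 = 1 → (T : ZMod (2 * k)) - i + t + β = 0 := fun i hi e => by
        have h4 := x1 i hi
        have := (x3 i hi).2.even (by omega)
        push_cast [Nat.cast_sub h4] at this; linear_combination this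
      by_cases h4 : (a + t) % 2 = 0 <;> by_cases h5 : (b + t) % 2 = 0
      · have := x2 a ha b hb (by linear_combination e0 a ha h4 - e0 b hb h5); omega
      · exact ⟨a, ha, b, hb, h4, by omega, e0 a ha h4, e1 b hb (by omega)⟩
      · exact ⟨b, hb, a, ha, h5, by omega, e0 b hb h5, e1 a ha (by omega)⟩
      · have := x2 a ha b hb (by linear_combination e1 b hb (by omega) - e1 a ha (by omega)); omega
    obtain ⟨ra, h4, rb, h5, p1, p2, e1, e2⟩ := key R 0 hR iR r1 a ha b hb hab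
    obtain ⟨qa, h6, qb, h7, p3, p4, e3, e4⟩ := key Q 1 hQ iQ q1 c hc d hd' hcd
    push_cast at e1 e2 e3 e4 n2
    have t1 := hR ra h4
    have t2 := hQ qa h6
    have t3 := hQ qb h7
    have c1 : qa < ra := by
      by_contra e
      have e' : ra < qa := by have := hd ra h4 qa h6; omega
      refine (rq ra h4 qa h6 e').2 ?_
      push_cast [Nat.cast_sub e'.le]; linear_combination e3 - e1
    have c2 : rb < qb := by
      by_contra e
      have e' : qb < rb := by have := hd rb h5 qb h7; omega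
      refine (qr qb h7 rb h5 e').2 ?_
      push_cast [Nat.cast_sub e'.le]; linear_combination e4 - e2
    have c3 : qb < qa := by
      by_contra e
      have h8 := (q2 qa h6 qb h7 (by omega)).even (by omega)
      push_cast [Nat.cast_sub t3] at h8
      exact n2 (by linear_combination e3 + e4 - h8)
    have h8 := (q2 qb h7 qa h6 c3).even (by omega)
    have h9 := (r2 rb h5 ra h4 (by omega)).even (by omega)
    push_cast [Nat.cast_sub t1, Nat.cast_sub t2] at h8 h9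
    exact n2 (by linear_combination h8 - h9 + e3 + e4 - e1 - e2)
  · have h4 := hN.even (by omega)
    have key : ∀ (t i : ℕ), t ≤ 1 → i ≤ T → OK2 k (i + t + 2) ∧ OK2 k (T - i + t + 2 + β) →
        (i + t) % 2 = 1 := by
      intro t i ht hi h1
      by_contra h5
      have h6 := h1.1.even (by omega)
      have h7 := h1.2.even (by omega)
      have h8 : ((2 * t + 2 : ℕ) : ZMod (2 * k)) ≠ 0 := cast_ne_zero' (by omega) (by omega)
      push_cast [Nat.cast_sub hi] at h4 h6 h7 h8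
      exact h8 (by linear_combination h6 + h7 - h4)
    have ta := hR a ha
    have tb := hR b hb
    have tc := hQ c hc
    have td := hQ d hd'
    have := key 0 a (by omega) ta (r1 a ha)
    have := key 0 b (by omega) tb (r1 b hb)
    have := key 1 c (by omega) tc (q1 c hc)
    have := key 1 d (by omega) td (q1 d hd')
    rcases lt_or_gt_of_ne (hd a ha c hc) with e | e
    · have h5 := ((rq a ha c hc e).1.even (by omega)).trans
        ((rq a ha d hd' (by omega)).1.even (by omega)).symm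
      push_cast [Nat.cast_sub tc, Nat.cast_sub td] at h5
      have := iQ c hc d hd' (by linear_combination -h5)
      omega
    · have h5 := ((qr c hc a ha e).1.even (by omega)).trans
        ((qr c hc b hb (by omega)).1.even (by omega)).symm
      push_cast [Nat.cast_sub ta, Nat.cast_sub tb] at h5
      have := iR a ha b hb (by linear_combination -h5)
      omega

/-- the root `y` with offset `β`: a hub, or a vertex of `U` with at least two hubs -/
def Root (G : SimpleGraph V) (A U : Finset V) (y : V) (β : ℕ) : Prop :=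
  (y ∈ A ∧ β = 0) ∨ (y ∈ U ∧ 2 ≤ deg G A y ∧ β = 1)

lemma Hub.rt (H : Hub G k A I) (hG : NB G (2 * k)) (hUA : Disjoint U A) {x y : V} {β : ℕ}
    (hy : Root G A U y β) (hx : x ∈ A) (hxy : x ≠ y) {n : ℕ}
    (hP : PathIn G ↑(U ∪ {x, y}) x y n) : OK2 k (n + β) := by
  have h1 : ∀ v ∈ (↑(U ∪ {x, y}) : Set V), v ∈ A → v = x ∨ v = y := fun v hv hA => by
    rcases mem_union.1 hv with e | e
    · exact absurd hA (disjoint_left.1 hUA e)
    · simpa using e
  rcases hy with ⟨hy, rfl⟩ | ⟨hy, h2, rfl⟩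
  · exact H.e1 hG hx hy hxy hP h1
  · obtain ⟨h, hh, h3, h4⟩ := exists_nb_ne h2 x
    have h5 : y ∉ A := disjoint_left.1 hUA hy
    refine H.e1 hG hx hh h3.symm (hP.snoc h4 fun e => ?_) ?_
    · rcases h1 h e hh with e | e
      exacts [h3 e, h5 (e ▸ hh)]
    · rintro v (e | e) hv
      · exact Or.inr e
      · rcases h1 v e hv with e | e
        exacts [Or.inl e, absurd (e ▸ hv) h5]

lemma Hub.leak (H : Hub G k A I) (hG : NB G (2 * k)) (hUA : Disjoint U A) {β : ℕ}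
    {p : ℕ → V} {T : ℕ} (hp : IsP G p T) (hy : Root G A U (p T) β) (hx : p 0 ∈ A)
    (hpU : pv p T ⊆ U ∪ {p 0, p T}) {z s w : V} (hz : z ∈ A) (hzx : z ≠ p 0) (hzy : z ≠ p T)
    (a : G.Adj s z) {S : Finset V} (hS : S ⊆ U) (hSp : Disjoint S (pv p T)) {t : ℕ}
    (hP : PathIn G ↑S w s t) {q : ℕ} (hq : q ≤ T) (hqU : p q ∈ U) (aw : G.Adj w (p q)) :
    OK2 k (q + t + 2) ∧ OK2 k (T - q + t + 2 + β) := by
  have hU : ∀ v ∈ U, v ∉ A := fun v hv => disjoint_left.1 hUA hv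
  have h0 : ∀ i ≤ T, p i ∈ U ∨ i = 0 ∨ i = T := fun i hi => by
    rcases mem_union.1 (hpU (mem_pv_self hi)) with e | e
    · exact Or.inl e
    · simp only [mem_insert, mem_singleton] at e
      exact Or.inr (e.imp (hp.inj hi (Nat.zero_le _)) (hp.inj hi le_rfl))
  have h1 := (hP.cons aw.symm fun e => disjoint_left.1 hSp e (mem_pv_self hq)).snoc a (by
    rintro (e | e)
    exacts [hU _ hqU (e ▸ hz), hU z (hS e) hz])
  have h2 : ∀ a b, b ≤ T → ∀ v ∈ p '' Set.Icc a b,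
      v ∈ insert z (insert (p q) (↑S : Set V)) → v = p q := by
    rintro a b hb v ⟨i, hi, rfl⟩ (e | e | e)
    · exfalso
      rcases h0 i (le_trans hi.2 hb) with e' | rfl | rfl
      exacts [hU _ e' (e ▸ hz), hzx e.symm, hzy e.symm]
    · exact e
    · exact absurd (mem_pv_self (le_trans hi.2 hb)) (disjoint_left.1 hSp e)
  constructor
  · refine H.e1 hG hx hz hzx.symm ((hp.seg (Nat.zero_le q) hq).trans h1 (h2 _ _ hq)) ?_
    rintro v (⟨i, hi, rfl⟩ | e | e | e) hv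
    · rcases h0 i (le_trans hi.2 hq) with e' | rfl | rfl
      · exact absurd hv (hU _ e')
      · exact Or.inl rfl
      · exact absurd hv (hU _ (le_antisymm hq hi.2 ▸ hqU))
    · exact Or.inr e
    · exact absurd (e ▸ hv) (hU _ hqU)
    · exact absurd hv (hU _ (hS e))
  · have h3 := h1.symm.trans' (U := ↑(U ∪ {z, p T})) (hp.seg hq le_rfl)
      (fun v hv hv' => h2 _ _ le_rfl v hv' hv) (by
        rintro v (rfl | rfl | e)
        · simp
        · simp [hqU]
        · simp [hS e]) (by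
        rintro v ⟨i, hi, rfl⟩
        rcases h0 i hi.2 with e' | rfl | rfl
        · simp [e']
        · exact absurd hx (hU _ (Nat.le_zero.1 hi.1 ▸ hqU))
        · simp)
    have := H.rt hG hUA hy hz hzy h3
    rwa [show t + 1 + 1 + (T - q) + β = T - q + t + 2 + β by omega] at this

lemma Hub.k3_final (H : Hub G 3 A I) (hG : NB G (2 * 3)) (hUA : Disjoint U A) (hs : Sup G 3 U A)
    (hat : Att2 G U (U ∪ A)) {p : ℕ → V} {T : ℕ} (hp : IsP G p T) {x y : V} (h0 : p 0 = x)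
    (hT : p T = y) (hx : x ∈ A) (hy : y ∈ A) (hxy : x ≠ y) (hpU : pv p T ⊆ U ∪ {x, y})
    (hsm : ∀ s ∈ U, s ∉ pv p T → deg G A s ≤ 1) {v : V} (hv : v ∈ U) (hvp : v ∉ pv p T)
    (hvn : ∀ w ∈ U ∪ A, G.Adj v w → w ∈ pv p T) : False := by
  have hU : ∀ v ∈ A, v ∉ U := fun v hv => disjoint_right.1 hUA hv
  have h1 : {x, y} ⊆ A := insert_subset hx (singleton_subset_iff.2 hy)
  have h2 : {x, y} ∪ A \ {x, y} = A := union_sdiff_of_subset h1
  have h3 : (A \ {x, y}).card = 1 := by rw [card_sdiff_of_subset h1, card_pair hxy, H.1]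
  have h4 : ∀ z ∈ A \ {x, y}, z ∈ A ∧ z ≠ x ∧ z ≠ y := fun z hz => by simpa [not_or] using hz
  refine r3 hG (U := U) (Z := A \ {x, y}) (α := 0) (β := 0) hxy (hU x hx) (hU y hy)
    (hUA.mono_right sdiff_subset) (by simp) (by simp) h3.le (fun _ => ⟨rfl, rfl⟩) ?_ ?_ ?_
    (h2.symm ▸ hs) (h2.symm ▸ hat) hp h0 hT hpU ?_ hv hvp (h2.symm ▸ hvn)
  · intro n hn
    simpa using H.rt hG hUA (Or.inl ⟨hy, rfl⟩) hx hxy hn
  · rintro z hz n (hn | hn)
    · exact H.rt hG hUA (Or.inl ⟨(h4 z hz).1, rfl⟩) hx (h4 z hz).2.1.symm hn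
    · exact H.rt hG hUA (Or.inl ⟨(h4 z hz).1, rfl⟩) hy (h4 z hz).2.2.symm hn
  · rintro z hz n (hn | hn) e
    · refine H.hc hG hx (h4 z hz).1 (h4 z hz).2.1.symm hn (B := ∅) (by simp) (by simp) ?_
      simp [e]
    · refine H.hc hG hy (h4 z hz).1 (h4 z hz).2.2.symm hn (B := ∅) (by simp) (by simp) ?_
      simp [e]
  · intro z hz s hs hs'
    have h5 : ∀ a ∈ A, ∀ b ∈ A, G.Adj s a ∧ G.Adj s b → a = b := fun a ha b hb h =>
      card_le_one.1 (hsm s hs hs') a (mem_nb.2 ⟨ha, h.1⟩) b (mem_nb.2 ⟨hb, h.2⟩)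
    exact ⟨fun e => hxy (h5 x hx y hy e), fun e => (h4 z hz).2.1 (h5 x hx z (h4 z hz).1 e).symm,
      fun e => (h4 z hz).2.2 (h5 y hy z (h4 z hz).1 e).symm⟩

lemma IsP.exists_append {p q : ℕ → V} {n n' : ℕ} (h : IsP G p n) (h' : IsP G q n') (e : p n = q 0)
    (hd : ∀ v ∈ pv p n, v ∈ pv q n' → v = q 0) :
    ∃ r, IsP G r (n + n') ∧ r 0 = p 0 ∧ r (n + n') = q n' ∧ pv r (n + n') = pv p n ∪ pv q n' := by
  have e2 : ∀ j, (fun i => if i ≤ n then p i else q (i - n)) (n + j) = q j := fun j => by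
    rcases Nat.eq_zero_or_pos j with rfl | h0
    · simpa using e
    · simp only [show ¬ n + j ≤ n by omega, if_false]; congr 1; omega
  refine ⟨_, h.append h' e (fun i hi j hj e' => h'.inj hj (Nat.zero_le _)
    (e' ▸ hd _ (mem_pv_self hi) (e' ▸ mem_pv_self hj))), by simp, e2 n', ?_⟩
  ext v
  simp only [mem_pv, mem_union]
  constructor
  · rintro ⟨i, hi, rfl⟩
    by_cases h3 : i ≤ n
    · exact Or.inl ⟨i, h3, by simp [h3]⟩
    · exact Or.inr ⟨i - n, by omega, by simp [h3]⟩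
  · rintro (⟨i, hi, rfl⟩ | ⟨j, hj, rfl⟩)
    · exact ⟨i, by omega, by simp [hi]⟩
    · exact ⟨n + j, by omega, e2 j⟩

lemma pv_rev (p : ℕ → V) (n : ℕ) : pv (fun i => p (n - i)) n = pv p n := by
  ext v
  simp only [mem_pv]
  constructor
  · rintro ⟨i, hi, rfl⟩; exact ⟨n - i, by omega, rfl⟩
  · rintro ⟨i, hi, rfl⟩; exact ⟨n - i, by omega, by congr 1; omega⟩

lemma pv_const (v : V) : pv (fun _ => v) 0 = {v} := by simp [pv]

end Pool.Agent.Work.MP_66aaa3_co
end

-- merged part: Pool.Agent.Work.MP_66aaa3_co.ExactD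
section
namespace Pool.Agent.Work.MP_66aaa3_co

open Finset

set_option linter.unusedSectionVars false

variable {V : Type} [DecidableEq V] {G : SimpleGraph V} {k : ℕ} {A I U : Finset V}

/-- a piece without leaks hanging on a path between two roots -/
lemma Hub.pure (H : Hub G k A I) (hk : 3 ≤ k) (hG : NB G (2 * k)) (hUA : Disjoint U A)
    (hs : Sup G k U A) (hat : Att2 G U (U ∪ A)) {y : V} {β : ℕ} (hy : Root G A U y β)
    (hsm : ∀ u ∈ U, u ≠ y → deg G A u + 2 ≤ k) {p : ℕ → V} {T : ℕ} (hp : IsP G p T)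
    (hx : p 0 ∈ A) (hT : p T = y) (hxy : p 0 ≠ y) (hpU : pv p T ⊆ U ∪ {p 0, y}) {C : Finset V}
    (hC : C.Nonempty) (hCU : C ⊆ U) (hd : Disjoint C (pv p T))
    (hcl : ∀ u ∈ C, ∀ w ∈ U ∪ A, G.Adj u w → w ∈ C ∪ pv p T) : False := by
  have h1 : C ∪ pv p T ⊆ U ∪ {p 0, y} := union_subset (hCU.trans subset_union_left) hpU
  rcases (r1_path hk hG hp hC hd (hs.dg.mono hCU hcl) (hat.mono hCU hcl)).2 with h2 | h2
  · refine h2.not_rigid (c := β) fun n hn => ?_
    rw [add_comm]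
    have h3 := hn.mono (coe_subset.2 h1)
    rw [hT] at h3
    exact H.rt hG hUA hy hx hxy h3
  obtain ⟨rfl, q, n, v, a1, a2, a3, a4, a5, a6, a7⟩ := h2
  have a8 : ∀ w ∈ U ∪ A, G.Adj v w → w ∈ pv q n := fun w hw a => a7 w (hcl v a5 w hw a) a
  have a9 : ∀ s ∈ U, s ∉ pv q n → deg G A s ≤ 1 := fun s hs hs' => by
    have := hsm s hs fun e => hs' (e ▸ hT ▸ a3 ▸ mem_pv_self le_rfl)
    omega
  rcases hy with ⟨hy, -⟩ | ⟨hy, h2, -⟩
  · exact H.k3_final hG hUA hs hat a1 a2 (a3.trans hT) hx hy hxy (a4.trans h1) a9 (hCU a5) a6 a8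
  · obtain ⟨h, hh, h3, h4⟩ := exists_nb_ne h2 (p 0)
    have h5 : h ∉ pv q n := fun e => by
      rcases mem_union.1 (h1 (a4 e)) with e | e
      · exact disjoint_left.1 hUA e hh
      · simp only [mem_insert, mem_singleton] at e
        rcases e with e | e
        exacts [h3 e, disjoint_left.1 hUA hy (e ▸ hh)]
    obtain ⟨r, r1, r2, r3, r4⟩ := a1.exists_join (IsP.zero (fun _ => h)) (by rw [a3, hT]; exact h4)
      (by rw [pv_const]; exact disjoint_singleton_right.2 h5)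
    rw [pv_const] at r4
    refine H.k3_final hG hUA hs hat r1 ((r2 0 (Nat.zero_le _)).trans a2) (r3 0 le_rfl) hx hh
      h3.symm ?_ (fun s hs hs' => a9 s hs fun e => hs' (r4 ▸ mem_union_left _ e)) (hCU a5) ?_
      fun w hw a => r4 ▸ mem_union_left _ (a8 w hw a)
    · rw [r4]
      refine union_subset (fun w hw => ?_) (by simp)
      rcases mem_union.1 (h1 (a4 hw)) with e | e
      · exact mem_union_left _ e
      · simp only [mem_insert, mem_singleton] at e
        rcases e with e | e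
        · simp [e]
        · simp [e, hy]
    · rw [r4, mem_union, mem_singleton]
      rintro (e | e)
      exacts [a6 e, disjoint_left.1 hUA (hCU a5) (e ▸ hh)]

lemma Hub.stage2 (H : Hub G k A I) (hk : 3 ≤ k) (hG : NB G (2 * k)) (hUA : Disjoint U A)
    (hc : Conn G U) (hs : Sup G k U A) (hat : Att2 G U (U ∪ A)) {y : V} {β : ℕ}
    (hy : Root G A U y β) (hsm : ∀ u ∈ U, u ≠ y → deg G A u + 2 ≤ k) (N : ℕ) :
    ∀ (C : Finset V) (p : ℕ → V) (T : ℕ), C.card ≤ N → IsP G p T → p T = y → p 0 ∈ U →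
      pv p T ⊆ insert y U → C ⊆ U → Disjoint C (pv p T) →
      (∀ u ∈ C, ∀ w ∈ U, G.Adj u w → w ∈ C ∨ w = p 0) →
      (∃ u ∈ C, ∃ z ∈ A, z ≠ y ∧ G.Adj u z) → False := by
  classical
  have hU : ∀ v ∈ U, v ∉ A := fun v hv => disjoint_left.1 hUA hv
  have d3 : ∀ u ∈ U, u ≠ y → 3 ≤ deg G U u := fun u hu hne => by
    have := le_trans (hs.dg u hu) (deg_union_le _ _ _)
    have := hsm u hu hne
    omega
  induction N with
  | zero =>
    rintro C p T hN - - - - - - - ⟨s, hs, -⟩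
    have := card_pos.2 ⟨s, hs⟩; omega
  | succ N ih =>
  rintro C p T hN hp hT h0 hpU hCU hd hcl ⟨u, hu, hz⟩
  have hCp : ∀ u ∈ C, u ∉ pv p T := fun u hu => disjoint_left.1 hd hu
  have hCy : ∀ u ∈ C, u ≠ y := fun u hu e => hCp u hu (e ▸ hT ▸ mem_pv_self le_rfl)
  have h0C : p 0 ∉ C := fun e => hCp _ e (mem_pv_self (Nat.zero_le _))
  obtain ⟨m, hm⟩ : ∃ m, PathIn G ↑(insert (p 0) C) (p 0) u m := by
    obtain ⟨n0, hn0⟩ := hc u (hCU hu) (p 0) h0
    obtain ⟨r, n, r1, r2, r3, r4, r5, -⟩ := exists_induced (Y := {p 0}) hn0 rfl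
    have h1 : ∀ i ≤ n, r i ∈ insert (p 0) C := by
      intro i
      induction i with
      | zero => intro _; rw [r2]; exact mem_insert_of_mem hu
      | succ i ih' =>
        intro hi
        rcases mem_insert.1 (ih' (by omega)) with e | e
        · exact absurd e (r5 i (by omega))
        · exact mem_insert.2 (hcl _ e _ (r4 _ hi) (r1.adj (by omega))).symm
    exact ⟨n, PathIn.symm ⟨r, r1, r2, r3, h1⟩⟩
  obtain ⟨r, n, r1, r2, ⟨r3, x, hx, hxy, ax⟩, r4, -, r6⟩ := exists_induced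
    (Y := {u | u ∈ C ∧ ∃ z ∈ A, z ≠ y ∧ G.Adj u z}) hm ⟨hu, hz⟩
  have r7 : ∀ v ∈ pv r n, v = p 0 ∨ v ∈ C := fun v hv => by
    obtain ⟨i, hi, rfl⟩ := mem_pv.1 hv; exact mem_insert.1 (r4 i hi)
  obtain ⟨P1, s1, s2, s3, s4⟩ := r1.rev.exists_append hp (by simpa using r2) (by
    intro v hv hv'
    rw [pv_rev] at hv
    exact (r7 v hv).resolve_right fun e => hCp v e hv')
  rw [pv_rev] at s4
  have s5 : pv P1 (n + T) ⊆ insert y U := by
    rw [s4]
    refine union_subset (fun v hv => mem_insert_of_mem ?_) hpU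
    rcases r7 v hv with rfl | e
    exacts [h0, hCU e]
  obtain ⟨P, t1, t2, t3, t4⟩ := (IsP.zero (G := G) (fun _ => x)).exists_join s1
    (by rw [s2]; exact ax.symm) (by
      rw [pv_const, disjoint_singleton_left]
      intro e
      rcases mem_insert.1 (s5 e) with e | e
      exacts [hxy e, hU x e hx])
  rw [pv_const, s4] at t4
  rcases (C \ pv r n).eq_empty_or_nonempty with h1 | h1
  · have h2 := d3 _ (hCU r3) (hCy _ r3)
    have h3 : deg G U (r n) ≤ deg G (pv r n) (r n) := deg_le_of fun w hw a => by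
      rcases hcl _ r3 w hw a with e | e
      · exact sdiff_eq_empty_iff_subset.1 h1 e
      · rw [e, ← r2]; exact mem_pv_self (Nat.zero_le _)
    have := (deg_le_of_induced r6 le_rfl).1
    omega
  obtain ⟨q, l, D, q1, q2, q3, q4, c1, c2, c3, c4, c5, c6⟩ := min_piece U (C \ pv r n) P _ t1 h1
    (by
      rw [t4, disjoint_left]
      intro v hv hv'
      rw [mem_sdiff] at hv
      simp only [mem_union, mem_singleton] at hv'
      rcases hv' with e | e | e
      exacts [hU v (hCU hv.1) (e ▸ hx), hv.2 e, hCp v hv.1 e]) (by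
      intro a ha w hw aw
      rw [t4]
      rcases hcl a (mem_sdiff.1 ha).1 w hw aw with e | e
      · by_cases e' : w ∈ pv r n <;> simp [e, e']
      · simp only [mem_union]
        exact Or.inr (Or.inr (Or.inr (e ▸ mem_pv_self (Nat.zero_le _)))))
  replace c5 : ∀ a ∈ D, ∀ w ∈ U, G.Adj a w → w ∈ D ∨ w ∈ pv q l :=
    fun a ha w hw => c5 a ha w (mem_union_left _ (mem_union_left _ hw))
  replace q2 : q 0 = x := q2.trans (t2 0 le_rfl)
  replace q3 : q l = y := q3.trans ((t3 _ le_rfl).trans (s3.trans hT))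
  have hDC : D ⊆ C := c2.trans sdiff_subset
  have hDU : D ⊆ U := hDC.trans hCU
  replace q4 : pv q l ⊆ U ∪ {q 0, q l} := by
    rw [q2, q3]
    refine q4.trans (union_subset (sdiff_subset.trans (hCU.trans subset_union_left)) ?_)
    rw [t4, ← s4]
    refine union_subset (by simp) fun v hv => ?_
    rcases mem_insert.1 (s5 hv) with e | e <;> simp [e]
  have hout : ∀ a ∈ D, a ∉ pv q l := fun a ha => disjoint_left.1 c4 ha
  by_cases hl : ∃ s ∈ D, ∃ z ∈ A, z ≠ x ∧ z ≠ y ∧ G.Adj s z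
  swap
  · push Not at hl
    refine H.pure hk hG hUA hs hat hy hsm q1 (q2 ▸ hx) q3 (q2 ▸ hxy) (q3 ▸ q4) c1 hDU c4 ?_
    intro a ha w hw aw
    rcases mem_union.1 hw with e | e
    · exact mem_union.2 (c5 a ha w e aw)
    · refine mem_union_right _ ?_
      by_cases e1 : w = x
      · rw [e1, ← q2]; exact mem_pv_self (Nat.zero_le _)
      · by_cases e2 : w = y
        · rw [e2, ← q3]; exact mem_pv_self le_rfl
        · exact absurd aw (hl a ha w e e1 e2)
  obtain ⟨s, hsD, z, hz, hzx, hzy, az⟩ := hl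
  have hN' : OK2 k (l + β) := H.rt hG hUA hy hx hxy
    (q2 ▸ q3 ▸ (pv_path q1).mono (coe_subset.2 q4))
  have hrt : ∀ {S : Finset V} {m : ℕ}, S ⊆ U ∪ {q 0, q l} → PathIn G ↑S (q 0) (q l) m →
      OK2 k (m + β) := fun hS hm => H.rt hG hUA hy hx hxy (q2 ▸ q3 ▸ hm.mono (coe_subset.2 hS))
  have hlk : ∀ {S : Finset V} {w : V} {t : ℕ}, S ⊆ D → PathIn G ↑S w s t →
      ∀ i ∈ (np G q l w).filter (fun i => q i ∈ U),
        OK2 k (i + t + 2) ∧ OK2 k (l - i + t + 2 + β) := fun hS hP i hi => by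
    rw [mem_filter, mem_np] at hi
    exact H.leak hG hUA q1 (q3.symm ▸ hy) (q2.symm ▸ hx) q4 hz (q2.symm ▸ hzx) (q3.symm ▸ hzy) az
      (hS.trans hDU) (c4.mono_left hS) hP hi.1.1 hi.2 hi.1.2
  have f1 : ∀ w, ∀ i ∈ (np G q l w).filter (fun i => q i ∈ U), i ≤ l ∧ G.Adj w (q i) :=
    fun w i hi => mem_np.1 (mem_filter.1 hi).1
  have f2 : ∀ w ∈ D, ∀ i ∈ (np G q l w).filter (fun i => q i ∈ U),
      ∀ j ∈ (np G q l w).filter (fun i => q i ∈ U), (i : ZMod (2 * k)) = j → i = j :=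
    fun w hw i hi j hj => hG.np_inj q1 (hout w hw) i (mem_filter.1 hi).1 j (mem_filter.1 hj).1
  have f3 : ∀ w ∈ D, ∀ i ∈ (np G q l w).filter (fun i => q i ∈ U),
      ∀ j ∈ (np G q l w).filter (fun i => q i ∈ U), i < j → OK2 k (i + 2 + (l - j) + β) :=
    fun w hw i hi j hj hij => hrt (insert_subset (mem_union_left _ (hDU hw)) q4)
      (q1.det1 (hout w hw) hij (f1 w j hj).1 (f1 w i hi).2 (f1 w j hj).2)
  have f4 : ∀ w ∈ D, 3 ≤ deg G D w + ((np G q l w).filter (fun i => q i ∈ U)).card := by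
    intro w hw
    refine le_trans (d3 w (hDU hw) (hCy w (hDC hw))) (le_trans (card_le_card (t := nb G D w ∪
      ((np G q l w).filter (fun i => q i ∈ U)).image q) fun v hv => ?_)
      (le_trans (card_union_le _ _) (Nat.add_le_add_left card_image_le _)))
    rw [mem_nb] at hv
    rcases c5 w hw v hv.1 hv.2 with e | e
    · exact mem_union_left _ (mem_nb.2 ⟨e, hv.2⟩)
    · obtain ⟨i, hi, rfl⟩ := mem_pv.1 e
      exact mem_union_right _ (mem_image_of_mem _ (mem_filter.2 ⟨mem_np.2 ⟨hi, hv.2⟩, hv.1⟩))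
  have f5 : PathIn G ↑({s} : Finset V) s s 0 := PathIn.refl (by simp)
  rcases c6 with ⟨v, rfl⟩ | ⟨a, ha, b, hb, hab, da, db, h2, h3⟩ | ⟨j, hj, h2⟩
  · obtain rfl := mem_singleton.1 hsD
    have h2 := leak_arith hk (Nat.zero_le 1) hN' (fun i hi => (f1 s i hi).1) (f2 s hsD)
      (hlk Subset.rfl f5) (f3 s hsD)
    have h3 := f4 s hsD
    rw [deg_single_self] at h3
    omega
  · have h4 : ∀ c ∈ D, c = a ∨ c = b := by
      intro c hc
      by_contra h4
      push Not at h4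
      obtain ⟨h5, h6⟩ := h3 c hc h4.1 h4.2
      obtain ⟨i, hi⟩ := card_pos.1
        (show 0 < ((np G q l c).filter (fun i => q i ∈ U)).card by have := f4 c hc; omega)
      exact h6 i (f1 c i hi).1 (f1 c i hi).2
    have key : ∀ w ∈ D, G.Adj s w → deg G D s ≤ 1 → deg G D w ≤ 1 →
        (∀ i ≤ l, ¬ (G.Adj s (q i) ∧ G.Adj w (q i))) → False := by
      intro w hw sw d1 d2 h5
      have h6 : insert s (insert w (pv q l)) ⊆ U ∪ {q 0, q l} :=
        insert_subset (mem_union_left _ (hDU hsD)) (insert_subset (mem_union_left _ (hDU hw)) q4)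
      refine leak_edge_arith hk hN' (fun i hi => (f1 s i hi).1) (fun i hi => (f1 w i hi).1)
        (f2 s hsD) (f2 w hw) (by have := f4 s hsD; omega) (by have := f4 w hw; omega) ?_
        (hlk (singleton_subset_iff.2 hsD) f5)
        (hlk (S := {w, s}) (insert_subset hw (singleton_subset_iff.2 hsD))
          (PathIn.single sw.symm (by simp) (by simp))) (f3 s hsD) (f3 w hw) ?_ ?_
      · rintro i hi j hj rfl
        exact h5 i (f1 s i hi).1 ⟨(f1 s i hi).2, (f1 w i hj).2⟩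
      · exact fun i hi j hj hij => ⟨hrt h6 (q1.det2 (hout s hsD) (hout w hw) sw hij (f1 w j hj).1
          (f1 s i hi).2 (f1 w j hj).2), hG.cyc_edge q1 (hout s hsD) (hout w hw) sw hij
          (f1 w j hj).1 (f1 s i hi).2 (f1 w j hj).2⟩
      · exact fun i hi j hj hij => ⟨hrt (insert_comm s w _ ▸ h6) (q1.det2 (hout w hw) (hout s hsD)
          sw.symm hij (f1 s j hj).1 (f1 w i hi).2 (f1 s j hj).2), hG.cyc_edge q1 (hout w hw)
          (hout s hsD) sw.symm hij (f1 s j hj).1 (f1 w i hi).2 (f1 s j hj).2⟩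
    have h5 := c3.adj_of_pair ha hb hab h4
    rcases h4 s hsD with rfl | rfl
    · exact key b hb h5 da db h2
    · exact key a ha h5.symm db da fun i hi e => h2 i hi e.symm
  · have h3 : ∀ a ∈ D, ∀ w ∈ U, G.Adj a w → w ∈ D ∨ w = q j := by
      intro a ha w hw aw
      refine (c5 a ha w hw aw).imp_right fun e => ?_
      obtain ⟨i, hi, rfl⟩ := mem_pv.1 e
      rw [h2 a ha i hi aw]
    have h4 : q j ∈ U := by
      obtain ⟨a, ha, w, hw, h5, -, aw⟩ := hc.exists_adj (C := D) hsD (hDU hsD) h0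
        (fun e => h0C (hDC e))
      exact (h3 a ha w hw aw).resolve_left h5 ▸ hw
    refine ih D (fun i => q (j + i)) (l - j) ?_ (q1.shift hj) (by simp [hj, q3]) h4 ?_ hDU ?_ h3
      ⟨s, hsD, z, hz, hzy, az⟩
    · have := card_le_card c2
      have := card_lt_card (show C \ pv r n ⊂ C from ⟨sdiff_subset, fun e =>
        (mem_sdiff.1 (e r3)).2 (mem_pv_self le_rfl)⟩)
      omega
    · intro v hv
      obtain ⟨i, i1, i2, rfl⟩ := (mem_pv_shift hj).1 hv
      rcases mem_union.1 (q4 (mem_pv_self i2)) with e | e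
      · exact mem_insert_of_mem e
      · simp only [mem_insert, mem_singleton] at e
        rcases e with e | e
        · have := q1.inj i2 (Nat.zero_le _) e
          rw [show i = j by omega]; exact mem_insert_of_mem h4
        · rw [e, q3]; exact mem_insert_self _ _
    · rw [disjoint_left]
      intro v hv hv'
      obtain ⟨i, -, i2, rfl⟩ := (mem_pv_shift hj).1 hv'
      exact hout _ hv (mem_pv_self i2)

/-- a minimal strict piece is an edge between two full vertices -/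
lemma Hub.special (H : Hub G k A I) (hk : 3 ≤ k) (hG : NB G (2 * k)) (hUA : Disjoint U A)
    (hne : U.Nonempty) (hc : Conn G U) (hs : Sup G k U A) (hat : Att2 G U (U ∪ A)) :
    ∃ s s', s ∉ A ∧ s' ∉ A ∧ G.Adj s s' ∧ (∀ a ∈ A, G.Adj s a) ∧ ∀ a ∈ A, G.Adj s' a := by
  have hU : ∀ v ∈ U, v ∉ A := fun v hv => disjoint_left.1 hUA hv
  have dA : ∀ v, deg G A v ≤ k := fun v => H.1 ▸ deg_le_card A v
  have hrest : ∀ u ∈ U, ∃ v ∈ U \ {u}, ∃ z ∈ A, G.Adj v z := by
    intro u hu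
    have h1 := le_trans (hs.dg u hu) (deg_union_le _ _ _)
    have h2 := dA u
    obtain ⟨w, hw, a⟩ := exists_adj_of_deg_pos (show 0 < deg G U u by omega)
    obtain ⟨v, hv, z, hz, h3, h4, h5⟩ := hat (U \ {u}) sdiff_subset
      ⟨w, by simp [hw, a.ne.symm]⟩ u
    exact ⟨v, hv, z, (mem_union.1 hz).resolve_left fun e => h3 (by simp [e, h4]), h5⟩
  by_cases h1 : ∃ u ∈ U, k ≤ deg G A u + 1
  · obtain ⟨u, hu, du⟩ := h1
    by_cases h2 : ∃ u' ∈ U, u' ≠ u ∧ k ≤ deg G A u' + 1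
    · obtain ⟨u', hu', h2, du'⟩ := h2
      have h3 := H.gamma hk hG hUA hc hs.dg hat hu hu' h2.symm du du'
      have h4 : ∀ v ∈ U, ∀ w ∈ U, v ≠ w → (∀ c ∈ U, c = v ∨ c = w) → ∀ a ∈ A, G.Adj v a := by
        intro v hv w hw hvw h4
        have h5 := le_trans (hs.dg v hv) (deg_union_le _ _ _)
        have h6 : deg G U v ≤ 1 := deg_le_card' (T := {w}) fun c hc a => by
          simpa using (h4 c hc).resolve_left a.ne.symm
        have h7 : nb G A v = A := eq_of_subset_of_card_le (fun c hc => (mem_nb.1 hc).1) (by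
          rw [H.1]; unfold deg at h5 h6; omega)
        exact fun a ha => (mem_nb.1 (h7.symm ▸ ha)).2
      exact ⟨u, u', hU u hu, hU u' hu', hc.adj_of_pair hu hu' h2.symm h3,
        h4 u hu u' hu' h2.symm h3, h4 u' hu' u hu h2 fun c hc => (h3 c hc).symm⟩
    · exfalso
      push Not at h2
      obtain ⟨v, hv, z, hz, a⟩ := hrest u hu
      refine H.stage2 hk hG hUA hc hs hat (y := u) (Or.inr ⟨hu, by omega, rfl⟩)
        (fun w hw e => by have := h2 w hw e; omega) _ (U \ {u}) (fun _ => u) 0 le_rfl (IsP.zero _)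
        rfl hu (by simp [pv_const]) sdiff_subset (by simp [pv_const]) ?_
        ⟨v, hv, z, hz, fun e => hU u hu (e ▸ hz), a⟩
      intro _ _ w hw _
      by_cases e : w = u <;> simp [e, hw]
  exfalso
  push Not at h1
  have hA : ∀ z, ∃ u ∈ U, ∃ w ∈ A, w ≠ z ∧ G.Adj u w := fun z => by
    obtain ⟨u, hu, w, hw, h2, h3, h4⟩ := hat U Subset.rfl hne z
    exact ⟨u, hu, w, (mem_union.1 hw).resolve_left h2, h3, h4⟩
  obtain ⟨s, hsU, y, hy, a, v, hv, z, hz, hzy, a'⟩ : ∃ s ∈ U, ∃ y ∈ A, G.Adj s y ∧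
      ∃ v ∈ U \ {s}, ∃ z ∈ A, z ≠ y ∧ G.Adj v z := by
    obtain ⟨u0, -⟩ := hne
    obtain ⟨u1, hu1, z1, hz1, -, a1⟩ := hA u0
    obtain ⟨u2, hu2, z2, hz2, e2, a2⟩ := hA z1
    by_cases e : u2 = u1
    · subst e
      obtain ⟨v, hv, z, hz, a⟩ := hrest u2 hu2
      by_cases e' : z = z1
      · exact ⟨u2, hu2, z2, hz2, a2, v, hv, z, hz, e' ▸ e2.symm, a⟩
      · exact ⟨u2, hu2, z1, hz1, a1, v, hv, z, hz, e', a⟩
    · exact ⟨u1, hu1, z1, hz1, a1, u2, by simp [hu2, e], z2, hz2, e2, a2⟩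
  obtain ⟨p, p1, p2, p3, p4⟩ := PathIn.single a (S := {s, y}) (by simp) (by simp)
  refine H.stage2 hk hG hUA hc hs hat (y := y) (Or.inl ⟨hy, rfl⟩)
    (fun w hw _ => by have := h1 w hw; omega) _ (U \ {s}) p 1 le_rfl p1 p3 (p2 ▸ hsU) ?_
    sdiff_subset ?_ ?_ ⟨v, hv, z, hz, hzy, a'⟩
  · intro w hw
    obtain ⟨i, hi, rfl⟩ := mem_pv.1 hw
    rcases p4 i hi with e | e
    · rw [e]; exact mem_insert_of_mem hsU
    · rw [e]; exact mem_insert_self _ _
  · rw [disjoint_left]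
    intro w hw hw'
    obtain ⟨i, hi, rfl⟩ := mem_pv.1 hw'
    rw [mem_sdiff, mem_singleton] at hw
    rcases p4 i hi with e | e
    exacts [hw.2 e, hU _ hw.1 (e ▸ hy)]
  · intro _ _ w hw _
    rw [p2]
    by_cases e : w = s <;> simp [e, hw]

end Pool.Agent.Work.MP_66aaa3_co
end

-- merged part: Pool.Agent.Work.MP_66aaa3_co.Exact
section
namespace Pool.Agent.Work.MP_66aaa3_co

open Finset

set_option linter.unusedSectionVars false

variable {V : Type} [Fintype V] [DecidableEq V] {G : SimpleGraph V} {k : ℕ} {A I : Finset V}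

lemma par_cast_one {n : ℕ} (h : n % 2 = 1) : par k (n : ZMod (2 * k)) = 1 := by
  have := (par_eq_iff (k := k) (a := n) (b := 1)).2 h
  rw [this, Nat.cast_one, map_one]

/-- lengths of paths between elements of `A ∪ F` with interior in `O` -/
lemma Hub.allowed (H : Hub G k A I) (hk : 3 ≤ k) (hG : NB G (2 * k)) {F O : Finset V}
    (hF : ∀ f ∈ F, f ∉ A ∧ ∀ a ∈ A, G.Adj f a) (hO : ∀ v ∈ O, v ∉ A ∧ v ∉ F) {s s' : V}
    (hs : s ∈ F) (hs' : s' ∈ F) (hss : G.Adj s s') {b b' : V} (hne : b ≠ b') {n : ℕ}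
    (hn : 2 ≤ n) (hP : PathIn G (↑O ∪ {b, b'}) b b' n) :
    (b ∈ A → b' ∈ A → (n : ZMod (2 * k)) = 1 ∨ (n : ZMod (2 * k)) = 2) ∧
    (b ∈ A → b' ∈ F → (n : ZMod (2 * k)) = 0 ∨ (n : ZMod (2 * k)) = 1) ∧
    (b ∈ F → b' ∈ F → n % 2 = 1 ∧ (n : ZMod (2 * k)) ≠ 1) := by
  have e2 := @Hub.e2 V _ G k A I H hk hG s s' (hF s hs).1 (hF s' hs').1 hss (hF s hs).2 (hF s' hs').2
  have m1 : ∀ v ∈ (↑O ∪ {b, b'} : Set V), v ∈ A ∨ v ∈ F → v = b ∨ v = b' := by
    rintro v (e | e) hv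
    · exact absurd hv (not_or.2 (hO v e))
    · exact e
  have n2 : ((2 : ℕ) : ZMod (2 * k)) ≠ 0 := cast_ne_zero' (by omega) (by omega)
  refine ⟨fun hb hb' => e2 hb hb' hne hP (fun v hv hA => m1 v hv (Or.inl hA)) (fun e => ?_)
    (fun e => ?_), fun hb hb' => ?_, fun hb hb' => ?_⟩
  · rcases m1 s e (Or.inr hs) with e | e
    exacts [(hF s hs).1 (e ▸ hb), (hF s hs).1 (e ▸ hb')]
  · rcases m1 s' e (Or.inr hs') with e | e
    exacts [(hF s' hs').1 (e ▸ hb), (hF s' hs').1 (e ▸ hb')]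
  · obtain ⟨h, hh, h1⟩ := exists_mem_ne (s := A) (by rw [H.1]; omega) b
    have m2 : ∀ v ∈ (↑O ∪ {b, b'} : Set V), v ∈ A → v = b := fun v hv hA =>
      (m1 v hv (Or.inl hA)).resolve_right fun e => (hF b' hb').1 (e ▸ hA)
    have m3 : ∀ v ∈ F, v ≠ b' → v ∉ (↑O ∪ {b, b'} : Set V) := fun v hv e e' =>
      (m1 v e' (Or.inr hv)).elim (fun e'' => (hF v hv).1 (e'' ▸ hb)) e
    have p1 := hP.snoc ((hF b' hb').2 h hh) fun e => h1 (m2 h e hh)
    have m4 : ∀ v ∈ insert h (↑O ∪ {b, b'} : Set V), v ∈ A → v = b ∨ v = h := by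
      rintro v (e | e) hA
      exacts [Or.inr e, Or.inl (m2 v e hA)]
    have key : ∀ t ∈ F, G.Adj b' t → (n : ZMod (2 * k)) = 0 ∨ (n : ZMod (2 * k)) = 1 := by
      intro t ht a
      by_cases h2 : n % 2 = 1
      · have := (H.e1 hG hb hh h1.symm p1 m4).even (by omega)
        right; push_cast at this; linear_combination this
      · have := (H.e1 hG hb hh h1.symm ((hP.snoc a (m3 t ht a.ne.symm)).snoc ((hF t ht).2 h hh) (by
          rintro (e | e)
          exacts [(hF t ht).1 (e ▸ hh), h1 (m2 h e hh)])) (by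
          rintro v (e | e | e) hA
          exacts [Or.inr e, absurd (e ▸ hA) (hF t ht).1, Or.inl (m2 v e hA)])).even (by omega)
        left; push_cast at this; linear_combination this
    by_cases e1 : b' = s
    · exact key s' hs' (e1 ▸ hss)
    by_cases e1' : b' = s'
    · exact key s hs (e1' ▸ hss.symm)
    rcases e2 hb hh h1.symm p1 m4 (by
      rintro (e | e)
      exacts [(hF s hs).1 (e ▸ hh), m3 s hs (Ne.symm e1) e]) (by
      rintro (e | e)
      exacts [(hF s' hs').1 (e ▸ hh), m3 s' hs' (Ne.symm e1') e]) with e | e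
    · left; push_cast at e; linear_combination e
    · right; push_cast at e; linear_combination e
  · obtain ⟨h, hh, h', hh', h1⟩ := one_lt_card.1 (show 1 < A.card by rw [H.1]; omega)
    have m2 : ∀ v ∈ (↑O ∪ {b, b'} : Set V), v ∉ A := fun v hv hA =>
      (m1 v hv (Or.inl hA)).elim (fun e => (hF b hb).1 (e ▸ hA)) fun e => (hF b' hb').1 (e ▸ hA)
    have full : ∀ {S : Set V} {f f' : V} {m : ℕ}, (∀ v ∈ S, v ∉ A) → f ∈ F → f' ∈ F → f ≠ f' →
        PathIn G S f f' m → m % 2 = 1 := by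
      intro S f f' m hS hf hf' hff hP
      by_contra h2
      have h3 := (H.ear hG hS hP hh hh' h1 ((hF f hf).2 h hh) ((hF f' hf').2 h' hh')).even
        (by omega)
      refine hG.close2 hP ((hF f hf).2 h hh).symm ((hF f' hf').2 h hh).symm (fun e => hS h e hh)
        (hP.pos_of_ne hff) ?_
      push_cast at h3; linear_combination h3
    have h2 := full m2 hb hb' hne hP
    refine ⟨h2, fun h3 => ?_⟩
    have m3 : ∀ v ∈ F, v ≠ b → v ≠ b' → v ∉ (↑O ∪ {b, b'} : Set V) := fun v hv e e' e'' =>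
      (m1 v e'' (Or.inr hv)).elim e e'
    have k1 : ¬ G.Adj b' b := fun a => hG.close hP a hn (by push_cast; rw [h3]; ring)
    have k2 : ∀ t ∈ F, G.Adj b' t → False := fun t ht a => by
      have h4 : t ≠ b := fun e => k1 (e ▸ a)
      have := full (by
        rintro v (e | e)
        exacts [e ▸ (hF t ht).1, m2 v e]) hb ht h4.symm (hP.snoc a (m3 t ht h4 a.ne.symm))
      omega
    have k3 : ∀ t ∈ F, G.Adj b t → False := fun t ht a => by
      have h4 : t ≠ b' := fun e => k1 (e ▸ a.symm)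
      have := full (by
        rintro v (e | e)
        exacts [e ▸ (hF t ht).1, m2 v e]) ht hb' h4 (hP.cons a.symm (m3 t ht a.ne.symm h4))
      omega
    have m4 : ∀ t ∈ F, ∀ t' ∈ F, G.Adj t t' →
        t ∉ insert h' (insert h (↑O ∪ {b, b'} : Set V)) := by
      rintro t ht t' ht' a (e | e | e)
      · exact (hF t ht).1 (e ▸ hh')
      · exact (hF t ht).1 (e ▸ hh)
      · rcases m1 t e (Or.inr ht) with rfl | rfl
        exacts [k3 t' ht' a, k2 t' ht' a]
    rcases e2 hh hh' h1 ((hP.cons ((hF b hb).2 h hh).symm (fun e => m2 h e hh)).snoc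
      ((hF b' hb').2 h' hh') (by
        rintro (e | e)
        exacts [h1 e.symm, m2 h' e hh'])) (by
        rintro v (e | e | e) hA
        exacts [Or.inr e, Or.inl e, absurd hA (m2 v e)]) (m4 s hs s' hs' hss)
      (m4 s' hs' s hs hss.symm) with e | e
    · push_cast at e n2
      exact n2 (by linear_combination e - h3)
    · have h4 := mod_two_of_cast_eq (k := k) (a := n + 1 + 1) (b := 2) (by exact_mod_cast e)
      omega

/-- with a special edge, nothing outside the hubs and the full vertices is good -/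
lemma Hub.no_good (H : Hub G k A I) (hk : 3 ≤ k) (h2 : TwoConn G) (hG : NB G (2 * k))
    {F : Finset V} (hF : ∀ f, f ∈ F ↔ f ∉ A ∧ ∀ a ∈ A, G.Adj f a) {s s' : V}
    (hs : s ∈ F) (hs' : s' ∈ F) (hss : G.Adj s s') {D : Finset V} (hD : D.Nonempty)
    (hd : Disjoint D (A ∪ F)) : inc2 G D (A ∪ F) < 2 * k * D.card := by
  by_contra hc
  obtain ⟨U, hUD, hU, g1, g2⟩ := min_good (k := k) hD hd (not_lt.1 hc)
  have hUd : Disjoint U (A ∪ F) := hd.mono_left hUD
  have hO : ∀ v ∈ U, v ∉ A ∧ v ∉ F := fun v hv => by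
    simpa [not_or] using disjoint_left.1 hUd hv
  have al := fun {b b' : V} (hne : b ≠ b') {n : ℕ} (hn : 2 ≤ n)
    (hP : PathIn G (↑U ∪ {b, b'}) b b' n) =>
    H.allowed hk hG (fun f hf => (hF f).1 hf) hO hs hs' hss hne hn hP
  have n1 : ((1 : ℕ) : ZMod (2 * k)) ≠ 0 := cast_ne_zero' (by omega) (by omega)
  have n2 : ((2 : ℕ) : ZMod (2 * k)) ≠ 0 := cast_ne_zero' (by omega) (by omega)
  have two : ∀ v ∈ U, ∀ b ∈ nb G (A ∪ F) v, ∀ b' ∈ nb G (A ∪ F) v, b ≠ b' → b ∈ A := by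
    have key : ∀ v ∈ U, ∀ b ∈ nb G (A ∪ F) v, ∀ b' ∈ nb G (A ∪ F) v, b ≠ b' → b' ∈ F → False := by
      intro v hv b hb b' hb' hne hF'
      rw [mem_nb] at hb hb'
      have h3 := al hne le_rfl (((PathIn.single hb'.2 (S := {v, b'}) (by simp) (by simp)).cons
        hb.2.symm (by
          rintro (e | e)
          exacts [disjoint_left.1 hUd hv (e ▸ hb.1), hne e])).mono (by
          rintro w (rfl | rfl | rfl) <;> simp [hv]))
      rcases mem_union.1 hb.1 with e | e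
      · rcases h3.2.1 e hF' with e | e
        · exact n2 e
        · push_cast at e n1; exact n1 (by linear_combination e)
      · have := (h3.2.2 e hF').1; omega
    intro v hv b hb b' hb' hne
    exact (mem_union.1 (mem_nb.1 hb).1).resolve_right fun e => key v hv b' hb' b hb hne.symm e
  have sub : ∀ v ∈ U, 2 ≤ deg G (A ∪ F) v → nb G (A ∪ F) v ⊆ A := fun v hv h b hb => by
    obtain ⟨b', hb', e⟩ := exists_mem_ne h b
    exact two v hv b hb b' hb' e.symm
  have small : ∀ v ∈ U, deg G (A ∪ F) v + 1 ≤ k := by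
    intro v hv
    by_contra h3
    have h4 := sub v hv (by omega)
    have h5 := eq_of_subset_of_card_le h4 (by rw [H.1]; unfold deg at h3; omega)
    exact (hO v hv).2 ((hF v).2 ⟨(hO v hv).1, fun a ha => (mem_nb.1 (h5.symm ▸ ha)).2⟩)
  have hdg : Dg G U (U ∪ (A ∪ F)) (k + 1) := by
    intro v hv
    refine deg_of_inc2 (g2 {v} (singleton_subset_iff.2 hv) (singleton_nonempty v) fun e => ?_)
    have h3 := g1 {v} (singleton_subset_iff.2 hv)
    rw [← e, sdiff_self, bot_eq_empty, union_empty, inc2_single, card_singleton] at h3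
    have := small v hv
    omega
  rcases att2_or_dense (k := k) ⟨s, mem_union_right _ hs⟩ hUd (fun C hC _ => g1 C hC) with
    hat | ⟨z, -, Y, hY, hY'⟩
  swap
  · refine H.x1 hk h2 hG hY' fun a ha b hb ha' hb' => ?_
    rw [(mem_insert.1 (hY ha)).resolve_right fun e => (hO a e).1 ha',
      (mem_insert.1 (hY hb)).resolve_right fun e => (hO b e).1 hb']
  rcases cfg hk hG hU hUd hdg hat with ⟨v, hv, h3⟩ | ⟨v, hv, v', hv', Ω, c1, c2, c3, c4, c5, x, hx,
    x', hx', hxx⟩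
  · have := small v hv; omega
  have sv := small v hv
  have sv' := small v' hv'
  have b2 : ∀ a b : ZMod (2 * k), (∀ ω ∈ Ω, ω = a ∨ ω = b) → Ω.card ≤ 2 := fun a b h =>
    le_trans (card_le_card (t := {a, b}) fun ω hω => by simpa using h ω hω) card_le_two
  have hAA : x ∈ A → x' ∈ A → ∀ ω ∈ Ω, ω = 1 ∨ ω = 2 := fun e e' ω hω => by
    obtain ⟨n, hn, rfl, hP⟩ := c4 ω hω x hx x' hx' hxx
    exact (al hxx hn hP).1 e e'
  by_cases h3 : 2 ≤ deg G (A ∪ F) v
  · have h4 := sub v hv h3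
    have h5 := sub v' hv' (by omega)
    have h6 := hAA (h4 hx) (h5 hx')
    have h7 := b2 _ _ h6
    have h8 : ¬ Disjoint (nb G (A ∪ F) v) (nb G (A ∪ F) v') := fun e => by
      have := card_le_card (union_subset h4 h5)
      rw [card_union_of_disjoint e, H.1] at this
      unfold deg at c2 c3
      omega
    have h9 := c5 (not_disjoint_iff.1 h8)
    have h10 : Ω.card ≤ 1 := card_le_card (t := {1}) fun ω hω =>
      mem_singleton.2 ((h6 ω hω).resolve_right fun e => h9 (e ▸ hω))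
    omega
  rcases mem_union.1 (mem_nb.1 hx).1 with e | e <;> rcases mem_union.1 (mem_nb.1 hx').1 with e' | e'
  · have := b2 _ _ (hAA e e'); omega
  · have := b2 0 1 fun ω hω => by
      obtain ⟨n, hn, rfl, hP⟩ := c4 ω hω x hx x' hx' hxx
      exact (al hxx hn hP).2.1 e e'
    omega
  · have := b2 0 1 fun ω hω => by
      obtain ⟨n, hn, rfl, hP⟩ := c4 ω hω x hx x' hx' hxx
      exact (al hxx.symm hn (Set.pair_comm x x' ▸ hP.symm)).2.1 e' e
    omega
  · have h4 : ∀ ω ∈ Ω, par k ω = 1 ∧ ω ≠ 1 := fun ω hω => by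
      obtain ⟨n, hn, rfl, hP⟩ := c4 ω hω x hx x' hx' hxx
      have := (al hxx hn hP).2.2 e e'
      exact ⟨par_cast_one this.1, this.2⟩
    have h5 := card_par_le (k := k) (by omega) (L := insert 1 Ω) (e := 1) fun ω hω => by
      rcases mem_insert.1 hω with rfl | hω
      exacts [map_one _, (h4 ω hω).1]
    rw [card_insert_of_notMem fun e => (h4 1 e).2 rfl] at h5
    omega

lemma EE_self_le (S : Finset V) : EE G S S + S.card ≤ S.card * S.card ∧
    (S.card * S.card ≤ EE G S S + S.card → ∀ a ∈ S, ∀ b ∈ S, a ≠ b → G.Adj a b) := by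
  have h1 : ∀ a ∈ S, deg G S a + 1 ≤ S.card := fun a ha => by
    have := deg_le_card' (G := G) (S := S) (T := S.erase a) (v := a)
      fun w hw e => mem_erase.2 ⟨e.ne.symm, hw⟩
    rw [card_erase_of_mem ha] at this
    have := card_pos.2 ⟨a, ha⟩
    omega
  have h2 : EE G S S + S.card = ∑ a ∈ S, (deg G S a + 1) := by
    rw [sum_add_distrib]; simp [EE]
  have h3 : S.card * S.card = ∑ _a ∈ S, S.card := by simp
  rw [h2, h3]
  refine ⟨sum_le_sum h1, fun h a ha b hb hab => ?_⟩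
  have h4 := (sum_eq_sum_iff_of_le h1).1 (le_antisymm (sum_le_sum h1) h) a ha
  have h5 : nb G S a = S.erase a := eq_of_subset_of_card_le
    (fun w hw => mem_erase.2 ⟨(mem_nb.1 hw).2.ne.symm, (mem_nb.1 hw).1⟩) (by
      rw [card_erase_of_mem ha]; unfold deg at h4; omega)
  exact (mem_nb.1 (h5.symm ▸ mem_erase.2 ⟨hab.symm, hb⟩)).2

theorem exact_step (hk : 3 ≤ k) (h : TwoConn G) (hG : NB G (2 * k)) (hM : KM G k (4 * k))
    (hE : 2 * k * Fintype.card V + 2 ≤ EE G univ univ + k * (k + 1)) :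
    ∃ (A : Finset V) (s s' : V), A.card = k ∧ s ∉ A ∧ s' ∉ A ∧ s ≠ s' ∧
      ∀ u v, G.Adj u v ↔ u ≠ v ∧ (u ∈ A ∨ v ∈ A ∨ (u = s ∧ v = s') ∨ (u = s' ∧ v = s)) := by
  classical
  obtain ⟨A, I, H⟩ := hM
  replace H : Hub G k A I := H
  have hA := EE_self_le (G := G) A
  rw [H.1] at hA
  have hkk : k * (k + 1) = k * k + k := by ring
  obtain ⟨s, s', s1, s2, hss, s3, s4⟩ : ∃ s s', s ∉ A ∧ s' ∉ A ∧ G.Adj s s' ∧
      (∀ a ∈ A, G.Adj s a) ∧ ∀ a ∈ A, G.Adj s' a := by
    have h1 := EE_self_union (G := G) (C := univ \ A) (S := A) disjoint_sdiff.symm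
    rw [sdiff_union_of_subset (subset_univ A)] at h1
    have h2 := card_sdiff_add_card_eq_card (subset_univ A)
    rw [card_univ, H.1] at h2
    obtain ⟨U, hU, u1, u2, u3⟩ := min_strict (G := G) (k := k) (D := univ \ A) (S := A)
      disjoint_sdiff.symm (by
        rw [← h2, Nat.mul_add, mul_assoc 2 k k] at hE
        omega)
    have hUA : Disjoint U A := disjoint_sdiff.symm.mono_left hU
    rcases att2_or_dense (k := k) (card_pos.1 (by rw [H.1]; omega)) hUA
      (fun C hC hne => (u3 C hC hne).le) with hat | ⟨z, -, Y, hY, hY'⟩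
    · exact H.special hk hG hUA u1 u2 u3 hat
    · exfalso
      refine H.x1 hk h hG hY' fun a ha b hb ha' hb' => ?_
      rw [(mem_insert.1 (hY ha)).resolve_right fun e => disjoint_left.1 hUA e ha',
        (mem_insert.1 (hY hb)).resolve_right fun e => disjoint_left.1 hUA e hb']
  obtain ⟨F, hF⟩ : ∃ F : Finset V, ∀ f, f ∈ F ↔ f ∉ A ∧ ∀ a ∈ A, G.Adj f a :=
    ⟨univ.filter fun f => f ∉ A ∧ ∀ a ∈ A, G.Adj f a, by simp⟩
  have hs : s ∈ F := (hF s).2 ⟨s1, s3⟩
  have hs' : s' ∈ F := (hF s').2 ⟨s2, s4⟩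
  have hFA : Disjoint F A := disjoint_left.2 fun f hf => ((hF f).1 hf).1
  obtain ⟨a1, ha1, a2, ha2, h12⟩ := one_lt_card.1 (show 1 < A.card by rw [H.1]; omega)
  have edge : ∀ f ∈ F, ∀ f' ∈ F, G.Adj f f' → (f = s ∧ f' = s') ∨ (f = s' ∧ f' = s) := by
    have n1 : ((1 : ℕ) : ZMod (2 * k)) ≠ 0 := cast_ne_zero' (by omega) (by omega)
    have n2 : ((2 : ℕ) : ZMod (2 * k)) ≠ 0 := cast_ne_zero' (by omega) (by omega)
    have k1 : ∀ a ∈ F, ∀ b ∈ F, ∀ c ∈ F, G.Adj a b → G.Adj b c → a = c := by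
      intro a ha b hb c hc ab bc
      by_contra hne
      have h1 := (H.ear hG (S := insert c {a, b}) (by
        rintro v (rfl | rfl | rfl)
        exacts [((hF _).1 hc).1, ((hF _).1 ha).1, ((hF _).1 hb).1])
        ((PathIn.single ab (S := {a, b}) (by simp) (by simp)).snoc bc (by
          rintro (e | e)
          exacts [hne e.symm, bc.ne e.symm])) ha1 ha2 h12 (((hF a).1 ha).2 _ ha1)
        (((hF c).1 hc).2 _ ha2)).even rfl
      push_cast at h1 n2
      exact n2 (by linear_combination h1)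
    intro f hf f' hf' a
    by_cases e1 : f = s
    · exact Or.inl ⟨e1, (k1 s' hs' s hs f' hf' hss.symm (e1 ▸ a)).symm⟩
    by_cases e2 : f = s'
    · exact Or.inr ⟨e2, (k1 s hs s' hs' f' hf' hss (e2 ▸ a)).symm⟩
    exfalso
    have e3 : f' ≠ s := fun e => e2 (k1 f hf s hs s' hs' (e ▸ a) hss)
    have e4 : f' ≠ s' := fun e => e1 (k1 f hf s' hs' s hs (e ▸ a) hss.symm)
    have f1 := (hF f).1 hf
    have f2 := (hF f').1 hf'
    rcases H.e2 hk hG s1 s2 hss s3 s4 ha1 ha2 h12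
      (((PathIn.single a (S := {f, f'}) (by simp) (by simp)).cons (f1.2 _ ha1).symm (by
        rintro (e | e)
        exacts [f1.1 (e ▸ ha1), f2.1 (e ▸ ha1)])).snoc (f2.2 _ ha2) (by
        rintro (e | e | e)
        exacts [h12 e.symm, f1.1 (e ▸ ha2), f2.1 (e ▸ ha2)])) (by
        rintro v (e | e | e | e) hv
        exacts [Or.inr e, Or.inl e, absurd (e ▸ hv) f1.1, absurd (e ▸ hv) f2.1]) (by
        rintro (e | e | e | e)
        exacts [s1 (e ▸ ha2), s1 (e ▸ ha1), e1 e.symm, e3 e.symm]) (by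
        rintro (e | e | e | e)
        exacts [s2 (e ▸ ha2), s2 (e ▸ ha1), e2 e.symm, e4 e.symm]) with e | e
    · push_cast at e n2; exact n2 (by linear_combination e)
    · push_cast at e n1; exact n1 (by linear_combination e)
  have e1 : EE G F F ≤ 2 := by
    have h1 : EE G F F ≤ EE G F {s, s'} := EE_le_of fun u hu w hw a => by
      rcases edge u hu w hw a with e | e <;> simp [e.2]
    rw [EE_comm F {s, s'}] at h1
    have h2 : EE G {s, s'} F ≤ EE G {s, s'} {s, s'} := EE_le_of fun u hu w hw a => by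
      have hu' : u ∈ F := by
        rcases mem_insert.1 hu with rfl | e
        exacts [hs, mem_singleton.1 e ▸ hs']
      rcases edge u hu' w hw a with e | e <;> simp [e.2]
    have h3 := (EE_self_le (G := G) {s, s'}).1
    rw [card_pair hss.ne] at h3
    omega
  have e2 : EE G F A ≤ F.card * k := H.1 ▸ EE_le_sq F A
  have e3 := EE_self_union (G := G) hFA
  have e4 := EE_self_union (G := G) (C := univ \ (A ∪ F)) (S := A ∪ F) disjoint_sdiff.symm
  rw [sdiff_union_of_subset (subset_univ _), union_comm A F, e3, union_comm F A] at e4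
  have e5 := card_sdiff_add_card_eq_card (subset_univ (A ∪ F))
  rw [card_univ, card_union_of_disjoint hFA.symm, H.1] at e5
  rw [← e5, Nat.mul_add, Nat.mul_add, mul_assoc 2 k k, mul_assoc 2 k F.card, mul_comm k F.card]
    at hE
  unfold inc2 at e4
  rcases (univ \ (A ∪ F)).eq_empty_or_nonempty with h1 | h1
  swap
  · have := H.no_good hk h hG hF hs hs' hss h1 disjoint_sdiff.symm
    unfold inc2 at this
    omega
  rw [h1] at e4 hE
  simp only [EE_empty, card_empty] at e4 hE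
  have hcl := hA.2 (by omega)
  have hall : ∀ v, v ∈ A ∨ v ∈ F := fun v =>
    mem_union.1 (sdiff_eq_empty_iff_subset.1 h1 (mem_univ v))
  refine ⟨A, s, s', H.1, s1, s2, hss.ne, fun u v => ⟨fun a => ⟨a.ne, ?_⟩, ?_⟩⟩
  · rcases hall u with e | e
    · exact Or.inl e
    rcases hall v with e' | e'
    · exact Or.inr (Or.inl e')
    · exact Or.inr (Or.inr (edge u e v e' a))
  · have key : ∀ u v, u ≠ v → u ∈ A → G.Adj u v := fun u v hne hu => by
      rcases hall v with e | e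
      exacts [hcl u hu v e hne, (((hF v).1 e).2 u hu).symm]
    rintro ⟨hne, e | e | ⟨rfl, rfl⟩ | ⟨rfl, rfl⟩⟩
    exacts [key u v hne e, (key v u hne.symm e).symm, hss, hss.symm]

end Pool.Agent.Work.MP_66aaa3_co
end

-- merged part: Pool.Agent.Work.MP_66aaa3_co.Final
section
namespace Pool.Agent.Work.MP_66aaa3_co

open Finset SimpleGraph

variable {V : Type} {G : SimpleGraph V} {k : ℕ}

lemma fin_walk {p : ℕ → V} {n : ℕ} (h : IsP G p n) :
    ∃ W : G.Walk (p n) (p 0), W.IsPath ∧ W.length = n ∧ (∀ v ∈ W.support, ∃ i ≤ n, p i = v) ∧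
      ∀ e ∈ W.edges, ∃ i < n, e = s(p (i + 1), p i) := by
  induction n with
  | zero => exact ⟨Walk.nil, by simp, by simp, by simp, by simp⟩
  | succ n ih =>
    obtain ⟨W, h1, h2, h3, h4⟩ := ih (h.trunc (by omega))
    refine ⟨Walk.cons (h.adj (by omega : n < n + 1)).symm W, ?_, by simp [h2], ?_, ?_⟩
    · rw [Walk.cons_isPath_iff]
      refine ⟨h1, fun hm => ?_⟩
      obtain ⟨i, hi, e⟩ := h3 _ hm
      have := h.inj (by omega) le_rfl e
      omega
    · intro v hv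
      rw [Walk.support_cons, List.mem_cons] at hv
      rcases hv with rfl | hv
      · exact ⟨n + 1, le_rfl, rfl⟩
      · obtain ⟨i, hi, e⟩ := h3 _ hv
        exact ⟨i, by omega, e⟩
    · intro e he
      rw [Walk.edges_cons, List.mem_cons] at he
      rcases he with rfl | he
      · exact ⟨n, by omega, rfl⟩
      · obtain ⟨i, hi, e⟩ := h4 _ he
        exact ⟨i, by omega, e⟩

lemma fin_NB {m : ℕ} (h : ∀ (v : V) (c : G.Walk v v), c.IsCycle → ¬ c.length ≡ 2 [MOD m]) :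
    NB G m := by
  intro p n hp hn ha e
  obtain ⟨W, h1, h2, -, h4⟩ := fin_walk hp
  refine h (p 0) (Walk.cons ha.symm W) ?_ ?_
  · rw [Walk.cons_isCycle_iff]
    refine ⟨h1, fun hm => ?_⟩
    obtain ⟨i, hi, e'⟩ := h4 _ hm
    rw [Sym2.eq_iff] at e'
    rcases e' with ⟨e1, -⟩ | ⟨e1, e2⟩
    · have := hp.inj (by omega) (by omega) e1; omega
    · have := hp.inj (by omega) (by omega) e1
      have := hp.inj (by omega) (by omega) e2
      omega
  · rw [Walk.length_cons, h2, ← ZMod.natCast_eq_natCast_iff]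
    exact_mod_cast e

lemma fin_path {S : Set V} {a b : S} (h : (G.induce S).Reachable a b) :
    ∃ n, PathIn G S a b n := by
  obtain ⟨W⟩ := h
  induction W with
  | nil => exact ⟨0, PathIn.refl (Subtype.prop _)⟩
  | cons h W ih =>
    obtain ⟨n, hn⟩ := ih
    obtain ⟨n', hn'⟩ := hn.symm.step (show G.Adj _ _ from h.symm) (Subtype.prop _)
    exact ⟨n', hn'.symm⟩

lemma fin_twoConn [Fintype V] (h3 : 3 ≤ Fintype.card V)
    (h : ∀ v, (G.induce ({v}ᶜ : Set V)).Connected) : TwoConn G :=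
  ⟨h3, fun v a b ha hb => fin_path (S := {v}ᶜ) (a := ⟨a, ha⟩) (b := ⟨b, hb⟩) ((h v).preconnected _ _)⟩

lemma fin_EE [Fintype V] : EE G univ univ = 2 * G.edgeSet.ncard := by
  classical
  rw [Set.ncard_eq_toFinset_card', ← edgeFinset, ← sum_degrees_eq_twice_card_edges]
  refine sum_congr rfl fun v _ => ?_
  rw [deg, ← card_neighborFinset_eq_degree]
  congr 1
  ext w
  simp

/-- the structure of the extremal graph -/
def Str (G : SimpleGraph V) (k : ℕ) : Prop :=
  ∃ (A : Finset V) (s s' : V), A.card = k ∧ s ∉ A ∧ s' ∉ A ∧ s ≠ s' ∧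
    ∀ u v, G.Adj u v ↔ u ≠ v ∧ (u ∈ A ∨ v ∈ A ∨ (u = s ∧ v = s') ∨ (u = s' ∧ v = s))

lemma Str.EE [Fintype V] (h : Str G k) :
    EE G univ univ + k * (k + 1) = 2 * k * Fintype.card V + 2 := by
  classical
  obtain ⟨A, s, s', hA, hs, hs', hne, h⟩ := h
  have d1 : ∀ v ∈ A, deg G univ v + 1 = Fintype.card V := by
    intro v hv
    have : nb G univ v = univ.erase v := by
      ext w; simp [h, hv, eq_comm]
    rw [deg, this, card_erase_add_one (mem_univ v), card_univ]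
  have d2 : ∀ v ∈ ({s, s'} : Finset V), deg G univ v = k + 1 := by
    intro v hv
    rw [mem_insert, mem_singleton] at hv
    rcases hv with rfl | rfl
    · have : nb G univ v = insert s' A := by
        ext w
        simp only [mem_nb, mem_univ, true_and, h, mem_insert]
        constructor
        · rintro ⟨-, h1 | h1 | h1 | h1⟩
          · exact absurd h1 hs
          · exact Or.inr h1
          · exact Or.inl h1
          · exact absurd h1.1 hne
        · rintro (rfl | h1)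
          · exact ⟨hne, by simp⟩
          · exact ⟨fun e => hs (e ▸ h1), by simp [h1]⟩
      rw [deg, this, card_insert_of_notMem hs', hA]
    · have : nb G univ v = insert s A := by
        ext w
        simp only [mem_nb, mem_univ, true_and, h, mem_insert]
        constructor
        · rintro ⟨-, h1 | h1 | h1 | h1⟩
          · exact absurd h1 hs'
          · exact Or.inr h1
          · exact absurd h1.1 hne.symm
          · exact Or.inl h1
        · rintro (rfl | h1)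
          · exact ⟨hne.symm, by simp⟩
          · exact ⟨fun e => hs' (e ▸ h1), by simp [h1]⟩
      rw [deg, this, card_insert_of_notMem hs, hA]
  have d3 : ∀ v ∈ univ \ (A ∪ {s, s'}), deg G univ v = k := by
    intro v hv
    simp only [mem_sdiff, mem_univ, mem_union, mem_insert, mem_singleton, true_and, not_or] at hv
    have : nb G univ v = A := by
      ext w
      simp only [mem_nb, mem_univ, true_and, h]
      constructor
      · rintro ⟨-, h1 | h1 | h1 | h1⟩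
        · exact absurd h1 hv.1
        · exact h1
        · exact absurd h1.1 hv.2.1
        · exact absurd h1.1 hv.2.2
      · intro h1
        exact ⟨fun e => hv.1 (e ▸ h1), by simp [h1]⟩
    rw [deg, this, hA]
  have hd : Disjoint A {s, s'} := by
    rw [disjoint_right]; intro v hv
    rw [mem_insert, mem_singleton] at hv
    rcases hv with rfl | rfl <;> assumption
  have e1 := sum_sdiff (f := fun v => deg G univ v) (subset_univ (A ∪ {s, s'}))
  have e2 := card_sdiff_add_card_eq_card (subset_univ (A ∪ {s, s'}))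
  rw [card_union_of_disjoint hd, card_pair hne, hA, card_univ] at e2
  rw [sum_union hd, sum_congr rfl d3, sum_congr rfl d2, sum_const, sum_const, card_pair hne,
    smul_eq_mul, smul_eq_mul] at e1
  have e3 : ∑ v ∈ A, (deg G univ v + 1) = k * Fintype.card V := by
    rw [sum_congr rfl d1, sum_const, hA, smul_eq_mul]
  rw [sum_add_distrib, sum_const, hA, smul_eq_mul, mul_one] at e3
  rw [MP_66aaa3_co.EE, ← e1]
  rw [← e2] at e3 ⊢
  nlinarith

lemma Str.edges [Fintype V] (h : Str G k) :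
    G.edgeSet.ncard = k.choose 2 + k * (Fintype.card V - k) + 1 := by
  have h1 := h.EE
  obtain ⟨A, -, -, hA, -⟩ := h
  have h2 : k ≤ Fintype.card V := hA ▸ card_le_univ A
  obtain ⟨r, hr⟩ := Nat.exists_eq_add_of_le h2
  rw [fin_EE, hr] at h1
  rw [hr, Nat.add_sub_cancel_left]
  have h3 : 2 * k.choose 2 + k = k * k := by
    rw [Nat.choose_two_right, Nat.mul_div_cancel' (Nat.even_mul_pred_self k).two_dvd]
    cases k with
    | zero => rfl
    | succ k => simp only [Nat.add_sub_cancel]; ring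
  nlinarith

lemma Str.cyc (h : Str G k) (v : V) (c : G.Walk v v) (hc : c.IsCycle) :
    ¬ c.length ≡ 2 [MOD 2 * k] := by
  classical
  obtain ⟨A, s, s', hA, hs, hs', hne, h⟩ := h
  have h3 := hc.three_le_length
  have i1 : ∀ i < c.length, ∀ j < c.length, c.getVert i = c.getVert j → i = j := fun i hi j hj e =>
    hc.getVert_injOn' (by simp only [Set.mem_ofPred_eq]; omega)
      (by simp only [Set.mem_ofPred_eq]; omega) e
  have i2 : ∀ i < c.length, ∀ j < c.length, c.getVert (i + 1) = c.getVert (j + 1) → i = j :=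
    fun i hi j hj e => by
      have := hc.getVert_injOn (x₁ := i + 1) (x₂ := j + 1) (by simp only [Set.mem_ofPred_eq]; omega)
        (by simp only [Set.mem_ofPred_eq]; omega) e
      omega
  have i3 : ∀ i < c.length, ∀ j < c.length, c.getVert (i + 1) = c.getVert j →
      j = i + 1 ∨ (j = 0 ∧ i + 1 = c.length) := by
    intro i hi j hj e
    by_cases h1 : i + 1 < c.length
    · exact Or.inl (i1 _ h1 _ hj e).symm
    · have h2 : i + 1 = c.length := by omega
      rw [h2, Walk.getVert_length] at e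
      refine Or.inr ⟨(i1 0 (by omega) j hj ?_).symm, h2⟩
      rw [Walk.getVert_zero]; exact e
  set S1 := (range c.length).filter fun i => c.getVert i ∈ A
  set S2 := (range c.length).filter fun i => c.getVert (i + 1) ∈ A
  set S3 := (range c.length).filter fun i => (c.getVert i = s ∧ c.getVert (i + 1) = s') ∨
    (c.getVert i = s' ∧ c.getVert (i + 1) = s)
  have c1 : S1.card ≤ k := by
    rw [← hA]
    refine card_le_card_of_injOn (fun i => c.getVert i) (fun i hi => (mem_filter.1 hi).2) ?_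
    intro i hi j hj e
    exact i1 i (mem_range.1 (mem_filter.1 hi).1) j (mem_range.1 (mem_filter.1 hj).1) e
  have c2 : S2.card ≤ k := by
    rw [← hA]
    refine card_le_card_of_injOn (fun i => c.getVert (i + 1)) (fun i hi => (mem_filter.1 hi).2) ?_
    intro i hi j hj e
    exact i2 i (mem_range.1 (mem_filter.1 hi).1) j (mem_range.1 (mem_filter.1 hj).1) e
  have c3 : S3.card ≤ 1 := by
    rw [card_le_one]
    intro i hi j hj
    obtain ⟨hi, hi'⟩ := mem_filter.1 hi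
    obtain ⟨hj, hj'⟩ := mem_filter.1 hj
    rw [mem_range] at hi hj
    rcases hi' with hi' | hi' <;> rcases hj' with hj' | hj'
    · exact i1 i hi j hj (hi'.1.trans hj'.1.symm)
    · have := i3 i hi j hj (hi'.2.trans hj'.1.symm)
      have := i3 j hj i hi (hj'.2.trans hi'.1.symm)
      omega
    · have := i3 i hi j hj (hi'.2.trans hj'.1.symm)
      have := i3 j hj i hi (hj'.2.trans hi'.1.symm)
      omega
    · exact i1 i hi j hj (hi'.1.trans hj'.1.symm)
  have c4 : range c.length ⊆ S1 ∪ S2 ∪ S3 := by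
    intro i hi
    have := ((h _ _).1 (c.adj_getVert_succ (mem_range.1 hi))).2
    simp only [S1, S2, S3, mem_union, mem_filter, hi, true_and]
    tauto
  have c5 := card_le_card c4
  have c6 := card_union_le (S1 ∪ S2) S3
  have c7 := card_union_le S1 S2
  rw [card_range] at c5
  intro e
  have := (Nat.modEq_iff_dvd' (by omega : 2 ≤ c.length)).1 e.symm
  have := Nat.le_of_dvd (by omega) this
  omega

lemma Str.conn (h : Str G k) (hk : 2 ≤ k) :
    G.Connected ∧ ∀ v, (G.induce ({v}ᶜ : Set V)).Connected := by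
  obtain ⟨A, s, s', hA, hs, hs', hne, h⟩ := h
  have key : ∀ (S : Set V), ∀ a ∈ A, a ∈ S → (G.induce S).Connected := by
    intro S a ha haS
    have r : ∀ u : S, (G.induce S).Reachable ⟨a, haS⟩ u := by
      intro u
      by_cases e : a = u
      · have : (⟨a, haS⟩ : S) = u := Subtype.ext e
        rw [this]
      · exact Adj.reachable (show G.Adj a u from (h _ _).2 ⟨e, Or.inl ha⟩)
    have : Nonempty S := ⟨⟨a, haS⟩⟩
    exact ⟨fun u w => (r u).symm.trans (r w)⟩
  constructor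
  · obtain ⟨a, ha⟩ := card_pos.1 (by omega : 0 < A.card)
    have r : ∀ u, G.Reachable a u := by
      intro u
      by_cases e : a = u
      · rw [e]
      · exact Adj.reachable ((h _ _).2 ⟨e, Or.inl ha⟩)
    have : Nonempty V := ⟨a⟩
    exact ⟨fun u w => (r u).symm.trans (r w)⟩
  · intro v
    obtain ⟨a, ha, hav⟩ := exists_mem_ne (by omega : 1 < A.card) v
    exact key _ a ha hav

theorem fin_main (k : ℕ) (hk : 3 ≤ k) : ∃ N : ℕ, ∀ (V : Type) [Fintype V] (G : SimpleGraph V),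
    N ≤ Fintype.card V → (∀ v, (G.induce ({v}ᶜ : Set V)).Connected) →
    (∀ (v : V) (c : G.Walk v v), c.IsCycle → ¬ c.length ≡ 2 [MOD 2 * k]) →
    k.choose 2 + k * (Fintype.card V - k) + 1 ≤ G.edgeSet.ncard → Str G k := by
  obtain ⟨N, hN⟩ := exists_KM k (4 * k) (k * (k + 1)) hk
  refine ⟨N + k, fun V _ G hV h2 hc hE => ?_⟩
  classical
  have hG := fin_NB hc
  have h2' : TwoConn G := fin_twoConn (by omega) h2
  have hE' : 2 * k * Fintype.card V + 2 ≤ EE G univ univ + k * (k + 1) := by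
    obtain ⟨r, hr⟩ := Nat.exists_eq_add_of_le (by omega : k ≤ Fintype.card V)
    rw [fin_EE, hr]
    rw [hr, Nat.add_sub_cancel_left] at hE
    have h3 : 2 * k.choose 2 + k = k * k := by
      rw [Nat.choose_two_right, Nat.mul_div_cancel' (Nat.even_mul_pred_self k).two_dvd]
      cases k with
      | zero => rfl
      | succ k => simp only [Nat.add_sub_cancel]; ring
    nlinarith
  exact exact_step hk h2' hG (hN V G hG (n3d hk h2' hG) (by omega) (by omega)) hE'

end Pool.Agent.Work.MP_66aaa3_co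
end
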