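import Mathlib

/-! Finite facts modulo six for the rigid lemma. -/

set_option synthInstance.maxSize 4096

namespace Pool.Agent.Work.MP_66aaa3_co.R3

/-- odd, or two modulo six -/
def ok (n : ℕ) : Prop := n % 2 = 1 ∨ n % 6 = 2

instance (n : ℕ) : Decidable (ok n) := by unfold ok; infer_instance

/-- four numbers -/
structure R4 where
  a : ℕ
  b : ℕ
  c : ℕ
  d : ℕ

def pr (N x y : ℕ) : Prop := x ≠ y ∧ ok (N + 8 + x - y)

instance (N x y : ℕ) : Decidable (pr N x y) := by unfold pr; infer_instance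

def pat (N : ℕ) (r : R4) : Prop :=
  pr N r.a r.b ∧ pr N r.a r.c ∧ pr N r.b r.c ∧ pr N r.a r.d ∧ pr N r.b r.d ∧ pr N r.c r.d

instance (N : ℕ) (r : R4) : Decidable (pat N r) := by unfold pat; infer_instance

def cons (r : R4) (s a : ℕ) : Prop :=
  (s = 1 → a = r.a) ∧ (s = 3 → a = r.b) ∧ (s = 5 → a = r.c) ∧ (s = 7 → a = r.d)

instance (r : R4) (s a : ℕ) : Decidable (cons r s a) := by unfold cons; infer_instance

def ord (s s' : ℕ) : Prop := s < s' ∨ (s = s' ∧ s % 2 = 0)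

instance (s s' : ℕ) : Decidable (ord s s') := by unfold ord; infer_instance

def ds (s a t x : ℕ) : ℕ := if s ≤ 2 * t + 1 then x + 6 - a else a + 6 - x

def fe2 (t u x y si a sj b w : ℕ) : Prop :=
  (si ≤ 2 * t → sj ≤ 2 * u → ok (w + ds sj b t x + a + 10 - y)) ∧
  (2 * t + 2 ≤ si → 2 * u + 2 ≤ sj → ok (w + ds si a u y + x + 10 - b)) ∧
  (si ≤ 2 * u → 2 * t + 2 ≤ sj → (w + ds si a t x + ds sj b u y) % 6 ≠ 0)

instance (t u x y si a sj b w : ℕ) : Decidable (fe2 t u x y si a sj b w) := by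
  unfold fe2; infer_instance

/-- constraints on an ear -/
def feas (r : R4) (si a sj b w : ℕ) : Prop :=
  ok (w + a + 8 - b) ∧ (w + b + 6 - a) % 6 ≠ 2 ∧ fe2 0 1 r.a r.b si a sj b w ∧
    fe2 0 2 r.a r.c si a sj b w ∧ fe2 0 3 r.a r.d si a sj b w ∧ fe2 1 2 r.b r.c si a sj b w ∧
    fe2 1 3 r.b r.d si a sj b w ∧ fe2 2 3 r.c r.d si a sj b w

instance (r : R4) (si a sj b w : ℕ) : Decidable (feas r si a sj b w) := by
  unfold feas; infer_instance

def ha2 (t u x y s a w : ℕ) : Prop :=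
  (2 * t + 2 ≤ s → (u < 3 ∨ 7 ≤ s) → ok (x + 2 + ds s a u y + w)) ∧
  (s ≤ 2 * u → (0 < t ∨ s ≤ 1) → ok (w + ds s a t x + 10 - y))

instance (t u x y s a w : ℕ) : Decidable (ha2 t u x y s a w) := by unfold ha2; infer_instance

/-- constraints on a path from an inner position to the extra terminal -/
def hang (r : R4) (s a w : ℕ) : Prop :=
  ok (a + w) ∧ ok (w + 8 - a) ∧ ha2 0 1 r.a r.b s a w ∧ ha2 0 2 r.a r.c s a w ∧
    ha2 0 3 r.a r.d s a w ∧ ha2 1 2 r.b r.c s a w ∧ ha2 1 3 r.b r.d s a w ∧ ha2 2 3 r.c r.d s a w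

instance (r : R4) (s a w : ℕ) : Decidable (hang r s a w) := by unfold hang; infer_instance

/-- constraints on a chord -/
def ch (r : R4) (s a s' a' : ℕ) : Prop :=
  cons r s' a' ∧ ((ord s s' ∧ feas r s a s' a' 1) ∨ (ord s' s ∧ feas r s' a' s a 1))

instance (r : R4) (s a s' a' : ℕ) : Decidable (ch r s a s' a') := by unfold ch; infer_instance

def ex (r : R4) (s a : ℕ) : Prop := hang r s a 1 ∨ ∃ s' < 9, ∃ a' < 6, ch r s a s' a'

instance (r : R4) (s a : ℕ) : Decidable (ex r s a) := by unfold ex; infer_instance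

def two (r : R4) (s a : ℕ) : Prop := ∃ s' < 9, ∃ a' < 6, ch r s a s' a' ∧
  (hang r s a 1 ∨ s' = s ∨ ∃ s'' < 9, ∃ a'' < 6, ch r s a s'' a'' ∧ (s' ≠ s'' ∨ a' ≠ a''))

instance (r : R4) (s a : ℕ) : Decidable (two r s a) := by unfold two; infer_instance

def ty1 (r : R4) : Prop := r.b = (r.a + 1) % 6 ∧ r.c = (r.a + 2) % 6 ∧ r.d = (r.a + 3) % 6

instance (r : R4) : Decidable (ty1 r) := by unfold ty1; infer_instance

def ty2 (r : R4) : Prop := r.b = (r.a + 2) % 6 ∧ r.d = (r.c + 2) % 6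

instance (r : R4) : Decidable (ty2 r) := by unfold ty2; infer_instance

/-- a property of all patterns -/
def All (P : R4 → Prop) : Prop :=
  ∀ a < 6, ∀ b < 6, ∀ c < 6, ∀ d < 6, pat 2 ⟨a, b, c, d⟩ → P ⟨a, b, c, d⟩

instance (P : R4 → Prop) [DecidablePred P] : Decidable (All P) := by unfold All; infer_instance

noncomputable section

/-- implication of truth values -/
def bi (a b : Bool) : Bool := @Bool.rec (fun _ => Bool) true b a

/-- conjunction of truth values -/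
def an (a b : Bool) : Bool := @Bool.rec (fun _ => Bool) false b a

/-- disjunction of truth values -/
def bo (a b : Bool) : Bool := @Bool.rec (fun _ => Bool) b true a

/-- test for inequality -/
def nq (a b : ℕ) : Bool := @Bool.rec (fun _ => Bool) true false (Nat.beq a b)

lemma bi_iff {a b : Bool} : bi a b = true ↔ (a = true → b = true) := by
  cases a <;> cases b <;> simp [bi]

lemma an_iff {a b : Bool} : an a b = true ↔ a = true ∧ b = true := by
  cases a <;> cases b <;> simp [an]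

lemma bo_iff {a b : Bool} : bo a b = true ↔ a = true ∨ b = true := by
  cases a <;> cases b <;> simp [bo]

lemma nq_iff {a b : ℕ} : nq a b = true ↔ a ≠ b := by
  rw [Ne, ← Nat.beq_eq, nq]
  cases Nat.beq a b <;> simp

/-- bounded universal quantifier -/
def ball (n : ℕ) (f : ℕ → Bool) : Bool :=
  Nat.rec true (fun i ih => @Bool.rec (fun _ => Bool) false ih (f i)) n

lemma ball_iff {n : ℕ} {f : ℕ → Bool} : ball n f = true ↔ ∀ i < n, f i = true := by
  induction n with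
  | zero => simp [ball]
  | succ n ih => rw [Nat.forall_lt_succ_right, ← ih, and_comm]; exact an_iff

/-- bounded existential quantifier -/
def bex (n : ℕ) (f : ℕ → Bool) : Bool :=
  Nat.rec false (fun i ih => @Bool.rec (fun _ => Bool) ih true (f i)) n

lemma bex_iff {n : ℕ} {f : ℕ → Bool} : bex n f = true ↔ ∃ i < n, f i = true := by
  induction n with
  | zero => simp [bex]
  | succ n ih => rw [Nat.exists_lt_succ_right, ← ih, or_comm]; exact bo_iff

/-- test for `ok` -/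
def okB (n : ℕ) : Bool := bo (Nat.beq (Nat.mod n (nat_lit 2)) (nat_lit 1)) (Nat.beq (Nat.mod n (nat_lit 6)) (nat_lit 2))

lemma okB_iff {n : ℕ} : okB n = true ↔ ok n := by
  simp only [okB, bo_iff, Nat.beq_eq]; rfl

/-- fast version of `ds` -/
def dsB (s a t x : ℕ) : ℕ :=
  @Bool.rec (fun _ => ℕ) (Nat.sub (Nat.add a (nat_lit 6)) x) (Nat.sub (Nat.add x (nat_lit 6)) a) (Nat.ble s (Nat.succ t))

lemma dsB_eq (s a t x : ℕ) : dsB s a (2 * t) x = ds s a t x := by
  unfold dsB ds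
  split_ifs with h
  · rw [Nat.ble_eq_true_of_le (m := (2 * t).succ) h]; rfl
  · rw [Bool.eq_false_iff.2 fun e => h (Nat.le_of_ble_eq_true (m := (2 * t).succ) e)]; rfl

/-- test for `fe2` -/
def fe2B (t u x y si a sj b w : ℕ) : Bool :=
  an (bi (Nat.ble si t) (bi (Nat.ble sj u)
    (okB (Nat.sub (Nat.add (Nat.add (Nat.add w (dsB sj b t x)) a) (nat_lit 10)) y))))
  (an (bi (Nat.ble (Nat.add t (nat_lit 2)) si) (bi (Nat.ble (Nat.add u (nat_lit 2)) sj)
    (okB (Nat.sub (Nat.add (Nat.add (Nat.add w (dsB si a u y)) x) (nat_lit 10)) b))))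
  (bi (Nat.ble si u) (bi (Nat.ble (Nat.add t (nat_lit 2)) sj)
    (nq (Nat.mod (Nat.add (Nat.add w (dsB si a t x)) (dsB sj b u y)) (nat_lit 6)) (nat_lit 0)))))

lemma fe2B_iff {t u x y si a sj b w : ℕ} : fe2B (2 * t) (2 * u) x y si a sj b w = true ↔
    fe2 t u x y si a sj b w := by
  simp only [fe2B, an_iff, bi_iff, nq_iff, okB_iff, dsB_eq, Nat.ble_eq]; rfl

/-- test for `feas` -/
def feasB (r : R4) (si a sj b w : ℕ) : Bool :=
  an (okB (Nat.sub (Nat.add (Nat.add w a) (nat_lit 8)) b))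
    (an (nq (Nat.mod (Nat.sub (Nat.add (Nat.add w b) (nat_lit 6)) a) (nat_lit 6)) (nat_lit 2))
    (an (fe2B (nat_lit 0) (nat_lit 2) r.a r.b si a sj b w) (an (fe2B (nat_lit 0) (nat_lit 4) r.a r.c si a sj b w)
    (an (fe2B (nat_lit 0) (nat_lit 6) r.a r.d si a sj b w) (an (fe2B (nat_lit 2) (nat_lit 4) r.b r.c si a sj b w)
    (an (fe2B (nat_lit 2) (nat_lit 6) r.b r.d si a sj b w) (fe2B (nat_lit 4) (nat_lit 6) r.c r.d si a sj b w)))))))

lemma feasB_iff {r : R4} {si a sj b w : ℕ} : feasB r si a sj b w = true ↔ feas r si a sj b w := by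
  simp only [feasB, feas, an_iff, nq_iff, okB_iff, ← fe2B_iff]; rfl

/-- test for `ha2` -/
def ha2B (t u x y s a w : ℕ) : Bool :=
  an (bi (Nat.ble (Nat.add t (nat_lit 2)) s) (bi (bo (Nat.ble u (nat_lit 5)) (Nat.ble (nat_lit 7) s))
    (okB (Nat.add (Nat.add (Nat.add x (nat_lit 2)) (dsB s a u y)) w))))
  (bi (Nat.ble s u) (bi (bo (Nat.ble (nat_lit 1) t) (Nat.ble s (nat_lit 1)))
    (okB (Nat.sub (Nat.add (Nat.add w (dsB s a t x)) (nat_lit 10)) y))))

lemma ha2B_iff {t u x y s a w : ℕ} : ha2B (2 * t) (2 * u) x y s a w = true ↔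
    ha2 t u x y s a w := by
  have e1 : 2 * u ≤ (nat_lit 5) ↔ u < 3 := by change 2 * u ≤ 5 ↔ _; omega
  have e2 : (nat_lit 1) ≤ 2 * t ↔ 0 < t := by change 1 ≤ 2 * t ↔ _; omega
  simp only [ha2B, an_iff, bi_iff, bo_iff, okB_iff, dsB_eq, Nat.ble_eq, e1, e2]; rfl

/-- test for `hang` -/
def hangB (r : R4) (s a w : ℕ) : Bool :=
  an (okB (Nat.add a w)) (an (okB (Nat.sub (Nat.add w (nat_lit 8)) a)) (an (ha2B (nat_lit 0) (nat_lit 2) r.a r.b s a w)
    (an (ha2B (nat_lit 0) (nat_lit 4) r.a r.c s a w) (an (ha2B (nat_lit 0) (nat_lit 6) r.a r.d s a w) (an (ha2B (nat_lit 2) (nat_lit 4) r.b r.c s a w)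
    (an (ha2B (nat_lit 2) (nat_lit 6) r.b r.d s a w) (ha2B (nat_lit 4) (nat_lit 6) r.c r.d s a w)))))))

lemma hangB_iff {r : R4} {s a w : ℕ} : hangB r s a w = true ↔ hang r s a w := by
  simp only [hangB, hang, an_iff, okB_iff, ← ha2B_iff]; rfl

/-- test for `pr` -/
def prB (N x y : ℕ) : Bool := an (nq x y) (okB (Nat.sub (Nat.add (Nat.add N (nat_lit 8)) x) y))

lemma prB_iff {N x y : ℕ} : prB N x y = true ↔ pr N x y := by
  simp only [prB, an_iff, nq_iff, okB_iff]; rfl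

/-- test for `pat` -/
def patB (N : ℕ) (r : R4) : Bool :=
  an (prB N r.a r.b) (an (prB N r.a r.c) (an (prB N r.b r.c) (an (prB N r.a r.d)
    (an (prB N r.b r.d) (prB N r.c r.d)))))

lemma patB_iff {N : ℕ} {r : R4} : patB N r = true ↔ pat N r := by
  simp only [patB, pat, an_iff, prB_iff]

/-- test for `cons` -/
def consB (r : R4) (s a : ℕ) : Bool :=
  an (bi (Nat.beq s (nat_lit 1)) (Nat.beq a r.a)) (an (bi (Nat.beq s (nat_lit 3)) (Nat.beq a r.b))
    (an (bi (Nat.beq s (nat_lit 5)) (Nat.beq a r.c)) (bi (Nat.beq s (nat_lit 7)) (Nat.beq a r.d))))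

lemma consB_iff {r : R4} {s a : ℕ} : consB r s a = true ↔ cons r s a := by
  simp only [consB, an_iff, bi_iff, Nat.beq_eq]; rfl

/-- test for `ord` -/
def ordB (s s' : ℕ) : Bool :=
  bo (Nat.ble (Nat.succ s) s') (an (Nat.beq s s') (Nat.beq (Nat.mod s (nat_lit 2)) (nat_lit 0)))

lemma ordB_iff {s s' : ℕ} : ordB s s' = true ↔ ord s s' := by
  simp only [ordB, an_iff, bo_iff, Nat.beq_eq, Nat.ble_eq]; rfl

/-- test for `ch` -/
def chB (r : R4) (s a s' a' : ℕ) : Bool :=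
  an (consB r s' a') (bo (an (ordB s s') (feasB r s a s' a' (nat_lit 1)))
    (an (ordB s' s) (feasB r s' a' s a (nat_lit 1))))

lemma chB_iff {r : R4} {s a s' a' : ℕ} : chB r s a s' a' = true ↔ ch r s a s' a' := by
  simp only [chB, an_iff, bo_iff, consB_iff, ordB_iff, feasB_iff]; rfl

/-- test for `ex` -/
def exB (r : R4) (s a : ℕ) : Bool :=
  bo (hangB r s a (nat_lit 1)) (bex (nat_lit 9) fun s' => bex (nat_lit 6) fun a' => chB r s a s' a')

lemma exB_iff {r : R4} {s a : ℕ} : exB r s a = true ↔ ex r s a := by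
  simp only [exB, bo_iff, bex_iff, chB_iff, hangB_iff]; rfl

/-- test for `two` -/
def twoB (r : R4) (s a : ℕ) : Bool := bex (nat_lit 9) fun s' => bex (nat_lit 6) fun a' =>
  an (chB r s a s' a') (bo (hangB r s a (nat_lit 1)) (bo (Nat.beq s' s) (bex (nat_lit 9) fun s'' => bex (nat_lit 6) fun a'' =>
    an (chB r s a s'' a'') (bo (nq s' s'') (nq a' a'')))))

lemma twoB_iff {r : R4} {s a : ℕ} : twoB r s a = true ↔ two r s a := by
  simp only [twoB, an_iff, bo_iff, nq_iff, bex_iff, chB_iff, hangB_iff, Nat.beq_eq]; rfl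

/-- test for `All` -/
def AllB (P : R4 → Bool) : Bool := ball (nat_lit 6) fun a => ball (nat_lit 6) fun b => bi (prB (nat_lit 2) a b)
  (ball (nat_lit 6) fun c => bi (prB (nat_lit 2) a c) (ball (nat_lit 6) fun d => bi (patB (nat_lit 2) ⟨a, b, c, d⟩) (P ⟨a, b, c, d⟩)))

lemma AllB_iff {P : R4 → Bool} : AllB P = true ↔ All fun r => P r = true := by
  simp only [AllB, All, ball_iff, bi_iff, patB_iff, prB_iff]
  exact ⟨fun h a ha b hb c hc d hd p => h a ha b hb p.1 c hc p.2.1 d hd p,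
    fun h a ha b hb _ c hc _ d hd p => h a ha b hb c hc d hd p⟩

/-- fast decision -/
@[reducible] def dPat (N : ℕ) (r : R4) : Decidable (pat N r) := decidable_of_iff _ patB_iff

/-- fast decision -/
@[reducible] def dPr (N x y : ℕ) : Decidable (pr N x y) := decidable_of_iff _ prB_iff

/-- fast decision -/
@[reducible] def dCons (r : R4) (s a : ℕ) : Decidable (cons r s a) := decidable_of_iff _ consB_iff

/-- fast decision -/
@[reducible] def dOrd (s a : ℕ) : Decidable (ord s a) := decidable_of_iff _ ordB_iff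

/-- fast decision -/
@[reducible] def dFeas (r : R4) (s a s' a' w : ℕ) : Decidable (feas r s a s' a' w) :=
  decidable_of_iff _ feasB_iff

/-- fast decision -/
@[reducible] def dHang (r : R4) (s a w : ℕ) : Decidable (hang r s a w) :=
  decidable_of_iff _ hangB_iff

/-- fast decision -/
@[reducible] def dCh (r : R4) (s a s' a' : ℕ) : Decidable (ch r s a s' a') :=
  decidable_of_iff _ chB_iff

/-- fast decision -/
@[reducible] def dEx (r : R4) (s a : ℕ) : Decidable (ex r s a) := decidable_of_iff _ exB_iff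

/-- fast decision -/
@[reducible] def dTwo (r : R4) (s a : ℕ) : Decidable (two r s a) := decidable_of_iff _ twoB_iff

/-- fast decision -/
@[reducible] def dBall (n : ℕ) (P : ℕ → Prop) [DecidablePred P] : Decidable (∀ i < n, P i) :=
  decidable_of_iff (ball n (fun i => decide (P i)) = true)
    (by simp only [ball_iff, decide_eq_true_eq])

/-- fast decision -/
@[reducible] def dAll (P : R4 → Prop) [DecidablePred P] : Decidable (All P) :=
  decidable_of_iff (AllB (fun r => decide (P r)) = true)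
    (by simp only [AllB_iff, decide_eq_true_eq])

end

attribute [local instance] dPat dPr dCons dOrd dFeas dHang dCh dEx dTwo dBall dAll

lemma P0 : ∀ N < 6, ok N → ∀ a < 6, ∀ b < 6, ∀ c < 6, ∀ d < 6, pat N ⟨a, b, c, d⟩ → N = 2 := by
  decide +kernel

lemma P5 : All fun r => ∀ e < 6, pr 2 r.a e → pr 2 r.b e → pr 2 r.c e → ¬ pr 2 r.d e := by
  decide +kernel

lemma Podd : All fun r => ((r.a + r.b) % 2 = 1 ∧ (r.a + r.c) % 2 = 1) ∨
    ((r.a + r.b) % 2 = 1 ∧ (r.a + r.d) % 2 = 1) ∨ ((r.a + r.c) % 2 = 1 ∧ (r.a + r.d) % 2 = 1) := by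
  decide +kernel

lemma F4 : All fun r => ∀ s < 9, ∀ a < 6, cons r s a → ∀ w < 6, hang r s a w →
    ∀ w' < 6, hang r s a w' → w = w' := by
  decide +kernel

lemma F5 : All fun r => ∀ s < 9, ∀ a < 6, cons r s a → hang r s a 2 →
    ∀ s' < 9, ord s s' → ∀ a' < 6, cons r s' a' → hang r s' a' 2 → ¬ feas r s a s' a' 2 := by
  decide +kernel

lemma GA : All fun r => ex r 3 r.b → ex r 5 r.c → ty1 r ∨ ty2 r := by
  decide +kernel

lemma GB : All fun r => ty1 r ∨ ty2 r → ∀ s < 9, s = 2 ∨ s = 4 ∨ s = 6 → ∀ a < 6, two r s a →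
    ty2 r ∧ ((s = 2 ∧ a = (r.a + 1) % 6) ∨ (s = 6 ∧ a = (r.c + 1) % 6)) := by
  decide +kernel

lemma GD : All fun r => ty1 r → ¬ hang r 3 r.b 1 ∧ ¬ hang r 5 r.c 1 ∧ ∀ s < 9, ∀ a < 6,
    (ch r 3 r.b s a → s = 7 ∨ (s = 0 ∧ a = (r.a + 5) % 6)) ∧
    (ch r 5 r.c s a → s = 1 ∨ (s = 8 ∧ a = (r.a + 4) % 6)) := by
  decide +kernel

lemma GE : All fun r => ty2 r → r.c = (r.a + 3) % 6 → ¬ hang r 2 ((r.a + 1) % 6) 1 ∧
    ¬ hang r 6 ((r.a + 4) % 6) 1 ∧ ∀ s < 9, ∀ a < 6,
    (ch r 2 ((r.a + 1) % 6) s a → s = 5 ∨ s = 7) ∧ (ch r 6 ((r.a + 4) % 6) s a → s = 1 ∨ s = 3) ∧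
    (ch r 3 r.b s a → s = 6) ∧ (ch r 5 r.c s a → s = 2) := by
  decide +kernel

end Pool.Agent.Work.MP_66aaa3_co.R3
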