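import Pool.Agent.Work.MP_66aaa3_co.R3A

/-! The larger finite facts modulo six. -/

set_option synthInstance.maxSize 4096

namespace Pool.Agent.Work.MP_66aaa3_co.R3

/-- a property of all normalised patterns -/
def All0 (P : R4 → Prop) : Prop :=
  ∀ b < 6, ∀ c < 6, ∀ d < 6, pat 2 ⟨0, b, c, d⟩ → P ⟨0, b, c, d⟩

instance (P : R4 → Prop) [DecidablePred P] : Decidable (All0 P) := by unfold All0; infer_instance

def f1 (r : R4) (s a s' a' : ℕ) : Prop :=
  ∀ w < 6, feas r s a s' a' w → ∀ w' < w, feas r s a s' a' w' →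
      s ≤ 1 ∧ 7 ≤ s' ∧ ((w + a) % 6 = a' ∨ (w' + a) % 6 = a')

instance (r : R4) (s a s' a' : ℕ) : Decidable (f1 r s a s' a') := by unfold f1; infer_instance

def f3 (r : R4) (s a s' a' : ℕ) : Prop :=
  feas r s a s' a' 2 → ((s' ≤ 1 ∨ 7 ≤ s) → (2 + a) % 6 = a') ∧ ∀ s'' < 9, ord s' s'' → ∀ a'' < 6,
      cons r s'' a'' → feas r s a s'' a'' 2 → ¬ feas r s' a' s'' a'' 2

instance (r : R4) (s a s' a' : ℕ) : Decidable (f3 r s a s' a') := by unfold f3; infer_instance

noncomputable section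

/-- test for `f1` -/
def f1B (r : R4) (s a s' a' : ℕ) : Bool :=
  ball (nat_lit 6) fun w => bi (feasB r s a s' a' w) (ball w fun w' => bi (feasB r s a s' a' w')
    (an (Nat.ble s (nat_lit 1)) (an (Nat.ble (nat_lit 7) s')
      (bo (Nat.beq (Nat.mod (Nat.add w a) (nat_lit 6)) a')
        (Nat.beq (Nat.mod (Nat.add w' a) (nat_lit 6)) a')))))

lemma f1B_iff {r : R4} {s a s' a' : ℕ} : f1B r s a s' a' = true ↔ f1 r s a s' a' := by
  simp only [f1B, ball_iff, bi_iff, an_iff, bo_iff, feasB_iff, Nat.ble_eq, Nat.beq_eq]; rfl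

/-- test for `f3` -/
def f3B (r : R4) (s a s' a' : ℕ) : Bool :=
  bi (feasB r s a s' a' (nat_lit 2)) (an (bi (bo (Nat.ble s' (nat_lit 1)) (Nat.ble (nat_lit 7) s))
    (Nat.beq (Nat.mod (Nat.add (nat_lit 2) a) (nat_lit 6)) a'))
    (ball (nat_lit 9) fun s'' => bi (ordB s' s'') (ball (nat_lit 6) fun a'' => bi (consB r s'' a'')
      (bi (feasB r s a s'' a'' (nat_lit 2)) (bi (feasB r s' a' s'' a'' (nat_lit 2)) false)))))

lemma f3B_iff {r : R4} {s a s' a' : ℕ} : f3B r s a s' a' = true ↔ f3 r s a s' a' := by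
  simp only [f3B, ball_iff, bi_iff, an_iff, bo_iff, feasB_iff, ordB_iff, consB_iff, Nat.ble_eq,
    Nat.beq_eq, Bool.false_eq_true]; rfl

/-- test over all normalised patterns and all pairs of consistent positions -/
def allB (f : R4 → ℕ → ℕ → ℕ → ℕ → Bool) : Bool :=
  ball (nat_lit 6) fun b => ball (nat_lit 6) fun c => ball (nat_lit 6) fun d =>
    bi (patB (nat_lit 2) ⟨nat_lit 0, b, c, d⟩) (ball (nat_lit 9) fun s => ball (nat_lit 9) fun s' =>
      bi (ordB s s') (ball (nat_lit 6) fun a => bi (consB ⟨nat_lit 0, b, c, d⟩ s a)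
        (ball (nat_lit 6) fun a' => bi (consB ⟨nat_lit 0, b, c, d⟩ s' a')
          (f ⟨nat_lit 0, b, c, d⟩ s a s' a'))))

lemma allB_iff {f : R4 → ℕ → ℕ → ℕ → ℕ → Bool} : allB f = true ↔
    All0 fun r => ∀ s < 9, ∀ s' < 9, ord s s' → ∀ a < 6, cons r s a →
      ∀ a' < 6, cons r s' a' → f r s a s' a' = true := by
  simp only [allB, ball_iff, bi_iff, patB_iff, ordB_iff, consB_iff]; rfl

end

lemma F1 : All0 fun r => ∀ s < 9, ∀ s' < 9, ord s s' → ∀ a < 6, cons r s a →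
    ∀ a' < 6, cons r s' a' → f1 r s a s' a' := by
  simp only [← f1B_iff]
  exact allB_iff.1 (by decide +kernel)

lemma F3 : All0 fun r => ∀ s < 9, ∀ s' < 9, ord s s' → ∀ a < 6, cons r s a →
    ∀ a' < 6, cons r s' a' → f3 r s a s' a' := by
  simp only [← f3B_iff]
  exact allB_iff.1 (by decide +kernel)

end Pool.Agent.Work.MP_66aaa3_co.R3
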