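import Pool.Agent.Work.MP_66aaa3_co.Three
import Pool.Agent.Work.MP_66aaa3_co.R3B

/-! Paths built from segments, ears and the extra vertex. -/

namespace Pool.Agent.Work.MP_66aaa3_co.R3

open Finset

variable {V : Type} {G : SimpleGraph V}

lemma cast_eq {a b : ℕ} : (a : ZMod (2 * 3)) = (b : ZMod (2 * 3)) ↔ a % 6 = b % 6 :=
  ZMod.natCast_eq_natCast_iff' a b (2 * 3)

lemma cast_two {a : ℕ} : (a : ZMod (2 * 3)) = 2 ↔ a % 6 = 2 := by
  rw [← cast_eq (b := 2)]; rfl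

lemma cast_zero {a : ℕ} : (a : ZMod (2 * 3)) = 0 ↔ a % 6 = 0 := by
  rw [← cast_eq (b := 0)]; rfl

lemma ok_iff {n : ℕ} : OK2 3 n ↔ ok n := by rw [OK2, ok, cast_two]

/-- a path using the positions `I` and outside vertices in `E` -/
def Pa (G : SimpleGraph V) (p : ℕ → V) (T : ℕ) (I : Set ℕ) (E : Set V) (a b : V) (n : ℕ) : Prop :=
  PathIn G (p '' I ∪ E) a b n ∧ (∀ i ∈ I, i ≤ T) ∧ ∀ e ∈ E, ∀ i ≤ T, p i ≠ e

variable {p : ℕ → V} {T : ℕ} {I I' : Set ℕ} {E E' : Set V} {a b v : V} {i j n n' s s' : ℕ}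

lemma Pa.seg (hp : IsP G p T) (hi : i ≤ T) (hj : j ≤ T) :
    Pa G p T (Set.uIcc i j) ∅ (p i) (p j) (Nat.dist i j) :=
  ⟨(hp.useg hi hj).mono Set.subset_union_left, fun _ h => h.2.trans (max_le hi hj), by simp⟩

lemma Pa.symm (h : Pa G p T I E a b n) : Pa G p T I E b a n := ⟨h.1.symm, h.2⟩

lemma Pa.inter (hp : IsP G p T) {a' b' : V} (h : Pa G p T I E a b n) (h' : Pa G p T I' E' a' b' n')
    (hE : Disjoint E E') {w : V} (h1 : w ∈ p '' I ∪ E) (h2 : w ∈ p '' I' ∪ E') :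
    ∃ t ∈ I, t ∈ I' ∧ p t = w := by
  rcases h1 with ⟨t, ht, rfl⟩ | h1
  · rcases h2 with ⟨t', ht', e⟩ | h2
    · exact ⟨t, ht, hp.inj (h'.2.1 _ ht') (h.2.1 _ ht) e ▸ ht', rfl⟩
    · exact absurd rfl (h'.2.2 _ h2 t (h.2.1 t ht))
  · rcases h2 with ⟨t', ht', rfl⟩ | h2
    · exact absurd rfl (h.2.2 _ h1 t' (h'.2.1 t' ht'))
    · exact absurd h2 (Set.disjoint_left.1 hE h1)

lemma Pa.trans (hp : IsP G p T) (h : Pa G p T I E a (p j) n) (h' : Pa G p T I' E' (p j) b n')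
    (hI : ∀ t ∈ I, t ∈ I' → t = j) (hE : Disjoint E E') :
    Pa G p T (I ∪ I') (E ∪ E') a b (n + n') := by
  refine ⟨(h.1.trans h'.1 fun w h1 h2 => ?_).mono ?_, ?_, ?_⟩
  · obtain ⟨t, h3, h4, rfl⟩ := h.inter hp h' hE h1 h2
    rw [hI t h3 h4]
  · rw [Set.image_union]; intro w; simp only [Set.mem_union]; tauto
  · rintro t (ht | ht)
    exacts [h.2.1 t ht, h'.2.1 t ht]
  · rintro t (ht | ht)
    exacts [h.2.2 t ht, h'.2.2 t ht]

lemma Pa.via (hp : IsP G p T) (hv : ∀ i ≤ T, p i ≠ v) (hs : s ≤ T) (hs' : s' ≤ T) (hne : s ≠ s')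
    (h : G.Adj v (p s)) (h' : G.Adj v (p s')) : Pa G p T {s, s'} {v} (p s) (p s') 2 := by
  refine ⟨((PathIn.single (S := {p s, v}) h.symm (by simp) (by simp)).snoc h' ?_).mono ?_, ?_, ?_⟩
  · rintro (e | e)
    · exact hp.ne hs' hs hne.symm e
    · exact hv _ hs' e
  · rintro w (rfl | rfl | rfl) <;> simp
  · rintro t (rfl | rfl) <;> assumption
  · rintro e rfl; exact hv

lemma Pa.chord (hi : i ≤ T) (hj : j ≤ T) (h : G.Adj (p i) (p j)) :
    Pa G p T {i, j} ∅ (p i) (p j) 1 :=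
  ⟨PathIn.single h (by simp) (by simp), by rintro t (rfl | rfl) <;> assumption, by simp⟩

lemma Pa.cyc (hG : NB G (2 * 3)) (hp : IsP G p T) (h : Pa G p T I E (p i) (p j) n)
    (h' : Pa G p T I' E' (p j) (p i) n') (hI : ∀ t ∈ I, t ∈ I' → t = i ∨ t = j)
    (hE : Disjoint E E') (hij : p i ≠ p j) (h3 : 3 ≤ n + n') : (n + n') % 6 ≠ 2 := by
  refine mt cast_two.2 (hG.cyc h.1 h'.1 (fun w h1 h2 => ?_) hij h3)
  obtain ⟨t, h3, h4, rfl⟩ := h.inter hp h' hE h1 h2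
  rcases hI t h3 h4 with rfl | rfl <;> simp

lemma ok_mod {a b : ℕ} (h : ok a) (e : a % 6 = b % 6) : ok b := by
  unfold ok at *
  omega

lemma ds_mod (c : ℕ) {sj t j x : ℕ} (h : sj ≤ 2 * t + 1 ↔ j ≤ x) :
    ds sj ((c + j) % 6) t ((c + x) % 6) % 6 = Nat.dist j x % 6 := by
  unfold ds Nat.dist
  simp only [h]
  clear h
  split_ifs <;> omega

lemma ar_one {α β T i n D D' s : ℕ} (c : ℕ) (hN : (α + T + β) % 6 = 2) (hs : s ≤ T)
    (hD : D % 6 = D' % 6) : (α + (Nat.dist 0 i + n + D' + 2 + Nat.dist s T) + β) % 6 =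
      (n % 6 + D + (c + i) % 6 + 10 - (c + s) % 6) % 6 := by
  rw [Nat.dist_zero_left, Nat.dist_eq_sub_of_le hs]
  omega

lemma ar_two {α β T i n D D' s : ℕ} (c : ℕ) (hN : (α + T + β) % 6 = 2) (hs : s ≤ T)
    (hD : D % 6 = D' % 6) : (α + (Nat.dist 0 i + 2 + D' + n + Nat.dist s T) + β) % 6 =
      (n % 6 + D + (c + i) % 6 + 10 - (c + s) % 6) % 6 := by
  rw [Nat.dist_zero_left, Nat.dist_eq_sub_of_le hs]
  omega

lemma ar_three {n D D' F F' : ℕ} (hD : D % 6 = D' % 6) (hF : F % 6 = F' % 6)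
    (h : (n + (F' + 2 + D')) % 6 ≠ 2) : (n % 6 + D + F) % 6 ≠ 0 := by
  omega

lemma ar_four {s n D D' : ℕ} (hD : D % 6 = D' % 6) :
    (Nat.dist 0 s + 2 + D' + n) % 6 = (s % 6 + 2 + D + n % 6) % 6 := by
  rw [Nat.dist_zero_left]
  omega

lemma ar_five {T s n D D' : ℕ} (hN : T % 6 = 2) (hs : s ≤ T) (hD : D % 6 = D' % 6) :
    (Nat.dist T s + 2 + D' + n) % 6 = (n % 6 + D + 10 - s % 6) % 6 := by
  rw [Nat.dist_eq_sub_of_le_right hs]
  omega

variable [DecidableEq V]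

/-- the hypotheses on paths -/
structure Hy (G : SimpleGraph V) (U Z : Finset V) (α β : ℕ) (p : ℕ → V) (T : ℕ) (v : V) :
    Prop where
  nb : NB G (2 * 3)
  hp : IsP G p T
  pU : pv p T ⊆ U ∪ {p 0, p T}
  h1 : ∀ n, PathIn G ↑(U ∪ {p 0, p T}) (p 0) (p T) n → ok (α + n + β)
  h2 : ∀ z ∈ Z, ∀ n, PathIn G ↑(U ∪ {p 0, z}) (p 0) z n ∨ PathIn G ↑(U ∪ {p T, z}) (p T) z n →
    ok n
  ab : Z.Nonempty → α = 0 ∧ β = 0
  vU : v ∈ U
  vP : ∀ i ≤ T, p i ≠ v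
  zP : ∀ z ∈ Z, ∀ i ≤ T, p i ≠ z
  zU : Disjoint U Z

variable {U Z : Finset V} {α β : ℕ} {z : V}

namespace Hy

lemma mem (H : Hy G U Z α β p T v) (hi : i ≤ T) : p i ∈ U ∨ i = 0 ∨ i = T := by
  have := H.pU (mem_pv.2 ⟨i, hi, rfl⟩)
  simp only [mem_union, mem_insert, mem_singleton] at this
  rcases this with e | e | e
  exacts [Or.inl e, Or.inr (Or.inl (H.hp.inj hi (Nat.zero_le _) e)),
    Or.inr (Or.inr (H.hp.inj hi le_rfl e))]

lemma full (H : Hy G U Z α β p T v) (h : Pa G p T I E (p 0) (p T) n) (hE : E ⊆ U) :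
    ok (α + n + β) := by
  refine H.h1 n (h.1.mono ?_)
  rintro w (⟨t, ht, rfl⟩ | hw)
  · exact H.pU (mem_pv.2 ⟨t, h.2.1 t ht, rfl⟩)
  · exact mem_union_left _ (hE hw)

lemma left (H : Hy G U Z α β p T v) (hz : z ∈ Z) (h : Pa G p T I E (p 0) z n) (hI : T ∉ I)
    (hE : E ⊆ insert z ↑U) : ok n := by
  refine H.h2 z hz n (Or.inl (h.1.mono ?_))
  rintro w (⟨t, ht, rfl⟩ | hw)
  · rcases H.mem (h.2.1 t ht) with e | rfl | rfl
    · simp [e]
    · simp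
    · exact absurd ht hI
  · rcases hE hw with rfl | e
    · simp
    · exact mem_union_left _ e

lemma right (H : Hy G U Z α β p T v) (hz : z ∈ Z) (h : Pa G p T I E (p T) z n) (hI : 0 ∉ I)
    (hE : E ⊆ insert z ↑U) : ok n := by
  refine H.h2 z hz n (Or.inr (h.1.mono ?_))
  rintro w (⟨t, ht, rfl⟩ | hw)
  · rcases H.mem (h.2.1 t ht) with e | rfl | rfl
    · simp [e]
    · exact absurd ht hI
    · simp
  · rcases hE hw with rfl | e
    · simp
    · exact mem_union_left _ e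

lemma e1 (H : Hy G U Z α β p T v) (hij : i < j) (hj : j ≤ T)
    (he : Pa G p T {i, j} E (p i) (p j) n) (hE : E ⊆ U) :
    ok (α + (Nat.dist 0 i + n + Nat.dist j T) + β) := by
  refine H.full (((Pa.seg H.hp (by omega) (by omega)).trans H.hp he ?_ ?_).trans H.hp
    (Pa.seg H.hp hj le_rfl) ?_ ?_) ?_
  all_goals first
    | (simp only [Set.mem_union, Set.mem_uIcc, Set.mem_insert_iff, Set.mem_singleton_iff]; omega)
    | simp [hE]

lemma e2 (H : Hy G U Z α β p T v) (hij : i < j) (hj : j ≤ T)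
    (he : Pa G p T {i, j} E (p i) (p j) n) (h3 : 3 ≤ n + Nat.dist j i) :
    (n + Nat.dist j i) % 6 ≠ 2 := by
  refine he.cyc H.nb H.hp (Pa.seg H.hp hj (by omega)) ?_ ?_ (H.hp.ne (by omega) hj hij.ne) h3
  all_goals first
    | (simp only [Set.mem_union, Set.mem_uIcc, Set.mem_insert_iff, Set.mem_singleton_iff]; omega)
    | simp

lemma e3 (H : Hy G U Z α β p T v) (hij : i < j) (he : Pa G p T {i, j} E (p i) (p j) n)
    (hE : E ⊆ U) (hv : v ∉ E) (hs : s < s') (hs' : s' ≤ T) (a1 : G.Adj v (p s))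
    (a2 : G.Adj v (p s')) (h1 : i < s) (h2 : j < s') :
    ok (α + (Nat.dist 0 i + n + Nat.dist j s + 2 + Nat.dist s' T) + β) := by
  refine H.full (((((Pa.seg H.hp (by omega) (by omega)).trans H.hp he ?_ ?_).trans H.hp
    (Pa.seg H.hp (by omega) (by omega)) ?_ ?_).trans H.hp
    (Pa.via H.hp H.vP (by omega) hs' hs.ne a1 a2) ?_ ?_).trans H.hp
    (Pa.seg H.hp hs' le_rfl) ?_ ?_) ?_
  all_goals first
    | (simp only [Set.mem_union, Set.mem_uIcc, Set.mem_insert_iff, Set.mem_singleton_iff]; omega)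
    | simp [hE, hv, H.vU, Set.insert_subset_iff]

lemma e4 (H : Hy G U Z α β p T v) (hij : i < j) (hj : j ≤ T) (he : Pa G p T {i, j} E (p i) (p j) n)
    (hE : E ⊆ U) (hv : v ∉ E) (hs : s < s') (a1 : G.Adj v (p s))
    (a2 : G.Adj v (p s')) (h1 : s < i) (h2 : s' < j) :
    ok (α + (Nat.dist 0 s + 2 + Nat.dist s' i + n + Nat.dist j T) + β) := by
  refine H.full (((((Pa.seg H.hp (by omega) (by omega)).trans H.hp
    (Pa.via H.hp H.vP (by omega) (by omega) hs.ne a1 a2) ?_ ?_).trans H.hp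
    (Pa.seg H.hp (by omega) (by omega)) ?_ ?_).trans H.hp he ?_ ?_).trans H.hp
    (Pa.seg H.hp hj le_rfl) ?_ ?_) ?_
  all_goals first
    | (simp only [Set.mem_union, Set.mem_uIcc, Set.mem_insert_iff, Set.mem_singleton_iff]; omega)
    | simp [hE, hv, H.vU, Set.insert_subset_iff]

lemma e5 (H : Hy G U Z α β p T v) (hij : i < j) (hj : j ≤ T) (he : Pa G p T {i, j} E (p i) (p j) n)
    (hv : v ∉ E) (hs : s < s') (hs' : s' ≤ T) (a1 : G.Adj v (p s))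
    (a2 : G.Adj v (p s')) (h1 : i < s') (h2 : s < j) :
    (n + (Nat.dist j s' + 2 + Nat.dist s i)) % 6 ≠ 2 := by
  have := he.1.pos_of_ne (H.hp.ne (by omega) hj hij.ne)
  refine he.cyc H.nb H.hp (((Pa.seg H.hp hj hs').trans H.hp
    (Pa.via H.hp H.vP hs' (by omega) hs.ne' a2 a1) ?_ ?_).trans H.hp
    (Pa.seg H.hp (by omega) (by omega)) ?_ ?_) ?_ ?_ (H.hp.ne (by omega) hj hij.ne) (by omega)
  all_goals first
    | (simp only [Set.mem_union, Set.mem_uIcc, Set.mem_insert_iff, Set.mem_singleton_iff]; omega)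
    | simp [hv]

lemma g1 (H : Hy G U Z α β p T v) (hz : z ∈ Z) (hi : i < T) (he : Pa G p T {i} E (p i) z n)
    (hE : E ⊆ insert z ↑U) : ok (Nat.dist 0 i + n) := by
  refine H.left hz ((Pa.seg H.hp (by omega) (by omega)).trans H.hp he ?_ ?_) ?_ ?_
  all_goals first
    | (simp only [Set.mem_union, Set.mem_uIcc, Set.mem_insert_iff, Set.mem_singleton_iff]; omega)
    | simp [hE]

lemma g2 (H : Hy G U Z α β p T v) (hz : z ∈ Z) (h0 : 0 < i) (hi : i < T)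
    (he : Pa G p T {i} E (p i) z n) (hE : E ⊆ insert z ↑U) : ok (Nat.dist T i + n) := by
  refine H.right hz ((Pa.seg H.hp (by omega) (by omega)).trans H.hp he ?_ ?_) ?_ ?_
  all_goals first
    | (simp only [Set.mem_union, Set.mem_uIcc, Set.mem_insert_iff, Set.mem_singleton_iff]; omega)
    | simp [hE]

lemma g3 (H : Hy G U Z α β p T v) (hz : z ∈ Z) (hi : i < T) (he : Pa G p T {i} E (p i) z n)
    (hE : E ⊆ insert z ↑U) (hv : v ∉ E) (hs : s < s') (hs' : s' < T) (a1 : G.Adj v (p s))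
    (a2 : G.Adj v (p s')) (h1 : s < i) : ok (Nat.dist 0 s + 2 + Nat.dist s' i + n) := by
  refine H.left hz ((((Pa.seg H.hp (by omega) (by omega)).trans H.hp
    (Pa.via H.hp H.vP (by omega) (by omega) hs.ne a1 a2) ?_ ?_).trans H.hp
    (Pa.seg H.hp (by omega) (by omega)) ?_ ?_).trans H.hp he ?_ ?_) ?_ ?_
  all_goals first
    | (simp only [Set.mem_union, Set.mem_uIcc, Set.mem_insert_iff, Set.mem_singleton_iff]; omega)
    | simp [hE, hv, H.vU, Set.insert_subset_iff]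

lemma g4 (H : Hy G U Z α β p T v) (hz : z ∈ Z) (h0 : 0 < i) (he : Pa G p T {i} E (p i) z n)
    (hE : E ⊆ insert z ↑U) (hv : v ∉ E) (hs0 : 0 < s) (hs : s < s') (hs' : s' ≤ T)
    (a1 : G.Adj v (p s)) (a2 : G.Adj v (p s')) (h1 : i < s') :
    ok (Nat.dist T s' + 2 + Nat.dist s i + n) := by
  refine H.right hz ((((Pa.seg H.hp (by omega) (by omega)).trans H.hp
    (Pa.via H.hp H.vP (by omega) (by omega) hs.ne' a2 a1) ?_ ?_).trans H.hp
    (Pa.seg H.hp (by omega) (by omega)) ?_ ?_).trans H.hp he ?_ ?_) ?_ ?_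
  all_goals first
    | (simp only [Set.mem_union, Set.mem_uIcc, Set.mem_insert_iff, Set.mem_singleton_iff]; omega)
    | simp [hE, hv, H.vU, Set.insert_subset_iff]

/-- the path through the extra vertex -/
lemma thru (H : Hy G U Z α β p T v) (hs : s < s') (hs' : s' ≤ T) (a1 : G.Adj v (p s))
    (a2 : G.Adj v (p s')) : ∃ I, Pa G p T I {v} (p 0) (p T) (s + 2 + (T - s')) := by
  have := (((Pa.seg H.hp (Nat.zero_le _) (by omega)).trans H.hp
    (Pa.via H.hp H.vP (by omega) hs' hs.ne a1 a2) ?_ ?_).trans H.hp (Pa.seg H.hp hs' le_rfl) ?_ ?_)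
  · rw [Nat.dist_zero_left, Nat.dist_eq_sub_of_le hs', Set.empty_union, Set.union_empty] at this
    exact ⟨_, this⟩
  all_goals first
    | (simp only [Set.mem_union, Set.mem_uIcc, Set.mem_insert_iff, Set.mem_singleton_iff]; omega)
    | simp

lemma pr_of (H : Hy G U Z α β p T v) (c : ℕ) (hs : s < s') (hs' : s' ≤ T) (a1 : G.Adj v (p s))
    (a2 : G.Adj v (p s')) : pr ((α + T + β) % 6) ((c + s) % 6) ((c + s') % 6) := by
  obtain ⟨I, h⟩ := H.thru hs hs' a1 a2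
  have h1 := H.full h (by simp [H.vU])
  have h2 := mt (H.nb.F0 H.hp H.vP (by omega) hs' a1 a2) hs.ne
  rw [cast_eq] at h2
  unfold pr ok at *
  omega

lemma fe2_of (H : Hy G U Z α β p T v) (hN : (α + T + β) % 6 = 2) (c : ℕ) (hij : i < j) (hj : j ≤ T)
    (he : Pa G p T {i, j} E (p i) (p j) n) (hE : E ⊆ U) (hv : v ∉ E) (hs : s < s') (hs' : s' ≤ T)
    (a1 : G.Adj v (p s)) (a2 : G.Adj v (p s')) {t u si sj : ℕ}
    (b1 : si ≤ 2 * t ↔ i < s) (b2 : si ≤ 2 * t + 1 ↔ i ≤ s) (b3 : si ≤ 2 * u ↔ i < s')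
    (b4 : si ≤ 2 * u + 1 ↔ i ≤ s') (c2 : sj ≤ 2 * t + 1 ↔ j ≤ s)
    (c3 : sj ≤ 2 * u ↔ j < s') (c4 : sj ≤ 2 * u + 1 ↔ j ≤ s') :
    fe2 t u ((c + s) % 6) ((c + s') % 6) si ((c + i) % 6) sj ((c + j) % 6) (n % 6) := by
  refine ⟨fun h h' => ?_, fun h h' => ?_, fun h h' => ?_⟩
  · exact ok_mod (H.e3 hij he hE hv hs hs' a1 a2 (b1.1 h) (c3.1 h')) (ar_one c hN hs' (ds_mod c c2))
  · have h1 : s < i := not_le.1 fun e => by have := b2.2 e; omega
    have h2 : s' < j := not_le.1 fun e => by have := c4.2 e; omega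
    exact ok_mod (H.e4 hij hj he hE hv hs a1 a2 h1 h2)
      (ar_two c hN hj ((ds_mod c b4).trans (by rw [Nat.dist_comm])))
  · have h2 : s < j := not_le.1 fun e => by have := c2.2 e; omega
    exact ar_three ((ds_mod c b2).trans (by rw [Nat.dist_comm])) (ds_mod c c4)
      (H.e5 hij hj he hv hs hs' a1 a2 (b3.1 h) h2)

lemma ha2_of (H : Hy G U Z α β p T v) (hN : T % 6 = 2) (hz : z ∈ Z) (h0 : 0 < i) (hi : i < T)
    (he : Pa G p T {i} E (p i) z n) (hE : E ⊆ insert z ↑U) (hv : v ∉ E) (hs : s < s')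
    (hs' : s' ≤ T) (a1 : G.Adj v (p s)) (a2 : G.Adj v (p s')) {t u si : ℕ}
    (b2 : si ≤ 2 * t + 1 ↔ i ≤ s) (b3 : si ≤ 2 * u ↔ i < s') (b4 : si ≤ 2 * u + 1 ↔ i ≤ s')
    (d1 : u < 3 ∨ 7 ≤ si → s' < T) (d2 : 0 < t ∨ si ≤ 1 → 0 < s) :
    ha2 t u (s % 6) (s' % 6) si (i % 6) (n % 6) := by
  refine ⟨fun h h' => ?_, fun h h' => ?_⟩
  · have h1 : s < i := not_le.1 fun e => by have := b2.2 e; omega
    have e := ds_mod 0 b4
    rw [Nat.zero_add, Nat.zero_add, Nat.dist_comm] at e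
    exact ok_mod (H.g3 hz hi he hE hv hs (d1 h') a1 a2 h1) (ar_four e)
  · have e := ds_mod 0 b2
    rw [Nat.zero_add, Nat.zero_add, Nat.dist_comm] at e
    exact ok_mod (H.g4 hz h0 he hE hv (d2 h') hs hs' a1 a2 (b3.1 h)) (ar_five hN hs' e)

end Hy

end Pool.Agent.Work.MP_66aaa3_co.R3
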